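import Pool.Agent.Helper32.WI.DArith

/-! WI-A1: truncated subtraction, division with remainder, induction principles. -/

set_option linter.unusedSectionVars false
set_option linter.unusedVariables false

universe u

namespace WI

open Enc

variable {M : Type u} [CommSemiring M] [LinearOrder M] [PAM M]
variable {α β γ : Type u} [Enc M α] [Enc M β] [Enc M γ] {𝒪 : Set (Set M)}

theorem eq_zero_or_succ (x : M) : x = 0 ∨ ∃ y, x = y + 1 := by
  rcases eq_or_lt_of_le (zero_le (a := x)) with h | h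
  · exact Or.inl h.symm
  · obtain ⟨y, rfl⟩ := exists_add_of_le (PAM.one_le_of_pos x h)
    exact Or.inr ⟨y, add_comm _ _⟩

theorem not_lt_zero' (x : M) : ¬ x < 0 := not_lt.2 (zero_le (a := x))

theorem add_sb {a b : M} (h : b ≤ a) : b + sb a b = a := by
  obtain ⟨c, hc⟩ := exists_add_of_le h
  have h1 : ∃ c, b + c = a := ⟨c, hc.symm⟩
  unfold sb
  rw [dif_pos h1]
  exact Classical.choose_spec h1

theorem sb_of_le {a b : M} (h : a ≤ b) : sb a b = 0 := by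
  by_cases h1 : ∃ c, b + c = a
  · have h2 : b ≤ a := by
      obtain ⟨c, rfl⟩ := h1
      exact le_self_add
    have h3 := add_sb h2
    have h4 : a = b := le_antisymm h h2
    subst h4
    exact add_left_cancel (h3.trans (add_zero a).symm)
  · unfold sb
    rw [dif_neg h1]

theorem sb_add (a b : M) : sb (a + b) b = a := by
  have h := add_sb (a := a + b) (b := b) le_add_self
  rw [add_comm a b] at h
  have := add_left_cancel h
  rw [add_comm a b]
  exact this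

theorem Arith_sb_iff (a b c : M) : c = sb a b ↔ (a ≤ b ∧ c = 0) ∨ (b ≤ a ∧ b + c = a) := by
  constructor
  · rintro rfl
    rcases le_total a b with h | h
    · exact Or.inl ⟨h, sb_of_le h⟩
    · exact Or.inr ⟨h, add_sb h⟩
  · rintro (⟨h, rfl⟩ | ⟨h, h1⟩)
    · exact (sb_of_le h).symm
    · exact add_left_cancel (h1.trans (add_sb h).symm)

theorem Cp.sb {f g : α → M} (hf : Cp 𝒪 f) (hg : Cp 𝒪 g) : Cp 𝒪 (fun a => sb (f a) (g a)) := by
  have hf' : Cp 𝒪 (fun p : α × M => f p.1) := Cp.comp hf (Cp.fst Cp.id)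
  have hg' : Cp 𝒪 (fun p : α × M => g p.1) := Cp.comp hg (Cp.fst Cp.id)
  have h2 : Cp 𝒪 (fun p : α × M => p.2) := Cp.snd Cp.id
  have h : Sg 𝒪 (fun p : α × M => (f p.1 ≤ g p.1 ∧ p.2 = 0) ∨ (g p.1 ≤ f p.1 ∧ g p.1 + p.2 = f p.1)) :=
    Sg.or (Sg.and (Sg.le hf' hg') (Sg.eq h2 (Cp.const 0)))
      (Sg.and (Sg.le hg' hf') (Sg.eq (Cp.add hg' h2) hf'))
  exact h.congr fun p => Arith_sb_iff _ _ _

theorem Cp.max {f g : α → M} (hf : Cp 𝒪 f) (hg : Cp 𝒪 g) : Cp 𝒪 (fun a => max (f a) (g a)) := by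
  have hf' : Cp 𝒪 (fun p : α × M => f p.1) := Cp.comp hf (Cp.fst Cp.id)
  have hg' : Cp 𝒪 (fun p : α × M => g p.1) := Cp.comp hg (Cp.fst Cp.id)
  have h2 : Cp 𝒪 (fun p : α × M => p.2) := Cp.snd Cp.id
  have h : Sg 𝒪 (fun p : α × M => (f p.1 ≤ g p.1 ∧ p.2 = g p.1) ∨ (g p.1 ≤ f p.1 ∧ p.2 = f p.1)) :=
    Sg.or (Sg.and (Sg.le hf' hg') (Sg.eq h2 hg'))
      (Sg.and (Sg.le hg' hf') (Sg.eq h2 hf'))
  refine h.congr fun p => ?_
  constructor
  · intro h
    have h' : p.2 = Max.max (f p.1) (g p.1) := h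
    rcases le_total (f p.1) (g p.1) with h3 | h3
    · exact Or.inl ⟨h3, by rw [h', max_eq_right h3]⟩
    · exact Or.inr ⟨h3, by rw [h', max_eq_left h3]⟩
  · rintro (⟨h3, h4⟩ | ⟨h3, h4⟩)
    · show p.2 = Max.max (f p.1) (g p.1)
      rw [h4, max_eq_right h3]
    · show p.2 = Max.max (f p.1) (g p.1)
      rw [h4, max_eq_left h3]

theorem Arith_div_unique {b q r q' r' : M} (h : r < b) (h' : r' < b) (h1 : b * q + r = b * q' + r') :
    q = q' ∧ r = r' := by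
  have key : ∀ {q r q' r' : M}, r < b → q < q' → b * q + r < b * q' + r' := by
    intro q r q' r' hr hq
    calc b * q + r < b * q + b := by gcongr
      _ = b * (q + 1) := by ring
      _ ≤ b * q' := mul_le_mul' le_rfl (lt_iff_succ_le.1 hq)
      _ ≤ b * q' + r' := le_self_add
  have h2 : q = q' := by
    rcases lt_trichotomy q q' with h2 | h2 | h2
    · exact absurd h1 (key h h2).ne
    · exact h2
    · exact absurd h1 (key h' h2).ne'
  subst h2
  exact ⟨rfl, add_left_cancel h1⟩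

theorem dv_md_unique {a b q r : M} (h : r < b) (h1 : a = b * q + r) : dv a b = q ∧ md a b = r := by
  constructor
  · have h2 : ∃ q r : M, r < b ∧ a = b * q + r := ⟨q, r, h, h1⟩
    have h3 : dv a b = Classical.choose h2 := by
      unfold dv
      rw [dif_pos h2]
    obtain ⟨r', h4, h5⟩ := Classical.choose_spec h2
    rw [h3]
    exact (Arith_div_unique h4 h (h5.symm.trans h1)).1
  · have h2 : ∃ r q : M, r < b ∧ a = b * q + r := ⟨r, q, h, h1⟩
    have h3 : md a b = Classical.choose h2 := by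
      unfold md
      rw [dif_pos h2]
    obtain ⟨q', h4, h5⟩ := Classical.choose_spec h2
    rw [h3]
    exact (Arith_div_unique h4 h (h5.symm.trans h1)).2

/-- Strong induction. -/
theorem sind [IS1 𝒪] {P : M → Prop} (hP : Dc 𝒪 P) (h : ∀ x, (∀ y < x, P y) → P x) (x : M) : P x := by
  by_contra hx
  obtain ⟨y, hy, hy'⟩ := least_sg hP.2 ⟨x, hx⟩
  exact hy (h y fun z hz => not_not.1 (hy' z hz))

/-- Ordinary induction for decidable predicates. -/
theorem ind_dc [IS1 𝒪] {P : M → Prop} (hP : Dc 𝒪 P) (h0 : P 0) (hs : ∀ x, P x → P (x + 1)) (x : M) :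
    P x := ind_sg hP.1 h0 hs x

/-- Induction below a bound. -/
theorem ind_dc_le [IS1 𝒪] {P : M → Prop} (hP : Dc 𝒪 P) (b : M) (h0 : P 0)
    (hs : ∀ x < b, P x → P (x + 1)) : ∀ x ≤ b, P x := by
  intro x hx
  have h1 : Sg 𝒪 (fun x : M => b < x ∨ P x) := Sg.or (Sg.lt (Cp.const b) Cp.id) hP.1
  have h2 := ind_sg h1 (Or.inr h0) (by
    intro y hy
    rcases hy with hy | hy
    · exact Or.inl (lt_trans hy (lt_succ_iff.2 le_rfl))
    · rcases lt_or_ge y b with h3 | h3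
      · exact Or.inr (hs y h3 hy)
      · exact Or.inl (lt_succ_iff.2 h3)) x
  rcases h2 with h2 | h2
  · exact absurd h2 (not_lt.2 hx)
  · exact h2

/-- Downward induction below a bound. -/
theorem ind_dc_down [IS1 𝒪] {P : M → Prop} (hP : Dc 𝒪 P) (b : M) (h0 : P b)
    (hs : ∀ x < b, P (x + 1) → P x) : ∀ x ≤ b, P x := by
  intro x hx
  obtain ⟨u, hu⟩ := exists_add_of_le hx
  have h1 : Sg 𝒪 (fun u : M => b < u ∨ ∃ z, z + u = b ∧ P z) := by
    refine Sg.or (Sg.lt (Cp.const b) Cp.id) (Sg.ex (P := fun p : M × M => p.2 + p.1 = b ∧ P p.2) ?_)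
    exact Sg.and (Sg.eq (Cp.add (Cp.snd Cp.id) (Cp.fst Cp.id)) (Cp.const b))
      (Sg.comp hP.1 (Cp.snd Cp.id))
  have h2 := ind_sg h1 (Or.inr ⟨b, add_zero b, h0⟩) (by
    intro v hv
    rcases hv with hv | ⟨z, hz, hz'⟩
    · exact Or.inl (lt_trans hv (lt_succ_iff.2 le_rfl))
    · rcases eq_zero_or_succ z with h3 | ⟨z', rfl⟩
      · subst h3
        rw [zero_add] at hz
        subst hz
        exact Or.inl (lt_succ_iff.2 le_rfl)
      · refine Or.inr ⟨z', by rw [← hz]; ring, hs z' ?_ hz'⟩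
        rw [lt_iff_succ_le, ← hz]
        exact le_self_add) u
  rcases h2 with h2 | ⟨z, hz, hz'⟩
  · rw [hu] at h2
    exact absurd h2 (not_lt.2 le_add_self)
  · have h3 : z = x := add_right_cancel (hz.trans hu)
    rw [← h3]
    exact hz'

/-- The largest element of a bounded `Σ⁰₁` predicate. -/
theorem bmax_sg [IS1 𝒪] {P : M → Prop} (hP : Sg 𝒪 P) {s : M} (h : ∃ t ≤ s, P t) :
    ∃ t ≤ s, P t ∧ ∀ u, t < u → u ≤ s → ¬ P u := by
  have h1 : Sg 𝒪 (fun u : M => ∃ z, z + u = s ∧ P z) := by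
    refine Sg.ex (P := fun p : M × M => p.2 + p.1 = s ∧ P p.2) ?_
    exact Sg.and (Sg.eq (Cp.add (Cp.snd Cp.id) (Cp.fst Cp.id)) (Cp.const s))
      (Sg.comp hP (Cp.snd Cp.id))
  obtain ⟨t, ht, htP⟩ := h
  obtain ⟨u, hu⟩ := exists_add_of_le ht
  obtain ⟨v, ⟨z, hz, hzP⟩, hv⟩ := least_sg h1 ⟨u, t, hu.symm, htP⟩
  refine ⟨z, ?_, hzP, ?_⟩
  · rw [← hz]
    exact le_self_add
  · intro w hw hws hPw
    obtain ⟨v', hv'⟩ := exists_add_of_le hws
    refine hv v' ?_ ⟨w, hv'.symm, hPw⟩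
    by_contra h3
    rw [not_lt] at h3
    have h4 : z + v < w + v' := add_lt_add_of_lt_of_le hw h3
    rw [hz, ← hv'] at h4
    exact lt_irrefl _ h4

/-- The largest element below a bound. -/
theorem bmax [IS1 𝒪] {P : M → Prop} (hP : Dc 𝒪 P) {s : M} (h : ∃ t ≤ s, P t) :
    ∃ t ≤ s, P t ∧ ∀ u, t < u → u ≤ s → ¬ P u := bmax_sg hP.1 h

/-- The largest element of a bounded `Π⁰₁` predicate. -/
theorem bmax_pi [IS1 𝒪] {P : M → Prop} (hP : Sg 𝒪 (fun x => ¬ P x)) {s : M} (h : ∃ t ≤ s, P t) :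
    ∃ t ≤ s, P t ∧ ∀ u, t < u → u ≤ s → ¬ P u := by
  have h1 : Sg 𝒪 (fun u : M => ¬ (u ≤ s ∧ ∀ z, z + u = s → P z)) := by
    have h2 : Sg 𝒪 (fun u : M => s < u ∨ ∃ z, z + u = s ∧ ¬ P z) := by
      refine Sg.or (Sg.lt (Cp.const s) Cp.id)
        (Sg.ex (P := fun p : M × M => p.2 + p.1 = s ∧ ¬ P p.2) ?_)
      exact Sg.and (Sg.eq (Cp.add (Cp.snd Cp.id) (Cp.fst Cp.id)) (Cp.const s))
        (Sg.comp hP (Cp.snd Cp.id))
    refine h2.congr fun u => ?_
    rw [not_and_or, not_le]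
    push Not
    exact Iff.rfl
  obtain ⟨t, ht, htP⟩ := h
  obtain ⟨u, hu⟩ := exists_add_of_le ht
  have hex : ∃ u : M, u ≤ s ∧ ∀ z, z + u = s → P z := by
    refine ⟨u, ?_, ?_⟩
    · rw [hu]
      exact le_add_self
    · intro z hz
      have h3 : z = t := add_right_cancel (hz.trans hu)
      rw [h3]
      exact htP
  obtain ⟨v, ⟨hvs, hvP⟩, hv⟩ := least_pi h1 hex
  obtain ⟨z, hz⟩ := exists_add_of_le hvs
  rw [add_comm] at hz
  refine ⟨z, ?_, hvP z hz.symm, ?_⟩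
  · rw [hz]
    exact le_self_add
  · intro w hw hws hPw
    obtain ⟨v', hv'⟩ := exists_add_of_le hws
    refine hv v' ?_ ⟨?_, ?_⟩
    · by_contra h3
      rw [not_lt] at h3
      have h4 : z + v < w + v' := add_lt_add_of_lt_of_le hw h3
      rw [← hz, ← hv'] at h4
      exact lt_irrefl _ h4
    · rw [hv']
      exact le_add_self
    · intro z' hz'
      have h3 : z' = w := add_right_cancel (hz'.trans hv')
      rw [h3]
      exact hPw

/-- `Σ⁰₁` collection. -/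
theorem coll_sg [IS1 𝒪] {P : M × M → Prop} (hP : Sg 𝒪 P) (b : M) (h : ∀ x < b, ∃ y, P (x, y)) :
    ∃ w, ∀ x < b, ∃ y < w, P (x, y) := by
  obtain ⟨R, hR, h1⟩ := hP
  have h2 : Bdd 𝒪 (fun v : Fin 2 → M => ∃ y, y < v 0 + 1 ∧ ∃ z, z < v 0 + 1 ∧
      R ![z, pair (v 1) y]) := by
    refine Bdd.bex (t := fun v => v 0 + 1) (Tm.add (Tm.var 0) (Tm.const 1))
      (P := fun w : Fin 3 → M => ∃ z, z < w 1 + 1 ∧ R ![z, pair (w 2) (w 0)]) ?_
    refine Bdd.bex (t := fun v => v 1 + 1) (Tm.add (Tm.var 1) (Tm.const 1))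
      (P := fun w : Fin 4 → M => R ![w 0, pair (w 3) (w 1)]) ?_
    exact hR.sub2 (Tm.var 0) (pair_tm (Tm.var 3) (Tm.var 1))
  obtain ⟨w, hw⟩ := coll h2 b (by
    intro x hx
    obtain ⟨y, hy⟩ := h x hx
    obtain ⟨z, hz⟩ := (h1 (x, y)).1 hy
    refine ⟨Max.max y z, y, ?_, z, ?_, hz⟩
    · rw [lt_succ_iff]
      exact le_max_left _ _
    · rw [lt_succ_iff]
      exact le_max_right _ _)
  refine ⟨w, fun x hx => ?_⟩
  obtain ⟨u, hu, y, hy, z, hz, hR'⟩ := hw x hx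
  have hy' : y ≤ u := lt_succ_iff.1 hy
  exact ⟨y, lt_of_le_of_lt hy' hu, (h1 (x, y)).2 ⟨z, hR'⟩⟩

section Div

variable [IS1 (∅ : Set (Set M))]

theorem Arith_div_exists (a : M) {b : M} (hb : 0 < b) : ∃ q r : M, r < b ∧ a = b * q + r := by
  have h1 : Sg (∅ : Set (Set M)) (fun a : M => ∃ q r : M, r < b ∧ a = b * q + r) := by
    refine Sg.ex (P := fun p : M × M => ∃ r : M, r < b ∧ p.1 = b * p.2 + r) ?_
    refine Sg.ex (P := fun p : (M × M) × M => p.2 < b ∧ p.1.1 = b * p.1.2 + p.2) ?_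
    have e1 : Cp (∅ : Set (Set M)) (fun p : (M × M) × M => p.2) := Cp.snd Cp.id
    have e2 : Cp (∅ : Set (Set M)) (fun p : (M × M) × M => p.1.1) := Cp.fst (Cp.fst Cp.id)
    have e3 : Cp (∅ : Set (Set M)) (fun p : (M × M) × M => p.1.2) := Cp.snd (Cp.fst Cp.id)
    exact Sg.and (Sg.lt e1 (Cp.const b)) (Sg.eq e2 (Cp.add (Cp.mul (Cp.const b) e3) e1))
  refine ind_sg h1 ⟨0, 0, hb, by simp⟩ ?_ a
  rintro x ⟨q, r, hr, rfl⟩
  rcases eq_or_lt_of_le (lt_iff_succ_le.1 hr) with h | h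
  · refine ⟨q + 1, 0, hb, ?_⟩
    rw [add_assoc, h]
    ring
  · exact ⟨q, r + 1, h, by rw [add_assoc]⟩

theorem dv_md (a : M) {b : M} (hb : 0 < b) : b * dv a b + md a b = a := by
  obtain ⟨q, r, h, h1⟩ := Arith_div_exists a hb
  obtain ⟨h2, h3⟩ := dv_md_unique h h1
  rw [h2, h3]
  exact h1.symm

theorem md_lt (a : M) {b : M} (hb : 0 < b) : md a b < b := by
  obtain ⟨q, r, h, h1⟩ := Arith_div_exists a hb
  obtain ⟨h2, h3⟩ := dv_md_unique h h1
  rw [h3]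
  exact h

theorem md_of_lt {a b : M} (h : a < b) : md a b = a :=
  (dv_md_unique (q := 0) h (by simp)).2

theorem dv_of_lt {a b : M} (h : a < b) : dv a b = 0 :=
  (dv_md_unique (q := 0) h (by simp)).1

theorem dv_lt_of_lt_mul {a b c : M} (h : a < b * c) : dv a b < c := by
  rcases eq_or_lt_of_le (zero_le (a := b)) with hb | hb
  · rw [← hb, zero_mul] at h
    exact absurd h (not_lt_zero' a)
  · by_contra h1
    rw [not_lt] at h1
    have h2 := dv_md a hb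
    have h3 : b * c ≤ a := by
      calc b * c ≤ b * dv a b := mul_le_mul' le_rfl h1
        _ ≤ b * dv a b + md a b := le_self_add
        _ = a := h2
    exact absurd h (not_lt.2 h3)

theorem Arith_dv_iff (a b q : M) : q = dv a b ↔ (b = 0 ∧ q = 0) ∨ ∃ r, r < b ∧ a = b * q + r := by
  constructor
  · rintro rfl
    rcases eq_or_lt_of_le (zero_le (a := b)) with hb | hb
    · refine Or.inl ⟨hb.symm, ?_⟩
      unfold dv
      rw [dif_neg]
      rintro ⟨q, r, h, -⟩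
      rw [← hb] at h
      exact not_lt_zero' r h
    · exact Or.inr ⟨md a b, md_lt a hb, (dv_md a hb).symm⟩
  · rintro (⟨hb, rfl⟩ | ⟨r, hr, h⟩)
    · unfold dv
      rw [dif_neg]
      rintro ⟨q, r, h, -⟩
      rw [hb] at h
      exact not_lt_zero' r h
    · exact (dv_md_unique hr h).1.symm

theorem Arith_md_iff (a b r : M) : r = md a b ↔ (b = 0 ∧ r = a) ∨ ∃ q, r < b ∧ a = b * q + r := by
  constructor
  · rintro rfl
    rcases eq_or_lt_of_le (zero_le (a := b)) with hb | hb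
    · refine Or.inl ⟨hb.symm, ?_⟩
      unfold md
      rw [dif_neg]
      rintro ⟨r, q, h, -⟩
      rw [← hb] at h
      exact not_lt_zero' r h
    · exact Or.inr ⟨dv a b, md_lt a hb, (dv_md a hb).symm⟩
  · rintro (⟨hb, rfl⟩ | ⟨q, hr, h⟩)
    · unfold md
      rw [dif_neg]
      rintro ⟨r, q, h, -⟩
      rw [hb] at h
      exact not_lt_zero' r h
    · exact (dv_md_unique hr h).2.symm

theorem Cp.dv {f g : α → M} (hf : Cp 𝒪 f) (hg : Cp 𝒪 g) : Cp 𝒪 (fun a => dv (f a) (g a)) := by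
  have hf' : Cp 𝒪 (fun p : α × M => f p.1) := Cp.comp hf (Cp.fst Cp.id)
  have hg' : Cp 𝒪 (fun p : α × M => g p.1) := Cp.comp hg (Cp.fst Cp.id)
  have h2 : Cp 𝒪 (fun p : α × M => p.2) := Cp.snd Cp.id
  have h : Sg 𝒪 (fun p : α × M => (g p.1 = 0 ∧ p.2 = 0) ∨ ∃ r, r < g p.1 ∧
      f p.1 = g p.1 * p.2 + r) := by
    refine Sg.or (Sg.and (Sg.eq hg' (Cp.const 0)) (Sg.eq h2 (Cp.const 0))) ?_
    refine Sg.bex hg' (P := fun q : (α × M) × M => f q.1.1 = g q.1.1 * q.1.2 + q.2) ?_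
    exact Sg.eq (Cp.comp hf (Cp.fst (Cp.fst Cp.id)))
      (Cp.add (Cp.mul (Cp.comp hg (Cp.fst (Cp.fst Cp.id))) (Cp.snd (Cp.fst Cp.id))) (Cp.snd Cp.id))
  exact h.congr fun p => Arith_dv_iff _ _ _

theorem Cp.md {f g : α → M} (hf : Cp 𝒪 f) (hg : Cp 𝒪 g) : Cp 𝒪 (fun a => md (f a) (g a)) := by
  have hf' : Cp 𝒪 (fun p : α × M => f p.1) := Cp.comp hf (Cp.fst Cp.id)
  have hg' : Cp 𝒪 (fun p : α × M => g p.1) := Cp.comp hg (Cp.fst Cp.id)
  have h2 : Cp 𝒪 (fun p : α × M => p.2) := Cp.snd Cp.id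
  have h : Sg 𝒪 (fun p : α × M => (g p.1 = 0 ∧ p.2 = f p.1) ∨ ∃ q, p.2 < g p.1 ∧
      f p.1 = g p.1 * q + p.2) := by
    refine Sg.or (Sg.and (Sg.eq hg' (Cp.const 0)) (Sg.eq h2 hf')) ?_
    refine Sg.ex (P := fun q : (α × M) × M => q.1.2 < g q.1.1 ∧ f q.1.1 = g q.1.1 * q.2 + q.1.2) ?_
    exact Sg.and (Sg.lt (Cp.snd (Cp.fst Cp.id)) (Cp.comp hg (Cp.fst (Cp.fst Cp.id))))
      (Sg.eq (Cp.comp hf (Cp.fst (Cp.fst Cp.id)))
        (Cp.add (Cp.mul (Cp.comp hg (Cp.fst (Cp.fst Cp.id))) (Cp.snd Cp.id)) (Cp.snd (Cp.fst Cp.id))))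
  exact h.congr fun p => Arith_md_iff _ _ _

end Div

end WI
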