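import Pool.Agent.Helper32.WI.Rec

/-! WI-C1: powers of two. -/

set_option linter.unusedSectionVars false
set_option linter.unusedVariables false

universe u

namespace WI

open Enc

variable {M : Type u} [CommSemiring M] [LinearOrder M] [PAM M]
variable {α β γ : Type u} [Enc M α] [Enc M β] [Enc M γ] {𝒪 : Set (Set M)}

theorem Pow_cpmono {f : α → β} (hf : Cp (∅ : Set (Set M)) f) : Cp 𝒪 f :=
  Sg.mono (Set.empty_subset 𝒪) hf

variable [IS1 (∅ : Set (Set M))]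

theorem Pow_spec : Cp (∅ : Set (Set M)) (pow2 : M → M) ∧ pow2 (0 : M) = 1 ∧
    ∀ n : M, pow2 (n + 1) = 2 * pow2 n := by
  have h : ∃ f : M → M, Cp (∅ : Set (Set M)) f ∧ f 0 = 1 ∧ ∀ n, f (n + 1) = 2 * f n := by
    obtain ⟨f, hf, h0, hs⟩ := exists_rec (𝒪 := (∅ : Set (Set M))) (α := M) (β := M)
      (a := fun _ => 1) (Cp.const 1) (g := fun p : M × (M × M) => 2 * p.2.2)
      (Cp.mul (Cp.const 2) (Cp.snd (Cp.snd Cp.id)))
    refine ⟨fun n => f (0, n), Cp.comp hf (Cp.pair (Cp.const 0) Cp.id), h0 0, fun n => hs 0 n⟩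
  unfold pow2
  rw [dif_pos h]
  exact Classical.choose_spec h

theorem Cp.pow2 {f : α → M} (hf : Cp 𝒪 f) : Cp 𝒪 (fun a => pow2 (f a)) :=
  Cp.comp (Pow_cpmono Pow_spec.1) hf

theorem pow2_zero : pow2 (0 : M) = 1 := Pow_spec.2.1

theorem pow2_succ (n : M) : pow2 (n + 1) = 2 * pow2 n := Pow_spec.2.2 n

theorem pow2_one : pow2 (1 : M) = 2 := by
  have h := pow2_succ (0 : M)
  rwa [zero_add, pow2_zero, mul_one] at h

theorem pow2_add (m n : M) : pow2 (m + n) = pow2 m * pow2 n := by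
  have h : Sg (∅ : Set (Set M)) (fun n : M => WI.pow2 (m + n) = WI.pow2 m * WI.pow2 n) :=
    Sg.eq (Cp.pow2 (Cp.add (Cp.const m) Cp.id)) (Cp.mul (Cp.const _) (Cp.pow2 Cp.id))
  refine ind_sg h ?_ ?_ n
  · rw [add_zero, pow2_zero, mul_one]
  · intro x hx
    rw [← add_assoc, pow2_succ, hx, pow2_succ]
    ring

theorem pow2_pos (n : M) : 0 < pow2 n := by
  have h : Sg (∅ : Set (Set M)) (fun n : M => 0 < WI.pow2 n) :=
    Sg.lt (Cp.const 0) (Cp.pow2 Cp.id)
  refine ind_sg h ?_ ?_ n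
  · rw [pow2_zero]
    exact zero_lt_one
  · intro x hx
    rw [pow2_succ]
    exact mul_pos zero_lt_two hx

theorem one_le_pow2 (n : M) : 1 ≤ pow2 n := PAM.one_le_of_pos _ (pow2_pos n)

theorem pow2_le {m n : M} (h : m ≤ n) : pow2 m ≤ pow2 n := by
  obtain ⟨d, rfl⟩ := exists_add_of_le h
  rw [pow2_add]
  calc WI.pow2 m = WI.pow2 m * 1 := (mul_one _).symm
    _ ≤ WI.pow2 m * WI.pow2 d := mul_le_mul' le_rfl (one_le_pow2 d)

theorem pow2_lt {m n : M} (h : m < n) : pow2 m < pow2 n := by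
  have h1 : WI.pow2 m < WI.pow2 (m + 1) := by
    rw [pow2_succ, two_mul]
    exact lt_add_of_pos_left _ (pow2_pos m)
  exact h1.trans_le (pow2_le (lt_iff_succ_le.1 h))

theorem lt_pow2 (n : M) : n < pow2 n := by
  have h : Sg (∅ : Set (Set M)) (fun n : M => n < WI.pow2 n) :=
    Sg.lt Cp.id (Cp.pow2 Cp.id)
  refine ind_sg h ?_ ?_ n
  · rw [pow2_zero]
    exact zero_lt_one
  · intro x hx
    rw [pow2_succ, two_mul]
    exact add_lt_add_of_lt_of_le hx (one_le_pow2 x)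

/-- `pow2` over a bigger oracle set is the same function: recursion equations determine it. -/
theorem pow2_unique [IS1 𝒪] {f : M → M} (hf : Cp 𝒪 f) (h0 : f 0 = 1) (hs : ∀ n, f (n + 1) = 2 * f n) :
    f = pow2 := by
  have h : Sg 𝒪 (fun n : M => f n = WI.pow2 n) := Sg.eq hf (Cp.pow2 Cp.id)
  funext n
  refine ind_sg h ?_ ?_ n
  · rw [h0, pow2_zero]
  · intro x hx
    rw [hs, hx, pow2_succ]

end WI
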