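import Pool.Agent.Helper32.WI.DArith
import Pool.Agent.Helper32.WI.Arith
import Pool.Agent.Helper32.WI.Pow

/-! WI-C2: binary digits, restriction of strings. -/

set_option linter.unusedSectionVars false
set_option linter.unusedVariables false

universe u

namespace WI

open Enc

variable {M : Type u} [CommSemiring M] [LinearOrder M] [PAM M]
variable {α β γ : Type u} [Enc M α] [Enc M β] [Enc M γ] {𝒪 : Set (Set M)}

variable [IS1 (∅ : Set (Set M))]

theorem Bits_one_lt_two : (1 : M) < 2 := by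
  have h : (1 : M) + 1 = 2 := one_add_one_eq_two
  rw [← h]
  exact lt_add_of_pos_right _ zero_lt_one

theorem Bits_two_pos : (0 : M) < 2 := zero_lt_one.trans Bits_one_lt_two

theorem Bits_lt_two {b : M} (h : b < 2) : b = 0 ∨ b = 1 := by
  rcases eq_zero_or_succ b with h0 | ⟨c, rfl⟩
  · exact Or.inl h0
  · right
    have h1 : c + 1 < 1 + 1 := by rw [one_add_one_eq_two]; exact h
    have h2 : c < 1 := lt_of_add_lt_add_right h1
    rcases eq_zero_or_succ c with h3 | ⟨d, rfl⟩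
    · rw [h3, zero_add]
    · exact absurd h2 (not_lt.2 le_add_self)

theorem Bits_decomp (x i : M) : ∃ r q b : M, r < pow2 i ∧ b < 2 ∧ x = pow2 i * (2 * q + b) + r :=
  ⟨md x (pow2 i), dv (dv x (pow2 i)) 2, md (dv x (pow2 i)) 2, md_lt _ (pow2_pos i),
    md_lt _ Bits_two_pos, by rw [dv_md _ Bits_two_pos, dv_md _ (pow2_pos i)]⟩

theorem Bits_bit_iff {x i r q b : M} (hr : r < pow2 i) (hb : b < 2)
    (hx : x = pow2 i * (2 * q + b) + r) : Bit x i ↔ b = 1 := by
  unfold Bit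
  rw [(dv_md_unique hr hx).1, (dv_md_unique hb rfl).2]

theorem Dc.bit {f g : α → M} (hf : Cp 𝒪 f) (hg : Cp 𝒪 g) : Dc 𝒪 (fun a => Bit (f a) (g a)) := by
  have h1 : Cp 𝒪 (fun a => md (dv (f a) (pow2 (g a))) 2) :=
    Cp.md (Cp.dv hf (Cp.pow2 hg)) (Cp.const (𝒪 := 𝒪) (α := α) (2 : M))
  exact ⟨Sg.eq h1 (Cp.const (1 : M)), Sg.ne h1 (Cp.const (1 : M))⟩

theorem md_pow2_lt (x n : M) : md x (pow2 n) < pow2 n := md_lt _ (pow2_pos n)

theorem md_pow2_le (x n : M) : md x (pow2 n) ≤ x := by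
  conv_rhs => rw [← dv_md x (pow2_pos n)]
  exact le_add_self

theorem md_pow2_zero (x : M) : md x (pow2 0) = 0 := by
  have h := md_pow2_lt x 0
  rw [pow2_zero] at h
  rw [pow2_zero]
  rcases eq_zero_or_succ (md x 1) with h3 | ⟨d, hd⟩
  · exact h3
  · rw [hd] at h
    exact absurd h (not_lt.2 le_add_self)

theorem pow2_le_of_bit {x i : M} (h : Bit x i) : pow2 i ≤ x := by
  obtain ⟨r, q, b, hr, hb, hx⟩ := Bits_decomp x i
  have h1 := (Bits_bit_iff hr hb hx).1 h
  subst h1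
  rw [hx]
  have h2 : pow2 i * (2 * q + 1) + r = pow2 i + (pow2 i * (2 * q) + r) := by ring
  rw [h2]
  exact le_self_add

theorem lt_of_bit {x i : M} (h : Bit x i) : i < x := (lt_pow2 i).trans_le (pow2_le_of_bit h)

theorem lt_of_bit_of_lt {x n i : M} (hx : x < pow2 n) (h : Bit x i) : i < n := by
  by_contra h1
  exact absurd ((pow2_le (not_lt.1 h1)).trans (pow2_le_of_bit h)) (not_le.2 hx)

theorem not_bit_zero (i : M) : ¬ Bit 0 i := fun h => not_lt_zero' _ (lt_of_bit h)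

theorem bit_one (i : M) : Bit 1 i ↔ i = 0 := by
  constructor
  · intro h
    have h1 := lt_of_bit h
    rcases eq_zero_or_succ i with h3 | ⟨d, rfl⟩
    · exact h3
    · exact absurd h1 (not_lt.2 le_add_self)
  · rintro rfl
    refine (Bits_bit_iff (r := 0) (q := 0) (b := 1) (pow2_pos 0) Bits_one_lt_two ?_).2 rfl
    rw [pow2_zero]
    ring

theorem bit_concat {x y n : M} (hx : x < pow2 n) (i : M) :
    Bit (x + pow2 n * y) i ↔ (i < n ∧ Bit x i) ∨ ∃ j, i = n + j ∧ Bit y j := by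
  rcases lt_or_ge i n with h | h
  · have h1 : i + 1 ≤ n := lt_iff_succ_le.1 h
    obtain ⟨k, rfl⟩ := exists_add_of_le h1
    obtain ⟨r, q, b, hr, hb, hxe⟩ := Bits_decomp x i
    have h2 : x + pow2 (i + 1 + k) * y = pow2 i * (2 * (q + pow2 k * y) + b) + r := by
      rw [pow2_add, pow2_succ, hxe]
      ring
    rw [Bits_bit_iff hr hb h2, Bits_bit_iff hr hb hxe]
    constructor
    · intro h3
      exact Or.inl ⟨h, h3⟩
    · rintro (h3 | ⟨j, h3, -⟩)
      · exact h3.2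
      · exfalso
        have : i + 1 + k + j ≤ i := h3.symm.le
        exact absurd h (not_lt.2 (le_self_add.trans this))
  · obtain ⟨j, rfl⟩ := exists_add_of_le h
    obtain ⟨r, q, b, hr, hb, hye⟩ := Bits_decomp y j
    have h2 : x + pow2 n * y = pow2 (n + j) * (2 * q + b) + (pow2 n * r + x) := by
      rw [pow2_add, hye]
      ring
    have h3 : pow2 n * r + x < pow2 (n + j) := by
      calc pow2 n * r + x < pow2 n * r + pow2 n := by gcongr
        _ = pow2 n * (r + 1) := by ring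
        _ ≤ pow2 n * pow2 j := mul_le_mul_right (lt_iff_succ_le.1 hr) _
        _ = pow2 (n + j) := (pow2_add n j).symm
    rw [Bits_bit_iff h3 hb h2]
    constructor
    · intro h4
      exact Or.inr ⟨j, rfl, (Bits_bit_iff hr hb hye).2 h4⟩
    · rintro (h4 | ⟨j', h4, h5⟩)
      · exact absurd h4.1 (not_lt.2 le_self_add)
      · have h6 : j = j' := add_left_cancel h4
        subst h6
        exact (Bits_bit_iff hr hb hye).1 h5

theorem Bits_split (x n : M) : x = md x (pow2 n) + pow2 n * dv x (pow2 n) := by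
  conv_lhs => rw [← dv_md x (pow2_pos n)]
  exact add_comm _ _

theorem Bits_bit_split (x n i : M) :
    Bit x i ↔ (i < n ∧ Bit (md x (pow2 n)) i) ∨ ∃ j, i = n + j ∧ Bit (dv x (pow2 n)) j := by
  conv_lhs => rw [Bits_split x n]
  exact bit_concat (md_pow2_lt x n) i

theorem bit_md (x n i : M) : Bit (md x (pow2 n)) i ↔ Bit x i ∧ i < n := by
  rw [Bits_bit_split x n i]
  constructor
  · intro h
    have h1 := lt_of_bit_of_lt (md_pow2_lt x n) h
    exact ⟨Or.inl ⟨h1, h⟩, h1⟩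
  · rintro ⟨h1 | ⟨j, h1, -⟩, h2⟩
    · exact h1.2
    · rw [h1] at h2
      exact absurd h2 (not_lt.2 le_self_add)

theorem Bits_md_succ (x n : M) : ∃ b : M, (b = 0 ∨ b = 1) ∧ (Bit x n ↔ b = 1) ∧
    md x (pow2 (n + 1)) = md x (pow2 n) + pow2 n * b := by
  obtain ⟨r, q, b, hr, hb, hx⟩ := Bits_decomp x n
  refine ⟨b, Bits_lt_two hb, Bits_bit_iff hr hb hx, ?_⟩
  have h1 : md x (pow2 n) = r := (dv_md_unique hr hx).2
  have hb1 : b + 1 ≤ 2 := lt_iff_succ_le.1 hb
  have h2 : r + pow2 n * b < pow2 (n + 1) := by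
    calc r + pow2 n * b < pow2 n + pow2 n * b := by gcongr
      _ = pow2 n * (b + 1) := by ring
      _ ≤ pow2 n * 2 := mul_le_mul_right hb1 _
      _ = pow2 (n + 1) := by rw [pow2_succ, mul_comm]
  have h3 : x = pow2 (n + 1) * q + (r + pow2 n * b) := by
    rw [pow2_succ, hx]
    ring
  rw [(dv_md_unique h2 h3).2, h1]

/-- Subset implies `≤`. -/
theorem le_of_bit {x y : M} (h : ∀ i, Bit x i → Bit y i) : x ≤ y := by
  have key : ∀ n : M, md x (pow2 n) ≤ md y (pow2 n) := by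
    intro n
    refine ind_dc (𝒪 := (∅ : Set (Set M))) (P := fun n : M => md x (pow2 n) ≤ md y (pow2 n)) ?_ ?_
      ?_ n
    · exact Dc.le (Cp.md (Cp.const x) (Cp.pow2 Cp.id)) (Cp.md (Cp.const y) (Cp.pow2 Cp.id))
    · show md x (pow2 0) ≤ md y (pow2 0)
      rw [md_pow2_zero, md_pow2_zero]
    · intro n ih
      show md x (pow2 (n + 1)) ≤ md y (pow2 (n + 1))
      obtain ⟨b, hb, hb1, hb2⟩ := Bits_md_succ x n
      obtain ⟨c, hc, hc1, hc2⟩ := Bits_md_succ y n
      rw [hb2, hc2]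
      have h1 : b ≤ c := by
        rcases hb with rfl | rfl
        · exact zero_le
        · have := hc1.1 (h n (hb1.2 rfl))
          rw [this]
      exact add_le_add ih (mul_le_mul_right h1 _)
  have h1 := key (x + y)
  rw [md_of_lt (lt_of_lt_of_le (lt_pow2 x) (pow2_le le_self_add)),
    md_of_lt (lt_of_lt_of_le (lt_pow2 y) (pow2_le le_add_self))] at h1
  exact h1

/-- Extensionality. -/
theorem bit_ext {x y : M} (h : ∀ i, Bit x i ↔ Bit y i) : x = y :=
  le_antisymm (le_of_bit fun i => (h i).1) (le_of_bit fun i => (h i).2)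

theorem md_md_pow2 (x : M) {m n : M} (h : m ≤ n) :
    md (md x (pow2 n)) (pow2 m) = md x (pow2 m) := by
  refine bit_ext fun i => ?_
  rw [bit_md, bit_md, bit_md]
  constructor
  · rintro ⟨⟨h1, -⟩, h2⟩
    exact ⟨h1, h2⟩
  · rintro ⟨h1, h2⟩
    exact ⟨⟨h1, lt_of_lt_of_le h2 h⟩, h2⟩

theorem lt_pow2_iff {x n : M} : x < pow2 n ↔ ∀ i, Bit x i → i < n := by
  constructor
  · intro h i hi
    exact lt_of_bit_of_lt h hi
  · intro h
    have h1 : md x (pow2 n) = x := by
      refine bit_ext fun i => ?_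
      rw [bit_md]
      exact ⟨fun h2 => h2.1, fun h2 => ⟨h2, h i h2⟩⟩
    rw [← h1]
    exact md_pow2_lt x n

theorem md_eq_md_iff {x y n : M} :
    md x (pow2 n) = md y (pow2 n) ↔ ∀ i < n, (Bit x i ↔ Bit y i) := by
  constructor
  · intro h i hi
    have h1 := bit_md x n i
    have h2 := bit_md y n i
    rw [h] at h1
    constructor
    · intro h3
      exact (h2.1 (h1.2 ⟨h3, hi⟩)).1
    · intro h3
      exact (h1.1 (h2.2 ⟨h3, hi⟩)).1
  · intro h
    refine bit_ext fun i => ?_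
    rw [bit_md, bit_md]
    constructor
    · rintro ⟨h1, h2⟩
      exact ⟨(h i h2).1 h1, h2⟩
    · rintro ⟨h1, h2⟩
      exact ⟨(h i h2).2 h1, h2⟩

/-- Adding a new top digit. -/
theorem bit_add_pow2 {x n : M} (hx : x < pow2 n) (i : M) :
    Bit (x + pow2 n) i ↔ Bit x i ∨ i = n := by
  have h := bit_concat (y := 1) hx i
  rw [mul_one] at h
  rw [h]
  constructor
  · rintro (h1 | ⟨j, h1, h2⟩)
    · exact Or.inl h1.2
    · rw [bit_one] at h2
      rw [h1, h2, add_zero]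
      exact Or.inr rfl
  · rintro (h1 | h1)
    · exact Or.inl ⟨lt_of_bit_of_lt hx h1, h1⟩
    · exact Or.inr ⟨0, by rw [h1, add_zero], (bit_one 0).2 rfl⟩

theorem md_add_pow2 {x n : M} (hx : x < pow2 n) : md (x + pow2 n) (pow2 n) = x :=
  (dv_md_unique (q := 1) hx (by rw [mul_one, add_comm])).2

theorem add_pow2_lt {x n : M} (hx : x < pow2 n) : x + pow2 n < pow2 (n + 1) := by
  rw [pow2_succ, two_mul]
  gcongr

/-- Extensions of a string by one digit. -/
theorem eq_or_eq_add_pow2 {c n : M} (hc : c < pow2 (n + 1)) :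
    c = md c (pow2 n) ∨ c = md c (pow2 n) + pow2 n := by
  have h := Bits_split c n
  have h1 : dv c (pow2 n) < 2 := by
    apply dv_lt_of_lt_mul
    rw [pow2_succ, mul_comm] at hc
    exact hc
  rcases Bits_lt_two h1 with h2 | h2
  · left
    rw [h2, mul_zero, add_zero] at h
    exact h
  · right
    rw [h2, mul_one] at h
    exact h

/-- Removing a digit. -/
theorem exists_remove {x i : M} (h : Bit x i) :
    ∃ y, y < x ∧ ∀ j, Bit y j ↔ Bit x j ∧ j ≠ i := by
  have h0 : md x (pow2 i) < pow2 (i + 1) :=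
    (md_pow2_lt x i).trans (pow2_lt (lt_add_of_pos_right _ zero_lt_one))
  have key : ∀ j, Bit (md x (pow2 i) + pow2 (i + 1) * dv x (pow2 (i + 1))) j ↔ Bit x j ∧ j ≠ i := by
    intro j
    rw [bit_concat h0 j, Bits_bit_split x (i + 1) j, bit_md, bit_md]
    constructor
    · rintro (⟨h1, h2, h3⟩ | ⟨k, h1, h2⟩)
      · exact ⟨Or.inl ⟨h1, h2, h1⟩, h3.ne⟩
      · refine ⟨Or.inr ⟨k, h1, h2⟩, ?_⟩
        have h3 : i < j := by
          rw [h1]
          exact lt_of_lt_of_le (lt_add_of_pos_right _ zero_lt_one) le_self_add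
        exact h3.ne'
    · rintro ⟨⟨h1, h2, h3⟩ | ⟨k, h1, h2⟩, h4⟩
      · exact Or.inl ⟨h1, h2, lt_of_le_of_ne (lt_succ_iff.1 h1) h4⟩
      · exact Or.inr ⟨k, h1, h2⟩
  refine ⟨_, ?_, key⟩
  refine lt_of_le_of_ne (le_of_bit fun j hj => ((key j).1 hj).1) ?_
  intro h1
  have h2 := key i
  rw [h1] at h2
  exact (h2.1 h).2 rfl

/-- Adding a digit. -/
theorem exists_insert (x i : M) : ∃ y, ∀ j, Bit y j ↔ Bit x j ∨ j = i := by
  have h0 : md x (pow2 i) + pow2 i < pow2 (i + 1) := add_pow2_lt (md_pow2_lt x i)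
  refine ⟨md x (pow2 i) + pow2 i + pow2 (i + 1) * dv x (pow2 (i + 1)), fun j => ?_⟩
  rw [bit_concat h0 j, Bits_bit_split x (i + 1) j, bit_md, bit_add_pow2 (md_pow2_lt x i), bit_md]
  constructor
  · rintro (⟨h1, h2 | h2⟩ | h1)
    · exact Or.inl (Or.inl ⟨h1, h2.1, h1⟩)
    · exact Or.inr h2
    · exact Or.inl (Or.inr h1)
  · rintro ((⟨h1, h2, h3⟩ | h1) | h1)
    · rcases eq_or_lt_of_le (lt_succ_iff.1 h1) with h4 | h4
      · exact Or.inl ⟨h1, Or.inr h4⟩
      · exact Or.inl ⟨h1, Or.inl ⟨h2, h4⟩⟩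
    · exact Or.inr h1
    · refine Or.inl ⟨?_, Or.inr h1⟩
      rw [h1]
      exact lt_add_of_pos_right _ zero_lt_one

end WI
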