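import Pool.Agent.Helper32.WI.Gauss

/-! WI-B2: a bounded coding of bounded decidable sets (Goedel's beta function). -/

set_option linter.unusedSectionVars false
set_option linter.unusedVariables false

universe u

namespace WI

open Enc

variable {M : Type u} [CommSemiring M] [LinearOrder M] [PAM M]
variable {α β γ : Type u} [Enc M α] [Enc M β] [Enc M γ] {𝒪 : Set (Set M)}

theorem Code_le_of_dvd {a b : M} (hb : 0 < b) (h : a ∣ b) : a ≤ b := by
  obtain ⟨c, rfl⟩ := h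
  rcases eq_or_lt_of_le (zero_le (a := c)) with h1 | h1
  · rw [← h1, mul_zero] at hb
    exact absurd hb (lt_irrefl _)
  · exact le_mul_of_one_le_right zero_le (PAM.one_le_of_pos c h1)

/-- The code: `w` is a triple `(n, a, m)`, and `i` belongs to the set if `i < n` and
`1 + (i + 1) m` divides `a`. -/
def Code_E (i w : M) : Prop :=
  ∃ n, n < w + 1 ∧ ∃ a, a < w + 1 ∧ ∃ m, m < w + 1 ∧
    (w = pair n (pair a m) ∧ i < n ∧ (1 + (i + 1) * m) ∣ a)

theorem Code_E_pair (n a m i : M) :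
    Code_E i (pair n (pair a m)) ↔ i < n ∧ (1 + (i + 1) * m) ∣ a := by
  constructor
  · rintro ⟨n', _, a', _, m', _, h1, h2, h3⟩
    obtain ⟨h4, h5⟩ := pair_inj h1
    obtain ⟨h6, h7⟩ := pair_inj h5
    subst h4
    subst h6
    subst h7
    exact ⟨h2, h3⟩
  · rintro ⟨h1, h2⟩
    refine ⟨n, lt_succ_iff.2 (left_le_pair _ _), a,
      lt_succ_iff.2 ((left_le_pair _ _).trans (right_le_pair _ _)), m,
      lt_succ_iff.2 ((right_le_pair _ _).trans (right_le_pair _ _)), rfl, h1, h2⟩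

theorem Code_E_lt {i w : M} (h : Code_E i w) : i < w := by
  obtain ⟨n, _, a, _, m, _, h1, h2, h3⟩ := h
  rw [h1]
  exact lt_of_lt_of_le h2 (left_le_pair _ _)

theorem Code_Cp_pair {f g : α → M} (hf : Cp 𝒪 f) (hg : Cp 𝒪 g) :
    Cp 𝒪 (fun a => WI.pair (f a) (g a)) :=
  Cp.add (Cp.mul (Cp.add hf hg) (Cp.add hf hg)) hf

theorem Code_E_dc [IS1 (∅ : Set (Set M))] :
    Dc (∅ : Set (Set M)) (fun p : M × M => Code_E p.1 p.2) := by
  unfold Code_E
  refine Dc.bex (f := fun p : M × M => p.2 + 1) (P := fun q : (M × M) × M =>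
    ∃ a, a < q.1.2 + 1 ∧ ∃ m, m < q.1.2 + 1 ∧
      (q.1.2 = pair q.2 (pair a m) ∧ q.1.1 < q.2 ∧ (1 + (q.1.1 + 1) * m) ∣ a))
    (Cp.add (Cp.snd Cp.id) (Cp.const 1)) ?_
  refine Dc.bex (f := fun q : (M × M) × M => q.1.2 + 1) (P := fun r : ((M × M) × M) × M =>
    ∃ m, m < r.1.1.2 + 1 ∧
      (r.1.1.2 = pair r.1.2 (pair r.2 m) ∧ r.1.1.1 < r.1.2 ∧ (1 + (r.1.1.1 + 1) * m) ∣ r.2))
    (Cp.add (Cp.snd (Cp.fst Cp.id)) (Cp.const 1)) ?_
  refine Dc.bex (f := fun r : ((M × M) × M) × M => r.1.1.2 + 1)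
    (P := fun s : (((M × M) × M) × M) × M =>
      (s.1.1.1.2 = pair s.1.1.2 (pair s.1.2 s.2) ∧ s.1.1.1.1 < s.1.1.2 ∧
        (1 + (s.1.1.1.1 + 1) * s.2) ∣ s.1.2))
    (Cp.add (Cp.snd (Cp.fst (Cp.fst Cp.id))) (Cp.const 1)) ?_
  have c1 : Cp (∅ : Set (Set M)) (fun s : (((M × M) × M) × M) × M => s.1.1.1.2) :=
    Cp.snd (Cp.fst (Cp.fst (Cp.fst Cp.id)))
  have c2 : Cp (∅ : Set (Set M)) (fun s : (((M × M) × M) × M) × M => s.1.1.2) :=
    Cp.snd (Cp.fst (Cp.fst Cp.id))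
  have c3 : Cp (∅ : Set (Set M)) (fun s : (((M × M) × M) × M) × M => s.1.2) :=
    Cp.snd (Cp.fst Cp.id)
  have c4 : Cp (∅ : Set (Set M)) (fun s : (((M × M) × M) × M) × M => s.2) :=
    Cp.snd Cp.id
  have c5 : Cp (∅ : Set (Set M)) (fun s : (((M × M) × M) × M) × M => s.1.1.1.1) :=
    Cp.fst (Cp.fst (Cp.fst (Cp.fst Cp.id)))
  refine Dc.and (Dc.eq c1 (Code_Cp_pair c2 (Code_Cp_pair c3 c4))) (Dc.and (Dc.lt c5 c2) ?_)
  exact Dc.dvd (Cp.add (Cp.const 1) (Cp.mul (Cp.add c5 (Cp.const 1)) c4)) c3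

theorem Code_exists [IS1 (∅ : Set (Set M))] (𝒪 : Set (Set M)) (hI : IS1 𝒪) (P : M → Prop)
    (hP : Dc 𝒪 P) (n m : M) (hm0 : 0 < m) (hm : ∀ i, 0 < i → i ≤ n → i ∣ m) :
    ∃ a : M, 0 < a ∧ ∀ i < n, ((1 + (i + 1) * m) ∣ a ↔ i < n ∧ P i) := by
  have hpos : ∀ i : M, 0 < 1 + (i + 1) * m := fun i =>
    lt_of_lt_of_le zero_lt_one le_self_add
  have h1 : Sg 𝒪 (fun k : M => n < k ∨ ∃ a : M, 0 < a ∧ ∀ i < n,
      ((1 + (i + 1) * m) ∣ a ↔ i < k ∧ P i)) := by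
    refine Sg.or (Sg.lt (Cp.const n) Cp.id) ?_
    refine Sg.ex (P := fun p : M × M => 0 < p.2 ∧ ∀ i < n,
      ((1 + (i + 1) * m) ∣ p.2 ↔ i < p.1 ∧ P i)) ?_
    refine (Dc.and (Dc.lt (Cp.const 0) (Cp.snd Cp.id)) ?_).1
    refine Dc.ball (f := fun _ : M × M => n) (P := fun q : (M × M) × M =>
      ((1 + (q.2 + 1) * m) ∣ q.1.2 ↔ q.2 < q.1.1 ∧ P q.2)) (Cp.const n) ?_
    refine Dc.iff (Dc.dvd ?_ (Cp.snd (Cp.fst Cp.id)))
      (Dc.and (Dc.lt (Cp.snd Cp.id) (Cp.fst (Cp.fst Cp.id))) (Dc.comp hP (Cp.snd Cp.id)))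
    exact Cp.add (Cp.const 1) (Cp.mul (Cp.add (Cp.snd Cp.id) (Cp.const 1)) (Cp.const m))
  have h2 := ind_sg h1 (by
    refine Or.inr ⟨1, zero_lt_one, fun i hi => ?_⟩
    constructor
    · intro h
      have h3 := Code_le_of_dvd zero_lt_one h
      have h4 : 0 < (i + 1) * m := mul_pos (lt_of_lt_of_le zero_lt_one le_add_self) hm0
      exact absurd (lt_add_of_pos_right 1 h4) (not_lt.2 h3)
    · rintro ⟨h3, _⟩
      exact absurd h3 (by simp)) (by
    rintro k (hk | ⟨a, ha, hk⟩)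
    · exact Or.inl (hk.trans (lt_succ_iff.2 le_rfl))
    · by_cases hkn : n < k + 1
      · exact Or.inl hkn
      · have hkn' : k < n := lt_iff_succ_le.2 (not_lt.1 hkn)
        refine Or.inr ?_
        by_cases hPk : P k
        · refine ⟨a * (1 + (k + 1) * m), mul_pos ha (hpos k), fun i hi => ?_⟩
          by_cases hik : i = k
          · subst hik
            exact ⟨fun _ => ⟨lt_succ_iff.2 le_rfl, hPk⟩, fun _ => dvd_mul_left _ _⟩
          · have h3 : (1 + (i + 1) * m) ∣ a * (1 + (k + 1) * m) ↔ (1 + (i + 1) * m) ∣ a := by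
              constructor
              · intro h
                exact gauss (hpos i) (beta_coprime hm hi hkn' hik) h
              · intro h
                exact h.mul_right _
            rw [h3, hk i hi]
            constructor
            · rintro ⟨h4, h5⟩
              exact ⟨h4.trans (lt_succ_iff.2 le_rfl), h5⟩
            · rintro ⟨h4, h5⟩
              exact ⟨lt_of_le_of_ne (lt_succ_iff.1 h4) hik, h5⟩
        · refine ⟨a, ha, fun i hi => ?_⟩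
          rw [hk i hi]
          constructor
          · rintro ⟨h4, h5⟩
            exact ⟨h4.trans (lt_succ_iff.2 le_rfl), h5⟩
          · rintro ⟨h4, h5⟩
            refine ⟨lt_of_le_of_ne (lt_succ_iff.1 h4) ?_, h5⟩
            rintro rfl
            exact hPk h5) n
  rcases h2 with h2 | h2
  · exact absurd h2 (lt_irrefl _)
  · exact h2

theorem exists_code [IS1 (∅ : Set (Set M))] :
    ∃ E : M → M → Prop, Dc (∅ : Set (Set M)) (fun p : M × M => E p.1 p.2) ∧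
      (∀ i w, E i w → i < w) ∧
      ∀ (𝒪 : Set (Set M)) (_ : IS1 𝒪) (P : M → Prop), Dc 𝒪 P → ∀ n, ∃ w, ∀ i, E i w ↔ i < n ∧ P i := by
  refine ⟨Code_E, Code_E_dc, fun i w h => Code_E_lt h, ?_⟩
  intro 𝒪 hI P hP n
  obtain ⟨m, hm0, hm⟩ := exists_common_multiple n
  obtain ⟨a, ha, h⟩ := Code_exists 𝒪 hI P hP n m hm0 hm
  refine ⟨pair n (pair a m), fun i => ?_⟩
  rw [Code_E_pair]
  constructor
  · rintro ⟨h1, h2⟩
    exact (h i h1).1 h2
  · rintro ⟨h1, h2⟩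
    exact ⟨h1, (h i h1).2 ⟨h1, h2⟩⟩

end WI
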