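import Pool.Agent.Helper32.WI.DArith
import Pool.Agent.Helper32.WI.Code

/-! WI-B3: primitive recursion. -/

set_option linter.unusedSectionVars false
set_option linter.unusedVariables false

universe u

namespace WI

open Enc

variable {M : Type u} [CommSemiring M] [LinearOrder M] [PAM M]
variable {α β γ : Type u} [Enc M α] [Enc M β] [Enc M γ] {𝒪 : Set (Set M)}

theorem Rec_st_enc : St (fun a : α => (enc a : M)) := by
  refine ⟨⟨fun v => v 0, Tm.var 0, fun a => le_rfl⟩, ?_⟩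
  refine (Bdd.and ((Enc.rng (α := α)).sub1 (Tm.var 0)) (Bdd.eq (Tm.var 0) (Tm.var 1))).congr ?_
  intro v
  constructor
  · rintro ⟨a, h1, h2⟩
    exact ⟨⟨a, h1⟩, h1.symm.trans h2⟩
  · rintro ⟨⟨a, h1⟩, h2⟩
    exact ⟨a, h1, (show enc a = v 0 from h1).trans h2⟩

/-- Certificates for a primitive recursion. -/
def Rec_Cert (E : M → M → Prop) (a : α → β) (g : α × (M × β) → β) (x : α) (w : M) : Prop :=
  ∀ c < w, ¬ E c w ∨ ∃ q : M × β, c = enc q ∧
    ((q.1 = 0 ∧ q.2 = a x) ∨ ∃ q' : M × β, q.1 = q'.1 + 1 ∧ E (enc q') w ∧ q.2 = g (x, q'))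

theorem Rec_cert_sg [IS1 𝒪] {E : M → M → Prop}
    (hE : Dc (∅ : Set (Set M)) (fun p : M × M => E p.1 p.2)) {a : α → β} (ha : Cp 𝒪 a)
    {g : α × (M × β) → β} (hg : Cp 𝒪 g) :
    Sg 𝒪 (fun p : α × M => Rec_Cert E a g p.1 p.2) := by
  have hE1 : Sg 𝒪 (fun p : M × M => E p.1 p.2) := hE.1.mono (Set.empty_subset 𝒪)
  have hE2 : Sg 𝒪 (fun p : M × M => ¬ E p.1 p.2) := hE.2.mono (Set.empty_subset 𝒪)
  refine Sg.ball (α := α × M) (f := fun p => p.2) (P := fun r : (α × M) × M =>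
    ¬ E r.2 r.1.2 ∨ ∃ q : M × β, r.2 = enc q ∧
    ((q.1 = 0 ∧ q.2 = a r.1.1) ∨
      ∃ q' : M × β, q.1 = q'.1 + 1 ∧ E (enc q') r.1.2 ∧ q.2 = g (r.1.1, q'))) (Cp.snd Cp.id) ?_
  refine Sg.or ?_ ?_
  · exact Sg.comp hE2 (f := fun r : (α × M) × M => (r.2, r.1.2))
      (Cp.pair (Cp.snd Cp.id) (Cp.snd (Cp.fst Cp.id)))
  · refine Sg.ex (P := fun s : ((α × M) × M) × (M × β) => s.1.2 = enc s.2 ∧
      ((s.2.1 = 0 ∧ s.2.2 = a s.1.1.1) ∨
      ∃ q' : M × β, s.2.1 = q'.1 + 1 ∧ E (enc q') s.1.1.2 ∧ s.2.2 = g (s.1.1.1, q'))) ?_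
    refine Sg.and (Sg.eq (Cp.snd (Cp.fst Cp.id)) (Cp.comp (Cp.st Rec_st_enc) (Cp.snd Cp.id))) ?_
    refine Sg.or (Sg.and (Sg.eq (Cp.fst (Cp.snd Cp.id)) (Cp.const 0))
      (Sg.eq (Cp.snd (Cp.snd Cp.id)) (Cp.comp ha (Cp.fst (Cp.fst (Cp.fst Cp.id)))))) ?_
    refine Sg.ex (P := fun t : (((α × M) × M) × (M × β)) × (M × β) =>
      t.1.2.1 = t.2.1 + 1 ∧ E (enc t.2) t.1.1.1.2 ∧ t.1.2.2 = g (t.1.1.1.1, t.2)) ?_
    refine Sg.and (Sg.eq (Cp.fst (Cp.snd (Cp.fst Cp.id)))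
      (Cp.add (Cp.fst (Cp.snd Cp.id)) (Cp.const 1))) (Sg.and ?_ ?_)
    · exact Sg.comp hE1 (f := fun t : (((α × M) × M) × (M × β)) × (M × β) =>
        ((enc t.2 : M), t.1.1.1.2))
        (Cp.pair (Cp.comp (Cp.st Rec_st_enc) (Cp.snd Cp.id))
          (Cp.snd (Cp.fst (Cp.fst (Cp.fst Cp.id)))))
    · exact Sg.eq (Cp.snd (Cp.snd (Cp.fst Cp.id)))
        (Cp.comp hg (Cp.pair (Cp.fst (Cp.fst (Cp.fst (Cp.fst Cp.id)))) (Cp.snd Cp.id)))

theorem exists_rec [IS1 (∅ : Set (Set M))] [IS1 𝒪] {a : α → β} (ha : Cp 𝒪 a)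
    {g : α × (M × β) → β} (hg : Cp 𝒪 g) :
    ∃ f : α × M → β, Cp 𝒪 f ∧ (∀ x, f (x, 0) = a x) ∧
      ∀ x n, f (x, n + 1) = g (x, (n, f (x, n))) := by
  obtain ⟨E, hE, hlt, hcode⟩ := exists_code (M := M)
  have hC := Rec_cert_sg (𝒪 := 𝒪) hE ha hg
  have hE1 : Sg 𝒪 (fun p : M × M => E p.1 p.2) := hE.1.mono (Set.empty_subset 𝒪)
  have hEd : Dc 𝒪 (fun p : M × M => E p.1 p.2) :=
    ⟨hE1, hE.2.mono (Set.empty_subset 𝒪)⟩
  -- the relation
  set R : α → M → β → Prop := fun x i b => ∃ w : M, Rec_Cert E a g x w ∧ E (enc ((i, b) : M × β)) w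
    with hRdef
  have hRsg : Sg 𝒪 (fun p : (α × M) × β => R p.1.1 p.1.2 p.2) := by
    refine Sg.ex (P := fun q : ((α × M) × β) × M => Rec_Cert E a g q.1.1.1 q.2 ∧
      E (enc ((q.1.1.2, q.1.2) : M × β)) q.2) (Sg.and ?_ ?_)
    · exact Sg.comp hC (f := fun q : ((α × M) × β) × M => (q.1.1.1, q.2))
        (Cp.pair (Cp.fst (Cp.fst (Cp.fst Cp.id))) (Cp.snd Cp.id))
    · exact Sg.comp hE1 (f := fun q : ((α × M) × β) × M =>
        ((enc ((q.1.1.2, q.1.2) : M × β) : M), q.2))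
        (Cp.pair (Cp.comp (g := fun r : M × β => (enc r : M)) (Cp.st Rec_st_enc)
          (Cp.pair (Cp.snd (Cp.fst (Cp.fst Cp.id))) (Cp.snd (Cp.fst Cp.id)))) (Cp.snd Cp.id))
  -- elements of certificates
  have hcert : ∀ {x w}, Rec_Cert E a g x w → ∀ {i b}, E (enc ((i, b) : M × β)) w →
      (i = 0 ∧ b = a x) ∨ ∃ j b', i = j + 1 ∧ E (enc ((j, b') : M × β)) w ∧ b = g (x, (j, b')) := by
    intro x w hw i b hib
    rcases hw _ (hlt _ _ hib) with h | ⟨q, hq, h⟩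
    · exact absurd hib h
    · have hq' : (i, b) = q := inj hq
      subst hq'
      rcases h with h | ⟨q', h1, h2, h3⟩
      · exact Or.inl h
      · exact Or.inr ⟨q'.1, q'.2, h1, h2, h3⟩
  -- uniqueness
  have huniq : ∀ x, ∀ i, ∀ b b', R x i b → R x i b' → b = b' := by
    intro x
    refine ind_pi (𝒪 := 𝒪) (P := fun i => ∀ b b', R x i b → R x i b' → b = b') ?_ ?_ ?_
    · have h1 : Sg 𝒪 (fun i : M => ∃ b b', R x i b ∧ R x i b' ∧ b ≠ b') := by
        refine Sg.ex (P := fun p : M × β => ∃ b', R x p.1 p.2 ∧ R x p.1 b' ∧ p.2 ≠ b') ?_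
        refine Sg.ex (P := fun p : (M × β) × β => R x p.1.1 p.1.2 ∧ R x p.1.1 p.2 ∧ p.1.2 ≠ p.2) ?_
        refine Sg.and ?_ (Sg.and ?_ ?_)
        · exact Sg.comp hRsg (f := fun p : (M × β) × β => ((x, p.1.1), p.1.2))
            (Cp.pair (Cp.pair (Cp.const x) (Cp.fst (Cp.fst Cp.id))) (Cp.snd (Cp.fst Cp.id)))
        · exact Sg.comp hRsg (f := fun p : (M × β) × β => ((x, p.1.1), p.2))
            (Cp.pair (Cp.pair (Cp.const x) (Cp.fst (Cp.fst Cp.id))) (Cp.snd Cp.id))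
        · exact Sg.ne (Cp.snd (Cp.fst Cp.id)) (Cp.snd Cp.id)
      refine h1.congr fun i => ?_
      push Not
      rfl
    · rintro b b' ⟨w, hw, hwb⟩ ⟨w', hw', hwb'⟩
      have key : ∀ {w b}, Rec_Cert E a g x w → E (enc (((0 : M), b) : M × β)) w → b = a x := by
        intro w b hw hb
        rcases hcert hw hb with h | ⟨j, b', h, _⟩
        · exact h.2
        · exact absurd h.symm (by
            have : (0 : M) < j + 1 := lt_succ_iff.2 (zero_le (a := j))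
            exact this.ne')
      rw [key hw hwb, key hw' hwb']
    · intro i ih b b' ⟨w, hw, hwb⟩ ⟨w', hw', hwb'⟩
      have key : ∀ {w b}, Rec_Cert E a g x w → E (enc ((i + 1, b) : M × β)) w →
          ∃ c, E (enc ((i, c) : M × β)) w ∧ b = g (x, (i, c)) := by
        intro w b hw hb
        rcases hcert hw hb with ⟨h, _⟩ | ⟨j, c, h, h2, h3⟩
        · exact absurd h (by
            have : (0 : M) < i + 1 := lt_succ_iff.2 (zero_le (a := i))
            exact this.ne')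
        · have hij : i = j := add_right_cancel h
          subst hij
          exact ⟨c, h2, h3⟩
      obtain ⟨c, hc1, hc2⟩ := key hw hwb
      obtain ⟨c', hc1', hc2'⟩ := key hw' hwb'
      have : c = c' := ih c c' ⟨w, hw, hc1⟩ ⟨w', hw', hc1'⟩
      rw [hc2, hc2', this]
  -- base
  have hbase : ∀ x, R x 0 (a x) := by
    intro x
    obtain ⟨w, hw⟩ := hcode 𝒪 inferInstance (fun c => c = enc (((0 : M), a x) : M × β))
      (Dc.eq Cp.id (Cp.const _)) (enc (((0 : M), a x) : M × β) + 1)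
    refine ⟨w, ?_, (hw _).2 ⟨lt_succ_iff.2 le_rfl, rfl⟩⟩
    intro c _
    by_cases hc : E c w
    · right
      exact ⟨(0, a x), ((hw c).1 hc).2, Or.inl ⟨rfl, rfl⟩⟩
    · exact Or.inl hc
  -- step
  have hstep : ∀ x n b, R x n b → R x (n + 1) (g (x, (n, b))) := by
    rintro x n b ⟨w, hw, hwb⟩
    set c₀ : M := enc ((n + 1, g (x, (n, b))) : M × β) with hc0
    obtain ⟨w', hw'⟩ := hcode 𝒪 inferInstance (fun c => E c w ∨ c = c₀)
      (Dc.or (Dc.comp hEd (Cp.pair Cp.id (Cp.const w))) (Dc.eq Cp.id (Cp.const _))) (w + c₀ + 1)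
    have hsub : ∀ c, E c w → E c w' := by
      intro c hc
      refine (hw' c).2 ⟨?_, Or.inl hc⟩
      rw [lt_succ_iff]
      exact (hlt _ _ hc).le.trans le_self_add
    refine ⟨w', ?_, (hw' _).2 ⟨?_, Or.inr rfl⟩⟩
    · intro c _
      by_cases hc : E c w'
      · right
        rcases ((hw' c).1 hc).2 with h | h
        · rcases hw c (hlt _ _ h) with h1 | ⟨q, hq, h1⟩
          · exact absurd h h1
          · refine ⟨q, hq, ?_⟩
            rcases h1 with h1 | ⟨q', h2, h3, h4⟩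
            · exact Or.inl h1
            · exact Or.inr ⟨q', h2, hsub _ h3, h4⟩
        · exact ⟨(n + 1, g (x, (n, b))), h, Or.inr ⟨(n, b), rfl, hsub _ hwb, rfl⟩⟩
      · exact Or.inl hc
    · rw [lt_succ_iff]
      exact le_add_self
  -- existence
  have hex : ∀ x, ∀ n, ∃ b, R x n b := by
    intro x
    refine ind_sg (𝒪 := 𝒪) (P := fun n => ∃ b, R x n b) ?_ ⟨_, hbase x⟩ ?_
    · refine Sg.ex (P := fun p : M × β => R x p.1 p.2) ?_
      exact Sg.comp hRsg (f := fun p : M × β => ((x, p.1), p.2))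
        (Cp.pair (Cp.pair (Cp.const x) (Cp.fst Cp.id)) (Cp.snd Cp.id))
    · rintro n ⟨b, hb⟩
      exact ⟨_, hstep x n b hb⟩
  choose F hF using hex
  have hFu : ∀ x n b, R x n b ↔ b = F x n := fun x n b =>
    ⟨fun h => huniq x n _ _ h (hF x n), fun h => h ▸ hF x n⟩
  refine ⟨fun p => F p.1 p.2, ?_, ?_, ?_⟩
  · exact Cp.of_graph hRsg (fun p b => hFu p.1 p.2 b)
  · intro x
    exact ((hFu x 0 _).1 (hbase x)).symm
  · intro x n
    exact ((hFu x (n + 1) _).1 (hstep x n _ (hF x n))).symm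

end WI
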