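import Pool.Agent.Helper32.WI.DArith

/-! WI-A2: models, relativisation, Turing reducibility. -/

set_option linter.unusedSectionVars false
set_option linter.unusedVariables false

universe u

namespace WI

open Enc

variable {M : Type u} [CommSemiring M] [LinearOrder M] [PAM M]
variable {α β γ : Type u} [Enc M α] [Enc M β] [Enc M γ] {𝒪 : Set (Set M)}

theorem IS1.mono {𝒪 𝒪' : Set (Set M)} (h : 𝒪 ⊆ 𝒪') (h1 : IS1 𝒪') : IS1 𝒪 :=
  ⟨fun P hP h0 hs => h1.ind P (hP.mono h) h0 hs⟩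

theorem Dc.mono {𝒪 𝒪' : Set (Set M)} (h : 𝒪 ⊆ 𝒪') {P : α → Prop} (hP : Dc 𝒪 P) : Dc 𝒪' P :=
  ⟨hP.1.mono h, hP.2.mono h⟩

theorem Cp.mono {𝒪 𝒪' : Set (Set M)} (h : 𝒪 ⊆ 𝒪') {f : α → β} (hf : Cp 𝒪 f) : Cp 𝒪' f :=
  Sg.mono h hf

theorem RCA0.is1 {S 𝒪 : Set (Set M)} (hS : RCA0 S) (h : 𝒪 ⊆ S) : IS1 𝒪 :=
  ⟨fun P hP h0 hs => hS.ind P (hP.mono h) h0 hs⟩

theorem RCA0.mem_of_dc {S : Set (Set M)} (hS : RCA0 S) {P : M → Prop} (hP : Dc S P) :
    {x | P x} ∈ S := by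
  obtain ⟨⟨R, hR, h1⟩, ⟨R', hR', h2⟩⟩ := hP
  have h1' : ∀ x : M, P x ↔ ∃ y, R ![y, x] := h1
  have h2' : ∀ x : M, ¬ P x ↔ ∃ y, R' ![y, x] := h2
  have h3 := hS.comp R R' hR hR' (fun x => by rw [← h1' x, ← h2' x, not_not])
  have h4 : {x | P x} = {x | ∃ y, R ![y, x]} := Set.ext fun x => h1' x
  rw [h4]
  exact h3

/-- Terms of computable functions are computable. -/
theorem Reduc_tm {n : ℕ} {t : (Fin n → M) → M} (ht : Tm t) (f : Fin n → α → M)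
    (hf : ∀ i, Cp 𝒪 (f i)) : Cp 𝒪 (fun a => t (fun i => f i a)) := by
  induction ht with
  | var i => exact hf i
  | const c => exact Cp.const c
  | add _ _ h1 h2 => exact Cp.add h1 h2
  | mul _ _ h1 h2 => exact Cp.mul h1 h2

theorem Reduc_bdd {𝒪 𝒪' : Set (Set M)} [IS1 𝒪'] (h : ∀ X ∈ 𝒪, Dc 𝒪' (fun x : M => x ∈ X)) {n : ℕ}
    {P : (Fin n → M) → Prop} (hP : Bdd 𝒪 P) :
    ∀ (α : Type u) [Enc M α] (f : Fin n → α → M), (∀ i, Cp 𝒪' (f i)) →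
      Dc 𝒪' (fun a => P (fun i => f i a)) := by
  induction hP with
  | eq hs ht => intro α _ f hf; exact Dc.eq (Reduc_tm hs f hf) (Reduc_tm ht f hf)
  | lt hs ht => intro α _ f hf; exact Dc.lt (Reduc_tm hs f hf) (Reduc_tm ht f hf)
  | mem ht hX => intro α _ f hf; exact Dc.comp (h _ hX) (Reduc_tm ht f hf)
  | not _ ih => intro α _ f hf; exact (ih α f hf).not
  | and _ _ ih1 ih2 => intro α _ f hf; exact (ih1 α f hf).and (ih2 α f hf)
  | @ball n t ht P _ ih =>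
    intro α _ f hf
    have h1 := ih (α × M) (Fin.cons (fun p => p.2) (fun i p => f i p.1)) (by
      intro i
      refine Fin.cases ?_ ?_ i
      · exact Cp.snd Cp.id
      · intro j
        exact Cp.comp (g := f j) (f := fun p : α × M => p.1) (hf j) (Cp.fst Cp.id))
    have h2 : Dc 𝒪' (fun p : α × M => P (Fin.cons p.2 (fun i => f i p.1))) := by
      refine h1.congr fun p => ?_
      have h4 : (fun i => (Fin.cons (fun p => p.2) (fun i p => f i p.1) :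
          Fin (n + 1) → α × M → M) i p) = (Fin.cons p.2 (fun i => f i p.1) : Fin (n + 1) → M) := by
        funext i
        refine Fin.cases ?_ ?_ i
        · rfl
        · intro j
          rfl
      rw [h4]
    exact Dc.ball (f := fun a => t (fun i => f i a)) (Reduc_tm ht f hf) h2

/-- Bounded relations over oracles which are decidable in `𝒪'` are decidable in `𝒪'`. -/
theorem Bdd.dc {𝒪 𝒪' : Set (Set M)} [IS1 𝒪'] (h : ∀ X ∈ 𝒪, Dc 𝒪' (fun x : M => x ∈ X)) {n : ℕ}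
    {P : (Fin n → M) → Prop} (hP : Bdd 𝒪 P) (f : Fin n → α → M) (hf : ∀ i, Cp 𝒪' (f i)) :
    Dc 𝒪' (fun a => P (fun i => f i a)) :=
  Reduc_bdd h hP α f hf

theorem Reduc_enc : Cp 𝒪 (fun a : α => (enc a : M)) := by
  refine Cp.st ⟨⟨fun v => v 0, Tm.var 0, fun a => le_rfl⟩, ?_⟩
  refine (Bdd.and ((Enc.rng (α := α)).sub1 (Tm.var 0)) (Bdd.eq (Tm.var 0) (Tm.var 1))).congr ?_
  intro v
  constructor
  · rintro ⟨a, h1, h2⟩
    exact ⟨⟨a, h1⟩, h1.symm.trans h2⟩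
  · rintro ⟨⟨a, h1⟩, h2⟩
    exact ⟨a, h1, (show enc a = v 0 from h1).trans h2⟩

theorem Sg.trans {𝒪 𝒪' : Set (Set M)} [IS1 𝒪'] (h : ∀ X ∈ 𝒪, Dc 𝒪' (fun x : M => x ∈ X))
    {P : α → Prop} (hP : Sg 𝒪 P) : Sg 𝒪' P := by
  obtain ⟨R, hR, h1⟩ := hP
  have h2 := Bdd.dc (α := α × M) h hR ![fun p => p.2, fun p => enc p.1] (by
    intro i
    fin_cases i
    · exact Cp.snd Cp.id
    · exact Cp.comp (g := fun a : α => (enc a : M)) Reduc_enc (Cp.fst Cp.id))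
  refine (Sg.ex (β := M) (P := fun p : α × M => R ![p.2, enc p.1]) (h2.1.congr fun p => ?_)).congr
    fun a => h1 a
  have h4 : (fun i => (![fun p => p.2, fun p => enc p.1] : Fin 2 → α × M → M) i p) =
      ![p.2, enc p.1] := by
    funext i
    fin_cases i <;> rfl
  rw [h4]

theorem Dc.trans {𝒪 𝒪' : Set (Set M)} [IS1 𝒪'] (h : ∀ X ∈ 𝒪, Dc 𝒪' (fun x : M => x ∈ X))
    {P : α → Prop} (hP : Dc 𝒪 P) : Dc 𝒪' P :=
  ⟨hP.1.trans h, hP.2.trans h⟩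

theorem turing_iff {X Y : Set M} : TuringLE X Y ↔ Dc {Y} (fun x : M => x ∈ X) := by
  constructor
  · rintro ⟨P, Q, hP, hQ, h⟩
    exact ⟨⟨P, hP, fun x => (h x).1⟩, ⟨Q, hQ, fun x => (h x).2⟩⟩
  · rintro ⟨⟨P, hP, h1⟩, ⟨Q, hQ, h2⟩⟩
    exact ⟨P, Q, hP, hQ, fun x => ⟨h1 x, h2 x⟩⟩

theorem TuringLE.trans {X Y Z : Set M} [IS1 ({Z} : Set (Set M))] (h1 : TuringLE X Y)
    (h2 : TuringLE Y Z) : TuringLE X Z := by
  rw [turing_iff] at h1 h2 ⊢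
  refine Dc.trans (𝒪 := {Y}) ?_ h1
  intro W hW
  rw [Set.mem_singleton_iff] at hW
  rw [hW]
  exact h2

theorem TuringLE.of_dc {X : Set M} (h : Dc (∅ : Set (Set M)) (fun x : M => x ∈ X)) :
    TuringLE X ∅ :=
  turing_iff.2 (h.mono (Set.empty_subset _))

end WI
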