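import Pool.Agent.Helper32.WI.Cod
import Pool.Agent.Helper32.WI.Bits
import Pool.Agent.Helper32.WI.Rec
import Pool.Agent.Helper32.WI.Arith
import Pool.Agent.Helper32.WI.Reduc

/-! WI-C4: counting. -/

set_option linter.unusedSectionVars false
set_option linter.unusedVariables false

universe u

namespace WI

open Enc

variable {M : Type u} [CommSemiring M] [LinearOrder M] [PAM M]
variable {α β γ : Type u} [Enc M α] [Enc M β] [Enc M γ] {𝒪 : Set (Set M)}

variable [IS1 (∅ : Set (Set M))] [IS1 𝒪]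

open Classical in
theorem Cnt_card : Cp (∅ : Set (Set M)) (card (M := M)) ∧ (∀ x : M, card (x, 0) = 0) ∧
    ∀ x n : M, card (x, n + 1) = card (x, n) + (if Bit x n then 1 else 0) := by
  have hg : Cp (∅ : Set (Set M)) (fun p : M × (M × M) => p.2.2 + (if Bit p.1 p.2.1 then 1 else 0)) := by
    refine Cp.add (Cp.snd (Cp.snd Cp.id)) ?_
    exact Cp.ite (P := fun p : M × (M × M) => Bit p.1 p.2.1)
      (Dc.bit (Cp.fst Cp.id) (Cp.fst (Cp.snd Cp.id))) (Cp.const 1) (Cp.const 0)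
  obtain ⟨f, hf, h0, hs⟩ := exists_rec (𝒪 := (∅ : Set (Set M))) (a := fun _ : M => (0 : M))
    (Cp.const 0) hg
  have h : ∃ f : M × M → M, Cp (∅ : Set (Set M)) f ∧ (∀ x, f (x, 0) = 0) ∧
      ∀ x n, f (x, n + 1) = f (x, n) + (if Bit x n then 1 else 0) := ⟨f, hf, h0, hs⟩
  have hc : (card (M := M)) = Classical.choose h := by
    unfold card
    rw [dif_pos h]
  rw [hc]
  exact Classical.choose_spec h

theorem Cnt_card_congr {x y : M} (n : M) :
    (∀ i < n, (Bit x i ↔ Bit y i)) → card (x, n) = card (y, n) := by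
  obtain ⟨hcp, h0, hs⟩ := Cnt_card (M := M)
  refine ind_dc (𝒪 := (∅ : Set (Set M)))
    (P := fun n : M => (∀ i < n, (Bit x i ↔ Bit y i)) → card (x, n) = card (y, n)) ?_ ?_ ?_ n
  · refine Dc.imp (Dc.ball (f := fun n : M => n) (P := fun p : M × M => (Bit x p.2 ↔ Bit y p.2))
      Cp.id ?_) ?_
    · exact Dc.iff (Dc.bit (Cp.const x) (Cp.snd Cp.id)) (Dc.bit (Cp.const y) (Cp.snd Cp.id))
    · exact Dc.eq (Cp.comp hcp (Cp.pair (Cp.const x) Cp.id)) (Cp.comp hcp (Cp.pair (Cp.const y) Cp.id))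
  · intro _
    rw [h0, h0]
  · intro m ih h
    have h1 := ih (fun i hi => h i (hi.trans (lt_succ_iff.2 le_rfl)))
    have h2 := h m (lt_succ_iff.2 le_rfl)
    rw [hs, hs, h1]
    by_cases h3 : Bit x m
    · rw [if_pos h3, if_pos (h2.1 h3)]
    · rw [if_neg h3, if_neg (fun h4 => h3 (h2.2 h4))]

theorem cnt_zero (P : M → Prop) : cnt P 0 = 0 := (Cnt_card (M := M)).2.1 _

theorem Cnt_step {P : M → Prop} (hP : Dc 𝒪 P) (n : M) :
    (P n ∧ cnt P (n + 1) = cnt P n + 1) ∨ (¬ P n ∧ cnt P (n + 1) = cnt P n) := by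
  obtain ⟨hcp, h0, hs⟩ := Cnt_card (M := M)
  have h1 : card (cod P (n + 1), n) = card (cod P n, n) := by
    refine Cnt_card_congr n fun i hi => ?_
    rw [bit_cod hP.1, bit_cod hP.1]
    constructor
    · rintro ⟨_, h⟩
      exact ⟨hi, h⟩
    · rintro ⟨_, h⟩
      exact ⟨hi.trans (lt_succ_iff.2 le_rfl), h⟩
  have h2 : Bit (cod P (n + 1)) n ↔ P n := by
    rw [bit_cod hP.1]
    exact ⟨fun h => h.2, fun h => ⟨lt_succ_iff.2 le_rfl, h⟩⟩
  have h3 : cnt P (n + 1) = card (cod P (n + 1), n + 1) := rfl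
  have h4 : cnt P n = card (cod P n, n) := rfl
  by_cases h : P n
  · left
    refine ⟨h, ?_⟩
    rw [h3, hs, h1, if_pos (h2.2 h), h4]
  · right
    refine ⟨h, ?_⟩
    rw [h3, hs, h1, if_neg (fun h' => h (h2.1 h')), h4, add_zero]

theorem cnt_succ_of {P : M → Prop} (hP : Dc 𝒪 P) {n : M} (h : P n) : cnt P (n + 1) = cnt P n + 1 := by
  rcases Cnt_step hP n with h1 | h1
  · exact h1.2
  · exact absurd h h1.1

theorem cnt_succ_of_not {P : M → Prop} (hP : Dc 𝒪 P) {n : M} (h : ¬ P n) :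
    cnt P (n + 1) = cnt P n := by
  rcases Cnt_step hP n with h1 | h1
  · exact absurd h1.1 h
  · exact h1.2

theorem Cp.cnt {P : α × M → Prop} (hP : Dc 𝒪 P) {f : α → M} (hf : Cp 𝒪 f) :
    Cp 𝒪 (fun a => cnt (fun i => P (a, i)) (f a)) :=
  Cp.comp (Cp.mono (Set.empty_subset _) (Cnt_card (M := M)).1) (Cp.pair (Cp.cod hP hf) hf)

theorem Cnt_cp {P : M → Prop} (hP : Dc 𝒪 P) : Cp 𝒪 (fun n : M => cnt P n) :=
  Cp.cnt (P := fun p : M × M => P p.2) (Dc.comp hP (Cp.snd Cp.id)) Cp.id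

theorem cnt_congr {P Q : M → Prop} {n : M} (h : ∀ i < n, P i ↔ Q i) : cnt P n = cnt Q n := by
  unfold cnt
  rw [cod_congr h]

theorem cnt_le {P : M → Prop} (hP : Dc 𝒪 P) (n : M) : cnt P n ≤ n := by
  refine ind_dc (𝒪 := 𝒪) (P := fun n : M => WI.cnt P n ≤ n) (Dc.le (Cnt_cp hP) Cp.id) ?_ ?_ n
  · rw [cnt_zero]
  · intro m ih
    rcases Cnt_step hP m with h1 | h1
    · rw [h1.2]
      exact add_le_add_left ih 1
    · rw [h1.2]
      exact ih.trans (lt_succ_iff.2 le_rfl).le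

theorem cnt_mono {P Q : M → Prop} (hP : Dc 𝒪 P) (hQ : Dc 𝒪 Q) {n : M} (h : ∀ i < n, P i → Q i) :
    cnt P n ≤ cnt Q n := by
  have key : ∀ n : M, (∀ i < n, P i → Q i) → WI.cnt P n ≤ WI.cnt Q n := by
    intro n
    refine ind_dc (𝒪 := 𝒪) (P := fun n : M => (∀ i < n, P i → Q i) → WI.cnt P n ≤ WI.cnt Q n)
      ?_ ?_ ?_ n
    · refine Dc.imp (Dc.ball (f := fun n : M => n) (P := fun p : M × M => (P p.2 → Q p.2))
        Cp.id ?_) (Dc.le (Cnt_cp hP) (Cnt_cp hQ))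
      exact Dc.imp (Dc.comp hP (Cp.snd Cp.id)) (Dc.comp hQ (Cp.snd Cp.id))
    · intro _
      rw [cnt_zero, cnt_zero]
    · intro m ih h
      have h1 := ih (fun i hi => h i (hi.trans (lt_succ_iff.2 le_rfl)))
      rcases Cnt_step hP m with h2 | h2 <;> rcases Cnt_step hQ m with h3 | h3
      · rw [h2.2, h3.2]
        exact add_le_add_left h1 1
      · exact absurd (h m (lt_succ_iff.2 le_rfl) h2.1) h3.1
      · rw [h2.2, h3.2]
        exact h1.trans (lt_succ_iff.2 le_rfl).le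
      · rw [h2.2, h3.2]
        exact h1
  exact key n h

theorem cnt_disj {P Q : M → Prop} (hP : Dc 𝒪 P) (hQ : Dc 𝒪 Q) {n : M} (h : ∀ i < n, P i → ¬ Q i) :
    cnt P n + cnt Q n = cnt (fun i => P i ∨ Q i) n := by
  have hR : Dc 𝒪 (fun i => P i ∨ Q i) := Dc.or hP hQ
  have key : ∀ n : M, (∀ i < n, P i → ¬ Q i) →
      WI.cnt P n + WI.cnt Q n = WI.cnt (fun i => P i ∨ Q i) n := by
    intro n
    refine ind_dc (𝒪 := 𝒪) (P := fun n : M => (∀ i < n, P i → ¬ Q i) →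
      WI.cnt P n + WI.cnt Q n = WI.cnt (fun i => P i ∨ Q i) n) ?_ ?_ ?_ n
    · refine Dc.imp (Dc.ball (f := fun n : M => n) (P := fun p : M × M => (P p.2 → ¬ Q p.2))
        Cp.id ?_) (Dc.eq (Cp.add (Cnt_cp hP) (Cnt_cp hQ)) (Cnt_cp hR))
      exact Dc.imp (Dc.comp hP (Cp.snd Cp.id)) (Dc.not (Dc.comp hQ (Cp.snd Cp.id)))
    · intro _
      rw [cnt_zero, cnt_zero, cnt_zero, add_zero]
    · intro m ih h
      have h1 := ih (fun i hi => h i (hi.trans (lt_succ_iff.2 le_rfl)))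
      rcases Cnt_step hP m with h2 | h2 <;> rcases Cnt_step hQ m with h3 | h3
      · exact absurd h3.1 (h m (lt_succ_iff.2 le_rfl) h2.1)
      · rw [h2.2, h3.2, cnt_succ_of hR (Or.inl h2.1), ← h1]
        ring
      · rw [h2.2, h3.2, cnt_succ_of hR (Or.inr h3.1), ← h1]
        ring
      · rw [h2.2, h3.2, cnt_succ_of_not hR (by rintro (h4 | h4); exacts [h2.1 h4, h3.1 h4]), ← h1]
  exact key n h

theorem cnt_or {P Q : M → Prop} (hP : Dc 𝒪 P) (hQ : Dc 𝒪 Q) (n : M) :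
    cnt (fun i => P i ∨ Q i) n ≤ cnt P n + cnt Q n := by
  have hR : Dc 𝒪 (fun i => P i ∨ Q i) := Dc.or hP hQ
  refine ind_dc (𝒪 := 𝒪) (P := fun n : M =>
    WI.cnt (fun i => P i ∨ Q i) n ≤ WI.cnt P n + WI.cnt Q n)
    (Dc.le (Cnt_cp hR) (Cp.add (Cnt_cp hP) (Cnt_cp hQ))) ?_ ?_ n
  · rw [cnt_zero, cnt_zero, cnt_zero, add_zero]
  · intro m ih
    have e1 : WI.cnt P m + 1 + WI.cnt Q m = WI.cnt P m + WI.cnt Q m + 1 := by ring
    have e2 : WI.cnt P m + (WI.cnt Q m + 1) = WI.cnt P m + WI.cnt Q m + 1 := by ring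
    have e3 : WI.cnt P m + 1 + (WI.cnt Q m + 1) = WI.cnt P m + WI.cnt Q m + 1 + 1 := by ring
    rcases Cnt_step hP m with h2 | h2 <;> rcases Cnt_step hQ m with h3 | h3
    · rw [h2.2, h3.2, cnt_succ_of hR (Or.inl h2.1), e3]
      exact (add_le_add_left ih 1).trans (lt_succ_iff.2 le_rfl).le
    · rw [h2.2, h3.2, cnt_succ_of hR (Or.inl h2.1), e1]
      exact add_le_add_left ih 1
    · rw [h2.2, h3.2, cnt_succ_of hR (Or.inr h3.1), e2]
      exact add_le_add_left ih 1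
    · rw [h2.2, h3.2, cnt_succ_of_not hR (by rintro (h4 | h4); exacts [h2.1 h4, h3.1 h4])]
      exact ih

theorem exists_of_cnt_lt {P : M → Prop} (hP : Dc 𝒪 P) {n : M} (h : cnt P n < n) : ∃ i < n, ¬ P i := by
  have key : ∀ n : M, (∀ i < n, P i) → WI.cnt P n = n := by
    intro n
    refine ind_dc (𝒪 := 𝒪) (P := fun n : M => (∀ i < n, P i) → WI.cnt P n = n) ?_ ?_ ?_ n
    · exact Dc.imp (Dc.ball (f := fun n : M => n) (P := fun p : M × M => P p.2)
        Cp.id (Dc.comp hP (Cp.snd Cp.id))) (Dc.eq (Cnt_cp hP) Cp.id)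
    · intro _
      exact cnt_zero P
    · intro m ih h
      rw [cnt_succ_of hP (h m (lt_succ_iff.2 le_rfl)),
        ih (fun i hi => h i (hi.trans (lt_succ_iff.2 le_rfl)))]
  by_contra hcon
  push Not at hcon
  exact absurd (key n hcon) h.ne

theorem cnt_eq_zero {P : M → Prop} (hP : Dc 𝒪 P) {n : M} (h : ∀ i < n, ¬ P i) : cnt P n = 0 := by
  have key : ∀ n : M, (∀ i < n, ¬ P i) → WI.cnt P n = 0 := by
    intro n
    refine ind_dc (𝒪 := 𝒪) (P := fun n : M => (∀ i < n, ¬ P i) → WI.cnt P n = 0) ?_ ?_ ?_ n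
    · exact Dc.imp (Dc.ball (f := fun n : M => n) (P := fun p : M × M => ¬ P p.2)
        Cp.id (Dc.not (Dc.comp hP (Cp.snd Cp.id)))) (Dc.eq (Cnt_cp hP) (Cp.const 0))
    · intro _
      exact cnt_zero P
    · intro m ih h
      rw [cnt_succ_of_not hP (h m (lt_succ_iff.2 le_rfl)),
        ih (fun i hi => h i (hi.trans (lt_succ_iff.2 le_rfl)))]
  exact key n h

theorem cnt_add {P : M → Prop} (hP : Dc 𝒪 P) (n m : M) :
    cnt P (n + m) = cnt P n + cnt (fun i => P (n + i)) m := by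
  have hR : Dc 𝒪 (fun i => P (n + i)) := Dc.comp hP (Cp.add (Cp.const n) Cp.id)
  refine ind_dc (𝒪 := 𝒪) (P := fun m : M =>
    WI.cnt P (n + m) = WI.cnt P n + WI.cnt (fun i => P (n + i)) m) ?_ ?_ ?_ m
  · exact Dc.eq (Cp.comp (Cnt_cp hP) (Cp.add (Cp.const n) Cp.id)) (Cp.add (Cp.const _) (Cnt_cp hR))
  · rw [add_zero, cnt_zero, add_zero]
  · intro m ih
    rw [← add_assoc]
    by_cases h : P (n + m)
    · rw [cnt_succ_of hP h, cnt_succ_of hR h, ih]
      ring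
    · rw [cnt_succ_of_not hP h, cnt_succ_of_not hR h, ih]

/-- At most one element. -/
theorem cnt_le_one {P : M → Prop} (hP : Dc 𝒪 P) {n : M} (h : ∀ i < n, ∀ j < n, P i → P j → i = j) :
    cnt P n ≤ 1 := by
  have key : ∀ n : M, (∀ i < n, ∀ j < n, P i → P j → i = j) → WI.cnt P n ≤ 1 := by
    intro n
    refine ind_dc (𝒪 := 𝒪) (P := fun n : M => (∀ i < n, ∀ j < n, P i → P j → i = j) →
      WI.cnt P n ≤ 1) ?_ ?_ ?_ n
    · refine Dc.imp (Dc.ball (f := fun n : M => n)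
        (P := fun p : M × M => ∀ j < p.1, P p.2 → P j → p.2 = j) Cp.id ?_)
        (Dc.le (Cnt_cp hP) (Cp.const 1))
      refine Dc.ball (f := fun p : M × M => p.1)
        (P := fun q : (M × M) × M => P q.1.2 → P q.2 → q.1.2 = q.2) (Cp.fst Cp.id) ?_
      exact Dc.imp (Dc.comp hP (Cp.snd (Cp.fst Cp.id))) (Dc.imp (Dc.comp hP (Cp.snd Cp.id))
        (Dc.eq (Cp.snd (Cp.fst Cp.id)) (Cp.snd Cp.id)))
    · intro _
      rw [cnt_zero]
      exact zero_le
    · intro m ih h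
      by_cases hm : P m
      · rw [cnt_succ_of hP hm, cnt_eq_zero hP (n := m) ?_, zero_add]
        intro i hi hi'
        have := h i (hi.trans (lt_succ_iff.2 le_rfl)) m (lt_succ_iff.2 le_rfl) hi' hm
        exact absurd this hi.ne
      · rw [cnt_succ_of_not hP hm]
        exact ih (fun i hi j hj => h i (hi.trans (lt_succ_iff.2 le_rfl)) j
          (hj.trans (lt_succ_iff.2 le_rfl)))
  exact key n h

end WI
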