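import Pool.Agent.Helper32.WI.Arith
import Pool.Agent.Helper32.WI.Pow
import Pool.Agent.Helper32.WI.Cnt

/-! WI-C5: counting, blocks and union bounds. -/

set_option linter.unusedSectionVars false
set_option linter.unusedVariables false

universe u

namespace WI

open Enc

variable {M : Type u} [CommSemiring M] [LinearOrder M] [PAM M]
variable {α β γ : Type u} [Enc M α] [Enc M β] [Enc M γ] {𝒪 : Set (Set M)}

variable [IS1 (∅ : Set (Set M))] [IS1 𝒪]

theorem Cnt2_block_dc {P : M × M → Prop} (hP : Dc 𝒪 P) (K : M) :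
    Dc 𝒪 (fun z => P (dv z K, md z K)) :=
  Dc.comp hP (Cp.pair (Cp.dv Cp.id (Cp.const K)) (Cp.md Cp.id (Cp.const K)))

theorem Cnt2_block_cp {P : M × M → Prop} (hP : Dc 𝒪 P) (K : M) {f : α → M} (hf : Cp 𝒪 f) :
    Cp 𝒪 (fun a => cnt (fun z => P (dv z K, md z K)) (f a)) :=
  Cp.cnt (P := fun p : α × M => P (dv p.2 K, md p.2 K))
    (Dc.comp (Cnt2_block_dc hP K) (Cp.snd Cp.id)) hf

theorem Cnt2_fib_dc {P : M × M → Prop} (hP : Dc 𝒪 P) (b : M) : Dc 𝒪 (fun r => P (b, r)) :=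
  Dc.comp hP (Cp.pair (Cp.const b) Cp.id)

theorem Cnt2_ex_dc {P : M × M → Prop} (hP : Dc 𝒪 P) :
    Dc 𝒪 (fun p : M × M => ∃ e < p.1, P (e, p.2)) :=
  Dc.bex (f := fun p : M × M => p.1) (P := fun q : (M × M) × M => P (q.2, q.1.2)) (Cp.fst Cp.id)
    (Dc.comp hP (Cp.pair (Cp.snd Cp.id) (Cp.snd (Cp.fst Cp.id))))

/-- Periodic predicates. -/
theorem cnt_per {P : M → Prop} (hP : Dc 𝒪 P) {K : M} (hK : 0 < K) (q : M) :
    cnt (fun r => P (md r K)) (K * q) = cnt P K * q := by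
  have hP' : Dc 𝒪 (fun r => P (md r K)) := Dc.comp hP (Cp.md Cp.id (Cp.const K))
  have h1 : Dc 𝒪 (fun q : M => cnt (fun r => P (md r K)) (K * q) = cnt P K * q) := by
    refine Dc.eq ?_ (Cp.mul (Cp.const _) Cp.id)
    exact Cp.cnt (P := fun p : M × M => P (md p.2 K)) (Dc.comp hP' (Cp.snd Cp.id))
      (Cp.mul (Cp.const K) Cp.id)
  refine ind_dc h1 ?_ ?_ q
  · rw [mul_zero, mul_zero, cnt_zero]
  · intro q ih
    rw [mul_add, mul_one, cnt_add hP', ih, mul_add, mul_one]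
    congr 1
    refine cnt_congr fun i hi => ?_
    rw [(dv_md_unique hi rfl).2]

/-- Blocks of length `K`. -/
theorem cnt_block {P : M × M → Prop} (hP : Dc 𝒪 P) {K : M} (hK : 0 < K) (b : M) :
    cnt (fun z => P (dv z K, md z K)) ((b + 1) * K) =
      cnt (fun z => P (dv z K, md z K)) (b * K) + cnt (fun r => P (b, r)) K := by
  rw [add_mul, one_mul, cnt_add (Cnt2_block_dc hP K)]
  congr 1
  refine cnt_congr fun i hi => ?_
  have h := dv_md_unique (a := b * K + i) hi (by rw [mul_comm])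
  rw [h.1, h.2]

/-- Union bound for a block count. -/
theorem cnt_ex_le {P : M × M → Prop} (hP : Dc 𝒪 P) {K : M} (hK : 0 < K) (b : M) :
    cnt (fun r => ∃ e < b, P (e, r)) K ≤ cnt (fun z => P (dv z K, md z K)) (b * K) := by
  have hE := Cnt2_ex_dc hP
  have hE' : ∀ b : M, Dc 𝒪 (fun r => ∃ e < b, P (e, r)) := fun b =>
    Dc.comp hE (f := fun r : M => (b, r)) (Cp.pair (Cp.const b) Cp.id)
  have h1 : Dc 𝒪 (fun b : M => cnt (fun r => ∃ e < b, P (e, r)) K ≤
      cnt (fun z => P (dv z K, md z K)) (b * K)) := by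
    refine Dc.le ?_ (Cnt2_block_cp hP K (Cp.mul Cp.id (Cp.const K)))
    exact Cp.cnt hE (Cp.const K)
  refine ind_dc h1 ?_ ?_ b
  · rw [cnt_eq_zero (hE' 0) (fun i _ h => by
      obtain ⟨e, he, _⟩ := h
      exact not_lt_zero' e he)]
    exact zero_le
  · intro b ih
    have h2 : cnt (fun r => ∃ e < b + 1, P (e, r)) K =
        cnt (fun r => (∃ e < b, P (e, r)) ∨ P (b, r)) K := by
      refine cnt_congr fun i _ => ?_
      constructor
      · rintro ⟨e, he, h⟩
        rcases eq_or_lt_of_le (lt_succ_iff.1 he) with h3 | h3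
        · subst h3
          exact Or.inr h
        · exact Or.inl ⟨e, h3, h⟩
      · rintro (⟨e, he, h⟩ | h)
        · exact ⟨e, he.trans (lt_succ_iff.2 le_rfl), h⟩
        · exact ⟨b, lt_succ_iff.2 le_rfl, h⟩
    rw [h2, cnt_block hP hK]
    exact (cnt_or (hE' b) (Cnt2_fib_dc hP b) K).trans (add_le_add ih le_rfl)

/-- If each block contains at most `d e` elements... Doubling: a block count over `2K` dominates
twice the block count over `K`. -/
theorem cnt_block_double {P Q : M × M → Prop} (hP : Dc 𝒪 P) (hQ : Dc 𝒪 Q) {K : M} (hK : 0 < K) (b : M)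
    (h : ∀ e < b, ∀ r < 2 * K, P (e, md r K) → Q (e, r)) :
    2 * cnt (fun z => P (dv z K, md z K)) (b * K) ≤
      cnt (fun z => Q (dv z (2 * K), md z (2 * K))) (b * (2 * K)) := by
  have hK2 : 0 < 2 * K := mul_pos zero_lt_two hK
  have h1 : Dc 𝒪 (fun b : M => 2 * cnt (fun z => P (dv z K, md z K)) (b * K) ≤
      cnt (fun z => Q (dv z (2 * K), md z (2 * K))) (b * (2 * K))) :=
    Dc.le (Cp.mul (Cp.const 2) (Cnt2_block_cp hP K (Cp.mul Cp.id (Cp.const K))))
      (Cnt2_block_cp hQ (2 * K) (Cp.mul Cp.id (Cp.const (2 * K))))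
  refine ind_dc_le h1 b ?_ ?_ b le_rfl
  · rw [zero_mul, zero_mul, cnt_zero, mul_zero]
    exact zero_le
  · intro x hx ih
    rw [cnt_block hP hK, cnt_block hQ hK2, mul_add]
    refine add_le_add ih ?_
    have h2 : cnt (fun r => P (x, md r K)) (K * 2) = cnt (fun r => P (x, r)) K * 2 :=
      cnt_per (P := fun r => P (x, r)) (Cnt2_fib_dc hP x) hK 2
    rw [mul_comm, ← h2, mul_comm K 2]
    refine cnt_mono ?_ (Cnt2_fib_dc hQ x) fun r hr => h x hx r hr
    exact Dc.comp hP (Cp.pair (Cp.const x) (Cp.md Cp.id (Cp.const K)))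

/-- The geometric union bound. -/
theorem cnt_geom {P : M × M → Prop} (hP : Dc 𝒪 P) (k n B : M)
    (h : ∀ b < B, cnt (fun i => P (b, i)) n * pow2 (b + k + 1) ≤ n) :
    cnt (fun i => ∃ b < B, P (b, i)) n * pow2 k ≤ n := by
  have hE := Cnt2_ex_dc hP
  have hE' : ∀ b : M, Dc 𝒪 (fun r => ∃ e < b, P (e, r)) := fun b =>
    Dc.comp hE (f := fun r : M => (b, r)) (Cp.pair (Cp.const b) Cp.id)
  have h1 : Dc 𝒪 (fun b : M => cnt (fun i => ∃ e < b, P (e, i)) n * pow2 (b + k) + n ≤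
      n * pow2 b) := by
    refine Dc.le (Cp.add (Cp.mul ?_ (Cp.pow2 (Cp.add Cp.id (Cp.const k)))) (Cp.const n))
      (Cp.mul (Cp.const n) (Cp.pow2 Cp.id))
    exact Cp.cnt hE (Cp.const n)
  have h2 := ind_dc_le h1 B (by
    rw [cnt_eq_zero (hE' 0) (fun i _ h => by
      obtain ⟨e, he, _⟩ := h
      exact not_lt_zero' e he), zero_mul, zero_add, pow2_zero, mul_one]) (by
    intro b hb ih
    have h2 : cnt (fun r => ∃ e < b + 1, P (e, r)) n =
        cnt (fun r => (∃ e < b, P (e, r)) ∨ P (b, r)) n := by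
      refine cnt_congr fun i _ => ?_
      constructor
      · rintro ⟨e, he, h⟩
        rcases eq_or_lt_of_le (lt_succ_iff.1 he) with h3 | h3
        · subst h3
          exact Or.inr h
        · exact Or.inl ⟨e, h3, h⟩
      · rintro (⟨e, he, h⟩ | h)
        · exact ⟨e, he.trans (lt_succ_iff.2 le_rfl), h⟩
        · exact ⟨b, lt_succ_iff.2 le_rfl, h⟩
    have h3 := cnt_or (hE' b) (Cnt2_fib_dc hP b) n
    have h4 := h b hb
    have h5 : pow2 (b + 1 + k) = 2 * pow2 (b + k) := by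
      rw [← pow2_succ]
      congr 1
      ring
    have h6 : pow2 (b + k + 1) = 2 * pow2 (b + k) := pow2_succ _
    rw [h2]
    rw [h6] at h4
    calc cnt (fun r => (∃ e < b, P (e, r)) ∨ P (b, r)) n * pow2 (b + 1 + k) + n
        ≤ (cnt (fun r => ∃ e < b, P (e, r)) n + cnt (fun r => P (b, r)) n) *
            (2 * pow2 (b + k)) + n := by
          rw [h5]
          exact add_le_add (mul_le_mul' h3 le_rfl) le_rfl
      _ = 2 * (cnt (fun r => ∃ e < b, P (e, r)) n * pow2 (b + k)) +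
            cnt (fun r => P (b, r)) n * (2 * pow2 (b + k)) + n := by ring
      _ ≤ 2 * (cnt (fun r => ∃ e < b, P (e, r)) n * pow2 (b + k)) + n + n :=
          add_le_add (add_le_add le_rfl h4) le_rfl
      _ = 2 * (cnt (fun r => ∃ e < b, P (e, r)) n * pow2 (b + k) + n) := by ring
      _ ≤ 2 * (n * pow2 b) := mul_le_mul' le_rfl ih
      _ = n * pow2 (b + 1) := by rw [pow2_succ]; ring) B le_rfl
  refine le_of_mul_le_mul_right ?_ (pow2_pos B)
  calc cnt (fun i => ∃ b < B, P (b, i)) n * pow2 k * pow2 B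
      = cnt (fun i => ∃ b < B, P (b, i)) n * pow2 (B + k) := by rw [pow2_add]; ring
    _ ≤ cnt (fun i => ∃ b < B, P (b, i)) n * pow2 (B + k) + n := le_self_add
    _ ≤ n * pow2 B := h2

end WI
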