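import Pool.Agent.Helper32.WI.DArith
import Pool.Agent.Helper32.WI.Arith
import Pool.Agent.Helper32.WI.Reduc
import Pool.Agent.Helper32.WI.Pow
import Pool.Agent.Helper32.WI.Bits

/-! WI-C3: bounded comprehension, restrictions of sets, strong bounding. -/

set_option linter.unusedSectionVars false
set_option linter.unusedVariables false

universe u

namespace WI

open Enc

variable {M : Type u} [CommSemiring M] [LinearOrder M] [PAM M]
variable {α β γ : Type u} [Enc M α] [Enc M β] [Enc M γ] {𝒪 : Set (Set M)}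

variable [IS1 (∅ : Set (Set M))]

section

variable [IS1 𝒪]

theorem cod_lt (P : M → Prop) (n : M) : cod P n < pow2 n := by
  unfold cod
  split_ifs with h
  · exact (Classical.choose_spec h).1
  · exact pow2_pos n

theorem cod_congr {P Q : M → Prop} {n : M} (h : ∀ i < n, P i ↔ Q i) : cod P n = cod Q n := by
  have h1 : (fun w : M => w < pow2 n ∧ ∀ i, Bit w i ↔ i < n ∧ P i) =
      (fun w : M => w < pow2 n ∧ ∀ i, Bit w i ↔ i < n ∧ Q i) := by
    funext w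
    apply propext
    refine and_congr_right fun _ => forall_congr' fun i => ?_
    have h2 : (i < n ∧ P i) ↔ (i < n ∧ Q i) := and_congr_right fun hi => h i hi
    rw [h2]
  unfold cod
  by_cases h3 : ∃ w : M, w < pow2 n ∧ ∀ i, Bit w i ↔ i < n ∧ P i
  · have h4 : ∃ w : M, w < pow2 n ∧ ∀ i, Bit w i ↔ i < n ∧ Q i := by
      obtain ⟨w, hw⟩ := h3
      exact ⟨w, by
        have := congrFun h1 w
        exact this ▸ hw⟩
    rw [dif_pos h3, dif_pos h4]
    congr 1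
  · have h4 : ¬ ∃ w : M, w < pow2 n ∧ ∀ i, Bit w i ↔ i < n ∧ Q i := by
      rintro ⟨w, hw⟩
      exact h3 ⟨w, by
        have := congrFun h1 w
        exact this ▸ hw⟩
    rw [dif_neg h3, dif_neg h4]

theorem Cod_exists {P : M → Prop} (hP : Sg 𝒪 P) (n : M) :
    ∃ w : M, w < pow2 n ∧ ∀ i, Bit w i ↔ i < n ∧ P i := by
  have hQ : Sg 𝒪 (fun w : M => w < pow2 n ∧ ∀ i < n, (¬ Bit w i ∨ P i)) := by
    refine Sg.and (Sg.lt Cp.id (Cp.const _)) ?_
    refine Sg.ball (P := fun p : M × M => ¬ Bit p.1 p.2 ∨ P p.2) (Cp.const n) ?_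
    exact Sg.or (Dc.bit (Cp.fst Cp.id) (Cp.snd Cp.id)).2 (Sg.comp hP (Cp.snd Cp.id))
  obtain ⟨w, hwn, ⟨hw1, hw2⟩, hmax⟩ := bmax_sg hQ (s := pow2 n)
    ⟨0, zero_le, pow2_pos n, fun i _ => Or.inl (not_bit_zero i)⟩
  refine ⟨w, hw1, fun i => ⟨fun hb => ?_, fun hi => ?_⟩⟩
  · have hi : i < n := lt_of_bit_of_lt hw1 hb
    rcases hw2 i hi with h | h
    · exact absurd hb h
    · exact ⟨hi, h⟩
  · by_contra hb
    obtain ⟨y, hy⟩ := exists_insert w i
    have hle : w ≤ y := le_of_bit fun j hj => (hy j).2 (Or.inl hj)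
    have hne : w ≠ y := by
      rintro rfl
      exact hb ((hy i).2 (Or.inr rfl))
    have hyn : y < pow2 n := by
      rw [lt_pow2_iff]
      intro j hj
      rcases (hy j).1 hj with h | h
      · exact lt_of_bit_of_lt hw1 h
      · rw [h]
        exact hi.1
    refine hmax y (lt_of_le_of_ne hle hne) hyn.le ⟨hyn, fun j hj => ?_⟩
    by_cases h : Bit y j
    · right
      rcases (hy j).1 h with h2 | h2
      · rcases hw2 j hj with h3 | h3
        · exact absurd h2 h3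
        · exact h3
      · rw [h2]
        exact hi.2
    · exact Or.inl h

theorem Cod_spec {P : M → Prop} {n : M} (h : ∃ w : M, w < pow2 n ∧ ∀ i, Bit w i ↔ i < n ∧ P i)
    (i : M) : Bit (cod P n) i ↔ i < n ∧ P i := by
  unfold cod
  rw [dif_pos h]
  exact (Classical.choose_spec h).2 i

theorem bit_cod {P : M → Prop} (hP : Sg 𝒪 P) (n i : M) : Bit (cod P n) i ↔ i < n ∧ P i :=
  Cod_spec (Cod_exists hP n) i

theorem bit_cod_pi {P : M → Prop} (hP : Sg 𝒪 (fun i => ¬ P i)) (n i : M) :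
    Bit (cod P n) i ↔ i < n ∧ P i := by
  refine Cod_spec ?_ i
  have hQ : Sg 𝒪 (fun w : M => ∀ i < n, (¬ P i ∨ Bit w i)) := by
    refine Sg.ball (P := fun p : M × M => ¬ P p.2 ∨ Bit p.1 p.2) (Cp.const n) ?_
    exact Sg.or (Sg.comp hP (Cp.snd Cp.id)) (Dc.bit (Cp.fst Cp.id) (Cp.snd Cp.id)).1
  obtain ⟨v, hv1, hv2⟩ := Cod_exists (𝒪 := 𝒪) (P := fun _ : M => True) (Sg.const True) n
  have hvQ : ∀ i < n, (¬ P i ∨ Bit v i) := fun i hi => Or.inr ((hv2 i).2 ⟨hi, trivial⟩)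
  obtain ⟨w, hw, hmin⟩ := least_sg hQ ⟨v, hvQ⟩
  have hwn : w < pow2 n := by
    refine lt_of_le_of_lt ?_ hv1
    by_contra hc
    exact hmin v (not_le.1 hc) hvQ
  refine ⟨w, hwn, fun i => ⟨fun hb => ?_, fun hi => ?_⟩⟩
  · refine ⟨lt_of_bit_of_lt hwn hb, ?_⟩
    by_contra hPi
    obtain ⟨y, hyw, hy⟩ := exists_remove hb
    refine hmin y hyw fun j hj => ?_
    rcases hw j hj with h | h
    · exact Or.inl h
    · by_cases hji : j = i
      · rw [hji]
        exact Or.inl hPi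
      · exact Or.inr ((hy j).2 ⟨h, hji⟩)
  · rcases hw i hi.1 with h | h
    · exact absurd hi.2 h
    · exact h

theorem Cp.cod {P : α × M → Prop} (hP : Dc 𝒪 P) {f : α → M} (hf : Cp 𝒪 f) :
    Cp 𝒪 (fun a => cod (fun i => P (a, i)) (f a)) := by
  have hPa : ∀ a, Sg 𝒪 (fun i : M => P (a, i)) := fun a =>
    Sg.comp hP.1 ((Cp.const a).pair Cp.id)
  have h1 : Dc 𝒪 (fun p : α × M => p.2 < WI.pow2 (f p.1) ∧
      ∀ i < f p.1, (Bit p.2 i ↔ P (p.1, i))) := by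
    refine Dc.and (Dc.lt (Cp.snd Cp.id) (Cp.pow2 (Cp.comp hf (Cp.fst Cp.id)))) ?_
    refine Dc.ball (P := fun q : (α × M) × M => Bit q.1.2 q.2 ↔ P (q.1.1, q.2))
      (Cp.comp hf (Cp.fst Cp.id)) ?_
    exact Dc.iff (Dc.bit (Cp.snd (Cp.fst Cp.id)) (Cp.snd Cp.id))
      (Dc.comp hP ((Cp.fst (Cp.fst Cp.id)).pair (Cp.snd Cp.id)))
  refine Cp.of_graph h1.1 fun a w => ⟨fun h => ?_, fun h => ?_⟩
  · refine bit_ext fun i => ?_
    rw [bit_cod (hPa a)]
    constructor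
    · intro hb
      have hi : i < f a := lt_of_bit_of_lt h.1 hb
      exact ⟨hi, (h.2 i hi).1 hb⟩
    · rintro ⟨hi, hPi⟩
      exact (h.2 i hi).2 hPi
  · have h' : w = WI.cod (fun i => P (a, i)) (f a) := h
    show w < WI.pow2 (f a) ∧ ∀ i < f a, (Bit w i ↔ P (a, i))
    rw [h']
    refine ⟨cod_lt _ _, fun i hi => ?_⟩
    rw [bit_cod (hPa a)]
    exact ⟨fun h => h.2, fun h => ⟨hi, h⟩⟩

/-- Strong bounding for `Σ⁰₁` predicates. -/
theorem strong_bound_sg {P : M × M → Prop} (hP : Sg 𝒪 P) (B : M) :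
    ∃ s₀, ∀ p < B, (∃ s, P (p, s)) → ∃ s ≤ s₀, P (p, s) := by
  have hE : Sg 𝒪 (fun p : M => ∃ s, P (p, s)) := Sg.ex hP
  have hbit := bit_cod hE B
  set E : M := WI.cod (fun p : M => ∃ s, P (p, s)) B with hEdef
  have h1 : Sg 𝒪 (fun q : M × M => ¬ Bit E q.1 ∨ P q) :=
    Sg.or (Dc.bit (Cp.const E) (Cp.fst Cp.id)).2 hP
  obtain ⟨w, hw⟩ := coll_sg h1 B (by
    intro p hp
    by_cases hb : Bit E p
    · obtain ⟨s, hs⟩ := ((hbit p).1 hb).2
      exact ⟨s, Or.inr hs⟩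
    · exact ⟨0, Or.inl hb⟩)
  refine ⟨w, fun p hp hex => ?_⟩
  obtain ⟨s, hs, h2⟩ := hw p hp
  rcases h2 with h2 | h2
  · exact absurd ((hbit p).2 ⟨hp, hex⟩) h2
  · exact ⟨s, hs.le, h2⟩

/-- Strong `Σ⁰₁` bounding. -/
theorem strong_bound {P : M × M → Prop} (hP : Dc 𝒪 P) (B : M) :
    ∃ s₀, ∀ p < B, (∃ s, P (p, s)) → ∃ s ≤ s₀, P (p, s) := strong_bound_sg hP.1 B

/-- An increasing decidable sequence of bounded sets stabilises: if `E (s, p)` is monotone in `s`, then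
it cannot grow below `B` unboundedly often. -/
theorem stabilise {P : M × M → Prop} (hP : Dc 𝒪 P) (B : M)
    (hmono : ∀ p s s', s ≤ s' → P (p, s) → P (p, s')) :
    ∃ s₀, ∀ p < B, ∀ s, P (p, s) → P (p, s₀) := by
  obtain ⟨s₀, h⟩ := strong_bound hP B
  refine ⟨s₀, fun p hp s hs => ?_⟩
  obtain ⟨s', hs', h2⟩ := h p hp ⟨s, hs⟩
  exact hmono p s' s₀ hs' h2

end

/-! Restrictions of sets. -/

theorem res_lt (Y : Set M) (n : M) : res Y n < pow2 n := cod_lt _ _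

theorem bit_res {Y : Set M} [IS1 ({Y} : Set (Set M))] (n i : M) : Bit (res Y n) i ↔ i < n ∧ i ∈ Y :=
  bit_cod (𝒪 := {Y}) (P := fun i : M => i ∈ Y) (Sg.mem Cp.id (Set.mem_singleton Y)) n i

theorem md_res {Y : Set M} [IS1 ({Y} : Set (Set M))] {m n : M} (h : m ≤ n) :
    md (res Y n) (pow2 m) = res Y m := by
  refine bit_ext fun i => ?_
  rw [bit_md, bit_res, bit_res]
  constructor
  · rintro ⟨⟨_, h1⟩, h2⟩
    exact ⟨h2, h1⟩
  · rintro ⟨h1, h2⟩
    exact ⟨⟨lt_of_lt_of_le h1 h, h2⟩, h1⟩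

theorem Cp.res [IS1 𝒪] {Y : Set M} (hY : Y ∈ 𝒪) {f : α → M} (hf : Cp 𝒪 f) :
    Cp 𝒪 (fun a => res Y (f a)) :=
  Cp.cod (P := fun p : α × M => p.2 ∈ Y) (Dc.mem (Cp.snd Cp.id) hY) hf

theorem res_zero (Y : Set M) : res Y 0 = 0 := by
  have h := res_lt Y 0
  rw [pow2_zero] at h
  rcases eq_zero_or_succ (res Y 0) with h1 | ⟨y, h1⟩
  · exact h1
  · rw [h1] at h
    have h2 : (1 : M) ≤ y + 1 := le_add_self
    exact absurd h (not_lt.2 h2)

/-- A decidable set of strings which are the restrictions of one set. -/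
theorem res_congr {Y Z : Set M} {n : M} (h : ∀ i < n, i ∈ Y ↔ i ∈ Z) : res Y n = res Z n :=
  cod_congr h

end WI
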