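import Pool.Agent.Helper32.WI.DRun

/-! WI-H1: the lengths `NN`, the pairing function. -/

set_option linter.unusedSectionVars false
set_option linter.unusedVariables false

universe u

namespace WI

open Enc

variable {M : Type u} [CommSemiring M] [LinearOrder M] [PAM M]
variable {α β γ : Type u} [Enc M α] [Enc M β] [Enc M γ] {𝒪 : Set (Set M)}

theorem NN_zero : NN (0 : M) = 0 := by
  unfold NN
  ring

theorem NN_succ (s : M) : NN (s + 1) = NN s + (2 * s + 6) := by
  unfold NN
  ring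

theorem NN_le {s t : M} (h : s ≤ t) : NN s ≤ NN t :=
  add_le_add (mul_le_mul' h h) (mul_le_mul' le_rfl h)

theorem NN_lt {s t : M} (h : s < t) : NN s < NN t := by
  have h1 : NN (s + 1) ≤ NN t := NN_le (lt_iff_succ_le.1 h)
  rw [NN_succ] at h1
  refine lt_of_lt_of_le ?_ h1
  refine lt_add_of_pos_right _ ?_
  exact lt_of_lt_of_le (by norm_num) (le_add_self (a := (6 : M)) (b := 2 * s))

theorem NN_pos {s : M} (h : 0 < s) : 0 < NN s := by
  have h1 := NN_lt h
  rwa [NN_zero] at h1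

theorem le_NN (s : M) : s ≤ NN s := (le_mul_self s).trans le_self_add

theorem Cp.NN {f : α → M} (hf : Cp 𝒪 f) : Cp 𝒪 (fun a => NN (f a)) :=
  Cp.add (Cp.mul hf hf) (Cp.mul (Cp.const 5) hf)

theorem pair_mono {x y x' y' : M} (hx : x ≤ x') (hy : y ≤ y') : pair x y ≤ pair x' y' :=
  add_le_add (mul_le_mul' (add_le_add hx hy) (add_le_add hx hy)) hx

theorem pair_lt_pair {x y x' y' : M} (hx : x < x') (hy : y < y') : pair x y < pair x' y' :=
  add_lt_add_of_le_of_lt (mul_le_mul' (add_le_add hx.le hy.le) (add_le_add hx.le hy.le)) hx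

theorem Cp.pairM {f g : α → M} (hf : Cp 𝒪 f) (hg : Cp 𝒪 g) : Cp 𝒪 (fun a => WI.pair (f a) (g a)) :=
  Cp.add (Cp.mul (Cp.add hf hg) (Cp.add hf hg)) hf

end WI
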