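import Pool.Agent.Helper32.WI.DRun
import Pool.Agent.Helper32.WI.Arith
import Pool.Agent.Helper32.WI.Pow
import Pool.Agent.Helper32.WI.Bits
import Pool.Agent.Helper32.WI.Cnt
import Pool.Agent.Helper32.WI.Cnt2
import Pool.Agent.Helper32.WI.NN

/-! WI-H2: facts on the weight `UU` and lightness. -/

set_option linter.unusedSectionVars false
set_option linter.unusedVariables false

universe u

namespace WI

open Enc

variable {M : Type u} [CommSemiring M] [LinearOrder M] [PAM M]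
variable {α β γ : Type u} [Enc M α] [Enc M β] [Enc M γ] {𝒪 : Set (Set M)}

variable [IS1 (∅ : Set (Set M))] {S : Set (Set M)} {C : M → M → M → M → M → Prop}
  {Q : M → M → M → M → Prop} {k A : M → M}

theorem UUf_dc (hC : IsFun S C) {a b c d e : α → M} (ha : Cp 𝒪 a) (hb : Cp 𝒪 b) (hc : Cp 𝒪 c)
    (hd : Cp 𝒪 d) (he : Cp 𝒪 e) : Dc 𝒪 (fun x => C (a x) (b x) (c x) (d x) (e x)) := by
  have h0 : Dc 𝒪 (fun p : M × (M × (M × (M × M))) => C p.1 p.2.1 p.2.2.1 p.2.2.2.1 p.2.2.2.2) :=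
    ⟨Sg.mono (Set.empty_subset _) hC.dc.1, Sg.mono (Set.empty_subset _) hC.dc.2⟩
  have h1 := Cp.pair ha (Cp.pair hb (Cp.pair hc (Cp.pair hd he)))
  exact ⟨h0.1.comp h1, h0.2.comp h1⟩

theorem UUf_cp0 (hC : IsFun S C) :
    Cp (∅ : Set (Set M)) (fun a : M × (M × (M × M)) => UU C a.1 a.2.1 a.2.2.1 a.2.2.2) := by
  have hP : Dc (∅ : Set (Set M)) (fun q : (M × (M × (M × M))) × M =>
      C (dv q.2 (pow2 q.1.2.2.2)) q.1.2.2.2 (md q.2 (pow2 q.1.2.2.2)) q.1.2.1 q.1.2.2.1) := by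
    have ht : Cp (∅ : Set (Set M)) (fun q : (M × (M × (M × M))) × M => q.1.2.2.2) :=
      Cp.snd (Cp.snd (Cp.snd (Cp.fst Cp.id)))
    have hn : Cp (∅ : Set (Set M)) (fun q : (M × (M × (M × M))) × M => q.1.2.1) :=
      Cp.fst (Cp.snd (Cp.fst Cp.id))
    have hc : Cp (∅ : Set (Set M)) (fun q : (M × (M × (M × M))) × M => q.1.2.2.1) :=
      Cp.fst (Cp.snd (Cp.snd (Cp.fst Cp.id)))
    have hz : Cp (∅ : Set (Set M)) (fun q : (M × (M × (M × M))) × M => q.2) :=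
      Cp.snd Cp.id
    exact UUf_dc hC (Cp.dv hz (Cp.pow2 ht)) ht (Cp.md hz (Cp.pow2 ht)) hn hc
  have hb : Cp (∅ : Set (Set M)) (fun q : M × (M × (M × M)) => q.1 * pow2 q.2.2.2) :=
    Cp.mul (Cp.fst Cp.id) (Cp.pow2 (Cp.snd (Cp.snd (Cp.snd Cp.id))))
  exact Cp.cnt hP hb

theorem Cp.UU (hC : IsFun S C) {b n c t : α → M} (hb : Cp 𝒪 b) (hn : Cp 𝒪 n) (hc : Cp 𝒪 c)
    (ht : Cp 𝒪 t) : Cp 𝒪 (fun a => UU C (b a) (n a) (c a) (t a)) := by
  have h0 : Cp 𝒪 (fun a : M × (M × (M × M)) => WI.UU C a.1 a.2.1 a.2.2.1 a.2.2.2) :=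
    Sg.mono (Set.empty_subset _) (UUf_cp0 hC)
  exact Cp.comp (g := fun a : M × (M × (M × M)) => WI.UU C a.1 a.2.1 a.2.2.1 a.2.2.2) h0
    (Cp.pair hb (Cp.pair hn (Cp.pair hc ht)))

theorem Dc.light (hC : IsFun S C) {b c t : α → M} (hb : Cp 𝒪 b) (hc : Cp 𝒪 c) (ht : Cp 𝒪 t) :
    Dc 𝒪 (fun a => Light C (b a) (c a) (t a)) := by
  have h0 : Dc (∅ : Set (Set M)) (fun a : M × (M × M) => Light C a.1 a.2.1 a.2.2) := by
    have hb : Cp (∅ : Set (Set M)) (fun a : M × (M × M) => a.1) := Cp.fst Cp.id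
    have hc : Cp (∅ : Set (Set M)) (fun a : M × (M × M) => a.2.1) := Cp.fst (Cp.snd Cp.id)
    have ht : Cp (∅ : Set (Set M)) (fun a : M × (M × M) => a.2.2) := Cp.snd (Cp.snd Cp.id)
    exact Dc.le (Cp.mul (Cp.UU hC hb (Cp.NN hb) hc ht) (Cp.pow2 (Cp.add hb (Cp.const _))))
      (Cp.pow2 ht)
  have h1 := Cp.pair hb (Cp.pair hc ht)
  exact ⟨(Sg.mono (Set.empty_subset 𝒪) h0.1).comp h1, (Sg.mono (Set.empty_subset 𝒪) h0.2).comp h1⟩

theorem UUf_dcz (hC : IsFun S C) (n c t : M) : Dc (∅ : Set (Set M))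
    (fun z : M => C (dv z (pow2 t)) t (md z (pow2 t)) n c) :=
  UUf_dc hC (Cp.dv Cp.id (Cp.const _)) (Cp.const _) (Cp.md Cp.id (Cp.const _)) (Cp.const _)
    (Cp.const _)

theorem UUf_dcp (hC : IsFun S C) (n c t : M) : Dc (∅ : Set (Set M))
    (fun p : M × M => C p.1 t p.2 n c) :=
  UUf_dc hC (Cp.fst Cp.id) (Cp.const _) (Cp.snd Cp.id) (Cp.const _) (Cp.const _)

theorem UU_le (hC : IsFun S C) (b n c t : M) : UU C b n c t ≤ b * pow2 t :=
  cnt_le (UUf_dcz hC n c t) _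

theorem UU_succ (hC : IsFun S C) (b n c t : M) : 2 * UU C b n c t ≤ UU C b n c (t + 1) := by
  have h := cnt_block_double (UUf_dcp hC n c t) (UUf_dcp hC n c (t + 1)) (pow2_pos t) b (by
    intro e he r hr hCe
    have hr' : r < pow2 (t + 1) := by rw [pow2_succ]; exact hr
    exact hC.mono hCe (le_of_lt (lt_succ_iff.mpr le_rfl)) hr' rfl)
  unfold UU
  rw [pow2_succ]
  exact h

theorem UU_split (hC : IsFun S C) (b n c t : M) (hc : c < pow2 n) :
    UU C b (n + 1) c t + UU C b (n + 1) (c + pow2 n) t ≤ UU C b n c t := by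
  unfold UU
  rw [cnt_disj (UUf_dcz hC (n + 1) c t) (UUf_dcz hC (n + 1) (c + pow2 n) t)]
  · refine cnt_mono (Dc.or (UUf_dcz hC (n + 1) c t) (UUf_dcz hC (n + 1) (c + pow2 n) t))
      (UUf_dcz hC n c t) ?_
    intro z hz h
    have hn : n ≤ n + 1 := le_of_lt (lt_succ_iff.mpr le_rfl)
    rcases h with h | h
    · have := hC.res h hn
      rwa [md_of_lt hc] at this
    · have := hC.res h hn
      rwa [md_add_pow2 hc] at this
  · intro z hz h1 h2
    have h := hC.uniq h1 h2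
    have hp : (0 : M) < pow2 n := pow2_pos n
    exact absurd h (ne_of_lt (lt_add_of_pos_right c hp))

theorem UU_cnt (hC : IsFun S C) (b n c t : M) :
    cnt (fun r => ∃ e < b, C e t r n c) (pow2 t) ≤ UU C b n c t :=
  cnt_ex_le (UUf_dcp hC n c t) (pow2_pos t) b

theorem UUf_light_step (hC : IsFun S C) {b c t : M} (hl : Light C b c (t + 1)) :
    Light C b c t := by
  unfold Light at hl ⊢
  have h := UU_succ hC b (NN b) c t
  rw [pow2_succ t] at hl
  have h1 : 2 * (UU C b (NN b) c t * pow2 (b + 3)) ≤ 2 * pow2 t := by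
    rw [← mul_assoc]
    exact le_trans (mul_le_mul' h le_rfl) hl
  have h2 : (0 : M) < 2 := by
    have : (0 : M) < 1 := zero_lt_one
    exact lt_of_lt_of_le this one_le_two
  exact le_of_mul_le_mul_left h1 h2

theorem light_mono (hC : IsFun S C) {b c t t' : M} (h : t ≤ t') (hl : Light C b c t') :
    Light C b c t := by
  obtain ⟨d, rfl⟩ := exists_add_of_le h
  clear h
  have hP : Dc (∅ : Set (Set M)) (fun d : M => Light C b c (t + d) → Light C b c t) :=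
    Dc.imp (Dc.light hC (Cp.const _) (Cp.const _) (Cp.add (Cp.const _) Cp.id)) (Dc.const _)
  have := ind_dc hP (by simp) (by
    intro x hx hx'
    exact hx (UUf_light_step hC (by rw [add_assoc]; exact hx'))) d
  exact this hl

theorem light_zero (hC : IsFun S C) {b : M} (hb : 0 < b) (c : M) : Light C b c 0 := by
  have h : UU C b (NN b) c 0 = 0 := by
    unfold UU
    refine cnt_eq_zero (UUf_dcz hC (NN b) c 0) ?_
    intro i hi h
    have h1 := (hC.len h).2.1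
    exact absurd (lt_of_lt_of_le (NN_pos hb) h1) (lt_irrefl _)
  unfold Light
  rw [h, zero_mul]
  exact le_of_lt (pow2_pos 0)

end WI
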