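import Pool.Agent.Helper32.WI.DRun
import Pool.Agent.Helper32.WI.Arith
import Pool.Agent.Helper32.WI.Pow
import Pool.Agent.Helper32.WI.Bits
import Pool.Agent.Helper32.WI.NN
import Pool.Agent.Helper32.WI.UUf

/-! WI-H4: decidability of the notions of the construction. -/

set_option linter.unusedSectionVars false
set_option linter.unusedVariables false

universe u

namespace WI

open Enc

variable {M : Type u} [CommSemiring M] [LinearOrder M] [PAM M]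
variable {α β γ : Type u} [Enc M α] [Enc M β] [Enc M γ] {𝒪 : Set (Set M)}

theorem DcRun_comp {P : β → Prop} (hP : Dc (∅ : Set (Set M)) P) {f : α → β} (hf : Cp 𝒪 f) :
    Dc 𝒪 (fun a => P (f a)) :=
  ⟨(hP.1.mono (Set.empty_subset _)).comp hf, (hP.2.mono (Set.empty_subset _)).comp hf⟩

variable [IS1 (∅ : Set (Set M))] {S : Set (Set M)} {C : M → M → M → M → M → Prop}
  {Q : M → M → M → M → Prop} {k A : M → M}

theorem Dc.rc (hk : Cp (∅ : Set (Set M)) k) {t s : α → M} (ht : Cp 𝒪 t) (hs : Cp 𝒪 s) :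
    Dc 𝒪 (fun a => Rc k (t a) (s a)) := by
  have h : Dc (∅ : Set (Set M)) (fun p : M × M => Rc k p.1 p.2) := by
    have e1 : Cp (∅ : Set (Set M)) (fun p : M × M => p.1) := Cp.fst Cp.id
    have e2 : Cp (∅ : Set (Set M)) (fun p : M × M => p.2) := Cp.snd Cp.id
    have h1 : Dc (∅ : Set (Set M)) (fun p : M × M => p.1 ≤ p.2 ∧ ∀ u < p.2 + 1,
        (p.1 < u → k p.1 < k u)) := by
      refine Dc.and (Dc.le e1 e2) ?_
      refine Dc.ball (f := fun p : M × M => p.2 + 1)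
        (P := fun q : (M × M) × M => q.1.1 < q.2 → k q.1.1 < k q.2) (Cp.add e2 (Cp.const 1)) ?_
      have e3 : Cp (∅ : Set (Set M)) (fun q : (M × M) × M => q.1.1) := Cp.fst (Cp.fst Cp.id)
      have e4 : Cp (∅ : Set (Set M)) (fun q : (M × M) × M => q.2) := Cp.snd Cp.id
      exact Dc.imp (Dc.lt e3 e4) (Dc.lt (Cp.comp hk e3) (Cp.comp hk e4))
    refine h1.congr fun p => ?_
    unfold Rc
    refine and_congr Iff.rfl ?_
    constructor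
    · intro h u hu hu'
      exact h u hu' (lt_succ_iff.1 hu)
    · intro h u hu hu'
      exact h u (lt_succ_iff.2 hu') hu
  exact DcRun_comp h (ht.pair hs)

theorem Dc.aliveT (hC : IsFun S C) (hk : Cp (∅ : Set (Set M)) k) {x t s : α → M} (hx : Cp 𝒪 x)
    (ht : Cp 𝒪 t) (hs : Cp 𝒪 s) : Dc 𝒪 (fun a => AliveT C k (x a) (t a) (s a)) := by
  have h : Dc (∅ : Set (Set M)) (fun p : M × (M × M) => AliveT C k p.1 p.2.1 p.2.2) := by
    refine Dc.ball (f := fun p : M × (M × M) => p.2.1)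
      (P := fun q : (M × (M × M)) × M => Rc k q.2 q.1.2.2 →
        Light C (q.2 + 1) (md q.1.1 (pow2 (NN (q.2 + 1)))) q.1.2.2) (Cp.fst (Cp.snd Cp.id)) ?_
    have e1 : Cp (∅ : Set (Set M)) (fun q : (M × (M × M)) × M => q.1.1) := Cp.fst (Cp.fst Cp.id)
    have e2 : Cp (∅ : Set (Set M)) (fun q : (M × (M × M)) × M => q.1.2.2) :=
      Cp.snd (Cp.snd (Cp.fst Cp.id))
    have e3 : Cp (∅ : Set (Set M)) (fun q : (M × (M × M)) × M => q.2) := Cp.snd Cp.id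
    have e4 : Cp (∅ : Set (Set M)) (fun q : (M × (M × M)) × M => q.2 + 1) :=
      Cp.add e3 (Cp.const 1)
    exact Dc.imp (Dc.rc hk e3 e2) (Dc.light hC e4 (Cp.md e1 (Cp.pow2 (Cp.NN e4))) e2)
  exact DcRun_comp h (hx.pair (ht.pair hs))

theorem Dc.astar (hC : IsFun S C) (hk : Cp (∅ : Set (Set M)) k) (hA : Cp (∅ : Set (Set M)) A)
    {x s : α → M} (hx : Cp 𝒪 x) (hs : Cp 𝒪 s) : Dc 𝒪 (fun a => Astar C k A (x a) (s a)) := by
  have h : Dc (∅ : Set (Set M)) (fun p : M × M => Astar C k A p.1 p.2) := by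
    have e1 : Cp (∅ : Set (Set M)) (fun p : M × M => p.1) := Cp.fst Cp.id
    have e2 : Cp (∅ : Set (Set M)) (fun p : M × M => p.2) := Cp.snd Cp.id
    exact Dc.and (Dc.bit (Cp.comp hA e2) e1) (Dc.aliveT hC hk e1 e2 e2)
  exact DcRun_comp h (hx.pair hs)

theorem IsFun.dcC (hC : IsFun S C) {e n x m y : α → M} (he : Cp 𝒪 e) (hn : Cp 𝒪 n) (hx : Cp 𝒪 x)
    (hm : Cp 𝒪 m) (hy : Cp 𝒪 y) : Dc 𝒪 (fun a => C (e a) (n a) (x a) (m a) (y a)) :=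
  DcRun_comp (P := fun p : M × (M × (M × (M × M))) => C p.1 p.2.1 p.2.2.1 p.2.2.2.1 p.2.2.2.2)
    hC.dc (he.pair (hn.pair (hx.pair (hm.pair hy))))

/-- Membership of a string in `A u` is below `A u`: quantifiers over elements are bounded. -/
theorem Dc.inc (hC : IsFun S C) {e i n x x' : α → M} (he : Cp 𝒪 e) (hi : Cp 𝒪 i) (hn : Cp 𝒪 n)
    (hx : Cp 𝒪 x) (hx' : Cp 𝒪 x') : Dc 𝒪 (fun a => Inc C (e a) (i a) (n a) (x a) (x' a)) := by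
  have h : Dc (∅ : Set (Set M)) (fun p : M × (M × (M × (M × M))) =>
      Inc C p.1 p.2.1 p.2.2.1 p.2.2.2.1 p.2.2.2.2) := by
    have e1 : Cp (∅ : Set (Set M)) (fun p : M × (M × (M × (M × M))) => p.1) := Cp.fst Cp.id
    have e2 : Cp (∅ : Set (Set M)) (fun p : M × (M × (M × (M × M))) => p.2.1) :=
      Cp.fst (Cp.snd Cp.id)
    have e3 : Cp (∅ : Set (Set M)) (fun p : M × (M × (M × (M × M))) => p.2.2.1) :=
      Cp.fst (Cp.snd (Cp.snd Cp.id))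
    have e4 : Cp (∅ : Set (Set M)) (fun p : M × (M × (M × (M × M))) => p.2.2.2.1) :=
      Cp.fst (Cp.snd (Cp.snd (Cp.snd Cp.id)))
    have e5 : Cp (∅ : Set (Set M)) (fun p : M × (M × (M × (M × M))) => p.2.2.2.2) :=
      Cp.snd (Cp.snd (Cp.snd (Cp.snd Cp.id)))
    have h1 : Dc (∅ : Set (Set M)) (fun p : M × (M × (M × (M × M))) =>
        ∃ m, m < p.2.2.1 + 1 ∧ ∃ y, y < pow2 m ∧ ∃ y', y' < pow2 m ∧ (y ≠ y' ∧
          C p.1 p.2.2.1 p.2.2.2.1 m y ∧ C p.2.1 p.2.2.1 p.2.2.2.2 m y')) := by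
      refine Dc.bex (f := fun p : M × (M × (M × (M × M))) => p.2.2.1 + 1)
        (P := fun q : (M × (M × (M × (M × M)))) × M => ∃ y, y < pow2 q.2 ∧ ∃ y', y' < pow2 q.2 ∧
          (y ≠ y' ∧ C q.1.1 q.1.2.2.1 q.1.2.2.2.1 q.2 y ∧
            C q.1.2.1 q.1.2.2.1 q.1.2.2.2.2 q.2 y')) (Cp.add e3 (Cp.const 1)) ?_
      refine Dc.bex (f := fun q : (M × (M × (M × (M × M)))) × M => pow2 q.2)
        (P := fun q : ((M × (M × (M × (M × M)))) × M) × M => ∃ y', y' < pow2 q.1.2 ∧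
          (q.2 ≠ y' ∧ C q.1.1.1 q.1.1.2.2.1 q.1.1.2.2.2.1 q.1.2 q.2 ∧
            C q.1.1.2.1 q.1.1.2.2.1 q.1.1.2.2.2.2 q.1.2 y')) (Cp.pow2 (Cp.snd Cp.id)) ?_
      refine Dc.bex (f := fun q : ((M × (M × (M × (M × M)))) × M) × M => pow2 q.1.2)
        (P := fun q : (((M × (M × (M × (M × M)))) × M) × M) × M =>
          (q.1.2 ≠ q.2 ∧ C q.1.1.1.1 q.1.1.1.2.2.1 q.1.1.1.2.2.2.1 q.1.1.2 q.1.2 ∧
            C q.1.1.1.2.1 q.1.1.1.2.2.1 q.1.1.1.2.2.2.2 q.1.1.2 q.2))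
        (Cp.pow2 (Cp.snd (Cp.fst Cp.id))) ?_
      have d : Cp (∅ : Set (Set M)) (fun q : (((M × (M × (M × (M × M)))) × M) × M) × M =>
        q.1.1.1) := Cp.fst (Cp.fst (Cp.fst Cp.id))
      have d1 : Cp (∅ : Set (Set M)) (fun q : (((M × (M × (M × (M × M)))) × M) × M) × M =>
        q.1.1.2) := Cp.snd (Cp.fst (Cp.fst Cp.id))
      have d2 : Cp (∅ : Set (Set M)) (fun q : (((M × (M × (M × (M × M)))) × M) × M) × M =>
        q.1.2) := Cp.snd (Cp.fst Cp.id)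
      have d3 : Cp (∅ : Set (Set M)) (fun q : (((M × (M × (M × (M × M)))) × M) × M) × M =>
        q.2) := Cp.snd Cp.id
      have c1 := Cp.comp e1 d
      have c2 := Cp.comp e2 d
      have c3 := Cp.comp e3 d
      have c4 := Cp.comp e4 d
      have c5 := Cp.comp e5 d
      exact Dc.and (Dc.not (Dc.eq d2 d3)) (Dc.and (hC.dcC c1 c3 c4 d1 d2)
        (hC.dcC c2 c3 c5 d1 d3))
    refine h1.congr fun p => ?_
    unfold Inc
    refine exists_congr fun m => and_congr ?_ Iff.rfl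
    exact lt_succ_iff.symm
  exact DcRun_comp (P := fun p : M × (M × (M × (M × M))) =>
      Inc C p.1 p.2.1 p.2.2.1 p.2.2.2.1 p.2.2.2.2) h (he.pair (hi.pair (hn.pair (hx.pair hx'))))

theorem Dc.QA (hC : IsFun S C) :
    Dc (∅ : Set (Set M)) (fun p : M × (M × (M × M)) => QA C p.1 p.2.1 p.2.2.1 p.2.2.2) := by
  have e1 : Cp (∅ : Set (Set M)) (fun p : M × (M × (M × M)) => p.1) := Cp.fst Cp.id
  have e2 : Cp (∅ : Set (Set M)) (fun p : M × (M × (M × M)) => p.2.1) := Cp.fst (Cp.snd Cp.id)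
  have e3 : Cp (∅ : Set (Set M)) (fun p : M × (M × (M × M)) => p.2.2.1) :=
    Cp.fst (Cp.snd (Cp.snd Cp.id))
  have e4 : Cp (∅ : Set (Set M)) (fun p : M × (M × (M × M)) => p.2.2.2) :=
    Cp.snd (Cp.snd (Cp.snd Cp.id))
  refine Dc.bex (f := fun p : M × (M × (M × M)) => p.2.1)
    (P := fun q : (M × (M × (M × M))) × M => ∃ i, i < q.1.2.1 ∧ ∃ x, x < pow2 (NN (q.1.1 + 1)) ∧
      ∃ x', x' < pow2 (NN (q.1.1 + 1)) ∧ (Bit q.1.2.2.2 x ∧ Bit q.1.2.2.2 x' ∧ ¬ Bit x 0 ∧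
        Bit x' 0 ∧ Inc C q.2 i (NN (q.1.1 + 1)) x x' ∧
        ¬ Inc C q.2 i (NN q.1.2.2.1) (md x (pow2 (NN q.1.2.2.1))) (md x' (pow2 (NN q.1.2.2.1)))))
    e2 ?_
  refine Dc.bex (f := fun q : (M × (M × (M × M))) × M => q.1.2.1)
    (P := fun q : ((M × (M × (M × M))) × M) × M => ∃ x, x < pow2 (NN (q.1.1.1 + 1)) ∧
      ∃ x', x' < pow2 (NN (q.1.1.1 + 1)) ∧ (Bit q.1.1.2.2.2 x ∧ Bit q.1.1.2.2.2 x' ∧ ¬ Bit x 0 ∧
        Bit x' 0 ∧ Inc C q.1.2 q.2 (NN (q.1.1.1 + 1)) x x' ∧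
        ¬ Inc C q.1.2 q.2 (NN q.1.1.2.2.1) (md x (pow2 (NN q.1.1.2.2.1)))
          (md x' (pow2 (NN q.1.1.2.2.1)))))
    (Cp.fst (Cp.snd (Cp.fst Cp.id))) ?_
  refine Dc.bex (f := fun q : ((M × (M × (M × M))) × M) × M => pow2 (NN (q.1.1.1 + 1)))
    (P := fun q : (((M × (M × (M × M))) × M) × M) × M =>
      ∃ x', x' < pow2 (NN (q.1.1.1.1 + 1)) ∧ (Bit q.1.1.1.2.2.2 q.2 ∧ Bit q.1.1.1.2.2.2 x' ∧
        ¬ Bit q.2 0 ∧ Bit x' 0 ∧ Inc C q.1.1.2 q.1.2 (NN (q.1.1.1.1 + 1)) q.2 x' ∧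
        ¬ Inc C q.1.1.2 q.1.2 (NN q.1.1.1.2.2.1) (md q.2 (pow2 (NN q.1.1.1.2.2.1)))
          (md x' (pow2 (NN q.1.1.1.2.2.1)))))
    (Cp.pow2 (Cp.NN (Cp.add (Cp.fst (Cp.fst (Cp.fst Cp.id))) (Cp.const 1)))) ?_
  refine Dc.bex (f := fun q : (((M × (M × (M × M))) × M) × M) × M =>
      pow2 (NN (q.1.1.1.1 + 1)))
    (P := fun q : ((((M × (M × (M × M))) × M) × M) × M) × M =>
      (Bit q.1.1.1.1.2.2.2 q.1.2 ∧ Bit q.1.1.1.1.2.2.2 q.2 ∧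
        ¬ Bit q.1.2 0 ∧ Bit q.2 0 ∧
        Inc C q.1.1.1.2 q.1.1.2 (NN (q.1.1.1.1.1 + 1)) q.1.2 q.2 ∧
        ¬ Inc C q.1.1.1.2 q.1.1.2 (NN q.1.1.1.1.2.2.1) (md q.1.2 (pow2 (NN q.1.1.1.1.2.2.1)))
          (md q.2 (pow2 (NN q.1.1.1.1.2.2.1)))))
    (Cp.pow2 (Cp.NN (Cp.add (Cp.fst (Cp.fst (Cp.fst (Cp.fst Cp.id)))) (Cp.const 1)))) ?_
  have d : Cp (∅ : Set (Set M)) (fun q : ((((M × (M × (M × M))) × M) × M) × M) × M =>
    q.1.1.1.1) := Cp.fst (Cp.fst (Cp.fst (Cp.fst Cp.id)))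
  have de : Cp (∅ : Set (Set M)) (fun q : ((((M × (M × (M × M))) × M) × M) × M) × M =>
    q.1.1.1.2) := Cp.snd (Cp.fst (Cp.fst (Cp.fst Cp.id)))
  have di : Cp (∅ : Set (Set M)) (fun q : ((((M × (M × (M × M))) × M) × M) × M) × M =>
    q.1.1.2) := Cp.snd (Cp.fst (Cp.fst Cp.id))
  have dx : Cp (∅ : Set (Set M)) (fun q : ((((M × (M × (M × M))) × M) × M) × M) × M =>
    q.1.2) := Cp.snd (Cp.fst Cp.id)
  have dx' : Cp (∅ : Set (Set M)) (fun q : ((((M × (M × (M × M))) × M) × M) × M) × M =>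
    q.2) := Cp.snd Cp.id
  have c1 := Cp.comp e1 d
  have c3 := Cp.comp e3 d
  have c4 := Cp.comp e4 d
  have cN := Cp.NN (Cp.add c1 (Cp.const 1))
  have cT := Cp.NN c3
  exact Dc.and (Dc.bit c4 dx) (Dc.and (Dc.bit c4 dx') (Dc.and (Dc.not (Dc.bit dx (Cp.const 0)))
    (Dc.and (Dc.bit dx' (Cp.const 0)) (Dc.and (Dc.inc hC de di cN dx dx')
      (Dc.not (Dc.inc hC de di cT (Cp.md dx (Cp.pow2 cT)) (Cp.md dx' (Cp.pow2 cT))))))))

theorem Dc.QB (hC : IsFun S C) {l y : M → M} (hl : Cp (∅ : Set (Set M)) l)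
    (hy : Cp (∅ : Set (Set M)) y) :
    Dc (∅ : Set (Set M)) (fun p : M × (M × (M × M)) => QB C l y p.1 p.2.1 p.2.2.1 p.2.2.2) := by
  have e1 : Cp (∅ : Set (Set M)) (fun p : M × (M × (M × M)) => p.1) := Cp.fst Cp.id
  have e2 : Cp (∅ : Set (Set M)) (fun p : M × (M × (M × M)) => p.2.1) := Cp.fst (Cp.snd Cp.id)
  have e3 : Cp (∅ : Set (Set M)) (fun p : M × (M × (M × M)) => p.2.2.1) :=
    Cp.fst (Cp.snd (Cp.snd Cp.id))
  have e4 : Cp (∅ : Set (Set M)) (fun p : M × (M × (M × M)) => p.2.2.2) :=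
    Cp.snd (Cp.snd (Cp.snd Cp.id))
  refine Dc.bex (f := fun p : M × (M × (M × M)) => p.2.1)
    (P := fun q : (M × (M × (M × M))) × M => ∃ x, x < pow2 (NN (q.1.1 + 1)) ∧
      ∃ m, m < l q.1.1 + 1 ∧ (Bit q.1.2.2.2 x ∧
        C q.2 (NN (q.1.1 + 1)) x m (md (y q.1.1) (pow2 m)) ∧
        ¬ C q.2 (NN q.1.2.2.1) (md x (pow2 (NN q.1.2.2.1))) m (md (y q.1.1) (pow2 m))))
    e2 ?_
  refine Dc.bex (f := fun q : (M × (M × (M × M))) × M => pow2 (NN (q.1.1 + 1)))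
    (P := fun q : ((M × (M × (M × M))) × M) × M =>
      ∃ m, m < l q.1.1.1 + 1 ∧ (Bit q.1.1.2.2.2 q.2 ∧
        C q.1.2 (NN (q.1.1.1 + 1)) q.2 m (md (y q.1.1.1) (pow2 m)) ∧
        ¬ C q.1.2 (NN q.1.1.2.2.1) (md q.2 (pow2 (NN q.1.1.2.2.1))) m
          (md (y q.1.1.1) (pow2 m))))
    (Cp.pow2 (Cp.NN (Cp.add (Cp.fst (Cp.fst Cp.id)) (Cp.const 1)))) ?_
  refine Dc.bex (f := fun q : ((M × (M × (M × M))) × M) × M => l q.1.1.1 + 1)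
    (P := fun q : (((M × (M × (M × M))) × M) × M) × M =>
      (Bit q.1.1.1.2.2.2 q.1.2 ∧
        C q.1.1.2 (NN (q.1.1.1.1 + 1)) q.1.2 q.2 (md (y q.1.1.1.1) (pow2 q.2)) ∧
        ¬ C q.1.1.2 (NN q.1.1.1.2.2.1) (md q.1.2 (pow2 (NN q.1.1.1.2.2.1))) q.2
          (md (y q.1.1.1.1) (pow2 q.2))))
    (Cp.add (Cp.comp hl (Cp.fst (Cp.fst (Cp.fst Cp.id)))) (Cp.const 1)) ?_
  have d : Cp (∅ : Set (Set M)) (fun q : (((M × (M × (M × M))) × M) × M) × M =>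
    q.1.1.1) := Cp.fst (Cp.fst (Cp.fst Cp.id))
  have de : Cp (∅ : Set (Set M)) (fun q : (((M × (M × (M × M))) × M) × M) × M =>
    q.1.1.2) := Cp.snd (Cp.fst (Cp.fst Cp.id))
  have dx : Cp (∅ : Set (Set M)) (fun q : (((M × (M × (M × M))) × M) × M) × M =>
    q.1.2) := Cp.snd (Cp.fst Cp.id)
  have dm : Cp (∅ : Set (Set M)) (fun q : (((M × (M × (M × M))) × M) × M) × M =>
    q.2) := Cp.snd Cp.id
  have c1 := Cp.comp e1 d
  have c3 := Cp.comp e3 d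
  have c4 := Cp.comp e4 d
  have cy := Cp.comp hy c1
  have cN := Cp.NN (Cp.add c1 (Cp.const 1))
  have cT := Cp.NN c3
  have cz := Cp.md cy (Cp.pow2 dm)
  exact Dc.and (Dc.bit c4 dx) (Dc.and (hC.dcC de cN dx dm cz)
    (Dc.not (hC.dcC de cT (Cp.md dx (Cp.pow2 cT)) dm cz)))

end WI
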