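import Pool.Agent.Helper32.WI.DArith
import Pool.Agent.Helper32.WI.Arith
import Pool.Agent.Helper32.WI.Reduc
import Pool.Agent.Helper32.WI.Rec
import Pool.Agent.Helper32.WI.Pow
import Pool.Agent.Helper32.WI.Bits
import Pool.Agent.Helper32.WI.Cod

/-! WI-G1: weak Koenig's lemma for trees of strings. -/

set_option linter.unusedSectionVars false
set_option linter.unusedVariables false

universe u

namespace WI

open Enc

variable {M : Type u} [CommSemiring M] [LinearOrder M] [PAM M]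
variable {α β γ : Type u} [Enc M α] [Enc M β] [Enc M γ] {𝒪 : Set (Set M)}

section

variable [IS1 (∅ : Set (Set M))]

/-- The heap code of the first `n` digits of `x` is `f (x, n)`. -/
structure Wkl_Hp (f : M × M → M) : Prop where
  cp : Cp (∅ : Set (Set M)) f
  zero : ∀ x, f (x, 0) = 0
  one : ∀ x n, Bit x n → f (x, n + 1) = 2 * f (x, n) + 2
  two : ∀ x n, ¬ Bit x n → f (x, n + 1) = 2 * f (x, n) + 1

theorem Wkl_exists_hp : ∃ f : M × M → M, Wkl_Hp f := by
  classical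
  have hg : Cp (∅ : Set (Set M)) (fun p : M × (M × M) =>
      if Bit p.1 p.2.1 then 2 * p.2.2 + 2 else 2 * p.2.2 + 1) := by
    refine Cp.ite (Dc.bit (Cp.fst Cp.id) (Cp.fst (Cp.snd Cp.id))) ?_ ?_
    · exact Cp.add (Cp.mul (Cp.const 2) (Cp.snd (Cp.snd Cp.id))) (Cp.const 2)
    · exact Cp.add (Cp.mul (Cp.const 2) (Cp.snd (Cp.snd Cp.id))) (Cp.const 1)
  obtain ⟨f, hf, h0, h1⟩ := exists_rec (𝒪 := (∅ : Set (Set M)))
    (Cp.const (α := M) (0 : M)) hg
  refine ⟨f, hf, h0, ?_, ?_⟩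
  · intro x n hb
    rw [h1]
    exact if_pos hb
  · intro x n hb
    rw [h1]
    exact if_neg hb

variable {f : M × M → M}

theorem Wkl_Hp.cases (hf : Wkl_Hp f) (x n : M) :
    (Bit x n ∧ f (x, n + 1) = 2 * f (x, n) + 2) ∨ (¬ Bit x n ∧ f (x, n + 1) = 2 * f (x, n) + 1) := by
  by_cases h : Bit x n
  · exact Or.inl ⟨h, hf.one x n h⟩
  · exact Or.inr ⟨h, hf.two x n h⟩

theorem Wkl_Hp.congr (hf : Wkl_Hp f) (x x' : M) : ∀ n, (∀ i < n, (Bit x i ↔ Bit x' i)) →
    f (x, n) = f (x', n) := by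
  have hD : Dc (∅ : Set (Set M)) (fun n : M => (∀ i < n, (Bit x i ↔ Bit x' i)) →
      f (x, n) = f (x', n)) := by
    refine Dc.imp (Dc.ball (P := fun p : M × M => (Bit x p.2 ↔ Bit x' p.2)) Cp.id ?_) ?_
    · exact Dc.iff (Dc.bit (Cp.const x) (Cp.snd Cp.id)) (Dc.bit (Cp.const x') (Cp.snd Cp.id))
    · exact Dc.eq (Cp.comp hf.cp (Cp.pair (Cp.const x) Cp.id))
        (Cp.comp hf.cp (Cp.pair (Cp.const x') Cp.id))
  intro n
  refine ind_dc hD ?_ ?_ n
  · intro _
    rw [hf.zero, hf.zero]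
  · intro n ih h
    have h1 := ih fun i hi => h i (lt_succ_iff.2 hi.le)
    have h2 := h n (lt_succ_iff.2 le_rfl)
    rcases hf.cases x n with ⟨h3, h4⟩ | ⟨h3, h4⟩
    · rw [h4, hf.one x' n (h2.1 h3), h1]
    · rw [h4, hf.two x' n (fun h5 => h3 (h2.2 h5)), h1]

theorem Wkl_Hp.md (hf : Wkl_Hp f) (x n : M) : f (WI.md x (pow2 n), n) = f (x, n) := by
  refine hf.congr _ _ n fun i hi => ?_
  rw [bit_md]
  exact ⟨fun h => h.1, fun h => ⟨h, hi⟩⟩

theorem Wkl_Hp.ge (hf : Wkl_Hp f) (x : M) : ∀ n, n ≤ f (x, n) := by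
  have hD : Dc (∅ : Set (Set M)) (fun n : M => n ≤ f (x, n)) :=
    Dc.le Cp.id (Cp.comp hf.cp (Cp.pair (Cp.const x) Cp.id))
  intro n
  refine ind_dc hD ?_ ?_ n
  · exact zero_le
  · intro n ih
    have h1 : n ≤ 2 * f (x, n) := by
      rw [two_mul]
      exact ih.trans le_self_add
    have h2 : n + 1 ≤ 2 * f (x, n) + 1 := by gcongr
    rcases hf.cases x n with ⟨_, h4⟩ | ⟨_, h4⟩
    · rw [h4]
      have h5 : 2 * f (x, n) + 1 ≤ 2 * f (x, n) + 2 := by
        gcongr
        exact one_le_two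
      exact h2.trans h5
    · rw [h4]
      exact h2

theorem Wkl_odd {a b : M} (h : 2 * a + 1 = 2 * b + 2) : False := by
  have h1 : dv (2 * a + 1) 2 = a ∧ md (2 * a + 1) 2 = 1 :=
    dv_md_unique one_lt_two rfl
  have h2 : dv (2 * b + 2) 2 = b + 1 ∧ md (2 * b + 2) 2 = 0 :=
    dv_md_unique zero_lt_two (by ring)
  rw [h] at h1
  have h3 := h1.2.symm.trans h2.2
  exact one_ne_zero h3

theorem Wkl_half1 {a b : M} (h : 2 * a + 1 = 2 * b + 1) : a = b := by
  have h1 : dv (2 * a + 1) 2 = a ∧ md (2 * a + 1) 2 = 1 :=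
    dv_md_unique one_lt_two rfl
  have h2 : dv (2 * b + 1) 2 = b ∧ md (2 * b + 1) 2 = 1 :=
    dv_md_unique one_lt_two rfl
  rw [h] at h1
  exact h1.1.symm.trans h2.1

theorem Wkl_half2 {a b : M} (h : 2 * a + 2 = 2 * b + 2) : a = b := by
  apply Wkl_half1
  have h1 : 2 * a + 1 + 1 = 2 * b + 1 + 1 := by
    have e1 : 2 * a + 1 + 1 = 2 * a + 2 := by ring
    have e2 : 2 * b + 1 + 1 = 2 * b + 2 := by ring
    rw [e1, e2, h]
  exact add_right_cancel h1

theorem Wkl_Hp.inj (hf : Wkl_Hp f) (x x' N : M) : ∀ n, ∀ n' < N, f (x, n) = f (x', n') →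
    n = n' ∧ ∀ i < n, (Bit x i ↔ Bit x' i) := by
  have hD : Dc (∅ : Set (Set M)) (fun n : M => ∀ n' < N, f (x, n) = f (x', n') →
      n = n' ∧ ∀ i < n, (Bit x i ↔ Bit x' i)) := by
    refine Dc.ball (f := fun _ : M => N) (P := fun p : M × M => f (x, p.1) = f (x', p.2) →
      p.1 = p.2 ∧ ∀ i < p.1, (Bit x i ↔ Bit x' i)) (Cp.const N) ?_
    refine Dc.imp (Dc.eq (Cp.comp hf.cp (Cp.pair (Cp.const x) (Cp.fst Cp.id)))
        (Cp.comp hf.cp (Cp.pair (Cp.const x') (Cp.snd Cp.id)))) ?_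
    refine Dc.and (Dc.eq (Cp.fst Cp.id) (Cp.snd Cp.id)) ?_
    refine Dc.ball (f := fun p : M × M => p.1) (P := fun q : (M × M) × M =>
      (Bit x q.2 ↔ Bit x' q.2)) (Cp.fst Cp.id) ?_
    exact Dc.iff (Dc.bit (Cp.const x) (Cp.snd Cp.id)) (Dc.bit (Cp.const x') (Cp.snd Cp.id))
  intro n
  refine ind_dc hD ?_ ?_ n
  · intro n' hn' h
    rw [hf.zero] at h
    have h1 : n' ≤ 0 := by
      rw [h]
      exact hf.ge x' n'
    have h2 : n' = 0 := le_antisymm h1 zero_le
    exact ⟨h2.symm, fun i hi => absurd hi (not_lt_zero' i)⟩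
  · intro n ih n' hn' h
    rcases eq_zero_or_succ n' with h0 | ⟨m, rfl⟩
    · subst h0
      rw [hf.zero] at h
      have h1 : n + 1 ≤ 0 := by
        rw [← h]
        exact hf.ge x (n + 1)
      exact absurd (lt_iff_succ_le.2 h1) (not_lt_zero' n)
    · have hm : m < N := lt_trans (lt_succ_iff.2 le_rfl) hn'
      rcases hf.cases x n with ⟨h3, h4⟩ | ⟨h3, h4⟩ <;>
        rcases hf.cases x' m with ⟨h5, h6⟩ | ⟨h5, h6⟩
      · rw [h4, h6] at h
        obtain ⟨h7, h8⟩ := ih m hm (Wkl_half2 h)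
        subst h7
        refine ⟨rfl, fun i hi => ?_⟩
        rcases eq_or_lt_of_le (lt_succ_iff.1 hi) with h9 | h9
        · subst h9
          exact ⟨fun _ => h5, fun _ => h3⟩
        · exact h8 i h9
      · rw [h4, h6] at h
        exact (Wkl_odd h.symm).elim
      · rw [h4, h6] at h
        exact (Wkl_odd h).elim
      · rw [h4, h6] at h
        obtain ⟨h7, h8⟩ := ih m hm (Wkl_half1 h)
        subst h7
        refine ⟨rfl, fun i hi => ?_⟩
        rcases eq_or_lt_of_le (lt_succ_iff.1 hi) with h9 | h9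
        · subst h9
          exact ⟨fun h => absurd h h3, fun h => absurd h h5⟩
        · exact h8 i h9

theorem Wkl_bit_eq {x y n : M} (hx : x < pow2 n) (hy : y < pow2 n)
    (h : ∀ i < n, (Bit x i ↔ Bit y i)) : x = y := by
  refine bit_ext fun i => ?_
  by_cases hi : i < n
  · exact h i hi
  · exact ⟨fun h1 => absurd (lt_of_bit_of_lt hx h1) hi, fun h1 => absurd (lt_of_bit_of_lt hy h1) hi⟩

theorem Wkl_not_bit {x n : M} (hx : x < pow2 n) : ¬ Bit x n := fun h =>
  lt_irrefl n (lt_of_bit_of_lt hx h)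

end

theorem wkl_str {S : Set (Set M)} (hS : WKL0 S) {T : M × M → Prop} (hT : Dc S T)
    (hlen : ∀ n x, T (n, x) → x < pow2 n)
    (hres : ∀ n x m, T (n, x) → m ≤ n → T (m, md x (pow2 m))) (hne : ∀ n, ∃ x, T (n, x)) :
    ∃ Y ∈ S, ∀ n, T (n, res Y n) := by
  have hR : RCA0 S := hS.toRCA0
  have i0 : IS1 (∅ : Set (Set M)) := hR.is1 (Set.empty_subset _)
  have iS : IS1 S := hR.is1 subset_rfl
  obtain ⟨f, hf⟩ := Wkl_exists_hp (M := M)
  have hfS : Cp S f := Cp.mono (Set.empty_subset _) hf.cp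
  set 𝒯 : Set M := {h | ∃ n < h + 1, ∃ x < pow2 n, h = f (x, n) ∧ T (n, x)} with h𝒯
  have hmem : 𝒯 ∈ S := by
    refine hR.mem_of_dc ?_
    refine Dc.bex (f := fun h : M => h + 1) (P := fun p : M × M =>
      ∃ x < pow2 p.2, p.1 = f (x, p.2) ∧ T (p.2, x)) (Cp.add Cp.id (Cp.const 1)) ?_
    refine Dc.bex (f := fun p : M × M => pow2 p.2) (P := fun q : (M × M) × M =>
      q.1.1 = f (q.2, q.1.2) ∧ T (q.1.2, q.2)) (Cp.pow2 (Cp.snd Cp.id)) ?_
    refine Dc.and (Dc.eq (Cp.fst (Cp.fst Cp.id)) (Cp.comp hfS (Cp.pair (Cp.snd Cp.id)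
      (Cp.snd (Cp.fst Cp.id))))) ?_
    exact Dc.comp hT (Cp.pair (Cp.snd (Cp.fst Cp.id)) (Cp.snd Cp.id))
  have hpar : ∀ x, (2 * x + 1 ∈ 𝒯 ∨ 2 * x + 2 ∈ 𝒯) → x ∈ 𝒯 := by
    have key : ∀ h n x, x < pow2 (n + 1) → T (n + 1, x) → f (x, n) = h → h ∈ 𝒯 := by
      intro h n x hx hTx hfx
      refine ⟨n, ?_, md x (pow2 n), md_pow2_lt x n, ?_, ?_⟩
      · rw [lt_succ_iff, ← hfx]
        exact hf.ge x n
      · rw [hf.md, hfx]
      · exact hres (n + 1) x n hTx (lt_succ_iff.1 (by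
          have : n < n + 1 := lt_succ_iff.2 le_rfl
          exact lt_trans this (lt_succ_iff.2 le_rfl)))
    intro h hh
    rcases hh with ⟨n, _, x, hx, he, hTx⟩ | ⟨n, _, x, hx, he, hTx⟩
    · rcases eq_zero_or_succ n with h0 | ⟨m, rfl⟩
      · subst h0
        rw [hf.zero] at he
        have h1 : 2 * h + 1 ≤ 0 := he.le
        exact absurd (lt_iff_succ_le.2 h1) (not_lt_zero' _)
      · refine key h m x hx hTx ?_
        rcases hf.cases x m with ⟨h3, h4⟩ | ⟨h3, h4⟩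
        · rw [h4] at he
          exact (Wkl_odd he).elim
        · rw [h4] at he
          exact (Wkl_half1 he).symm
    · rcases eq_zero_or_succ n with h0 | ⟨m, rfl⟩
      · subst h0
        rw [hf.zero] at he
        have h1 : 2 * h + 1 + 1 ≤ 0 := by
          have e1 : 2 * h + 1 + 1 = 2 * h + 2 := by ring
          rw [e1]
          exact he.le
        exact absurd (lt_iff_succ_le.2 h1) (not_lt_zero' _)
      · refine key h m x hx hTx ?_
        rcases hf.cases x m with ⟨h3, h4⟩ | ⟨h3, h4⟩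
        · rw [h4] at he
          exact (Wkl_half2 he).symm
        · rw [h4] at he
          exact (Wkl_odd he.symm).elim
  have hunb : ∀ b, ∃ x ∈ 𝒯, b ≤ x := by
    intro b
    obtain ⟨x, hx⟩ := hne b
    refine ⟨f (x, b), ⟨b, ?_, x, hlen b x hx, rfl, hx⟩, hf.ge x b⟩
    rw [lt_succ_iff]
    exact hf.ge x b
  obtain ⟨P, hP, hsub, hP0, hPs⟩ := hS.wkl 𝒯 hmem hpar hunb
  set Y : Set M := {i | ∃ x < pow2 (i + 1), f (x, i + 1) ∈ P ∧ Bit x i} with hY
  have hYS : Y ∈ S := by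
    refine hR.mem_of_dc ?_
    refine Dc.bex (f := fun i : M => pow2 (i + 1)) (P := fun p : M × M =>
      f (p.2, p.1 + 1) ∈ P ∧ Bit p.2 p.1) (Cp.pow2 (Cp.add Cp.id (Cp.const 1))) ?_
    refine Dc.and (Dc.mem (Cp.comp hfS (Cp.pair (Cp.snd Cp.id) (Cp.add (Cp.fst Cp.id)
      (Cp.const 1)))) hP) ?_
    exact Dc.bit (Cp.snd Cp.id) (Cp.fst Cp.id)
  have iY : IS1 ({Y} : Set (Set M)) := hR.is1 (by simpa using hYS)
  have hG : ∀ n, f (res Y n, n) ∈ P ∧ ∀ x < pow2 n, f (x, n) ∈ P → x = res Y n := by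
    have hres' : Cp S (fun n : M => res Y n) := Cp.res hYS Cp.id
    have hD : Dc S (fun n : M => f (res Y n, n) ∈ P ∧ ∀ x < pow2 n, f (x, n) ∈ P → x = res Y n) := by
      refine Dc.and (Dc.mem (Cp.comp hfS (Cp.pair hres' Cp.id)) hP) ?_
      refine Dc.ball (f := fun n : M => pow2 n) (P := fun p : M × M => f (p.2, p.1) ∈ P →
        p.2 = res Y p.1) (Cp.pow2 Cp.id) ?_
      refine Dc.imp (Dc.mem (Cp.comp hfS (Cp.pair (Cp.snd Cp.id) (Cp.fst Cp.id))) hP) ?_
      exact Dc.eq (Cp.snd Cp.id) (Cp.res hYS (Cp.fst Cp.id))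
    intro n
    refine ind_dc hD ?_ ?_ n
    · refine ⟨?_, ?_⟩
      · rw [hf.zero]
        exact hP0
      · intro x hx _
        rw [pow2_zero] at hx
        rw [res_zero]
        have h1 : x < 0 + 1 := by rwa [zero_add]
        exact le_antisymm (lt_succ_iff.1 h1) zero_le
    · rintro n ⟨ih1, ih2⟩
      -- the value at the previous level
      have hprev : ∀ x, f (x, n + 1) ∈ P → f (x, n) ∈ P := by
        intro x hx
        refine (hPs _).1.2 ?_
        rcases hf.cases x n with ⟨_, h4⟩ | ⟨_, h4⟩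
        · right
          rwa [h4] at hx
        · left
          rwa [h4] at hx
      have hmd : ∀ x, f (x, n + 1) ∈ P → md x (pow2 n) = res Y n := by
        intro x hx
        refine ih2 _ (md_pow2_lt x n) ?_
        rw [hf.md]
        exact hprev x hx
      have hval : ∀ x, f (x, n + 1) ∈ P → f (x, n) = f (res Y n, n) := by
        intro x hx
        rw [← hmd x hx, hf.md]
      have hYn : n ∈ Y ↔ 2 * f (res Y n, n) + 2 ∈ P := by
        constructor
        · rintro ⟨x, hx, hxP, hb⟩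
          rw [← hval x hxP, ← hf.one x n hb]
          exact hxP
        · intro h
          have hr : res Y n < pow2 n := res_lt Y n
          have hb : Bit (res Y n + pow2 n) n := (bit_add_pow2 hr n).2 (Or.inr rfl)
          refine ⟨res Y n + pow2 n, add_pow2_lt hr, ?_, hb⟩
          rw [hf.one _ n hb]
          have h1 : f (res Y n + pow2 n, n) = f (res Y n, n) := by
            rw [← hf.md, md_add_pow2 hr]
          rw [h1]
          exact h
      have hr' : f (res Y (n + 1), n) = f (res Y n, n) := by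
        rw [← hf.md, md_res (lt_succ_iff.1 (lt_trans (lt_succ_iff.2 le_rfl)
          (lt_succ_iff.2 le_rfl)))]
      have hbn : Bit (res Y (n + 1)) n ↔ n ∈ Y := by
        rw [bit_res]
        exact ⟨fun h => h.2, fun h => ⟨lt_succ_iff.2 le_rfl, h⟩⟩
      refine ⟨?_, ?_⟩
      · rcases hf.cases (res Y (n + 1)) n with ⟨h3, h4⟩ | ⟨h3, h4⟩
        · rw [h4, hr']
          exact hYn.1 (hbn.1 h3)
        · rw [h4, hr']
          rcases (hPs _).1.1 ih1 with h5 | h5
          · exact h5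
          · exact absurd (hbn.2 (hYn.2 h5)) h3
      · intro x hx hxP
        refine Wkl_bit_eq hx (res_lt Y (n + 1)) fun i hi => ?_
        rcases eq_or_lt_of_le (lt_succ_iff.1 hi) with h9 | h9
        · subst h9
          rw [hbn]
          constructor
          · intro hb
            exact ⟨x, hx, hxP, hb⟩
          · intro hY'
            by_contra hb
            have h1 := hYn.1 hY'
            have h2 : 2 * f (res Y i, i) + 1 ∈ P := by
              rw [← hval x hxP, ← hf.two x i hb]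
              exact hxP
            exact (hPs _).2 ⟨h2, h1⟩
        · have h1 := hmd x hxP
          have h2 : Bit (md x (pow2 n)) i ↔ Bit x i := by
            rw [bit_md]
            exact ⟨fun h => h.1, fun h => ⟨h, h9⟩⟩
          rw [← h2, h1, bit_res, bit_res]
          exact ⟨fun h => ⟨hi, h.2⟩, fun h => ⟨h9, h.2⟩⟩
  refine ⟨Y, hYS, fun n => ?_⟩
  obtain ⟨m, _, x, hx, he, hTx⟩ := hsub (hG n).1
  obtain ⟨h1, h2⟩ := hf.inj (res Y n) x (m + 1) n m (lt_succ_iff.2 le_rfl) he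
  subst h1
  have h3 : res Y n = x := Wkl_bit_eq (res_lt Y n) hx h2
  rw [h3]
  exact hTx

end WI
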