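import Pool.Agent.Helper32.WI.DRun
import Pool.Agent.Helper32.WI.Arith
import Pool.Agent.Helper32.WI.Reduc
import Pool.Agent.Helper32.WI.Pow
import Pool.Agent.Helper32.WI.Bits
import Pool.Agent.Helper32.WI.Cod
import Pool.Agent.Helper32.WI.Cnt
import Pool.Agent.Helper32.WI.Cnt2
import Pool.Agent.Helper32.WI.Wkl
import Pool.Agent.Helper32.WI.NN
import Pool.Agent.Helper32.WI.UUf
import Pool.Agent.Helper32.WI.DcRun

/-! WI-R11: a set which avoids all removed strings (Lemma 3). -/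

set_option linter.unusedSectionVars false
set_option linter.unusedVariables false

universe u

namespace WI

open Enc

variable {M : Type u} [CommSemiring M] [LinearOrder M] [PAM M]
variable {α β γ : Type u} [Enc M α] [Enc M β] [Enc M γ] {𝒪 : Set (Set M)}

variable [IS1 (∅ : Set (Set M))] {S : Set (Set M)} {C : M → M → M → M → M → Prop}
  {Q : M → M → M → M → Prop} {k A : M → M}

theorem Avoid_dc1 [IS1 𝒪] (hC : IsFun S C) {Y : Set M} (hY : Y ∈ 𝒪) {b r s : α → M} (hb : Cp 𝒪 b)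
    (hr : Cp 𝒪 r) (hs : Cp 𝒪 s) : Dc 𝒪 (fun a => Rm1 C Y (b a) (r a) (s a)) := by
  refine Dc.bex (f := fun a => s a + 1) (P := fun p : α × M =>
    Light C (b p.1) (res Y (NN (b p.1))) p.2 ∧
    ∃ e < b p.1, C e p.2 (md (r p.1) (pow2 p.2)) (NN (b p.1)) (res Y (NN (b p.1))))
    (Cp.add hs (Cp.const 1)) ?_
  have hb1 : Cp 𝒪 (fun p : α × M => b p.1) := Cp.comp hb (Cp.fst Cp.id)
  have hr1 : Cp 𝒪 (fun p : α × M => r p.1) := Cp.comp hr (Cp.fst Cp.id)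
  refine Dc.and (Dc.light hC hb1 (Cp.res hY (Cp.NN hb1)) (Cp.snd Cp.id)) ?_
  refine Dc.bex (f := fun p : α × M => b p.1) (P := fun q : (α × M) × M =>
    C q.2 q.1.2 (md (r q.1.1) (pow2 q.1.2)) (NN (b q.1.1)) (res Y (NN (b q.1.1)))) hb1 ?_
  have hb2 : Cp 𝒪 (fun q : (α × M) × M => b q.1.1) := Cp.comp hb (Cp.fst (Cp.fst Cp.id))
  have hr2 : Cp 𝒪 (fun q : (α × M) × M => r q.1.1) := Cp.comp hr (Cp.fst (Cp.fst Cp.id))
  have ht2 : Cp 𝒪 (fun q : (α × M) × M => q.1.2) := Cp.snd (Cp.fst Cp.id)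
  exact hC.dcC (Cp.snd Cp.id) ht2 (Cp.md hr2 (Cp.pow2 ht2)) (Cp.NN hb2) (Cp.res hY (Cp.NN hb2))

theorem Avoid_dc2 [IS1 𝒪] (hC : IsFun S C) {X : Set M} (hX : X ∈ 𝒪) {e r s : α → M} (he : Cp 𝒪 e)
    (hr : Cp 𝒪 r) (hs : Cp 𝒪 s) : Dc 𝒪 (fun a => Rm2 C X (e a) (r a) (s a)) := by
  have he2 : Cp 𝒪 (fun a => e a + 2) := Cp.add he (Cp.const 2)
  exact hC.dcC he hs (Cp.res hX hs) he2 (Cp.md hr (Cp.pow2 he2))

/-- The removed strings of length `s` because of the birth `b + 1`. -/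
theorem Avoid_cnt1 [IS1 𝒪] (hC : IsFun S C) {Y : Set M} (hY : Y ∈ 𝒪) (b s : M) :
    cnt (fun r => Rm1 C Y (b + 1) r s) (pow2 s) * pow2 (b + 3 + 1) ≤ pow2 s := by
  have hL : Dc 𝒪 (fun t : M => Light C (b + 1) (res Y (NN (b + 1))) t) :=
    Dc.light hC (Cp.const _) (Cp.const _) Cp.id
  obtain ⟨t, hts, hlt, hmax⟩ := bmax hL (s := s) ⟨0, zero_le, light_zero hC
    (lt_succ_iff.2 zero_le) _⟩
  obtain ⟨d, rfl⟩ := exists_add_of_le hts
  set c := res Y (NN (b + 1)) with hc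
  have hPd : Dc 𝒪 (fun r : M => ∃ e < b + 1, C e t r (NN (b + 1)) c) := by
    refine Dc.bex (f := fun _ : M => b + 1) (P := fun p : M × M => C p.2 t p.1 (NN (b + 1)) c)
      (Cp.const _) ?_
    exact hC.dcC (Cp.snd Cp.id) (Cp.const _) (Cp.fst Cp.id) (Cp.const _) (Cp.const _)
  have h1 : cnt (fun r => Rm1 C Y (b + 1) r (t + d)) (pow2 (t + d)) =
      cnt (fun r => ∃ e < b + 1, C e t (md r (pow2 t)) (NN (b + 1)) c) (pow2 (t + d)) := by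
    refine cnt_congr fun r hr => ?_
    constructor
    · rintro ⟨u, hu, hlu, e, he, hCe⟩
      have hut : u ≤ t := by
        by_contra h
        exact hmax u (not_le.1 h) (lt_succ_iff.1 hu) hlu
      refine ⟨e, he, hC.mono hCe hut (md_pow2_lt r t) ?_⟩
      exact md_md_pow2 r hut
    · rintro ⟨e, he, hCe⟩
      exact ⟨t, lt_succ_iff.2 hts, hlt, e, he, hCe⟩
  have h2 : cnt (fun r => ∃ e < b + 1, C e t (md r (pow2 t)) (NN (b + 1)) c) (pow2 (t + d)) =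
      cnt (fun r => ∃ e < b + 1, C e t r (NN (b + 1)) c) (pow2 t) * pow2 d := by
    rw [pow2_add]
    exact cnt_per hPd (pow2_pos t) (pow2 d)
  have h3 : cnt (fun r => ∃ e < b + 1, C e t r (NN (b + 1)) c) (pow2 t) ≤
      UU C (b + 1) (NN (b + 1)) c t := UU_cnt hC _ _ _ _
  rw [h1, h2]
  have h4 : UU C (b + 1) (NN (b + 1)) c t * pow2 (b + 1 + 3) ≤ pow2 t := hlt
  have e1 : b + 3 + 1 = b + 1 + 3 := by ring
  rw [e1, pow2_add t d]
  calc cnt (fun r => ∃ e < b + 1, C e t r (NN (b + 1)) c) (pow2 t) * pow2 d * pow2 (b + 1 + 3)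
      ≤ UU C (b + 1) (NN (b + 1)) c t * pow2 d * pow2 (b + 1 + 3) := by gcongr
    _ = UU C (b + 1) (NN (b + 1)) c t * pow2 (b + 1 + 3) * pow2 d := by ring
    _ ≤ pow2 t * pow2 d := by gcongr

/-- The removed strings of length `s` because of the index `e`. -/
theorem Avoid_cnt2 [IS1 𝒪] (hC : IsFun S C) {X : Set M} (hX : X ∈ 𝒪) (e s : M) :
    cnt (fun r => e + 2 ≤ s ∧ Rm2 C X e r s) (pow2 s) * pow2 (e + 1 + 1) ≤ pow2 s := by
  have e1 : e + 1 + 1 = e + 2 := by ring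
  rw [e1]
  by_cases hes : e + 2 ≤ s
  · obtain ⟨d, rfl⟩ := exists_add_of_le hes
    set x := res X (e + 2 + d) with hx
    have hPd : Dc 𝒪 (fun r : M => C e (e + 2 + d) x (e + 2) r) :=
      hC.dcC (Cp.const _) (Cp.const _) (Cp.const _) (Cp.const _) Cp.id
    have h1 : cnt (fun r => e + 2 ≤ e + 2 + d ∧ Rm2 C X e r (e + 2 + d)) (pow2 (e + 2 + d)) =
        cnt (fun r => C e (e + 2 + d) x (e + 2) (md r (pow2 (e + 2)))) (pow2 (e + 2 + d)) := by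
      refine cnt_congr fun r hr => ?_
      exact ⟨fun h => h.2, fun h => ⟨hes, h⟩⟩
    have h2 : cnt (fun r => C e (e + 2 + d) x (e + 2) (md r (pow2 (e + 2)))) (pow2 (e + 2 + d)) =
        cnt (fun r => C e (e + 2 + d) x (e + 2) r) (pow2 (e + 2)) * pow2 d := by
      rw [pow2_add (e + 2) d]
      exact cnt_per hPd (pow2_pos (e + 2)) (pow2 d)
    have h3 : cnt (fun r => C e (e + 2 + d) x (e + 2) r) (pow2 (e + 2)) ≤ 1 :=
      cnt_le_one hPd fun i _ j _ hi hj => hC.uniq hi hj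
    rw [h1, h2, pow2_add (e + 2) d]
    calc cnt (fun r => C e (e + 2 + d) x (e + 2) r) (pow2 (e + 2)) * pow2 d * pow2 (e + 2)
        ≤ 1 * pow2 d * pow2 (e + 2) := by gcongr
      _ = pow2 (e + 2) * pow2 d := by ring
  · have hD : Dc 𝒪 (fun r : M => e + 2 ≤ s ∧ Rm2 C X e r s) :=
      Dc.and (Dc.const _) (Avoid_dc2 hC hX (Cp.const _) Cp.id (Cp.const _))
    rw [cnt_eq_zero hD (fun i _ h => hes h.1), zero_mul]
    exact zero_le

theorem Avoid_exists [IS1 𝒪] (hC : IsFun S C) {X Y : Set M} (hX : X ∈ 𝒪) (hY : Y ∈ 𝒪) (s : M) :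
    ∃ r < pow2 s, (∀ b < s, ¬ Rm1 C Y (b + 1) r s) ∧ ∀ e < s, e + 2 ≤ s → ¬ Rm2 C X e r s := by
  have hD1 : Dc 𝒪 (fun p : M × M => Rm1 C Y (p.1 + 1) p.2 s) :=
    Avoid_dc1 hC hY (Cp.add (Cp.fst Cp.id) (Cp.const 1)) (Cp.snd Cp.id) (Cp.const _)
  have hD2 : Dc 𝒪 (fun p : M × M => p.1 + 2 ≤ s ∧ Rm2 C X p.1 p.2 s) :=
    Dc.and (Dc.le (Cp.add (Cp.fst Cp.id) (Cp.const 2)) (Cp.const _))
      (Avoid_dc2 hC hX (Cp.fst Cp.id) (Cp.snd Cp.id) (Cp.const _))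
  have g1 : cnt (fun r => ∃ b < s, Rm1 C Y (b + 1) r s) (pow2 s) * pow2 3 ≤ pow2 s :=
    cnt_geom (P := fun p : M × M => Rm1 C Y (p.1 + 1) p.2 s) hD1 3 (pow2 s) s
      (fun b _ => Avoid_cnt1 hC hY b s)
  have g2 : cnt (fun r => ∃ e < s, e + 2 ≤ s ∧ Rm2 C X e r s) (pow2 s) * pow2 1 ≤ pow2 s :=
    cnt_geom (P := fun p : M × M => p.1 + 2 ≤ s ∧ Rm2 C X p.1 p.2 s) hD2 1 (pow2 s) s
      (fun e _ => Avoid_cnt2 hC hX e s)
  have hB1 : Dc 𝒪 (fun r : M => ∃ b < s, Rm1 C Y (b + 1) r s) := by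
    refine Dc.bex (f := fun _ : M => s) (P := fun p : M × M => Rm1 C Y (p.2 + 1) p.1 s)
      (Cp.const _) ?_
    exact Avoid_dc1 hC hY (Cp.add (Cp.snd Cp.id) (Cp.const 1)) (Cp.fst Cp.id) (Cp.const _)
  have hB2 : Dc 𝒪 (fun r : M => ∃ e < s, e + 2 ≤ s ∧ Rm2 C X e r s) := by
    refine Dc.bex (f := fun _ : M => s) (P := fun p : M × M => p.2 + 2 ≤ s ∧ Rm2 C X p.2 p.1 s)
      (Cp.const _) ?_
    exact Dc.and (Dc.le (Cp.add (Cp.snd Cp.id) (Cp.const 2)) (Cp.const _))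
      (Avoid_dc2 hC hX (Cp.snd Cp.id) (Cp.fst Cp.id) (Cp.const _))
  have g3 := cnt_or hB1 hB2 (pow2 s)
  set c1 := cnt (fun r => ∃ b < s, Rm1 C Y (b + 1) r s) (pow2 s) with hc1
  set c2 := cnt (fun r => ∃ e < s, e + 2 ≤ s ∧ Rm2 C X e r s) (pow2 s) with hc2
  have p3 : pow2 (3 : M) = 8 := by
    have e3 : (3 : M) = 0 + 1 + 1 + 1 := by norm_num
    rw [e3, pow2_succ, pow2_succ, pow2_succ, pow2_zero]
    norm_num
  have g4 : c1 + c2 < pow2 s := by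
    by_contra h
    rw [not_lt] at h
    rw [p3] at g1
    rw [pow2_one] at g2
    have h1 : 8 * pow2 s ≤ pow2 s + 4 * pow2 s := by
      calc 8 * pow2 s ≤ 8 * (c1 + c2) := by gcongr
        _ = c1 * 8 + 4 * (c2 * 2) := by ring
        _ ≤ pow2 s + 4 * pow2 s := by gcongr
    have h2 : pow2 s + 4 * pow2 s < 8 * pow2 s := by
      have h3 : (0 : M) < 3 * pow2 s := mul_pos (by norm_num) (pow2_pos s)
      calc pow2 s + 4 * pow2 s < pow2 s + 4 * pow2 s + 3 * pow2 s := lt_add_of_pos_right _ h3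
        _ = 8 * pow2 s := by ring
    exact absurd h1 (not_le.2 h2)
  obtain ⟨r, hr, hn⟩ := exists_of_cnt_lt (Dc.or hB1 hB2) (lt_of_le_of_lt g3 g4)
  push Not at hn
  exact ⟨r, hr, hn.1, hn.2⟩

theorem exists_avoid (hS : WKL0 S) (hC : IsFun S C) {X Y : Set M} (hX : X ∈ S) (hY : Y ∈ S) :
    ∃ R ∈ S, ∀ s, (∀ b, 0 < b → ¬ Rm1 C Y b (res R s) s) ∧
      ∀ e, e + 2 ≤ s → ¬ Rm2 C X e (res R s) s := by
  have hR : RCA0 S := hS.toRCA0
  have iS : IS1 S := hR.is1 subset_rfl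
  have iX : IS1 ({X} : Set (Set M)) := hR.is1 (by simpa using hX)
  have hT : Dc S (fun p : M × M => p.2 < pow2 p.1 ∧ (∀ b < p.1, ¬ Rm1 C Y (b + 1) p.2 p.1) ∧
      ∀ e < p.1, e + 2 ≤ p.1 → ¬ Rm2 C X e p.2 p.1) := by
    refine Dc.and (Dc.lt (Cp.snd Cp.id) (Cp.pow2 (Cp.fst Cp.id))) (Dc.and ?_ ?_)
    · refine Dc.ball (f := fun p : M × M => p.1) (P := fun q : (M × M) × M =>
        ¬ Rm1 C Y (q.2 + 1) q.1.2 q.1.1) (Cp.fst Cp.id) ?_
      exact Dc.not (Avoid_dc1 hC hY (Cp.add (Cp.snd Cp.id) (Cp.const 1)) (Cp.snd (Cp.fst Cp.id))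
        (Cp.fst (Cp.fst Cp.id)))
    · refine Dc.ball (f := fun p : M × M => p.1) (P := fun q : (M × M) × M =>
        q.2 + 2 ≤ q.1.1 → ¬ Rm2 C X q.2 q.1.2 q.1.1) (Cp.fst Cp.id) ?_
      exact Dc.imp (Dc.le (Cp.add (Cp.snd Cp.id) (Cp.const 2)) (Cp.fst (Cp.fst Cp.id)))
        (Dc.not (Avoid_dc2 hC hX (Cp.snd Cp.id) (Cp.snd (Cp.fst Cp.id))
          (Cp.fst (Cp.fst Cp.id))))
  obtain ⟨R, hRS, hRT⟩ := wkl_str hS hT (fun n x h => h.1) (by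
    rintro n x m ⟨h1, h2, h3⟩ hm
    refine ⟨md_pow2_lt x m, ?_, ?_⟩
    · rintro b hb ⟨t, ht, hl, e, he, hCe⟩
      refine h2 b (lt_of_lt_of_le hb hm) ⟨t, lt_of_lt_of_le ht (by gcongr), hl, e, he, ?_⟩
      have h4 : md (md x (pow2 m)) (pow2 t) = md x (pow2 t) := md_md_pow2 x (lt_succ_iff.1 ht)
      have hCe' : C e t (md (md x (pow2 m)) (pow2 t)) (NN (b + 1)) (res Y (NN (b + 1))) := hCe
      rw [h4] at hCe'
      exact hCe'
    · intro e he hem hrm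
      refine h3 e (lt_of_lt_of_le he hm) (hem.trans hm) ?_
      have hrm' : C e m (res X m) (e + 2) (md (md x (pow2 m)) (pow2 (e + 2))) := hrm
      rw [md_md_pow2 x hem] at hrm'
      exact hC.mono hrm' hm (res_lt X n) (md_res hm)) (by
    intro n
    obtain ⟨r, h1, h2, h3⟩ := Avoid_exists hC hX hY n
    exact ⟨r, h1, h2, h3⟩)
  refine ⟨R, hRS, fun s => ⟨?_, ?_⟩⟩
  · intro b hb hrm
    rcases eq_zero_or_succ b with h0 | ⟨b', rfl⟩
    · subst h0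
      exact lt_irrefl _ hb
    · by_cases hbs : b' < s
      · exact (hRT s).2.1 b' hbs hrm
      · obtain ⟨t, ht, hl, e, he, hCe⟩ := hrm
        have h1 := (hC.len hCe).2.1
        have h2 : b' + 1 ≤ s := (le_NN (b' + 1)).trans (h1.trans (lt_succ_iff.1 ht))
        exact hbs (lt_iff_succ_le.2 h2)
  · intro e hes
    refine (hRT s).2.2 e ?_ hes
    have h1 : e < e + 2 := lt_add_of_pos_right e zero_lt_two
    exact lt_of_lt_of_le h1 hes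

end WI
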