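import Pool.Agent.Helper32.WI.DRun

/-! WI-R1: records. -/

set_option linter.unusedSectionVars false
set_option linter.unusedVariables false

universe u

namespace WI

open Enc

variable {M : Type u} [CommSemiring M] [LinearOrder M] [PAM M]
variable {α β γ : Type u} [Enc M α] [Enc M β] [Enc M γ] {𝒪 : Set (Set M)}

variable [IS1 (∅ : Set (Set M))] {S : Set (Set M)} {C : M → M → M → M → M → Prop}
  {Q : M → M → M → M → Prop} {k A : M → M}

theorem rc_self (k : M → M) (s : M) : Rc k s s :=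
  ⟨le_rfl, fun _ h1 h2 => absurd (lt_of_lt_of_le h1 h2) (lt_irrefl _)⟩

theorem rc_trans {t u s : M} (h1 : Rc k t u) (h2 : Rc k u s) : Rc k t s := by
  refine ⟨h1.1.trans h2.1, fun v hv hvs => ?_⟩
  rcases le_or_gt v u with h | h
  · exact h1.2 v hv h
  · rcases eq_or_lt_of_le h1.1 with h3 | h3
    · subst h3
      exact h2.2 v hv hvs
    · exact lt_trans (h1.2 u h3 le_rfl) (h2.2 v h hvs)

theorem rc_restrict {t u s : M} (h : Rc k t s) (h1 : t ≤ u) (h2 : u ≤ s) : Rc k t u :=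
  ⟨h1, fun v hv hvu => h.2 v hv (hvu.trans h2)⟩

theorem rc_lt_iff {t t' s : M} (h : Rc k t s) (h' : Rc k t' s) : t < t' ↔ k t < k t' := by
  constructor
  · intro h1
    exact h.2 t' h1 h'.1
  · intro h1
    rcases lt_trichotomy t t' with h2 | h2 | h2
    · exact h2
    · subst h2
      exact absurd h1 (lt_irrefl _)
    · exact absurd (h'.2 t h2 h.1) (not_lt.2 (le_of_lt h1))

theorem rc_inj {t t' s : M} (h : Rc k t s) (h' : Rc k t' s) (he : k t = k t') : t = t' := by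
  rcases lt_trichotomy t t' with h2 | h2 | h2
  · exact absurd ((rc_lt_iff h h').1 h2) (by rw [he]; exact lt_irrefl _)
  · exact h2
  · exact absurd ((rc_lt_iff h' h).1 h2) (by rw [he]; exact lt_irrefl _)

theorem rc_of_rc_rc {t t' s : M} (h : Rc k t s) (h' : Rc k t' s) (hl : t ≤ t') : Rc k t t' :=
  rc_restrict h hl h'.1

theorem rc_succ_iff {t s : M} : Rc k t (s + 1) ↔ t = s + 1 ∨ (Rc k t s ∧ k t < k (s + 1)) := by
  constructor
  · intro h
    rcases eq_or_lt_of_le h.1 with h1 | h1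
    · exact Or.inl h1
    · exact Or.inr ⟨rc_restrict h (lt_succ_iff.1 h1) (le_of_lt (lt_succ_iff.2 le_rfl)),
        h.2 _ h1 le_rfl⟩
  · rintro (h | ⟨h, h1⟩)
    · subst h
      exact rc_self k _
    · refine ⟨h.1.trans (le_of_lt (lt_succ_iff.2 le_rfl)), fun u hu hus => ?_⟩
      rcases eq_or_lt_of_le hus with h2 | h2
      · subst h2
        exact h1
      · exact h.2 u hu (lt_succ_iff.1 h2)

theorem rc_between {t t' u s : M} (h : Rc k t s) (h' : Rc k t' s) (he : k t' = k t + 1)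
    (hu : Rc k u s) (hlt : u < t') : u ≤ t := by
  by_contra hc
  rw [not_le] at hc
  have h1 : k t < k u := (rc_lt_iff h hu).1 hc
  have h2 : k u < k t' := (rc_lt_iff hu h').1 hlt
  rw [he, lt_succ_iff] at h2
  exact absurd h1 (not_lt.2 h2)

theorem k_le_of_rc {t s : M} (h : Rc k t s) : k t ≤ k s := by
  rcases eq_or_lt_of_le h.1 with h1 | h1
  · rw [h1]
  · exact le_of_lt (h.2 s h1 le_rfl)

theorem Final.rc {t s : M} (h : Final k t) (hs : t ≤ s) : Rc k t s :=
  ⟨hs, fun u hu _ => h u hu⟩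

section

variable (hr : IsRun C Q k A)
include hr

theorem k_succ_le (s : M) : k (s + 1) ≤ k s + 1 := by
  rcases hr.step s with ⟨t, h1, h2⟩ | ⟨h1, _⟩
  · rw [h1]
    exact (k_le_of_rc h2.1.rc).trans (le_of_lt (lt_succ_iff.2 le_rfl))
  · exact le_of_eq h1

theorem k_pos {s : M} (hs : 0 < s) : 0 < k s := by
  obtain ⟨r, hr1⟩ := exists_add_of_le (lt_iff_succ_le.1 hs)
  have hr2 : s = r + 1 := by rw [hr1, zero_add, add_comm]
  subst hr2
  rcases hr.step r with ⟨t, h1, h2⟩ | ⟨h1, _⟩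
  · rw [h1]
    exact h2.1.pos
  · rw [h1]
    exact lt_succ_iff.2 zero_le

theorem exists_rc {i s : M} (h : i ≤ k s) : ∃ t, Rc k t s ∧ k t = i := by
  have hP : Sg (∅ : Set (Set M)) (fun z : M => ∃ t : M, t + z = s ∧ k t ≤ i) := by
    refine Sg.ex (P := fun p : M × M => p.2 + p.1 = s ∧ k p.2 ≤ i) (Sg.and ?_ ?_)
    · exact Sg.eq (Cp.add (Cp.snd Cp.id) (Cp.fst Cp.id)) (Cp.const s)
    · exact Sg.le (Cp.comp hr.cpk (Cp.snd Cp.id)) (Cp.const i)
  obtain ⟨z, ⟨t, h1, h2⟩, h3⟩ := least_sg hP ⟨s, 0, zero_add _, by rw [hr.k0]; exact zero_le⟩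
  have hts : t ≤ s := by rw [← h1]; exact le_self_add
  have h4 : ∀ u, t < u → u ≤ s → i < k u := by
    intro u hu hus
    obtain ⟨w, hw⟩ := exists_add_of_le hus
    by_contra hc
    rw [not_lt] at hc
    refine h3 w ?_ ⟨u, hw.symm, hc⟩
    by_contra hwz
    rw [not_lt] at hwz
    have h5 : t + z < u + w := add_lt_add_of_lt_of_le hu hwz
    rw [h1, ← hw] at h5
    exact lt_irrefl _ h5
  have hti : k t = i := by
    refine le_antisymm h2 ?_
    rcases eq_or_lt_of_le hts with h5 | h5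
    · rw [h5]
      exact h
    · have h6 := h4 (t + 1) (lt_succ_iff.2 le_rfl) (lt_iff_succ_le.1 h5)
      exact lt_succ_iff.1 (lt_of_lt_of_le h6 (k_succ_le hr t))
  exact ⟨t, ⟨hts, fun u hu hus => by rw [hti]; exact h4 u hu hus⟩, hti⟩

theorem rc_birth {t s : M} (h : Rc k t s) (hlt : t < s) : k (t + 1) = k t + 1 ∧
    ∀ x, Bit (A (t + 1)) x ↔ x < pow2 (NN (t + 1)) ∧ Astar C k A (md x (pow2 (NN t))) t := by
  have h1 : k t < k (t + 1) := h.2 _ (lt_succ_iff.2 le_rfl) (lt_iff_succ_le.1 hlt)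
  rcases hr.step t with ⟨t', h2, h3⟩ | h2
  · rw [h2] at h1
    exact absurd h1 (not_lt.2 (k_le_of_rc h3.1.rc))
  · exact h2

theorem no_move {t s B : M} (h : Final k t) (hs : t ≤ s) : ¬ QMove C Q k A s t B := by
  intro hm
  exact absurd (h (s + 1) (lt_succ_iff.2 hs)) (not_lt.2 (hr.least s t B hm))

end

end WI
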