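import Pool.Agent.Helper32.WI.DRun
import Pool.Agent.Helper32.WI.Arith
import Pool.Agent.Helper32.WI.Pow
import Pool.Agent.Helper32.WI.Bits
import Pool.Agent.Helper32.WI.NN

/-! WI-R2: restrictions of members of `A s`. -/

set_option linter.unusedSectionVars false
set_option linter.unusedVariables false

universe u

namespace WI

open Enc

variable {M : Type u} [CommSemiring M] [LinearOrder M] [PAM M]
variable {α β γ : Type u} [Enc M α] [Enc M β] [Enc M γ] {𝒪 : Set (Set M)}

variable [IS1 (∅ : Set (Set M))] {S : Set (Set M)} {C : M → M → M → M → M → Prop}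
  {Q : M → M → M → M → Prop} {k A : M → M}

section

variable (hC : IsFun S C) (hr : IsRun C Q k A)
include hC hr

theorem A_len {s x : M} (h : Bit (A s) x) : x < pow2 (NN s) := by
  rcases eq_zero_or_succ s with rfl | ⟨s', rfl⟩
  · rw [(hr.A0 x).1 h, NN_zero, pow2_zero]
    exact zero_lt_one
  · rcases hr.step s' with ⟨t, _, hq⟩ | ⟨_, hb⟩
    · exact hq.1.len x h
    · exact ((hb x).1 h).1

theorem A_astar {s x : M} (h : Bit (A (s + 1)) x) : Astar C k A (md x (pow2 (NN s))) s := by
  rcases hr.step s with ⟨t, _, hq⟩ | ⟨_, hb⟩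
  · exact hq.1.v1 x h
  · exact ((hb x).1 h).2

theorem A_res {s u x : M} (hu : u ≤ s) (h : Bit (A s) x) : Bit (A u) (md x (pow2 (NN u))) := by
  obtain ⟨d, rfl⟩ := exists_add_of_le hu
  have key : ∀ d : M, ∀ x < A (u + d), Bit (A (u + d)) x → Bit (A u) (md x (pow2 (NN u))) := by
    intro d
    refine ind_dc (𝒪 := (∅ : Set (Set M)))
      (P := fun d => ∀ x < A (u + d), Bit (A (u + d)) x → Bit (A u) (md x (pow2 (NN u))))
      ?_ ?_ ?_ d
    · refine Dc.ball (f := fun d => A (u + d))
        (P := fun p : M × M => Bit (A (u + p.1)) p.2 → Bit (A u) (md p.2 (pow2 (NN u)))) ?_ ?_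
      · exact hr.cpA.comp (Cp.add (Cp.const u) Cp.id)
      · refine Dc.imp ?_ ?_
        · exact Dc.bit (hr.cpA.comp (Cp.add (Cp.const u) (Cp.fst Cp.id))) (Cp.snd Cp.id)
        · exact Dc.bit (Cp.const _) (Cp.md (Cp.snd Cp.id) (Cp.const _))
    · intro x _ hx
      rw [add_zero] at hx
      rw [md_of_lt (A_len hC hr hx)]
      exact hx
    · intro d ih x _ hx
      rw [← add_assoc] at hx
      have h1 := (A_astar hC hr hx).1
      have h2 := ih _ (lt_of_bit h1) h1
      rwa [md_md_pow2 x (NN_le (le_self_add : u ≤ u + d))] at h2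
  exact key d x (lt_of_bit h) h

theorem A_res_astar {s u x : M} (hu : u < s) (h : Bit (A s) x) :
    Astar C k A (md x (pow2 (NN u))) u := by
  have h1 := A_astar hC hr (A_res hC hr (lt_iff_succ_le.1 hu) h)
  rwa [md_md_pow2 x (NN_le (le_self_add : u ≤ u + 1))] at h1

theorem A_light {s u t x : M} (hu : u < s) (h : Bit (A s) x) (ht : Rc k t u) (htu : t < u) :
    Light C (t + 1) (md x (pow2 (NN (t + 1)))) u := by
  have h1 := (A_res_astar hC hr hu h).2 t htu ht
  rwa [md_md_pow2 x (NN_le (lt_iff_succ_le.1 htu))] at h1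

end

end WI
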