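import Pool.Agent.Helper32.WI.DRun
import Pool.Agent.Helper32.WI.Arith
import Pool.Agent.Helper32.WI.Cod
import Pool.Agent.Helper32.WI.NN
import Pool.Agent.Helper32.WI.UUf
import Pool.Agent.Helper32.WI.RcFacts
import Pool.Agent.Helper32.WI.Restr

/-! WI-R8: blocks (Lemma 2) and persistent lightness. -/

set_option linter.unusedSectionVars false
set_option linter.unusedVariables false

universe u

namespace WI

open Enc

variable {M : Type u} [CommSemiring M] [LinearOrder M] [PAM M]
variable {α β γ : Type u} [Enc M α] [Enc M β] [Enc M γ] {𝒪 : Set (Set M)}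

variable [IS1 (∅ : Set (Set M))] {S : Set (Set M)} {C : M → M → M → M → M → Prop}
  {Q : M → M → M → M → Prop} {k A : M → M}

theorem Blocks_next (hr : IsRun C Q k A) (hf : Fry k) {t : M} (ht : Final k t) :
    ∃ t', t < t' ∧ k t' = k t + 1 ∧ Final k t' := by
  obtain ⟨B, hB⟩ := hf t ht
  have h1 : k (t + 1) = k t + 1 :=
    le_antisymm (k_succ_le hr t) (lt_iff_succ_le.1 (ht (t + 1) (lt_succ_iff.2 le_rfl)))
  obtain ⟨t', ht', h2, h3⟩ := bmax (𝒪 := (∅ : Set (Set M))) (P := fun u => k u = k t + 1)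
    (Dc.eq hr.cpk (Cp.const _)) ⟨t + 1, hB _ h1, h1⟩
  have h4 : t + 1 ≤ t' := by
    by_contra h5
    exact h3 (t + 1) (not_le.1 h5) (hB _ h1) h1
  have h5 : t < t' := lt_iff_succ_le.2 h4
  refine ⟨t', h5, h2, fun s hs => ?_⟩
  have h6 := ht s (h5.trans hs)
  rcases eq_or_lt_of_le (lt_iff_succ_le.1 h6) with h7 | h7
  · exact absurd h7.symm (h3 s hs (hB s h7.symm))
  · rw [h2]
    exact h7

theorem Blocks_final (hr : IsRun C Q k A) (hf : Fry k) (e : M) : ∃ t, e ≤ t ∧ Final k t := by
  by_contra hcon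
  have hcon' : ∀ t, Final k t → t < e := by
    intro t ht
    by_contra h
    exact hcon ⟨t, not_lt.1 h, ht⟩
  have h0 : Final k 0 := by
    intro s hs
    rw [hr.k0]
    exact k_pos hr hs
  have he := hcon' 0 h0
  have key : ∀ j, ∀ s, e ≤ s → j < k s := by
    have hsg : Sg (∅ : Set (Set M)) (fun j : M => ¬ ∀ s, e ≤ s → j < k s) := by
      have h1 : Sg (∅ : Set (Set M)) (fun j : M => ∃ s, e ≤ s ∧ k s ≤ j) := by
        refine Sg.ex (β := M) (P := fun q : M × M => e ≤ q.2 ∧ k q.2 ≤ q.1) ?_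
        exact Sg.and (Sg.le (Cp.const e) (Cp.snd Cp.id))
          (Sg.le (Cp.comp hr.cpk (Cp.snd Cp.id)) (Cp.fst Cp.id))
      refine h1.congr fun j => ?_
      push Not
      rfl
    refine ind_pi hsg ?_ ?_
    · intro s hs
      exact k_pos hr (lt_of_lt_of_le he hs)
    · intro j ih
      obtain ⟨t, hte, ht, hmax⟩ := bmax (𝒪 := (∅ : Set (Set M))) (P := fun u => k u ≤ j)
        (Dc.le hr.cpk (Cp.const _)) (s := e) ⟨0, zero_le (a := e), by
          rw [hr.k0]
          exact zero_le (a := j)⟩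
      have h1 : ∀ u, t < u → j < k u := by
        intro u hu
        rcases le_total u e with h2 | h2
        · exact not_le.1 (hmax u hu h2)
        · exact ih u h2
      have h2 : k t = j := by
        refine le_antisymm ht ?_
        have h3 := lt_iff_succ_le.1 (h1 (t + 1) (lt_succ_iff.2 le_rfl))
        exact le_of_add_le_add_right (h3.trans (k_succ_le hr t))
      have h3 : Final k t := fun u hu => by
        rw [h2]
        exact h1 u hu
      obtain ⟨t', _, h4, h5⟩ := Blocks_next hr hf h3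
      intro s hs
      have h6 := h5 s (lt_of_lt_of_le (hcon' t' h5) hs)
      rw [h4, h2] at h6
      exact h6
  exact lt_irrefl _ (key (k e) e le_rfl)

theorem blocks (hr : IsRun C Q k A) (hf : Fry k) (e : M) :
    ∃ t t', e ≤ t ∧ t < t' ∧ Final k t ∧ k t' = k t + 1 ∧ Final k t' := by
  obtain ⟨t, h1, h2⟩ := Blocks_final hr hf e
  obtain ⟨t', h3, h4, h5⟩ := Blocks_next hr hf h2
  exact ⟨t, t', h1, h3, h2, h4, h5⟩

theorem InP.astar (hC : IsFun S C) (hr : IsRun C Q k A) {Y : Set M} [IS1 ({Y} : Set (Set M))]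
    (hY : InP A Y) (s : M) : Astar C k A (res Y (NN s)) s := by
  have h1 := A_astar hC hr (hY (s + 1))
  rwa [md_res (NN_le le_self_add)] at h1

theorem InP.light (hC : IsFun S C) (hr : IsRun C Q k A) {Y : Set M} [IS1 ({Y} : Set (Set M))]
    (hY : InP A Y) {t : M} (ht : Final k t) (s : M) : Light C (t + 1) (res Y (NN (t + 1))) s := by
  have h1 := InP.astar hC hr hY (max s (t + 1))
  have h2 : t < max s (t + 1) := lt_iff_succ_le.2 (le_max_right _ _)
  have h3 := h1.2 t h2 (Final.rc ht h2.le)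
  rw [md_res (NN_le (le_max_right _ _))] at h3
  exact light_mono hC (le_max_left _ _) h3

end WI
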