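import Pool.Agent.Helper32.WI.Arith
import Pool.Agent.Helper32.WI.Pow
import Pool.Agent.Helper32.WI.Bits
import Pool.Agent.Helper32.WI.NN
import Pool.Agent.Helper32.WI.UUf

/-! WI-H3: light children (helper83). -/

set_option linter.unusedSectionVars false
set_option linter.unusedVariables false

universe u

namespace WI

open Enc

variable {M : Type u} [CommSemiring M] [LinearOrder M] [PAM M]
variable {α β γ : Type u} [Enc M α] [Enc M β] [Enc M γ] {𝒪 : Set (Set M)}

variable [IS1 (∅ : Set (Set M))] {S : Set (Set M)} {C : M → M → M → M → M → Prop}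
  {Q : M → M → M → M → Prop} {k A : M → M}

/-- The decidable predicate of the induction. -/
theorem LC_dc (hC : IsFun S C) (b n s σ : M) :
    Dc (∅ : Set (Set M)) (fun j : M => ∃ c, c < pow2 (n + j) ∧
      (md c (pow2 n) = σ ∧ UU C b (n + j) c s * pow2 j ≤ b * pow2 s)) := by
  refine Dc.bex (f := fun j => pow2 (n + j))
    (P := fun p : M × M => md p.2 (pow2 n) = σ ∧
      UU C b (n + p.1) p.2 s * pow2 p.1 ≤ b * pow2 s) ?_ ?_
  · exact Cp.pow2 (Cp.add (Cp.const n) Cp.id)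
  · refine Dc.and ?_ ?_
    · exact Dc.eq (Cp.md (Cp.snd Cp.id) (Cp.const _)) (Cp.const σ)
    · refine Dc.le ?_ (Cp.const _)
      refine Cp.mul ?_ (Cp.pow2 (Cp.fst Cp.id))
      exact Cp.UU hC (Cp.const b) (Cp.add (Cp.const n) (Cp.fst Cp.id)) (Cp.snd Cp.id) (Cp.const s)

theorem LC_half {x y z : M} (h : x + y ≤ z) : 2 * x ≤ z ∨ 2 * y ≤ z := by
  rcases le_total x y with h1 | h1
  · left
    calc 2 * x = x + x := two_mul x
      _ ≤ x + y := by gcongr
      _ ≤ z := h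
  · right
    calc 2 * y = y + y := two_mul y
      _ ≤ x + y := by gcongr
      _ ≤ z := h

theorem LC_ext (hC : IsFun S C) (b n s σ : M) (hσ : σ < pow2 n) (j : M) :
    ∃ c, c < pow2 (n + j) ∧
      (md c (pow2 n) = σ ∧ UU C b (n + j) c s * pow2 j ≤ b * pow2 s) := by
  refine ind_dc (LC_dc hC b n s σ) ?_ ?_ j
  · refine ⟨σ, ?_, md_of_lt hσ, ?_⟩
    · rw [add_zero]
      exact hσ
    · rw [pow2_zero, mul_one]
      exact UU_le hC _ _ _ _
  · rintro j ⟨c, hc, h1, h2⟩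
    have key : ∀ c', 2 * UU C b (n + j + 1) c' s ≤ UU C b (n + j) c s →
        UU C b (n + j + 1) c' s * pow2 (j + 1) ≤ b * pow2 s := by
      intro c' h3
      calc UU C b (n + j + 1) c' s * pow2 (j + 1)
          = 2 * UU C b (n + j + 1) c' s * pow2 j := by rw [pow2_succ]; ring
        _ ≤ UU C b (n + j) c s * pow2 j := mul_le_mul' h3 le_rfl
        _ ≤ b * pow2 s := h2
    rw [← add_assoc]
    rcases LC_half (UU_split hC b (n + j) c s hc) with h3 | h3
    · exact ⟨c, hc.trans (pow2_lt (lt_succ_iff.2 le_rfl)), h1, key c h3⟩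
    · refine ⟨c + pow2 (n + j), add_pow2_lt hc, ?_, key _ h3⟩
      rw [← md_md_pow2 (c + pow2 (n + j)) (le_self_add : n ≤ n + j), md_add_pow2 hc]
      exact h1

theorem exists_light (hC : IsFun S C) (b s σ : M) (hσ : σ < pow2 (NN b)) :
    ∃ c < pow2 (NN (b + 1)), md c (pow2 (NN b)) = σ ∧ Light C (b + 1) c s := by
  obtain ⟨c, hc, h1, h2⟩ := LC_ext hC (b + 1) (NN b) s σ hσ (2 * b + 6)
  rw [← NN_succ] at hc h2
  refine ⟨c, hc, h1, ?_⟩
  unfold Light
  have e1 : pow2 (2 * b + 6) = pow2 (b + 1 + 3) * pow2 (b + 2) := by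
    rw [← pow2_add]
    congr 1
    ring
  have h3 : UU C (b + 1) (NN (b + 1)) c s * pow2 (b + 1 + 3) * pow2 (b + 2)
      ≤ pow2 s * pow2 (b + 2) := by
    calc UU C (b + 1) (NN (b + 1)) c s * pow2 (b + 1 + 3) * pow2 (b + 2)
        = UU C (b + 1) (NN (b + 1)) c s * pow2 (2 * b + 6) := by rw [e1, mul_assoc]
      _ ≤ (b + 1) * pow2 s := h2
      _ ≤ pow2 (b + 2) * pow2 s := by
        refine mul_le_mul' ?_ le_rfl
        refine (lt_pow2 (b + 1)).le.trans (pow2_le ?_)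
        rw [show b + 2 = b + 1 + 1 by ring]
        exact le_self_add
      _ = pow2 s * pow2 (b + 2) := mul_comm _ _
  exact le_of_mul_le_mul_right h3 (pow2_pos _)

theorem exists_light_one (hC : IsFun S C) (s : M) (v : Prop) :
    ∃ c < pow2 (NN (1 : M)), (Bit c 0 ↔ v) ∧ Light C 1 c s := by
  have h0 : ∃ σ : M, σ < pow2 1 ∧ (Bit σ 0 ↔ v) := by
    by_cases hv : v
    · refine ⟨1, ?_, ?_⟩
      · rw [pow2_one]
        exact one_lt_two
      · rw [bit_one]
        exact ⟨fun _ => hv, fun _ => rfl⟩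
    · refine ⟨0, pow2_pos _, ?_⟩
      exact ⟨fun h => absurd h (not_bit_zero 0), fun h => absurd h hv⟩
  obtain ⟨σ, hσ, hσv⟩ := h0
  obtain ⟨c, hc, h1, h2⟩ := LC_ext hC 1 1 s σ hσ 5
  have e1 : NN (1 : M) = 1 + 5 := by
    unfold NN
    ring
  rw [← e1] at hc h2
  refine ⟨c, hc, ?_, ?_⟩
  · rw [← hσv, ← h1, bit_md]
    exact ⟨fun h => ⟨h, zero_lt_one⟩, fun h => h.1⟩
  · unfold Light
    calc UU C 1 (NN 1) c s * pow2 (1 + 3) ≤ UU C 1 (NN 1) c s * pow2 5 := by
          refine mul_le_mul' le_rfl (pow2_le ?_)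
          rw [show (5 : M) = 1 + 3 + 1 by norm_num]
          exact le_self_add
      _ ≤ 1 * pow2 s := h2
      _ = pow2 s := one_mul _

end WI
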