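import Pool.Agent.Helper32.WI.DRun
import Pool.Agent.Helper32.WI.LC
import Pool.Agent.Helper32.WI.Bits
import Pool.Agent.Helper32.WI.NN
import Pool.Agent.Helper32.WI.Arith
import Pool.Agent.Helper32.WI.Pow
import Pool.Agent.Helper32.WI.DcRun
import Pool.Agent.Helper32.WI.RcFacts
import Pool.Agent.Helper32.WI.Restr

/-! WI-R4: the chain property follows from the invariant. -/

set_option linter.unusedSectionVars false
set_option linter.unusedVariables false

universe u

namespace WI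

open Enc

variable {M : Type u} [CommSemiring M] [LinearOrder M] [PAM M]
variable {α β γ : Type u} [Enc M α] [Enc M β] [Enc M γ] {𝒪 : Set (Set M)}

variable [IS1 (∅ : Set (Set M))] {S : Set (Set M)} {C : M → M → M → M → M → Prop}
  {Q : M → M → M → M → Prop} {k A : M → M}

/-- One step up in the tree of records. -/
theorem Chain_step (hC : IsFun S C) (hr : IsRun C Q k A) {s : M} (hI : Inv C k A s) {t t' σ : M}
    (ht : Rc k t s) (ht' : Rc k t' s) (he : k t' = k t + 1) (hσ : Bit (A t) σ)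
    (hal : AliveT C k σ t s) :
    ∃ σ', Bit (A t') σ' ∧ md σ' (pow2 (NN t)) = σ ∧ AliveT C k σ' t' s := by
  obtain ⟨c, hc, hcσ, hcl⟩ := exists_light hC t s σ (A_len hC hr hσ)
  obtain ⟨σ', hσ', hσc⟩ := hI t t' ht ht' he σ hσ hal c hc hcσ hcl
  have hle : NN t ≤ NN (t + 1) := NN_le (lt_succ_iff.2 le_rfl).le
  have h1 : md σ' (pow2 (NN t)) = σ := by
    rw [← hcσ, ← hσc, md_md_pow2 σ' hle]
  refine ⟨σ', hσ', h1, ?_⟩
  intro u hu hrc
  have hut : u ≤ t := rc_between ht ht' he hrc hu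
  rcases eq_or_lt_of_le hut with h2 | h2
  · subst h2
    rw [hσc]
    exact hcl
  · have h3 := hal u h2 hrc
    have h4 : md σ' (pow2 (NN (u + 1))) = md σ (pow2 (NN (u + 1))) := by
      rw [← h1, md_md_pow2 σ' (NN_le (lt_iff_succ_le.1 h2))]
    rw [h4]
    exact h3

theorem chain_of_inv (hC : IsFun S C) (hr : IsRun C Q k A) {s : M} (hI : Inv C k A s) {t σ : M}
    (ht : Rc k t s) (hσ : Bit (A t) σ) (hal : AliveT C k σ t s) :
    ∃ x, Astar C k A x s ∧ md x (pow2 (NN t)) = σ := by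
  -- the statement proved by induction on the level
  have hk := hr.cpk
  have hA := hr.cpA
  have key : ∀ d : M, k s < k t + d ∨ ∃ t', t' < s + 1 ∧ (Rc k t' s ∧ k t' = k t + d ∧
      ∃ x, x < A t' ∧ (Bit (A t') x ∧ md x (pow2 (NN t)) = σ ∧ AliveT C k x t' s)) := by
    intro d
    refine ind_sg (𝒪 := (∅ : Set (Set M))) (P := fun d : M => k s < k t + d ∨
      ∃ t', t' < s + 1 ∧ (Rc k t' s ∧ k t' = k t + d ∧
        ∃ x, x < A t' ∧ (Bit (A t') x ∧ md x (pow2 (NN t)) = σ ∧ AliveT C k x t' s))) ?_ ?_ ?_ d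
    · refine Sg.or (Sg.lt (Cp.const _) (Cp.add (Cp.const _) Cp.id)) ?_
      refine Sg.bex (P := fun p : M × M => Rc k p.2 s ∧ k p.2 = k t + p.1 ∧
        ∃ x, x < A p.2 ∧ (Bit (A p.2) x ∧ md x (pow2 (NN t)) = σ ∧ AliveT C k x p.2 s))
        (Cp.const _) ?_
      refine Sg.and (Dc.rc hk (Cp.snd Cp.id) (Cp.const _)).1 (Sg.and (Sg.eq
        (Cp.comp hk (Cp.snd Cp.id)) (Cp.add (Cp.const _) (Cp.fst Cp.id))) ?_)
      refine Sg.bex (P := fun p : (M × M) × M => Bit (A p.1.2) p.2 ∧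
        md p.2 (pow2 (NN t)) = σ ∧ AliveT C k p.2 p.1.2 s)
        (Cp.comp hA (Cp.snd Cp.id)) ?_
      refine Sg.and (Dc.bit (Cp.comp hA (Cp.snd (Cp.fst Cp.id))) (Cp.snd Cp.id)).1 (Sg.and
        (Sg.eq (Cp.md (Cp.snd Cp.id) (Cp.const _)) (Cp.const _)) ?_)
      exact (Dc.aliveT hC hk (Cp.snd Cp.id) (Cp.snd (Cp.fst Cp.id)) (Cp.const _)).1
    · refine Or.inr ⟨t, lt_succ_iff.2 ht.1, ht, by simp, σ, lt_of_bit hσ, hσ, ?_, hal⟩
      exact md_of_lt (A_len hC hr hσ)
    · rintro d (hd | ⟨t', _, hrc, hkt, x, _, hx, hxσ, hxa⟩)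
      · left
        refine lt_of_lt_of_le hd ?_
        gcongr
        exact (lt_succ_iff.2 le_rfl).le
      · rcases lt_or_ge (k s) (k t + (d + 1)) with h1 | h1
        · exact Or.inl h1
        · right
          obtain ⟨t'', hrc', hkt'⟩ := exists_rc hr h1
          have he : k t'' = k t' + 1 := by
            rw [hkt', hkt, add_assoc]
          obtain ⟨y, hy, hyx, hya⟩ := Chain_step hC hr hI hrc hrc' he hx hxa
          have htt : t ≤ t' := by
            by_contra hlt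
            rw [not_le] at hlt
            have := (rc_lt_iff hrc ht).1 hlt
            rw [hkt] at this
            exact absurd this (not_lt.2 le_self_add)
          refine ⟨t'', lt_succ_iff.2 hrc'.1, hrc', hkt', y, lt_of_bit hy, hy, ?_, hya⟩
          rw [← hxσ, ← hyx, md_md_pow2 y (NN_le htt)]
  obtain ⟨d, hd⟩ := exists_add_of_le (k_le_of_rc ht)
  rcases key d with h1 | ⟨t', _, hrc, hkt, x, _, hx, hxσ, hxa⟩
  · rw [← hd] at h1
    exact absurd h1 (lt_irrefl _)
  · have h2 : t' = s := rc_inj hrc (rc_self k s) (by rw [hkt, hd])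
    subst h2
    exact ⟨x, ⟨hx, hxa⟩, hxσ⟩

end WI
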