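import Pool.Agent.Helper32.WI.DArith

/-! WI-B1: `Σ⁰₁` uniformisation. -/

set_option linter.unusedSectionVars false
set_option linter.unusedVariables false

universe u

namespace WI

open Enc

variable {M : Type u} [CommSemiring M] [LinearOrder M] [PAM M]
variable {α β γ : Type u} [Enc M α] [Enc M β] [Enc M γ] {𝒪 : Set (Set M)}

theorem Choice_st : St (fun a : α => (enc a : M)) := by
  refine ⟨⟨fun v => v 0, Tm.var 0, fun a => le_rfl⟩, ?_⟩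
  refine (Bdd.and ((Enc.rng (α := α)).sub1 (Tm.var 0)) (Bdd.eq (Tm.var 0) (Tm.var 1))).congr ?_
  intro v
  constructor
  · rintro ⟨a, h1, h2⟩
    exact ⟨⟨a, h1⟩, h1.symm.trans h2⟩
  · rintro ⟨⟨a, h1⟩, h2⟩
    exact ⟨a, h1, (show enc a = v 0 from h1).trans h2⟩

theorem Choice_enc {f : γ → α} (hf : Cp 𝒪 f) : Cp 𝒪 (fun a => (enc (f a) : M)) :=
  Cp.comp (g := fun a : α => (enc a : M)) (Cp.st Choice_st) hf

theorem Choice_pair {f g : α → M} (hf : Cp 𝒪 f) (hg : Cp 𝒪 g) : Cp 𝒪 (fun a => WI.pair (f a) (g a)) :=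
  Cp.add (Cp.mul (Cp.add hf hg) (Cp.add hf hg)) hf

/-- Bounded relations are decidable. -/
theorem Choice_dc {R : (Fin 2 → M) → Prop} (hR : Bdd 𝒪 R) {f g : α → M} (hf : Cp 𝒪 f)
    (hg : Cp 𝒪 g) : Dc 𝒪 (fun a => R ![f a, g a]) :=
  ⟨(Sg.comp (Sg.of_bdd₂ hR) (hf.pair hg)).congr fun a => Iff.rfl,
    (Sg.comp (Sg.of_bdd₂ (Bdd.not hR)) (hf.pair hg)).congr fun a => Iff.rfl⟩

theorem Cp.choice [IS1 𝒪] {P : α × β → Prop} (hP : Sg 𝒪 P) (h : ∀ a, ∃ b, P (a, b)) :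
    ∃ f : α → β, Cp 𝒪 f ∧ ∀ a, P (a, f a) := by
  obtain ⟨R, hR, hR'⟩ := hP
  -- the bounded search relation
  have hD : Bdd 𝒪 (fun v : Fin 2 → M => ∃ y, y < v 0 + 1 ∧ ∃ c, c < v 0 + 1 ∧
      (v 0 = WI.pair y c ∧ (∃ b : β, enc b = c) ∧ R ![y, WI.pair (v 1) c])) := by
    refine Bdd.bex (t := fun v => v 0 + 1) (Tm.add (Tm.var 0) (Tm.const 1))
      (P := fun w : Fin 3 → M => ∃ c, c < w 1 + 1 ∧
        (w 1 = WI.pair (w 0) c ∧ (∃ b : β, enc b = c) ∧ R ![w 0, WI.pair (w 2) c])) ?_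
    refine Bdd.bex (t := fun v => v 1 + 1) (Tm.add (Tm.var 1) (Tm.const 1))
      (P := fun w : Fin 4 → M =>
        (w 2 = WI.pair (w 1) (w 0) ∧ (∃ b : β, enc b = w 0) ∧ R ![w 1, WI.pair (w 3) (w 0)])) ?_
    exact Bdd.and (Bdd.eq (Tm.var 2) (pair_tm (Tm.var 1) (Tm.var 0)))
      (Bdd.and (((Enc.rng (α := β)).mono (Set.empty_subset 𝒪)).sub1 (Tm.var 0))
        (hR.sub2 (Tm.var 1) (pair_tm (Tm.var 3) (Tm.var 0))))
  set D : M → M → Prop := fun z a => ∃ y, y < z + 1 ∧ ∃ c, c < z + 1 ∧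
      (z = WI.pair y c ∧ (∃ b : β, enc b = c) ∧ R ![y, WI.pair a c]) with hDdef
  have hD1 : ∀ (a : α) (b : β) (y : M), D (WI.pair y (enc b)) (enc a) ↔ R ![y, enc (a, b)] := by
    intro a b y
    constructor
    · rintro ⟨y', _, c, _, h1, ⟨b', h2⟩, h3⟩
      obtain ⟨h4, h5⟩ := pair_inj h1
      subst h4
      subst h5
      exact h3
    · intro h1
      refine ⟨y, ?_, enc b, ?_, rfl, ⟨b, rfl⟩, h1⟩
      · rw [lt_succ_iff]
        exact left_le_pair _ _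
      · rw [lt_succ_iff]
        exact right_le_pair _ _
  have hD2 : ∀ (a : α) (z : M), D z (enc a) → ∃ (b : β) (y : M), z = WI.pair y (enc b) := by
    rintro a z ⟨y, _, c, _, h1, ⟨b, h2⟩, _⟩
    exact ⟨b, y, by rw [h1, h2]⟩
  have hDc : ∀ {δ : Type u} [Enc M δ] {f g : δ → M}, Cp 𝒪 f → Cp 𝒪 g →
      Dc 𝒪 (fun a => D (f a) (g a)) := by
    intro δ _ f g hf hg
    exact Choice_dc hD hf hg
  have hex : ∀ a : α, ∃ z, D z (enc a) ∧ ∀ z' < z, ¬ D z' (enc a) := by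
    intro a
    obtain ⟨b, hb⟩ := h a
    obtain ⟨y, hy⟩ := (hR' _).1 hb
    exact least_sg (𝒪 := 𝒪) (P := fun z => D z (enc a)) (hDc Cp.id (Cp.const _)).1
      ⟨WI.pair y (enc b), (hD1 a b y).2 hy⟩
  choose z hz hz' using hex
  choose f y hf using fun a => hD2 a (z a) (hz a)
  refine ⟨f, ?_, ?_⟩
  · have h1 : Sg 𝒪 (fun p : α × β => ∃ w : M, D w (enc p.1) ∧ (∀ w' < w, ¬ D w' (enc p.1)) ∧
        ∃ y : M, w = WI.pair y (enc p.2)) := by
      refine Sg.ex (β := M) (P := fun q : (α × β) × M => D q.2 (enc q.1.1) ∧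
        (∀ w' < q.2, ¬ D w' (enc q.1.1)) ∧ ∃ y : M, q.2 = WI.pair y (enc q.1.2)) ?_
      refine Sg.and (hDc (Cp.snd Cp.id) (Choice_enc (Cp.fst (Cp.fst Cp.id)))).1 (Sg.and ?_ ?_)
      · exact Sg.ball (f := fun q : (α × β) × M => q.2)
          (P := fun q : ((α × β) × M) × M => ¬ D q.2 (enc q.1.1.1)) (Cp.snd Cp.id)
          (hDc (Cp.snd Cp.id) (Choice_enc (Cp.fst (Cp.fst (Cp.fst Cp.id))))).2
      · refine Sg.ex (β := M) (P := fun q : ((α × β) × M) × M =>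
          q.1.2 = WI.pair q.2 (enc q.1.1.2)) ?_
        exact Sg.eq (Cp.snd (Cp.fst Cp.id)) (Choice_pair (Cp.snd Cp.id)
          (Choice_enc (Cp.snd (Cp.fst (Cp.fst Cp.id)))))
    refine h1.congr fun p => ?_
    constructor
    · intro h2
      refine ⟨z p.1, hz p.1, hz' p.1, y p.1, ?_⟩
      rw [h2]
      exact hf p.1
    · rintro ⟨w, h2, h3, y', h4⟩
      have h5 : w = z p.1 := by
        rcases lt_trichotomy w (z p.1) with h6 | h6 | h6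
        · exact absurd h2 (hz' _ _ h6)
        · exact h6
        · exact absurd (hz p.1) (h3 _ h6)
      rw [hf p.1, h4] at h5
      exact inj (pair_inj h5).2
  · intro a
    refine (hR' _).2 ⟨y a, ?_⟩
    rw [← hD1, ← hf a]
    exact hz a

/-- Least witness. -/
theorem Cp.least [IS1 𝒪] {P : α × M → Prop} (hP : Dc 𝒪 P) (h : ∀ a, ∃ b, P (a, b)) :
    ∃ f : α → M, Cp 𝒪 f ∧ ∀ a, P (a, f a) ∧ ∀ b < f a, ¬ P (a, b) := by
  have h1 : ∀ a, ∃ b, P (a, b) ∧ ∀ b' < b, ¬ P (a, b') := fun a =>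
    least_sg (𝒪 := 𝒪) (P := fun b => P (a, b)) (hP.1.comp (Cp.pair (Cp.const a) Cp.id)) (h a)
  choose f hf hf' using h1
  refine ⟨f, ?_, fun a => ⟨hf a, hf' a⟩⟩
  have h2 : Sg 𝒪 (fun p : α × M => P p ∧ ∀ b' < p.2, ¬ P (p.1, b')) := by
    refine Sg.and hP.1 ?_
    exact Sg.ball (f := fun q : α × M => q.2) (P := fun q : (α × M) × M => ¬ P (q.1.1, q.2))
      (Cp.snd Cp.id) (hP.2.comp (Cp.pair (Cp.fst (Cp.fst Cp.id)) (Cp.snd Cp.id)))
  refine h2.congr fun p => ?_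
  constructor
  · intro h3
    have h4 : p = (p.1, f p.1) := Prod.ext rfl h3
    constructor
    · rw [h4]
      exact hf p.1
    · intro b' hb'
      rw [h3] at hb'
      exact hf' _ _ hb'
  · rintro ⟨h3, h4⟩
    rcases lt_trichotomy p.2 (f p.1) with h5 | h5 | h5
    · exact absurd h3 (hf' p.1 _ h5)
    · exact h5
    · exact absurd (hf p.1) (h4 _ h5)

end WI
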