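import Pool.Agent.Helper32.WI.Sigma

/-! WI: closure properties, part 2 (`Sg`, `Dc`, `Cp`). -/

set_option linter.unusedSectionVars false
set_option linter.unusedVariables false

universe u

namespace WI

open Enc

variable {M : Type u} [CommSemiring M] [LinearOrder M] [PAM M]

theorem Tm.mono {n : ℕ} {t : (Fin n → M) → M} (ht : Tm t) {v w : Fin n → M} (h : ∀ i, v i ≤ w i) :
    t v ≤ t w := by
  induction ht with
  | var i => exact h i
  | const c => exact le_rfl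
  | add _ _ h1 h2 => exact add_le_add h1 h2
  | mul _ _ h1 h2 => exact mul_le_mul' h1 h2

variable {α β γ δ : Type u} [Enc M α] [Enc M β] [Enc M γ] [Enc M δ]

theorem enc_mk (a : α) (b : β) : (enc (a, b) : M) = pair (enc a) (enc b) := rfl

/-- Structural maps: bounded graph. -/
def St (f : α → β) : Prop :=
  (∃ t : (Fin 1 → M) → M, Tm t ∧ ∀ a, enc (f a) ≤ t ![enc a]) ∧
    Bdd (∅ : Set (Set M)) (fun v : Fin 2 → M => ∃ a, enc a = v 0 ∧ enc (f a) = v 1)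

theorem St.id : St (fun a : α => a) := by
  refine ⟨⟨fun v => v 0, Tm.var 0, fun a => le_rfl⟩, ?_⟩
  refine (Bdd.and ((Enc.rng (α := α)).sub1 (Tm.var 0)) (Bdd.eq (Tm.var 0) (Tm.var 1))).congr ?_
  intro v
  constructor
  · rintro ⟨a, h1, h2⟩
    exact ⟨⟨a, h1⟩, h1.symm.trans h2⟩
  · rintro ⟨⟨a, h1⟩, h2⟩
    exact ⟨a, h1, (show enc a = v 0 from h1).trans h2⟩

theorem St.comp {g : β → γ} {f : α → β} (hg : St g) (hf : St f) : St (fun a => g (f a)) := by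
  obtain ⟨⟨t, ht, htb⟩, hf2⟩ := hf
  obtain ⟨⟨s, hs, hsb⟩, hg2⟩ := hg
  refine ⟨⟨fun v => s ![t v], ?_, ?_⟩, ?_⟩
  · have h := hs.subst (m := 1) ![t] (by
      intro i
      have : i = 0 := Subsingleton.elim _ _
      subst this
      exact ht)
    have h2 : (fun w : Fin 1 → M => s (fun i => (![t] : Fin 1 → (Fin 1 → M) → M) i w)) =
        fun v => s ![t v] := by
      funext w
      congr 1
      funext i
      have : i = 0 := Subsingleton.elim _ _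
      subst this
      rfl
    rw [h2] at h
    exact h
  · intro a
    refine (hsb (f a)).trans (hs.mono ?_)
    intro i
    have : i = 0 := Subsingleton.elim _ _
    subst this
    exact htb a
  · have ht1 : Tm (fun v : Fin 2 → M => t ![v 0] + 1) := by
      have h := ht.subst (m := 2) (fun _ v => v 0) (fun _ => Tm.var 0)
      have h2 : (fun w : Fin 2 → M => t (fun i => (fun _ v => v 0 : Fin 1 → (Fin 2 → M) → M) i w)) =
          fun v => t ![v 0] := by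
        funext w
        congr 1
        funext i
        have : i = 0 := Subsingleton.elim _ _
        subst this
        rfl
      rw [h2] at h
      exact Tm.add h (Tm.const 1)
    have h1 := Bdd.bex ht1 (Bdd.and (hf2.sub2 (n := 3) (Tm.var 1) (Tm.var 0))
      (hg2.sub2 (n := 3) (Tm.var 0) (Tm.var 2)))
    refine h1.congr fun v => ?_
    constructor
    · rintro ⟨a, h1, h2⟩
      refine ⟨enc (f a), ?_, ⟨a, h1, rfl⟩, ⟨f a, rfl, h2⟩⟩
      rw [lt_succ_iff, ← h1]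
      exact htb a
    · rintro ⟨y, _, ⟨a, h2, h3⟩, ⟨b, h4, h5⟩⟩
      have h6 : enc (f a) = y := h3
      have h7 : enc b = y := h4
      have h8 : f a = b := inj (h6.trans h7.symm)
      subst h8
      exact ⟨a, h2, h5⟩

theorem St.fst : St (fun p : α × β => p.1) := by
  refine ⟨⟨fun v => v 0, Tm.var 0, fun a => left_le_pair _ _⟩, ?_⟩
  have h1 : Bdd (∅ : Set (Set M)) (fun v : Fin 2 → M => ∃ y, y < v 0 + 1 ∧
      ((∃ a : α, enc a = v 1) ∧ (∃ b : β, enc b = y) ∧ v 0 = pair (v 1) y)) := by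
    refine Bdd.bex (t := fun v => v 0 + 1) (Tm.add (Tm.var 0) (Tm.const 1))
      (P := fun w : Fin 3 → M => (∃ a : α, enc a = w 2) ∧ (∃ b : β, enc b = w 0) ∧
        w 1 = pair (w 2) (w 0)) ?_
    exact Bdd.and ((Enc.rng (α := α)).sub1 (Tm.var 2)) (Bdd.and
      ((Enc.rng (α := β)).sub1 (Tm.var 0)) (Bdd.eq (Tm.var 1) (pair_tm (Tm.var 2) (Tm.var 0))))
  refine h1.congr fun v => ?_
  constructor
  · rintro ⟨⟨a, b⟩, h2, h3⟩
    have h2' : pair (enc a) (enc b) = v 0 := h2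
    have h3' : enc a = v 1 := h3
    refine ⟨enc b, ?_, ⟨a, h3⟩, ⟨b, rfl⟩, ?_⟩
    · rw [lt_succ_iff, ← h2']
      exact right_le_pair _ _
    · rw [← h3', h2']
  · rintro ⟨y, _, ⟨a, h2⟩, ⟨b, rfl⟩, h4⟩
    refine ⟨(a, b), ?_, h2⟩
    rw [h4, ← h2]
    rfl

theorem St.snd : St (fun p : α × β => p.2) := by
  refine ⟨⟨fun v => v 0, Tm.var 0, fun a => right_le_pair _ _⟩, ?_⟩
  have h1 : Bdd (∅ : Set (Set M)) (fun v : Fin 2 → M => ∃ y, y < v 0 + 1 ∧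
      ((∃ a : α, enc a = y) ∧ (∃ b : β, enc b = v 1) ∧ v 0 = pair y (v 1))) := by
    refine Bdd.bex (t := fun v => v 0 + 1) (Tm.add (Tm.var 0) (Tm.const 1))
      (P := fun w : Fin 3 → M => (∃ a : α, enc a = w 0) ∧ (∃ b : β, enc b = w 2) ∧
        w 1 = pair (w 0) (w 2)) ?_
    exact Bdd.and ((Enc.rng (α := α)).sub1 (Tm.var 0)) (Bdd.and
      ((Enc.rng (α := β)).sub1 (Tm.var 2)) (Bdd.eq (Tm.var 1) (pair_tm (Tm.var 0) (Tm.var 2))))
  refine h1.congr fun v => ?_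
  constructor
  · rintro ⟨⟨a, b⟩, h2, h3⟩
    have h2' : pair (enc a) (enc b) = v 0 := h2
    have h3' : enc b = v 1 := h3
    refine ⟨enc a, ?_, ⟨a, rfl⟩, ⟨b, h3⟩, ?_⟩
    · rw [lt_succ_iff, ← h2']
      exact left_le_pair _ _
    · rw [← h3', h2']
  · rintro ⟨y, _, ⟨a, rfl⟩, ⟨b, h2⟩, h4⟩
    refine ⟨(a, b), ?_, h2⟩
    rw [h4, ← h2]
    rfl

theorem St.pair {f : α → β} {g : α → γ} (hf : St f) (hg : St g) : St (fun a => (f a, g a)) := by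
  obtain ⟨⟨t, ht, htb⟩, hf2⟩ := hf
  obtain ⟨⟨s, hs, hsb⟩, hg2⟩ := hg
  refine ⟨⟨fun v => WI.pair (t v) (s v), pair_tm ht hs, ?_⟩, ?_⟩
  · intro a
    rw [enc_mk]
    have h1 := htb a
    have h2 := hsb a
    exact add_le_add (mul_le_mul' (add_le_add h1 h2) (add_le_add h1 h2)) h1
  · have h1 : Bdd (∅ : Set (Set M)) (fun v : Fin 2 → M => ∃ x, x < v 1 + 1 ∧ ∃ y, y < v 1 + 1 ∧
        ((∃ a, enc a = v 0 ∧ enc (f a) = x) ∧ (∃ a, enc a = v 0 ∧ enc (g a) = y) ∧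
          v 1 = WI.pair x y)) := by
      refine Bdd.bex (t := fun v => v 1 + 1) (Tm.add (Tm.var 1) (Tm.const 1))
        (P := fun w : Fin 3 → M => ∃ y, y < w 2 + 1 ∧
          ((∃ a, enc a = w 1 ∧ enc (f a) = w 0) ∧ (∃ a, enc a = w 1 ∧ enc (g a) = y) ∧
          w 2 = WI.pair (w 0) y)) ?_
      refine Bdd.bex (t := fun v => v 2 + 1) (Tm.add (Tm.var 2) (Tm.const 1))
        (P := fun w : Fin 4 → M =>
          ((∃ a, enc a = w 2 ∧ enc (f a) = w 1) ∧ (∃ a, enc a = w 2 ∧ enc (g a) = w 0) ∧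
          w 3 = WI.pair (w 1) (w 0))) ?_
      exact Bdd.and (hf2.sub2 (Tm.var 2) (Tm.var 1)) (Bdd.and (hg2.sub2 (Tm.var 2) (Tm.var 0))
        (Bdd.eq (Tm.var 3) (pair_tm (Tm.var 1) (Tm.var 0))))
    refine h1.congr fun v => ?_
    constructor
    · rintro ⟨a, h2, h3⟩
      have h3' : WI.pair (enc (f a)) (enc (g a)) = v 1 := h3
      refine ⟨enc (f a), ?_, enc (g a), ?_, ⟨a, h2, rfl⟩, ⟨a, h2, rfl⟩, h3'.symm⟩
      · rw [lt_succ_iff, ← h3']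
        exact left_le_pair _ _
      · rw [lt_succ_iff, ← h3']
        exact right_le_pair _ _
    · rintro ⟨x, _, y, _, ⟨a, h2, rfl⟩, ⟨a', h3, rfl⟩, h4⟩
      have h5 : a = a' := inj (h2.trans h3.symm)
      subst h5
      exact ⟨a, h2, h4.symm⟩

/-- Terms give bounded graphs: `f : α → M` is a term function of coordinates; we only need the
following generators. -/
theorem St.of_tm₂ {t : (Fin 2 → M) → M} (ht : Tm t) : St (fun p : M × M => t ![p.1, p.2]) := by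
  refine ⟨⟨fun v => t ![v 0, v 0], ?_, ?_⟩, ?_⟩
  · have h := ht.subst (m := 1) (fun _ v => v 0) (fun _ => Tm.var 0)
    have h2 : (fun w : Fin 1 → M => t (fun i => (fun _ v => v 0 : Fin 2 → (Fin 1 → M) → M) i w)) =
        fun v => t ![v 0, v 0] := by
      funext w
      congr 1
      funext i
      fin_cases i <;> rfl
    rw [h2] at h
    exact h
  · intro a
    refine ht.mono ?_
    intro i
    fin_cases i
    · exact left_le_pair _ _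
    · exact right_le_pair _ _
  · have ht2 : Tm (fun w : Fin 4 → M => t ![w 1, w 0]) := by
      have h := ht.subst (m := 4) ![fun w => w 1, fun w => w 0] (by
        intro i
        fin_cases i
        · exact Tm.var 1
        · exact Tm.var 0)
      have h2 : (fun w : Fin 4 → M => t (fun i => (![fun w => w 1, fun w => w 0] :
          Fin 2 → (Fin 4 → M) → M) i w)) = fun w => t ![w 1, w 0] := by
        funext w
        congr 1
        funext i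
        fin_cases i <;> rfl
      rw [h2] at h
      exact h
    have h1 : Bdd (∅ : Set (Set M)) (fun v : Fin 2 → M => ∃ x, x < v 0 + 1 ∧ ∃ y, y < v 0 + 1 ∧
        (v 0 = WI.pair x y ∧ t ![x, y] = v 1)) := by
      refine Bdd.bex (t := fun v => v 0 + 1) (Tm.add (Tm.var 0) (Tm.const 1))
        (P := fun w : Fin 3 → M => ∃ y, y < w 1 + 1 ∧
          (w 1 = WI.pair (w 0) y ∧ t ![w 0, y] = w 2)) ?_
      refine Bdd.bex (t := fun v => v 1 + 1) (Tm.add (Tm.var 1) (Tm.const 1))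
        (P := fun w : Fin 4 → M => (w 2 = WI.pair (w 1) (w 0) ∧ t ![w 1, w 0] = w 3)) ?_
      exact Bdd.and (Bdd.eq (Tm.var 2) (pair_tm (Tm.var 1) (Tm.var 0))) (Bdd.eq ht2 (Tm.var 3))
    refine h1.congr fun v => ?_
    constructor
    · rintro ⟨⟨x, y⟩, h2, h3⟩
      have h2' : WI.pair x y = v 0 := h2
      refine ⟨x, ?_, y, ?_, h2'.symm, h3⟩
      · rw [lt_succ_iff, ← h2']
        exact left_le_pair _ _
      · rw [lt_succ_iff, ← h2']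
        exact right_le_pair _ _
    · rintro ⟨x, _, y, _, h2, h3⟩
      exact ⟨(x, y), h2.symm, h3⟩

section Basic

variable {𝒪 : Set (Set M)}

theorem Sg.congr {P Q : α → Prop} (h : Sg 𝒪 P) (h1 : ∀ a, Q a ↔ P a) : Sg 𝒪 Q := by
  obtain ⟨R, hR, h2⟩ := h
  exact ⟨R, hR, fun a => (h1 a).trans (h2 a)⟩

theorem Sg.mono {𝒪' : Set (Set M)} (hO : 𝒪 ⊆ 𝒪') {P : α → Prop} (h : Sg 𝒪 P) : Sg 𝒪' P := by
  obtain ⟨R, hR, h2⟩ := h
  exact ⟨R, hR.mono hO, h2⟩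

/-- Composition with structural maps. -/
theorem Sg.st {P : β → Prop} (hP : Sg 𝒪 P) {f : α → β} (hf : St f) : Sg 𝒪 (fun a => P (f a)) := by
  obtain ⟨R, hR, h2⟩ := hP
  obtain ⟨⟨t, ht, htb⟩, hf2⟩ := hf
  have ht1 : Tm (fun v : Fin 2 → M => t ![v 1] + 1) := by
    have h := ht.subst (m := 2) (fun _ v => v 1) (fun _ => Tm.var 1)
    have h2 : (fun w : Fin 2 → M => t (fun i => (fun _ v => v 1 : Fin 1 → (Fin 2 → M) → M) i w)) =
        fun v => t ![v 1] := by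
      funext w
      congr 1
      funext i
      have : i = 0 := Subsingleton.elim _ _
      subst this
      rfl
    rw [h2] at h
    exact Tm.add h (Tm.const 1)
  have h1 := Bdd.bex ht1 (Bdd.and ((hf2.mono (Set.empty_subset 𝒪)).sub2 (n := 3) (Tm.var 2)
    (Tm.var 0)) (hR.sub2 (n := 3) (Tm.var 1) (Tm.var 0)))
  refine ⟨_, h1, fun a => (h2 (f a)).trans ?_⟩
  constructor
  · rintro ⟨y, hy⟩
    refine ⟨y, enc (f a), ?_, ⟨a, rfl, rfl⟩, hy⟩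
    rw [lt_succ_iff]
    exact htb a
  · rintro ⟨y, c, _, ⟨a', h3, h4⟩, h5⟩
    have h3' : enc a' = enc a := h3
    have h6 : a' = a := inj h3'
    subst h6
    have h4' : enc (f a') = c := h4
    subst h4'
    exact ⟨y, h5⟩

theorem Sg.and {P Q : α → Prop} (hP : Sg 𝒪 P) (hQ : Sg 𝒪 Q) : Sg 𝒪 (fun a => P a ∧ Q a) := by
  obtain ⟨R, hR, h1⟩ := hP
  obtain ⟨R', hR', h2⟩ := hQ
  have h3 := Bdd.bex (n := 2) (t := fun v => v 0 + 1) (Tm.add (Tm.var 0) (Tm.const 1))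
    (Bdd.bex (n := 3) (t := fun v => v 1 + 1) (Tm.add (Tm.var 1) (Tm.const 1))
      (Bdd.and (hR.sub2 (n := 4) (Tm.var 1) (Tm.var 3)) (hR'.sub2 (n := 4) (Tm.var 0) (Tm.var 3))))
  refine ⟨_, h3, fun a => (and_congr (h1 a) (h2 a)).trans ?_⟩
  constructor
  · rintro ⟨⟨y, hy⟩, ⟨z, hz⟩⟩
    refine ⟨max y z, y, ?_, z, ?_, hy, hz⟩
    · rw [lt_succ_iff]
      exact le_max_left _ _
    · rw [lt_succ_iff]
      exact le_max_right _ _
  · rintro ⟨w, y, _, z, _, hy, hz⟩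
    exact ⟨⟨y, hy⟩, ⟨z, hz⟩⟩

theorem Sg.or {P Q : α → Prop} (hP : Sg 𝒪 P) (hQ : Sg 𝒪 Q) : Sg 𝒪 (fun a => P a ∨ Q a) := by
  obtain ⟨R, hR, h1⟩ := hP
  obtain ⟨R', hR', h2⟩ := hQ
  refine ⟨_, Bdd.or hR hR', fun a => (or_congr (h1 a) (h2 a)).trans ?_⟩
  exact exists_or.symm

theorem Sg.ex {P : α × β → Prop} (hP : Sg 𝒪 P) : Sg 𝒪 (fun a => ∃ b, P (a, b)) := by
  obtain ⟨R, hR, h1⟩ := hP
  have h3 := Bdd.bex (S := 𝒪) (n := 2) (t := fun v => v 0 + 1) (Tm.add (Tm.var 0) (Tm.const 1))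
    (Bdd.bex (n := 3) (t := fun v => v 1 + 1) (Tm.add (Tm.var 1) (Tm.const 1))
      (Bdd.and (((Enc.rng (α := β)).mono (Set.empty_subset 𝒪)).sub1 (n := 4) (Tm.var 0))
        (hR.sub2 (n := 4) (Tm.var 1) (pair_tm (Tm.var 3) (Tm.var 0)))))
  refine ⟨_, h3, fun a => ?_⟩
  constructor
  · rintro ⟨b, hb⟩
    obtain ⟨y, hy⟩ := (h1 _).1 hb
    refine ⟨max y (enc b), y, ?_, enc b, ?_, ⟨b, rfl⟩, hy⟩
    · rw [lt_succ_iff]
      exact le_max_left _ _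
    · rw [lt_succ_iff]
      exact le_max_right _ _
  · rintro ⟨w, y, _, c, _, ⟨b, hb⟩, hy⟩
    have hb' : enc b = c := hb
    subst hb'
    exact ⟨b, (h1 _).2 ⟨y, hy⟩⟩

/-- Bounded unary relations (of the code). -/
theorem Sg.of_bdd {R : (Fin 1 → M) → Prop} (hR : Bdd 𝒪 R) : Sg 𝒪 (fun a : M => R ![a]) :=
  ⟨_, hR.sub1 (n := 2) (Tm.var 1), fun a => by simp [Enc.enc]⟩

theorem Sg.of_bdd₂ {R : (Fin 2 → M) → Prop} (hR : Bdd 𝒪 R) :
    Sg 𝒪 (fun p : M × M => R ![p.1, p.2]) := by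
  have h3 := Bdd.bex (S := 𝒪) (n := 2) (t := fun v => v 1 + 1) (Tm.add (Tm.var 1) (Tm.const 1))
    (Bdd.bex (n := 3) (t := fun v => v 2 + 1) (Tm.add (Tm.var 2) (Tm.const 1))
      (Bdd.and (Bdd.eq (n := 4) (Tm.var 3) (pair_tm (Tm.var 1) (Tm.var 0)))
        (hR.sub2 (n := 4) (Tm.var 1) (Tm.var 0))))
  refine ⟨_, h3, fun p => ?_⟩
  constructor
  · intro h
    refine ⟨0, p.1, ?_, p.2, ?_, rfl, h⟩
    · rw [lt_succ_iff]
      exact left_le_pair _ _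
    · rw [lt_succ_iff]
      exact right_le_pair _ _
  · rintro ⟨_, x, _, y, _, h1, h2⟩
    have h1' : pair p.1 p.2 = pair x y := h1
    obtain ⟨h4, h5⟩ := pair_inj h1'
    subst h4
    subst h5
    exact h2

theorem Sg.eq_enc : Sg 𝒪 (fun p : α × α => p.2 = p.1) := by
  have h3 := Bdd.bex (S := 𝒪) (n := 2) (t := fun v => v 1 + 1) (Tm.add (Tm.var 1) (Tm.const 1))
    (Bdd.eq (n := 3) (Tm.var 2) (pair_tm (Tm.var 0) (Tm.var 0)))
  refine ⟨_, h3, fun p => ?_⟩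
  constructor
  · intro h
    refine ⟨0, enc p.1, ?_, ?_⟩
    · rw [lt_succ_iff]
      exact left_le_pair _ _
    · show pair (enc p.1) (enc p.2) = pair (enc p.1) (enc p.1)
      rw [h]
  · rintro ⟨_, x, _, h1⟩
    have h1' : pair (enc p.1) (enc p.2) = pair x x := h1
    obtain ⟨h4, h5⟩ := pair_inj h1'
    exact inj (h5.trans h4.symm)

theorem Sg.ne_enc : Sg 𝒪 (fun p : α × α => p.2 ≠ p.1) := by
  have h3 := Bdd.bex (S := 𝒪) (n := 2) (t := fun v => v 1 + 1) (Tm.add (Tm.var 1) (Tm.const 1))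
    (Bdd.bex (n := 3) (t := fun v => v 2 + 1) (Tm.add (Tm.var 2) (Tm.const 1))
      (Bdd.and (Bdd.eq (n := 4) (Tm.var 3) (pair_tm (Tm.var 1) (Tm.var 0)))
        (Bdd.not (Bdd.eq (n := 4) (Tm.var 1) (Tm.var 0)))))
  refine ⟨_, h3, fun p => ?_⟩
  constructor
  · intro h
    refine ⟨0, enc p.1, ?_, enc p.2, ?_, rfl, ?_⟩
    · rw [lt_succ_iff]
      exact left_le_pair _ _
    · rw [lt_succ_iff]
      exact right_le_pair _ _
    · intro h2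
      exact h (inj h2).symm
  · rintro ⟨_, x, _, y, _, h1, h2⟩ h3
    have h1' : pair (enc p.1) (enc p.2) = pair x y := h1
    obtain ⟨h4, h5⟩ := pair_inj h1'
    apply h2
    show x = y
    rw [← h4, ← h5, h3]

theorem Cp.st {f : α → β} (hf : St f) : Cp 𝒪 f :=
  (Sg.eq_enc (α := β)).st (f := fun p : α × β => (f p.1, p.2)) ((hf.comp St.fst).pair St.snd)

theorem Sg.comp {P : β → Prop} (hP : Sg 𝒪 P) {f : α → β} (hf : Cp 𝒪 f) :
    Sg 𝒪 (fun a => P (f a)) := by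
  have h1 : Sg 𝒪 (fun a => ∃ b, (fun p : α × β => p.2 = f p.1 ∧ P p.2) (a, b)) :=
    Sg.ex (Sg.and hf (hP.st St.snd))
  refine h1.congr fun a => ?_
  constructor
  · intro h
    exact ⟨f a, rfl, h⟩
  · rintro ⟨b, h2, h⟩
    have h2' : b = f a := h2
    rw [h2'] at h
    exact h

theorem Cp.id : Cp 𝒪 (fun a : α => a) := Cp.st St.id

theorem Cp.comp {g : β → γ} {f : α → β} (hg : Cp 𝒪 g) (hf : Cp 𝒪 f) : Cp 𝒪 (fun a => g (f a)) := by
  have h1 : Sg 𝒪 (fun p : α × γ => ∃ b, (fun q : (α × γ) × β => q.2 = f q.1.1 ∧ q.1.2 = g q.2)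
      (p, b)) := by
    refine Sg.ex (β := β) (P := fun q : (α × γ) × β => q.2 = f q.1.1 ∧ q.1.2 = g q.2) (Sg.and ?_ ?_)
    · exact Sg.st (f := fun q : (α × γ) × β => (q.1.1, q.2)) hf
        ((St.fst.comp St.fst).pair St.snd)
    · exact Sg.st (f := fun q : (α × γ) × β => (q.2, q.1.2)) hg
        (St.snd.pair (St.snd.comp St.fst))
  refine h1.congr fun p => ?_
  constructor
  · intro h
    exact ⟨f p.1, rfl, h⟩
  · rintro ⟨b, h2, h3⟩
    have h2' : b = f p.1 := h2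
    rw [h2'] at h3
    exact h3

theorem Cp.pair {f : α → β} {g : α → γ} (hf : Cp 𝒪 f) (hg : Cp 𝒪 g) :
    Cp 𝒪 (fun a => (f a, g a)) := by
  have h1 : Sg 𝒪 (fun p : α × (β × γ) => p.2.1 = f p.1 ∧ p.2.2 = g p.1) := by
    refine Sg.and ?_ ?_
    · exact Sg.st (f := fun q : α × (β × γ) => (q.1, q.2.1)) hf
        (St.fst.pair (St.fst.comp St.snd))
    · exact Sg.st (f := fun q : α × (β × γ) => (q.1, q.2.2)) hg
        (St.fst.pair (St.snd.comp St.snd))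
  refine h1.congr fun p => ?_
  exact Prod.ext_iff

theorem Cp.const (c : β) : Cp 𝒪 (fun _ : α => c) := by
  have h3 := Bdd.bex (S := 𝒪) (n := 2) (t := fun v => v 1 + 1) (Tm.add (Tm.var 1) (Tm.const 1))
    (Bdd.eq (n := 3) (Tm.var 2) (pair_tm (Tm.var 0) (Tm.const (enc c))))
  refine ⟨_, h3, fun p => ?_⟩
  constructor
  · intro h
    refine ⟨0, enc p.1, ?_, ?_⟩
    · rw [lt_succ_iff]
      exact left_le_pair _ _
    · show WI.pair (enc p.1) (enc p.2) = WI.pair (enc p.1) (enc c)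
      rw [h]
  · rintro ⟨_, x, _, h1⟩
    have h1' : WI.pair (enc p.1) (enc p.2) = WI.pair x (enc c) := h1
    exact inj (pair_inj h1').2

theorem Cp.fst {f : α → β × γ} (hf : Cp 𝒪 f) : Cp 𝒪 (fun a => (f a).1) :=
  Cp.comp (Cp.st St.fst) hf

theorem Cp.snd {f : α → β × γ} (hf : Cp 𝒪 f) : Cp 𝒪 (fun a => (f a).2) :=
  Cp.comp (Cp.st St.snd) hf

theorem Cp.add {f g : α → M} (hf : Cp 𝒪 f) (hg : Cp 𝒪 g) : Cp 𝒪 (fun a => f a + g a) :=
  Cp.comp (g := fun p : M × M => p.1 + p.2)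
    (Cp.st (St.of_tm₂ (t := fun v => v 0 + v 1) (Tm.add (Tm.var 0) (Tm.var 1)))) (hf.pair hg)

theorem Cp.mul {f g : α → M} (hf : Cp 𝒪 f) (hg : Cp 𝒪 g) : Cp 𝒪 (fun a => f a * g a) :=
  Cp.comp (g := fun p : M × M => p.1 * p.2)
    (Cp.st (St.of_tm₂ (t := fun v => v 0 * v 1) (Tm.mul (Tm.var 0) (Tm.var 1)))) (hf.pair hg)

theorem Sg.eq {f g : α → β} (hf : Cp 𝒪 f) (hg : Cp 𝒪 g) : Sg 𝒪 (fun a => f a = g a) :=
  (Sg.comp Sg.eq_enc (hg.pair hf)).congr fun a => Iff.rfl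

theorem Sg.ne {f g : α → β} (hf : Cp 𝒪 f) (hg : Cp 𝒪 g) : Sg 𝒪 (fun a => f a ≠ g a) :=
  (Sg.comp Sg.ne_enc (hg.pair hf)).congr fun a => Iff.rfl

theorem Sg.lt {f g : α → M} (hf : Cp 𝒪 f) (hg : Cp 𝒪 g) : Sg 𝒪 (fun a => f a < g a) :=
  (Sg.comp (Sg.of_bdd₂ (R := fun v => v 0 < v 1) (Bdd.lt (Tm.var 0) (Tm.var 1)))
    (hf.pair hg)).congr fun a => Iff.rfl

theorem Sg.le {f g : α → M} (hf : Cp 𝒪 f) (hg : Cp 𝒪 g) : Sg 𝒪 (fun a => f a ≤ g a) :=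
  (Sg.comp (Sg.of_bdd₂ (R := fun v => v 0 ≤ v 1) (Bdd.le (Tm.var 0) (Tm.var 1)))
    (hf.pair hg)).congr fun a => Iff.rfl

theorem Sg.mem {f : α → M} (hf : Cp 𝒪 f) {X : Set M} (hX : X ∈ 𝒪) : Sg 𝒪 (fun a => f a ∈ X) :=
  (Sg.comp (Sg.of_bdd (R := fun v => v 0 ∈ X) (Bdd.mem (Tm.var 0) hX)) hf).congr fun a => Iff.rfl

theorem Sg.nmem {f : α → M} (hf : Cp 𝒪 f) {X : Set M} (hX : X ∈ 𝒪) : Sg 𝒪 (fun a => f a ∉ X) :=
  (Sg.comp (Sg.of_bdd (R := fun v => ¬ v 0 ∈ X) (Bdd.not (Bdd.mem (Tm.var 0) hX))) hf).congr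
    fun a => Iff.rfl

theorem Sg.const (p : Prop) : Sg 𝒪 (fun _ : α => p) := by
  by_cases h : p
  · exact ⟨_, Bdd.tru, fun a => by simp [h]⟩
  · exact ⟨_, Bdd.fls, fun a => by simp [h]⟩

theorem Sg.bex {f : α → M} (hf : Cp 𝒪 f) {P : α × M → Prop} (hP : Sg 𝒪 P) :
    Sg 𝒪 (fun a => ∃ y, y < f a ∧ P (a, y)) :=
  Sg.ex (P := fun p : α × M => p.2 < f p.1 ∧ P p)
    (Sg.and (Sg.lt (Cp.snd Cp.id) (Cp.comp hf (Cp.fst Cp.id))) hP)

end Basic

/-! ### Consequences of `Σ⁰₁` induction -/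

section Ind

variable {𝒪 : Set (Set M)} [IS1 𝒪]

theorem coll {R : (Fin 2 → M) → Prop} (hR : Bdd 𝒪 R) (b : M) (h : ∀ x < b, ∃ y, R ![y, x]) :
    ∃ w, ∀ x < b, ∃ y < w, R ![y, x] := by
  have h1 : Bdd 𝒪 (fun v : Fin 2 → M => b < v 1 ∨ ∀ x, x < v 1 → ∃ y, y < v 0 ∧ R ![y, x]) := by
    refine Bdd.or (Bdd.lt (Tm.const b) (Tm.var 1)) ?_
    refine Bdd.ball (Tm.var 1) (P := fun w : Fin 3 → M => ∃ y, y < w 1 ∧ R ![y, w 0]) ?_
    exact Bdd.bex (Tm.var 1) (hR.sub2 (n := 4) (Tm.var 0) (Tm.var 1))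
  have h2 := IS1.ind _ h1 ⟨0, Or.inr fun x hx => absurd hx (by simp)⟩ (by
    rintro c ⟨w, hw⟩
    by_cases hc : b < c + 1
    · exact ⟨0, Or.inl hc⟩
    · rw [not_lt] at hc
      have hcb : c < b := lt_iff_succ_le.2 hc
      rcases hw with hw | hw
      · exact absurd hcb (not_lt.2 (le_of_lt hw))
      · obtain ⟨y, hy⟩ := h c hcb
        refine ⟨max w (y + 1), Or.inr fun x hx => ?_⟩
        have hx' : x ≤ c := lt_succ_iff.1 hx
        rcases eq_or_lt_of_le hx' with h3 | h3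
        · subst h3
          exact ⟨y, lt_of_lt_of_le (lt_succ_iff.2 le_rfl) (le_max_right _ _), hy⟩
        · obtain ⟨y', hy', hy''⟩ := hw x h3
          exact ⟨y', lt_of_lt_of_le hy' (le_max_left _ _), hy''⟩) b
  obtain ⟨w, hw⟩ := h2
  rcases hw with hw | hw
  · exact absurd (show b < b from hw) (lt_irrefl b)
  · exact ⟨w, fun x hx => hw x hx⟩

theorem Sg.ball_var {P : α × M → Prop} (hP : Sg 𝒪 P) :
    Sg 𝒪 (fun p : α × M => ∀ y < p.2, P (p.1, y)) := by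
  obtain ⟨R, hR, h1⟩ := hP
  have h3 := Bdd.bex (S := 𝒪) (n := 2) (t := fun v => v 1 + 1) (Tm.add (Tm.var 1) (Tm.const 1))
    (Bdd.bex (n := 3) (t := fun v => v 2 + 1) (Tm.add (Tm.var 2) (Tm.const 1))
      (Bdd.and (Bdd.eq (n := 4) (Tm.var 3) (pair_tm (Tm.var 1) (Tm.var 0)))
        (Bdd.ball (n := 4) (Tm.var 0) (Bdd.bex (n := 5) (Tm.var 3)
          (hR.sub2 (n := 6) (Tm.var 0) (pair_tm (Tm.var 3) (Tm.var 1)))))))
  refine ⟨_, h3, fun p => ?_⟩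
  constructor
  · intro h
    have h4 : Bdd 𝒪 (fun v : Fin 2 → M => R ![v 0, pair (enc p.1) (v 1)]) :=
      hR.sub2 (Tm.var 0) (pair_tm (Tm.const _) (Tm.var 1))
    obtain ⟨w, hw⟩ := coll h4 p.2 (fun x hx => (h1 (p.1, x)).1 (h x hx))
    refine ⟨w, enc p.1, ?_, p.2, ?_, rfl, ?_⟩
    · rw [lt_succ_iff]
      exact left_le_pair _ _
    · rw [lt_succ_iff]
      exact right_le_pair _ _
    · intro x hx
      obtain ⟨y, hy, hy'⟩ := hw x hx
      exact ⟨y, hy, hy'⟩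
  · rintro ⟨w, a, _, b, _, h4, h5⟩ y hy
    have h4' : pair (enc p.1) p.2 = pair a b := h4
    obtain ⟨h6, h7⟩ := pair_inj h4'
    subst h6
    subst h7
    obtain ⟨z, _, hz⟩ := h5 y hy
    exact (h1 (p.1, y)).2 ⟨z, hz⟩

theorem Sg.ball {f : α → M} (hf : Cp 𝒪 f) {P : α × M → Prop} (hP : Sg 𝒪 P) :
    Sg 𝒪 (fun a => ∀ y < f a, P (a, y)) :=
  (Sg.comp (Sg.ball_var hP) (Cp.id.pair hf)).congr fun a => Iff.rfl

theorem ind_sg {P : M → Prop} (hP : Sg 𝒪 P) (h0 : P 0) (hs : ∀ x, P x → P (x + 1)) : ∀ x, P x := by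
  obtain ⟨R, hR, h1⟩ := hP
  intro x
  refine (h1 x).2 (IS1.ind R hR ((h1 0).1 h0) (fun x hx => ?_) x)
  exact (h1 (x + 1)).1 (hs x ((h1 x).2 hx))

theorem ind_pi {P : M → Prop} (hP : Sg 𝒪 (fun x => ¬ P x)) (h0 : P 0) (hs : ∀ x, P x → P (x + 1)) :
    ∀ x, P x := by
  intro a
  by_contra ha
  have h1 : Sg 𝒪 (fun u : M => a < u ∨ ∃ z, z + u = a ∧ ¬ P z) := by
    refine Sg.or (Sg.lt (Cp.const a) Cp.id) (Sg.ex (P := fun p : M × M => p.2 + p.1 = a ∧ ¬ P p.2) ?_)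
    exact Sg.and (Sg.eq (Cp.add (Cp.snd Cp.id) (Cp.fst Cp.id)) (Cp.const a))
      (Sg.comp hP (Cp.snd Cp.id))
  have h2 := ind_sg h1 (Or.inr ⟨a, by simp, ha⟩) (by
    intro u hu
    rcases hu with hu | ⟨z, hz, hz'⟩
    · exact Or.inl (hu.trans (lt_succ_iff.2 le_rfl))
    · rcases eq_or_lt_of_le (zero_le (a := z)) with h3 | h3
      · subst h3
        exact absurd h0 hz'
      · obtain ⟨z', rfl⟩ := exists_add_of_le (PAM.one_le_of_pos z h3)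
        refine Or.inr ⟨z', by rw [← hz]; ring, ?_⟩
        intro h4
        apply hz'
        rw [add_comm]
        exact hs z' h4) a
  rcases h2 with h2 | ⟨z, hz, hz'⟩
  · exact lt_irrefl a h2
  · have h3 : z = 0 := by
      by_contra h4
      have h5 : 0 < z := lt_of_le_of_ne (zero_le (a := z)) (Ne.symm h4)
      exact absurd hz (lt_add_of_pos_left a h5).ne'
    subst h3
    exact hz' h0

/-- Least number principle for `Σ⁰₁` predicates. -/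
theorem least_sg {P : M → Prop} (hP : Sg 𝒪 P) (h : ∃ x, P x) : ∃ x, P x ∧ ∀ z < x, ¬ P z := by
  by_contra h1
  push Not at h1
  have h2 : Sg 𝒪 (fun x : M => ¬ ∀ z < x, ¬ P z) := by
    refine (Sg.bex (P := fun p : M × M => P p.2) Cp.id (Sg.comp hP (Cp.snd Cp.id))).congr ?_
    intro x
    push Not
    rfl
  have h3 := ind_pi h2 (fun z hz => absurd hz (by simp)) (by
    intro x hx z hz
    rcases eq_or_lt_of_le (lt_succ_iff.1 hz) with h4 | h4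
    · subst h4
      intro h5
      obtain ⟨w, hw, hw'⟩ := h1 z h5
      exact hx w hw hw'
    · exact hx z h4)
  obtain ⟨x, hx⟩ := h
  exact h3 (x + 1) x (lt_succ_iff.2 le_rfl) hx

/-- Least number principle for `Π⁰₁` predicates. -/
theorem least_pi {P : M → Prop} (hP : Sg 𝒪 (fun x => ¬ P x)) (h : ∃ x, P x) :
    ∃ x, P x ∧ ∀ z < x, ¬ P z := by
  by_contra h1
  push Not at h1
  have h2 : Sg 𝒪 (fun x : M => ∀ z < x, ¬ P z) :=
    Sg.ball (P := fun p : M × M => ¬ P p.2) Cp.id (Sg.comp hP (Cp.snd Cp.id))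
  have h3 := ind_sg h2 (fun z hz => absurd hz (by simp)) (by
    intro x hx z hz
    rcases eq_or_lt_of_le (lt_succ_iff.1 hz) with h4 | h4
    · subst h4
      intro h5
      obtain ⟨w, hw, hw'⟩ := h1 z h5
      exact hx w hw hw'
    · exact hx z h4)
  obtain ⟨x, hx⟩ := h
  exact h3 (x + 1) x (lt_succ_iff.2 le_rfl) hx

/-! ### Decidable predicates -/

theorem Dc.congr {P Q : α → Prop} (h : Dc 𝒪 P) (h1 : ∀ a, Q a ↔ P a) : Dc 𝒪 Q :=
  ⟨h.1.congr h1, h.2.congr fun a => not_congr (h1 a)⟩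

theorem Dc.not {P : α → Prop} (h : Dc 𝒪 P) : Dc 𝒪 (fun a => ¬ P a) :=
  ⟨h.2, h.1.congr fun a => not_not⟩

theorem Dc.and {P Q : α → Prop} (hP : Dc 𝒪 P) (hQ : Dc 𝒪 Q) : Dc 𝒪 (fun a => P a ∧ Q a) :=
  ⟨hP.1.and hQ.1, (hP.2.or hQ.2).congr fun a => by tauto⟩

theorem Dc.or {P Q : α → Prop} (hP : Dc 𝒪 P) (hQ : Dc 𝒪 Q) : Dc 𝒪 (fun a => P a ∨ Q a) :=
  ⟨hP.1.or hQ.1, (hP.2.and hQ.2).congr fun a => by tauto⟩

theorem Dc.imp {P Q : α → Prop} (hP : Dc 𝒪 P) (hQ : Dc 𝒪 Q) : Dc 𝒪 (fun a => P a → Q a) :=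
  (Dc.or hP.not hQ).congr fun a => by tauto

theorem Dc.iff {P Q : α → Prop} (hP : Dc 𝒪 P) (hQ : Dc 𝒪 Q) : Dc 𝒪 (fun a => P a ↔ Q a) :=
  (Dc.and (hP.imp hQ) (hQ.imp hP)).congr fun a => by tauto

theorem Dc.ball {f : α → M} (hf : Cp 𝒪 f) {P : α × M → Prop} (hP : Dc 𝒪 P) :
    Dc 𝒪 (fun a => ∀ y < f a, P (a, y)) :=
  ⟨Sg.ball hf hP.1, (Sg.bex hf hP.2).congr fun a => by push Not; rfl⟩

theorem Dc.bex {f : α → M} (hf : Cp 𝒪 f) {P : α × M → Prop} (hP : Dc 𝒪 P) :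
    Dc 𝒪 (fun a => ∃ y, y < f a ∧ P (a, y)) :=
  ⟨Sg.bex hf hP.1, (Sg.ball hf hP.2).congr fun a => by push Not; rfl⟩

theorem Dc.comp {P : β → Prop} (hP : Dc 𝒪 P) {f : α → β} (hf : Cp 𝒪 f) :
    Dc 𝒪 (fun a => P (f a)) :=
  ⟨hP.1.comp hf, hP.2.comp hf⟩

theorem Dc.eq {f g : α → β} (hf : Cp 𝒪 f) (hg : Cp 𝒪 g) : Dc 𝒪 (fun a => f a = g a) :=
  ⟨Sg.eq hf hg, Sg.ne hf hg⟩

theorem Dc.lt {f g : α → M} (hf : Cp 𝒪 f) (hg : Cp 𝒪 g) : Dc 𝒪 (fun a => f a < g a) :=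
  ⟨Sg.lt hf hg, (Sg.le hg hf).congr fun a => not_lt⟩

theorem Dc.le {f g : α → M} (hf : Cp 𝒪 f) (hg : Cp 𝒪 g) : Dc 𝒪 (fun a => f a ≤ g a) :=
  ⟨Sg.le hf hg, (Sg.lt hg hf).congr fun a => not_le⟩

theorem Dc.mem {f : α → M} (hf : Cp 𝒪 f) {X : Set M} (hX : X ∈ 𝒪) : Dc 𝒪 (fun a => f a ∈ X) :=
  ⟨Sg.mem hf hX, Sg.nmem hf hX⟩

theorem Dc.const (p : Prop) : Dc 𝒪 (fun _ : α => p) := ⟨Sg.const p, Sg.const _⟩

theorem Cp.graph {f : α → β} (hf : Cp 𝒪 f) : Dc 𝒪 (fun p : α × β => p.2 = f p.1) :=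
  Dc.eq (Cp.snd Cp.id) (Cp.comp hf (Cp.fst Cp.id))

/-- A function with `Σ⁰₁` graph, given by unique existence. -/
theorem Cp.of_graph {P : α × β → Prop} (hP : Sg 𝒪 P) {f : α → β} (h : ∀ a b, P (a, b) ↔ b = f a) :
    Cp 𝒪 f :=
  hP.congr fun p => (h p.1 p.2).symm

/-- Definition by cases. -/
theorem Cp.ite {P : α → Prop} [DecidablePred P] (hP : Dc 𝒪 P) {f g : α → β} (hf : Cp 𝒪 f)
    (hg : Cp 𝒪 g) : Cp 𝒪 (fun a => if P a then f a else g a) := by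
  have h1 : Sg 𝒪 (fun p : α × β => (P p.1 ∧ p.2 = f p.1) ∨ (¬ P p.1 ∧ p.2 = g p.1)) :=
    Sg.or (Sg.and (hP.1.comp (Cp.fst Cp.id)) hf) (Sg.and (hP.2.comp (Cp.fst Cp.id)) hg)
  refine h1.congr fun p => ?_
  by_cases h : P p.1
  · simp [h]
  · simp [h]

end Ind

end WI
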