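import Pool.Agent.Helper32.WI.Clo

/-! WI: arithmetic definitions (truncated subtraction, division with remainder, powers of two, bits,
codes of bounded sets, counting, restrictions of sets). No theorem here. -/

universe u

namespace WI

variable {M : Type u} [CommSemiring M] [LinearOrder M] [PAM M]

open Classical in
/-- Truncated subtraction. -/
noncomputable def sb (a b : M) : M := if h : ∃ c, b + c = a then Classical.choose h else 0

open Classical in
/-- Quotient (`0` if `b = 0`). -/
noncomputable def dv (a b : M) : M :=
  if h : ∃ q r : M, r < b ∧ a = b * q + r then Classical.choose h else 0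

open Classical in
/-- Remainder (`a` if `b = 0`). -/
noncomputable def md (a b : M) : M :=
  if h : ∃ r q : M, r < b ∧ a = b * q + r then Classical.choose h else a

open Classical in
/-- Powers of two. -/
noncomputable def pow2 : M → M :=
  if h : ∃ f : M → M, Cp (∅ : Set (Set M)) f ∧ f 0 = 1 ∧ ∀ n, f (n + 1) = 2 * f n then
    Classical.choose h else fun _ => 0

/-- The `i`-th binary digit of `x` is `1`. M-finite sets and binary strings are coded by numbers:
`Bit w i` means `i ∈ w`. -/
def Bit (x i : M) : Prop := md (dv x (pow2 i)) 2 = 1

open Classical in
/-- The code of `{i < n : P i}`. -/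
noncomputable def cod (P : M → Prop) (n : M) : M :=
  if h : ∃ w : M, w < pow2 n ∧ ∀ i, Bit w i ↔ i < n ∧ P i then Classical.choose h else 0

/-- The string of length `n` of (the characteristic function of) `Y`. -/
noncomputable def res (Y : Set M) (n : M) : M := cod (fun i => i ∈ Y) n

open Classical in
/-- The number of `i < n` with `Bit x i`. -/
noncomputable def card : M × M → M :=
  if h : ∃ f : M × M → M, Cp (∅ : Set (Set M)) f ∧ (∀ x, f (x, 0) = 0) ∧
      ∀ x n, f (x, n + 1) = f (x, n) + (if Bit x n then 1 else 0) then
    Classical.choose h else fun _ => 0

/-- The number of `i < n` with `P i`. -/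
noncomputable def cnt (P : M → Prop) (n : M) : M := card (cod P n, n)

open Classical in
/-- The `u`-th entry of the sequence coded by `w` (a code of a set of pairs). -/
noncomputable def seqv (w u : M) : M :=
  if h : ∃ v : M, Bit w (pair u v) ∧ ∀ v' < v, ¬ Bit w (pair u v') then Classical.choose h else 0

end WI
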