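import Pool.Agent.Helper32.WI.DArith

/-! WI: definitions for the universal functional. -/

universe u

namespace WI

variable {M : Type u} [CommSemiring M] [LinearOrder M] [PAM M]

/-- `C e n x m y`: the `e`-th functional with oracle string `x` of length `n` outputs (at least) the
string `y` of length `m`. -/
structure IsFun (S : Set (Set M)) (C : M → M → M → M → M → Prop) : Prop where
  dc : Dc (∅ : Set (Set M)) (fun p : M × (M × (M × (M × M))) =>
    C p.1 p.2.1 p.2.2.1 p.2.2.2.1 p.2.2.2.2)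
  len : ∀ {e n x m y}, C e n x m y → x < pow2 n ∧ m ≤ n ∧ y < pow2 m
  mono : ∀ {e n x m y n' x'}, C e n x m y → n ≤ n' → x' < pow2 n' → md x' (pow2 n) = x →
    C e n' x' m y
  uniq : ∀ {e n x m y y'}, C e n x m y → C e n x m y' → y = y'
  res : ∀ {e n x m y m'}, C e n x m y → m' ≤ m → C e n x m' (md y (pow2 m'))
  zero : ∀ {e n x}, x < pow2 n → C e n x 0 0
  of_le : ∀ {Y Z : Set M}, Y ∈ S → Z ∈ S → TuringLE Z Y →
    ∃ e, ∀ m, ∃ n, C e n (WI.res Y n) m (WI.res Z m)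
  to_le : ∀ {Y Z : Set M}, Y ∈ S → Z ∈ S → ∀ e, (∀ m, ∃ n, C e n (WI.res Y n) m (WI.res Z m)) →
    TuringLE Z Y

/-- Basic relations of the universal machine: code `⟨c₀, c₁⟩`, input `v`, output `y`, oracle string
`x` of length `n`. -/
def Base (n x c v y : M) : Prop :=
  (∃ a < c + 1, c = pair 0 a ∧ y = a) ∨
  (∃ a < c + 1, c = pair 1 a ∧ y = v) ∨
  (∃ a < c + 1, c = pair 2 a ∧ ∃ b < v + 1, v = pair y b) ∨
  (∃ a < c + 1, c = pair 3 a ∧ ∃ b < v + 1, v = pair b y) ∨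
  (∃ a < c + 1, c = pair 4 a ∧ ∃ b < v + 1, ∃ d < v + 1, v = pair b d ∧ y = b + d) ∨
  (∃ a < c + 1, c = pair 5 a ∧ ∃ b < v + 1, ∃ d < v + 1, v = pair b d ∧ y = b * d) ∨
  (∃ a < c + 1, c = pair 6 a ∧ ∃ b < v + 1, ∃ d < v + 1, v = pair b d ∧ y = 0 ∧ b = d) ∨
  (∃ a < c + 1, c = pair 7 a ∧ ∃ b < v + 1, ∃ d < v + 1, v = pair b d ∧ y = 0 ∧ b < d) ∨
  (∃ a < c + 1, c = pair 8 a ∧ y = 0 ∧ v < n ∧ Bit x v) ∨
  (∃ a < c + 1, c = pair 9 a ∧ y = 0 ∧ v < n ∧ ¬ Bit x v)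

/-- One step of the universal inductive definition. A judgement `pair e (pair v y)` says that the
(multivalued) function with code `e` maps `v` to `y`. `J n x W z`: the judgement `z` is justified
by the judgements in `W` (all witnesses bounded by `n`). -/
def Just (n x : M) (W : M → Prop) (z : M) : Prop :=
  ∃ e < z + 1, ∃ v < z + 1, ∃ y < z + 1, z = pair e (pair v y) ∧
   (Base n x e v y ∨
    -- composition
    (∃ e₁ < e + 1, ∃ e₂ < e + 1, e = pair 10 (pair e₁ e₂) ∧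
      ∃ u < n, W (pair e₁ (pair v u)) ∧ W (pair e₂ (pair u y))) ∨
    -- pairing
    (∃ e₁ < e + 1, ∃ e₂ < e + 1, e = pair 11 (pair e₁ e₂) ∧
      ∃ y₁ < y + 1, ∃ y₂ < y + 1, y = pair y₁ y₂ ∧
        W (pair e₁ (pair v y₁)) ∧ W (pair e₂ (pair v y₂))) ∨
    -- union
    (∃ e₁ < e + 1, ∃ e₂ < e + 1, e = pair 12 (pair e₁ e₂) ∧
      (W (pair e₁ (pair v y)) ∨ W (pair e₂ (pair v y)))) ∨
    -- bounded universal quantifier
    (∃ e₁ < e + 1, e = pair 13 e₁ ∧ y = 0 ∧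
      ∃ b < v + 1, ∃ v' < v + 1, v = pair b v' ∧ ∀ i < b, W (pair e₁ (pair (pair i v') 0))) ∨
    -- existential quantifier
    (∃ e₁ < e + 1, e = pair 14 e₁ ∧ y = 0 ∧ ∃ i < n, W (pair e₁ (pair (pair i v) 0))))

/-- The properties of the stages `𝒲 n x z` (the judgement `z` is derived by stage `n` from the
oracle string `x` of length `n`): decidable, monotone, and the union over all initial segments of a
set `Y` is a fixed point of `Just`. -/
structure IsStage (𝒲 : M → M → M → Prop) : Prop where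
  dc : Dc (∅ : Set (Set M)) (fun p : M × (M × M) => 𝒲 p.1 p.2.1 p.2.2)
  mono : ∀ {n x n' x' z}, 𝒲 n x z → n ≤ n' → md x' (pow2 n) = md x (pow2 n) → 𝒲 n' x' z
  sound : ∀ {n x z}, 𝒲 n x z → Just n x (𝒲 n x) z
  complete : ∀ (Y : Set M), IS1 ({Y} : Set (Set M)) → ∀ n z,
    Just n (res Y n) (fun z' => ∃ n', 𝒲 n' (res Y n') z') z → ∃ n', 𝒲 n' (res Y n') z

/-- The judgement `pair e (pair v y)` is derived at some stage, for the oracle `Y`: the
(multivalued) function with code `e` maps `v` to `y`. -/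
def Wv (𝒲 : M → M → M → Prop) (Y : Set M) (e v y : M) : Prop :=
  ∃ n, 𝒲 n (res Y n) (pair e (pair v y))

end WI
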