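import Pool.Agent.Helper32.WI.DFun

/-! WI: definitions for the runs of the construction. -/

universe u

namespace WI

variable {M : Type u} [CommSemiring M] [LinearOrder M] [PAM M]

/-- The lengths of the strings. -/
def NN (s : M) : M := s * s + 5 * s

/-- The number of pairs `(e, r)`, `e < b`, `r` a string of length `t`, such that `Φ_e(r)` extends the
string `c` of length `n` in `t` steps. -/
noncomputable def UU (C : M → M → M → M → M → Prop) (b n c t : M) : M :=
  cnt (fun z => C (dv z (pow2 t)) t (md z (pow2 t)) n c) (b * pow2 t)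

/-- Lightness of the string `c` of length `NN b` at time `t`. -/
def Light (C : M → M → M → M → M → Prop) (b c t : M) : Prop :=
  UU C b (NN b) c t * pow2 (b + 3) ≤ pow2 t

/-- `t` is a record at `s`: the last stage `≤ s` of its level, all later levels being higher. -/
def Rc (k : M → M) (t s : M) : Prop := t ≤ s ∧ ∀ u, t < u → u ≤ s → k t < k u

/-- The lightness conditions of the births `t' + 1`, `t'` a record at `s` before `t`. -/
def AliveT (C : M → M → M → M → M → Prop) (k : M → M) (x t s : M) : Prop :=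
  ∀ t' < t, Rc k t' s → Light C (t' + 1) (md x (pow2 (NN (t' + 1)))) s

/-- `x ∈ A*(s)`. -/
def Astar (C : M → M → M → M → M → Prop) (k A : M → M) (x s : M) : Prop :=
  Bit (A s) x ∧ AliveT C k x s s

/-- A valid move at stage `s` for the level of the record `t`; the new set is `B`. -/
structure Move (C : M → M → M → M → M → Prop) (k A : M → M) (s t B : M) : Prop where
  rc : Rc k t s
  pos : 0 < k t
  len : ∀ x, Bit B x → x < pow2 (NN (s + 1))
  v1 : ∀ x, Bit B x → Astar C k A (md x (pow2 (NN s))) s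
  v2 : ∀ σ, Bit (A t) σ → (∃ x, Astar C k A x s ∧ md x (pow2 (NN t)) = σ) →
    ∃! x, Bit B x ∧ md x (pow2 (NN t)) = σ

/-- A valid move satisfying the requirement `Q s b t B` (`b` is the birth of the level). -/
def QMove (C : M → M → M → M → M → Prop) (Q : M → M → M → M → Prop) (k A : M → M) (s t B : M) :
    Prop :=
  Move C k A s t B ∧ ∀ t' < t, Rc k t' s → k t' + 1 = k t → Q s (t' + 1) t B

/-- A run of the construction for `Q`. -/
structure IsRun (C : M → M → M → M → M → Prop) (Q : M → M → M → M → Prop) (k A : M → M) :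
    Prop where
  k0 : k 0 = 0
  A0 : ∀ x, Bit (A 0) x ↔ x = 0
  step : ∀ s, (∃ t, k (s + 1) = k t ∧ QMove C Q k A s t (A (s + 1))) ∨
    (k (s + 1) = k s + 1 ∧
      ∀ x, Bit (A (s + 1)) x ↔ x < pow2 (NN (s + 1)) ∧ Astar C k A (md x (pow2 (NN s))) s)
  least : ∀ s t B, QMove C Q k A s t B → k (s + 1) ≤ k t
  cpk : Cp (∅ : Set (Set M)) k
  cpA : Cp (∅ : Set (Set M)) A

/-- `t` is a final record of its level. -/
def Final (k : M → M) (t : M) : Prop := ∀ s, t < s → k t < k s

/-- The run is finitary. -/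
def Fry (k : M → M) : Prop :=
  ∀ t, Final k t → ∃ B, ∀ s, k s = k t + 1 → s ≤ B

/-- The (`Π⁰₁`) class of the run. -/
def InP (A : M → M) (Y : Set M) : Prop := ∀ s, Bit (A s) (res Y (NN s))

/-- Disagreement of two computations. -/
def Inc (C : M → M → M → M → M → Prop) (e i n x x' : M) : Prop :=
  ∃ m ≤ n, ∃ y < pow2 m, ∃ y' < pow2 m, y ≠ y' ∧ C e n x m y ∧ C i n x' m y'

/-- The requirement of Lemma 4. -/
def QA (C : M → M → M → M → M → Prop) (s b t B : M) : Prop :=
  ∃ e < b, ∃ i < b, ∃ x < pow2 (NN (s + 1)), ∃ x' < pow2 (NN (s + 1)), Bit B x ∧ Bit B x' ∧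
    ¬ Bit x 0 ∧ Bit x' 0 ∧ Inc C e i (NN (s + 1)) x x' ∧
    ¬ Inc C e i (NN t) (md x (pow2 (NN t))) (md x' (pow2 (NN t)))

/-- A tame approximation of `X`: computable sequence of strings `y s` of length `l s`. -/
structure Tame (X : Set M) (l y : M → M) : Prop where
  cpl : Cp (∅ : Set (Set M)) l
  cpy : Cp (∅ : Set (Set M)) y
  lim : ∀ n, ∃ s₀, ∀ s, s₀ ≤ s → n ≤ l s ∧ md (y s) (pow2 n) = res X n

/-- The requirement of Lemma 5. -/
def QB (C : M → M → M → M → M → Prop) (l y : M → M) (s b t B : M) : Prop :=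
  ∃ e < b, ∃ x < pow2 (NN (s + 1)), ∃ m < l s + 1, Bit B x ∧
    C e (NN (s + 1)) x m (md (y s) (pow2 m)) ∧
    ¬ C e (NN t) (md x (pow2 (NN t))) m (md (y s) (pow2 m))

/-- The invariant of Lemma 1 at stage `s`. -/
def Inv (C : M → M → M → M → M → Prop) (k A : M → M) (s : M) : Prop :=
  ∀ t t', Rc k t s → Rc k t' s → k t' = k t + 1 → ∀ σ, Bit (A t) σ → AliveT C k σ t s →
    ∀ c < pow2 (NN (t + 1)), md c (pow2 (NN t)) = σ → Light C (t + 1) c s →
      ∃ σ', Bit (A t') σ' ∧ md σ' (pow2 (NN (t + 1))) = c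

/-- `r` is removed at stage `s` because of the birth `b` (Lemma 3 (i)). -/
def Rm1 (C : M → M → M → M → M → Prop) (Y : Set M) (b r s : M) : Prop :=
  ∃ t < s + 1, Light C b (res Y (NN b)) t ∧
    ∃ e < b, C e t (md r (pow2 t)) (NN b) (res Y (NN b))

/-- `r` is removed at stage `s` because of the index `e` (Lemma 3 (ii)). -/
def Rm2 (C : M → M → M → M → M → Prop) (X : Set M) (e r s : M) : Prop :=
  C e s (res X s) (e + 2) (md r (pow2 (e + 2)))

end WI
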