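import Mathlib

/-! Project WI (MP_1db90f_lc): models of `WKL₀`, Turing reducibility. Official definitions. -/

universe u

namespace WI

/-- The basic algebraic axioms `P⁻`: a discretely ordered commutative semiring whose order is given by
addition (`x ≤ y` iff `y = x + z` for some `z`). -/
class PAM (M : Type u) [CommSemiring M] [LinearOrder M] : Prop
    extends IsStrictOrderedRing M, CanonicallyOrderedAdd M where
  one_le_of_pos : ∀ x : M, 0 < x → 1 ≤ x

/-- Terms of the language of arithmetic in `n` number variables, with number parameters,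
as functions of the values of the variables. -/
inductive Tm {M : Type u} [CommSemiring M] : {n : ℕ} → ((Fin n → M) → M) → Prop
  | var {n : ℕ} (i : Fin n) : Tm (fun v : Fin n → M => v i)
  | const {n : ℕ} (c : M) : Tm (fun _ : Fin n → M => c)
  | add {n : ℕ} {s t : (Fin n → M) → M} (hs : Tm s) (ht : Tm t) : Tm (fun v => s v + t v)
  | mul {n : ℕ} {s t : (Fin n → M) → M} (hs : Tm s) (ht : Tm t) : Tm (fun v => s v * t v)

/-- Relations on `M` defined by a bounded (`Δ⁰₀`) formula, with number parameters from `M` and set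
parameters from `S`. -/
inductive Bdd {M : Type u} [CommSemiring M] [LinearOrder M] (S : Set (Set M)) :
    {n : ℕ} → ((Fin n → M) → Prop) → Prop
  | eq {n : ℕ} {s t : (Fin n → M) → M} (hs : Tm s) (ht : Tm t) : Bdd S (fun v => s v = t v)
  | lt {n : ℕ} {s t : (Fin n → M) → M} (hs : Tm s) (ht : Tm t) : Bdd S (fun v => s v < t v)
  | mem {n : ℕ} {t : (Fin n → M) → M} (ht : Tm t) {X : Set M} (hX : X ∈ S) :
      Bdd S (fun v => t v ∈ X)
  | not {n : ℕ} {P : (Fin n → M) → Prop} (h : Bdd S P) : Bdd S (fun v => ¬ P v)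
  | and {n : ℕ} {P Q : (Fin n → M) → Prop} (hP : Bdd S P) (hQ : Bdd S Q) :
      Bdd S (fun v => P v ∧ Q v)
  | ball {n : ℕ} {t : (Fin n → M) → M} (ht : Tm t) {P : (Fin (n + 1) → M) → Prop} (h : Bdd S P) :
      Bdd S (fun v => ∀ y, y < t v → P (Fin.cons y v))

/-- `(M, S)` is a model of `RCA₀` (the axioms `P⁻` are the class `PAM M`): `Σ⁰₁` induction and
`Δ⁰₁` comprehension, with parameters. -/
structure RCA0 {M : Type u} [CommSemiring M] [LinearOrder M] (S : Set (Set M)) : Prop where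
  ind : ∀ P : (Fin 2 → M) → Prop, Bdd S P → (∃ y, P ![y, 0]) →
    (∀ x, (∃ y, P ![y, x]) → ∃ y, P ![y, x + 1]) → ∀ x, ∃ y, P ![y, x]
  comp : ∀ P Q : (Fin 2 → M) → Prop, Bdd S P → Bdd S Q →
    (∀ x, (∃ y, P ![y, x]) ↔ ¬ ∃ y, Q ![y, x]) → {x | ∃ y, P ![y, x]} ∈ S

/-- `(M, S)` is a model of `WKL₀`. Binary strings are coded by numbers: the empty string by `0`,
and if `x` codes `σ` then `2x+1`, `2x+2` code `σ⌢0`, `σ⌢1`. Weak Koenig's Lemma: every infinite
(that is, unbounded) tree `T` in `S` has a path; the path is given as the set `P` of its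
initial segments. -/
structure WKL0 {M : Type u} [CommSemiring M] [LinearOrder M] (S : Set (Set M)) : Prop
    extends RCA0 S where
  wkl : ∀ T ∈ S, (∀ x, (2 * x + 1 ∈ T ∨ 2 * x + 2 ∈ T) → x ∈ T) → (∀ b, ∃ x ∈ T, b ≤ x) →
    ∃ P ∈ S, P ⊆ T ∧ 0 ∈ P ∧
      ∀ x, (x ∈ P ↔ (2 * x + 1 ∈ P ∨ 2 * x + 2 ∈ P)) ∧ ¬ (2 * x + 1 ∈ P ∧ 2 * x + 2 ∈ P)

/-- `X ≤_T Y`: both `X` and its complement are `Σ⁰₁`-definable in `M` from `Y` (number parameters,
that is indices `e ∈ M`, allowed). -/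
def TuringLE {M : Type u} [CommSemiring M] [LinearOrder M] (X Y : Set M) : Prop :=
  ∃ P Q : (Fin 2 → M) → Prop, Bdd {Y} P ∧ Bdd {Y} Q ∧
    ∀ x, (x ∈ X ↔ ∃ y, P ![y, x]) ∧ (x ∉ X ↔ ∃ y, Q ![y, x])

end WI
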