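import Pool.Agent.Helper32.WI.Stage

/-! WI-F2a: the fixed point equations of the universal machine. -/

set_option linter.unusedSectionVars false
set_option linter.unusedVariables false

universe u

namespace WI

open Enc

variable {M : Type u} [CommSemiring M] [LinearOrder M] [PAM M]
variable {α β γ : Type u} [Enc M α] [Enc M β] [Enc M γ] {𝒪 : Set (Set M)}

theorem FixPt_pair {a b c d : M} : WI.pair a b = WI.pair c d ↔ a = c ∧ b = d :=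
  ⟨pair_inj, fun h => by rw [h.1, h.2]⟩

theorem FixPt_ex {c : M} {k : M} {P : M → Prop} :
    (∃ a, a < c + 1 ∧ c = WI.pair k a ∧ P a) ↔ ∃ a, c = WI.pair k a ∧ P a := by
  constructor
  · rintro ⟨a, -, h⟩
    exact ⟨a, h⟩
  · rintro ⟨a, h, h'⟩
    exact ⟨a, lt_succ_iff.2 (h ▸ right_le_pair _ _), h, h'⟩

theorem FixPt_fst {v y : M} : (∃ b, b < v + 1 ∧ v = WI.pair y b) ↔ ∃ b, v = WI.pair y b := by
  constructor
  · rintro ⟨a, -, h⟩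
    exact ⟨a, h⟩
  · rintro ⟨a, h⟩
    exact ⟨a, lt_succ_iff.2 (h ▸ right_le_pair _ _), h⟩

theorem FixPt_snd {v y : M} : (∃ b, b < v + 1 ∧ v = WI.pair b y) ↔ ∃ b, v = WI.pair b y := by
  constructor
  · rintro ⟨a, -, h⟩
    exact ⟨a, h⟩
  · rintro ⟨a, h⟩
    exact ⟨a, lt_succ_iff.2 (h ▸ left_le_pair _ _), h⟩

theorem FixPt_two {v : M} {P : M → M → Prop} :
    (∃ b, b < v + 1 ∧ ∃ d, v = WI.pair b d ∧ P b d) ↔
      ∃ b d, v = WI.pair b d ∧ P b d := by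
  constructor
  · rintro ⟨a, -, b, h⟩
    exact ⟨a, b, h⟩
  · rintro ⟨a, b, h, h'⟩
    exact ⟨a, lt_succ_iff.2 (h ▸ left_le_pair _ _), b, h, h'⟩

theorem FixPt_three {v k : M} {P : M → M → Prop} :
    (∃ b, b < v + 1 ∧ ∃ d, d < v + 1 ∧ v = WI.pair k (WI.pair b d) ∧ P b d) ↔
      ∃ b d, v = WI.pair k (WI.pair b d) ∧ P b d := by
  constructor
  · rintro ⟨a, -, b, -, h⟩
    exact ⟨a, b, h⟩
  · rintro ⟨a, b, h, h'⟩
    exact ⟨a, lt_succ_iff.2 (h ▸ (left_le_pair _ _).trans (right_le_pair _ _)), b,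
      lt_succ_iff.2 (h ▸ (right_le_pair _ _).trans (right_le_pair _ _)), h, h'⟩

/-- The rules without bounds. -/
def FixPt_rule (n x : M) (W : M → Prop) (e v y : M) : Prop :=
  ((∃ a, e = WI.pair 0 a ∧ y = a) ∨
  (∃ a, e = WI.pair 1 a ∧ y = v) ∨
  (∃ a, e = WI.pair 2 a ∧ ∃ b, v = WI.pair y b) ∨
  (∃ a, e = WI.pair 3 a ∧ ∃ b, v = WI.pair b y) ∨
  (∃ a, e = WI.pair 4 a ∧ ∃ b d, v = WI.pair b d ∧ y = b + d) ∨
  (∃ a, e = WI.pair 5 a ∧ ∃ b d, v = WI.pair b d ∧ y = b * d) ∨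
  (∃ a, e = WI.pair 6 a ∧ ∃ b d, v = WI.pair b d ∧ y = 0 ∧ b = d) ∨
  (∃ a, e = WI.pair 7 a ∧ ∃ b d, v = WI.pair b d ∧ y = 0 ∧ b < d) ∨
  (∃ a, e = WI.pair 8 a ∧ y = 0 ∧ v < n ∧ Bit x v) ∨
  (∃ a, e = WI.pair 9 a ∧ y = 0 ∧ v < n ∧ ¬ Bit x v)) ∨
  (∃ e₁ e₂, e = WI.pair 10 (WI.pair e₁ e₂) ∧
      ∃ u < n, W (WI.pair e₁ (WI.pair v u)) ∧ W (WI.pair e₂ (WI.pair u y))) ∨
  (∃ e₁ e₂, e = WI.pair 11 (WI.pair e₁ e₂) ∧ ∃ y₁ y₂, y = WI.pair y₁ y₂ ∧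
      W (WI.pair e₁ (WI.pair v y₁)) ∧ W (WI.pair e₂ (WI.pair v y₂))) ∨
  (∃ e₁ e₂, e = WI.pair 12 (WI.pair e₁ e₂) ∧
      (W (WI.pair e₁ (WI.pair v y)) ∨ W (WI.pair e₂ (WI.pair v y)))) ∨
  (∃ e₁, e = WI.pair 13 e₁ ∧ y = 0 ∧ ∃ b v', v = WI.pair b v' ∧
      ∀ i < b, W (WI.pair e₁ (WI.pair (WI.pair i v') 0))) ∨
  (∃ e₁, e = WI.pair 14 e₁ ∧ y = 0 ∧ ∃ i < n, W (WI.pair e₁ (WI.pair (WI.pair i v) 0)))

theorem FixPt_just {n x e v y : M} {W : M → Prop} :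
    Just n x W (WI.pair e (WI.pair v y)) ↔ FixPt_rule n x W e v y := by
  have h1 : Just n x W (WI.pair e (WI.pair v y)) ↔ (Base n x e v y ∨
    (∃ e₁ < e + 1, ∃ e₂ < e + 1, e = pair 10 (pair e₁ e₂) ∧
      ∃ u < n, W (pair e₁ (pair v u)) ∧ W (pair e₂ (pair u y))) ∨
    (∃ e₁ < e + 1, ∃ e₂ < e + 1, e = pair 11 (pair e₁ e₂) ∧
      ∃ y₁ < y + 1, ∃ y₂ < y + 1, y = pair y₁ y₂ ∧
        W (pair e₁ (pair v y₁)) ∧ W (pair e₂ (pair v y₂))) ∨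
    (∃ e₁ < e + 1, ∃ e₂ < e + 1, e = pair 12 (pair e₁ e₂) ∧
      (W (pair e₁ (pair v y)) ∨ W (pair e₂ (pair v y)))) ∨
    (∃ e₁ < e + 1, e = pair 13 e₁ ∧ y = 0 ∧
      ∃ b < v + 1, ∃ v' < v + 1, v = pair b v' ∧ ∀ i < b, W (pair e₁ (pair (pair i v') 0))) ∨
    (∃ e₁ < e + 1, e = pair 14 e₁ ∧ y = 0 ∧ ∃ i < n, W (pair e₁ (pair (pair i v) 0)))) := by
    constructor
    · rintro ⟨e', -, v', -, y', -, h, h'⟩
      obtain ⟨rfl, h2⟩ := pair_inj h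
      obtain ⟨rfl, rfl⟩ := pair_inj h2
      exact h'
    · intro h
      exact ⟨e, lt_succ_iff.2 (left_le_pair _ _), v,
        lt_succ_iff.2 ((left_le_pair _ _).trans (right_le_pair _ _)), y,
        lt_succ_iff.2 ((right_le_pair _ _).trans (right_le_pair _ _)), rfl, h⟩
  rw [h1]
  unfold Base FixPt_rule
  simp only [FixPt_ex, FixPt_three, FixPt_two, FixPt_fst, FixPt_snd]

variable [IS1 (∅ : Set (Set M))] {Y : Set M} [IS1 ({Y} : Set (Set M))] {𝒲 : M → M → M → Prop}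
  (h𝒲 : IsStage 𝒲)
include h𝒲

theorem FixPt_to {e v y : M} (h : Wv 𝒲 Y e v y) :
    ∃ n, FixPt_rule n (res Y n) (fun z' => ∃ n', 𝒲 n' (res Y n') z') e v y := by
  obtain ⟨n, h⟩ := h
  refine ⟨n, FixPt_just.1 ((h𝒲.sound h).mono le_rfl (fun _ _ => Iff.rfl) fun z' h' => ⟨n, h'⟩)⟩

theorem FixPt_of {e v y : M} (n : M)
    (h : FixPt_rule n (res Y n) (fun z' => ∃ n', 𝒲 n' (res Y n') z') e v y) : Wv 𝒲 Y e v y :=
  h𝒲.complete Y inferInstance n _ (FixPt_just.2 h)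

theorem wv_const (a v y : M) : Wv 𝒲 Y (pair 0 a) v y ↔ y = a := by
  constructor
  · intro h
    obtain ⟨n, h⟩ := FixPt_to h𝒲 h
    simpa [FixPt_rule, FixPt_pair, eq_comm] using h
  · rintro rfl
    refine FixPt_of h𝒲 0 ?_
    simp [FixPt_rule, FixPt_pair]

theorem wv_id (v y : M) : Wv 𝒲 Y (pair 1 0) v y ↔ y = v := by
  constructor
  · intro h
    obtain ⟨n, h⟩ := FixPt_to h𝒲 h
    simpa [FixPt_rule, FixPt_pair] using h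
  · rintro rfl
    refine FixPt_of h𝒲 0 ?_
    simp [FixPt_rule, FixPt_pair]

theorem wv_fst (a b y : M) : Wv 𝒲 Y (pair 2 0) (pair a b) y ↔ y = a := by
  constructor
  · intro h
    obtain ⟨n, h⟩ := FixPt_to h𝒲 h
    simpa [FixPt_rule, FixPt_pair, eq_comm] using h
  · rintro rfl
    refine FixPt_of h𝒲 0 ?_
    simp [FixPt_rule, FixPt_pair]

theorem wv_snd (a b y : M) : Wv 𝒲 Y (pair 3 0) (pair a b) y ↔ y = b := by
  constructor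
  · intro h
    obtain ⟨n, h⟩ := FixPt_to h𝒲 h
    simpa [FixPt_rule, FixPt_pair, eq_comm] using h
  · rintro rfl
    refine FixPt_of h𝒲 0 ?_
    simp [FixPt_rule, FixPt_pair]

theorem wv_add (a b y : M) : Wv 𝒲 Y (pair 4 0) (pair a b) y ↔ y = a + b := by
  constructor
  · intro h
    obtain ⟨n, h⟩ := FixPt_to h𝒲 h
    simpa [FixPt_rule, FixPt_pair, eq_comm, and_assoc] using h
  · rintro rfl
    refine FixPt_of h𝒲 0 ?_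
    simp [FixPt_rule, FixPt_pair]

theorem wv_mul (a b y : M) : Wv 𝒲 Y (pair 5 0) (pair a b) y ↔ y = a * b := by
  constructor
  · intro h
    obtain ⟨n, h⟩ := FixPt_to h𝒲 h
    simpa [FixPt_rule, FixPt_pair, eq_comm, and_assoc] using h
  · rintro rfl
    refine FixPt_of h𝒲 0 ?_
    simp [FixPt_rule, FixPt_pair]

theorem wv_eq (a b y : M) : Wv 𝒲 Y (pair 6 0) (pair a b) y ↔ y = 0 ∧ a = b := by
  constructor
  · intro h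
    obtain ⟨n, h⟩ := FixPt_to h𝒲 h
    simp only [FixPt_rule, FixPt_pair] at h
    simp at h
    exact h
  · rintro ⟨rfl, rfl⟩
    refine FixPt_of h𝒲 0 ?_
    simp [FixPt_rule, FixPt_pair]

theorem wv_lt (a b y : M) : Wv 𝒲 Y (pair 7 0) (pair a b) y ↔ y = 0 ∧ a < b := by
  constructor
  · intro h
    obtain ⟨n, h⟩ := FixPt_to h𝒲 h
    simp only [FixPt_rule, FixPt_pair] at h
    simp at h
    exact h
  · rintro ⟨rfl, h⟩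
    refine FixPt_of h𝒲 0 (Or.inl ?_)
    exact Or.inr (Or.inr (Or.inr (Or.inr (Or.inr (Or.inr (Or.inr (Or.inl
      ⟨0, rfl, a, b, rfl, rfl, h⟩)))))))

theorem wv_mem (v y : M) : Wv 𝒲 Y (pair 8 0) v y ↔ y = 0 ∧ v ∈ Y := by
  constructor
  · intro h
    obtain ⟨n, h⟩ := FixPt_to h𝒲 h
    simp only [FixPt_rule, FixPt_pair] at h
    simp at h
    rw [bit_res] at h
    exact ⟨h.1, h.2.2.2⟩
  · rintro ⟨rfl, h⟩
    refine FixPt_of h𝒲 (v + 1) (Or.inl ?_)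
    refine Or.inr (Or.inr (Or.inr (Or.inr (Or.inr (Or.inr (Or.inr (Or.inr (Or.inl
      ⟨0, rfl, rfl, lt_succ_iff.2 le_rfl, ?_⟩))))))))
    rw [bit_res]
    exact ⟨lt_succ_iff.2 le_rfl, h⟩

theorem wv_nmem (v y : M) : Wv 𝒲 Y (pair 9 0) v y ↔ y = 0 ∧ v ∉ Y := by
  constructor
  · intro h
    obtain ⟨n, h⟩ := FixPt_to h𝒲 h
    simp only [FixPt_rule, FixPt_pair] at h
    simp at h
    rw [bit_res] at h
    exact ⟨h.1, fun h' => h.2.2 ⟨h.2.1, h'⟩⟩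
  · rintro ⟨rfl, h⟩
    refine FixPt_of h𝒲 (v + 1) (Or.inl ?_)
    refine Or.inr (Or.inr (Or.inr (Or.inr (Or.inr (Or.inr (Or.inr (Or.inr (Or.inr
      ⟨0, rfl, rfl, lt_succ_iff.2 le_rfl, ?_⟩))))))))
    rw [bit_res]
    exact fun h' => h h'.2

theorem wv_comp (e₁ e₂ v y : M) : Wv 𝒲 Y (pair 10 (pair e₁ e₂)) v y ↔
    ∃ u, Wv 𝒲 Y e₁ v u ∧ Wv 𝒲 Y e₂ u y := by
  constructor
  · intro h
    obtain ⟨n, h⟩ := FixPt_to h𝒲 h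
    simp only [FixPt_rule, FixPt_pair] at h
    simp at h
    obtain ⟨u, -, h1, h2⟩ := h
    exact ⟨u, h1, h2⟩
  · rintro ⟨u, h1, h2⟩
    exact FixPt_of h𝒲 (u + 1) (Or.inr (Or.inl ⟨e₁, e₂, rfl, u, lt_succ_iff.2 le_rfl, h1, h2⟩))

theorem wv_fork (e₁ e₂ v y : M) : Wv 𝒲 Y (pair 11 (pair e₁ e₂)) v y ↔
    ∃ y₁ y₂, y = pair y₁ y₂ ∧ Wv 𝒲 Y e₁ v y₁ ∧ Wv 𝒲 Y e₂ v y₂ := by
  constructor
  · intro h
    obtain ⟨n, h⟩ := FixPt_to h𝒲 h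
    simp only [FixPt_rule, FixPt_pair] at h
    simp at h
    obtain ⟨y₁, y₂, rfl, h1, h2⟩ := h
    exact ⟨y₁, y₂, rfl, h1, h2⟩
  · rintro ⟨y₁, y₂, rfl, h1, h2⟩
    exact FixPt_of h𝒲 0 (Or.inr (Or.inr (Or.inl ⟨e₁, e₂, rfl, y₁, y₂, rfl, h1, h2⟩)))

theorem wv_or (e₁ e₂ v y : M) : Wv 𝒲 Y (pair 12 (pair e₁ e₂)) v y ↔
    Wv 𝒲 Y e₁ v y ∨ Wv 𝒲 Y e₂ v y := by
  constructor
  · intro h
    obtain ⟨n, h⟩ := FixPt_to h𝒲 h
    simp only [FixPt_rule, FixPt_pair] at h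
    simp at h
    exact h
  · intro h
    exact FixPt_of h𝒲 0 (Or.inr (Or.inr (Or.inr (Or.inl ⟨e₁, e₂, rfl, h⟩))))

theorem wv_ball (e₁ b v y : M) : Wv 𝒲 Y (pair 13 e₁) (pair b v) y ↔
    y = 0 ∧ ∀ i < b, Wv 𝒲 Y e₁ (pair i v) 0 := by
  constructor
  · intro h
    obtain ⟨n, h⟩ := FixPt_to h𝒲 h
    simp only [FixPt_rule, FixPt_pair] at h
    simp at h
    exact h
  · rintro ⟨rfl, h⟩
    exact FixPt_of h𝒲 0 (Or.inr (Or.inr (Or.inr (Or.inr (Or.inl ⟨e₁, rfl, rfl, b, v, rfl, h⟩)))))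

theorem wv_ex (e₁ v y : M) : Wv 𝒲 Y (pair 14 e₁) v y ↔ y = 0 ∧ ∃ i, Wv 𝒲 Y e₁ (pair i v) 0 := by
  constructor
  · intro h
    obtain ⟨n, h⟩ := FixPt_to h𝒲 h
    simp only [FixPt_rule, FixPt_pair] at h
    simp at h
    obtain ⟨h1, i, -, h⟩ := h
    exact ⟨h1, i, h⟩
  · rintro ⟨rfl, i, h⟩
    exact FixPt_of h𝒲 (i + 1) (Or.inr (Or.inr (Or.inr (Or.inr (Or.inr
      ⟨e₁, rfl, rfl, i, lt_succ_iff.2 le_rfl, h⟩)))))

end WI
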