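import Pool.Agent.Helper32.WI.DRun
import Pool.Agent.Helper32.WI.Arith
import Pool.Agent.Helper32.WI.Pow
import Pool.Agent.Helper32.WI.Bits
import Pool.Agent.Helper32.WI.NN
import Pool.Agent.Helper32.WI.DcRun
import Pool.Agent.Helper32.WI.RcFacts
import Pool.Agent.Helper32.WI.Restr

/-! WI-R3: elements of `A u` are determined by their restriction to the birth of the level. -/

set_option linter.unusedSectionVars false
set_option linter.unusedVariables false

universe u

namespace WI

open Enc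

variable {M : Type u} [CommSemiring M] [LinearOrder M] [PAM M]
variable {α β γ : Type u} [Enc M α] [Enc M β] [Enc M γ] {𝒪 : Set (Set M)}

variable [IS1 (∅ : Set (Set M))] {S : Set (Set M)} {C : M → M → M → M → M → Prop}
  {Q : M → M → M → M → Prop} {k A : M → M}

theorem A_inj (hC : IsFun S C) (hr : IsRun C Q k A) {t u x x' : M} (ht : Rc k t u)
    (hk : k u = k t + 1) (hx : Bit (A u) x) (hx' : Bit (A u) x')
    (h : md x (pow2 (NN (t + 1))) = md x' (pow2 (NN (t + 1)))) : x = x' := by
  have key : ∀ u : M, Rc k t u → k u = k t + 1 → ∀ x < A u, ∀ x' < A u, Bit (A u) x →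
      Bit (A u) x' → md x (pow2 (NN (t + 1))) = md x' (pow2 (NN (t + 1))) → x = x' := by
    intro u
    refine sind (𝒪 := (∅ : Set (Set M)))
      (P := fun u => Rc k t u → k u = k t + 1 → ∀ x < A u, ∀ x' < A u, Bit (A u) x →
        Bit (A u) x' → md x (pow2 (NN (t + 1))) = md x' (pow2 (NN (t + 1))) → x = x') ?_ ?_ u
    · refine Dc.imp (Dc.rc hr.cpk (Cp.const t) Cp.id) (Dc.imp ?_ ?_)
      · exact Dc.eq hr.cpk (Cp.const _)
      · refine Dc.ball (f := fun u => A u) (P := fun p : M × M => ∀ x' < A p.1, Bit (A p.1) p.2 →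
          Bit (A p.1) x' → md p.2 (pow2 (NN (t + 1))) = md x' (pow2 (NN (t + 1))) → p.2 = x')
          hr.cpA ?_
        refine Dc.ball (f := fun p : M × M => A p.1) (P := fun q : (M × M) × M =>
          Bit (A q.1.1) q.1.2 → Bit (A q.1.1) q.2 →
          md q.1.2 (pow2 (NN (t + 1))) = md q.2 (pow2 (NN (t + 1))) → q.1.2 = q.2)
          (hr.cpA.comp (Cp.fst Cp.id)) ?_
        refine Dc.imp ?_ (Dc.imp ?_ (Dc.imp ?_ ?_))
        · exact Dc.bit (hr.cpA.comp (Cp.fst (Cp.fst Cp.id))) (Cp.snd (Cp.fst Cp.id))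
        · exact Dc.bit (hr.cpA.comp (Cp.fst (Cp.fst Cp.id))) (Cp.snd Cp.id)
        · exact Dc.eq (Cp.md (Cp.snd (Cp.fst Cp.id)) (Cp.const _))
            (Cp.md (Cp.snd Cp.id) (Cp.const _))
        · exact Dc.eq (Cp.snd (Cp.fst Cp.id)) (Cp.snd Cp.id)
    · intro u ih ht hk x _ x' _ hx hx' h
      have htu : t < u := by
        rcases eq_or_lt_of_le ht.1 with h1 | h1
        · subst h1
          exact absurd hk (lt_add_of_pos_right (k t) zero_lt_one).ne
        · exact h1
      rcases eq_zero_or_succ u with rfl | ⟨s, rfl⟩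
      · exact absurd htu (not_lt_zero' t)
      have hts : t ≤ s := lt_succ_iff.1 htu
      have hs1 : s < s + 1 := lt_succ_iff.2 le_rfl
      rcases eq_or_lt_of_le hts with h1 | h1
      · subst h1
        rw [md_of_lt (A_len hC hr hx), md_of_lt (A_len hC hr hx')] at h
        exact h
      rcases hr.step s with ⟨t₁, hk1, hq⟩ | ⟨hk1, _⟩
      · have hm := hq.1
        have hk2 : k t₁ = k t + 1 := hk1.symm.trans hk
        have hts' : Rc k t s := rc_restrict ht hts hs1.le
        have ht1 : t < t₁ := by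
          rw [rc_lt_iff hts' hm.rc, hk2]
          exact lt_succ_iff.2 le_rfl
        have hR : Rc k t t₁ := rc_of_rc_rc hts' hm.rc ht1.le
        have ht1s : t₁ ≤ s := hm.rc.1
        have hy := A_res hC hr (ht1s.trans hs1.le) hx
        have hy' := A_res hC hr (ht1s.trans hs1.le) hx'
        have hNN : NN (t + 1) ≤ NN t₁ := NN_le (lt_iff_succ_le.1 ht1)
        have hyy := ih t₁ (lt_of_le_of_lt ht1s hs1) hR hk2 _ (lt_of_bit hy) _ (lt_of_bit hy')
          hy hy' (by rw [md_md_pow2 x hNN, md_md_pow2 x' hNN]; exact h)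
        obtain ⟨z, _, hz⟩ := hm.v2 (md x (pow2 (NN t₁))) hy
          ⟨md x (pow2 (NN s)), A_astar hC hr hx, md_md_pow2 x (NN_le ht1s)⟩
        rw [hz x ⟨hx, rfl⟩, hz x' ⟨hx', hyy.symm⟩]
      · have h2 : k s = k t := add_right_cancel (hk1.symm.trans hk)
        exact absurd (ht.2 s h1 hs1.le) (by rw [h2]; exact lt_irrefl _)
  exact key u ht hk x (lt_of_bit hx) x' (lt_of_bit hx') hx hx' h

end WI
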