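import Pool.Agent.Helper32.WI.Arith
import Pool.Agent.Helper32.WI.Reduc
import Pool.Agent.Helper32.WI.Pow
import Pool.Agent.Helper32.WI.Bits
import Pool.Agent.Helper32.WI.Cod
import Pool.Agent.Helper32.WI.NN
import Pool.Agent.Helper32.WI.DcRun
import Pool.Agent.Helper32.WI.RcFacts
import Pool.Agent.Helper32.WI.Restr
import Pool.Agent.Helper32.WI.Inj

/-! WI-R13: the run for `QA` is finitary. -/

set_option linter.unusedSectionVars false
set_option linter.unusedVariables false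

universe u

namespace WI

open Enc

variable {M : Type u} [CommSemiring M] [LinearOrder M] [PAM M]
variable {α β γ : Type u} [Enc M α] [Enc M β] [Enc M γ] {𝒪 : Set (Set M)}

variable [IS1 (∅ : Set (Set M))] {S : Set (Set M)} {C : M → M → M → M → M → Prop}
  {Q : M → M → M → M → Prop} {k A : M → M}

/-- The quadruples seen up to stage `s` by the level created at `t + 1`. -/
def FryA_E (C : M → M → M → M → M → Prop) (k A : M → M) (t : M) (q : M × M) : Prop :=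
  ∃ e, e < t + 1 ∧ ∃ i, i < t + 1 ∧ ∃ u, u < q.2 + 1 ∧ ∃ x, x < A u ∧ ∃ x', x' < A u ∧
    (q.1 = pair e (pair i (pair (md x (pow2 (NN (t + 1)))) (md x' (pow2 (NN (t + 1)))))) ∧
      t + 1 ≤ u ∧ k u = k t + 1 ∧ Bit (A u) x ∧ Bit (A u) x' ∧ Inc C e i (NN u) x x')

theorem FryA_dc (hC : IsFun S C) (hk : Cp (∅ : Set (Set M)) k) (hA : Cp (∅ : Set (Set M)) A) (t : M) :
    Dc (∅ : Set (Set M)) (FryA_E C k A t) := by
  have h0 : Dc (∅ : Set (Set M)) (fun q : M × M =>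
      ∃ e, e < t + 1 ∧ ∃ i, i < t + 1 ∧ ∃ u, u < q.2 + 1 ∧ ∃ x, x < A u ∧ ∃ x', x' < A u ∧
    (q.1 = pair e (pair i (pair (md x (pow2 (NN (t + 1)))) (md x' (pow2 (NN (t + 1)))))) ∧
      t + 1 ≤ u ∧ k u = k t + 1 ∧ Bit (A u) x ∧ Bit (A u) x' ∧ Inc C e i (NN u) x x')) := by
    refine Dc.bex (f := fun _ => t + 1) (P := fun p : (M × M) × M =>
      ∃ i, i < t + 1 ∧ ∃ u, u < p.1.2 + 1 ∧ ∃ x, x < A u ∧ ∃ x', x' < A u ∧
    (p.1.1 = pair p.2 (pair i (pair (md x (pow2 (NN (t + 1)))) (md x' (pow2 (NN (t + 1)))))) ∧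
      t + 1 ≤ u ∧ k u = k t + 1 ∧ Bit (A u) x ∧ Bit (A u) x' ∧ Inc C p.2 i (NN u) x x'))
      (Cp.const _) ?_
    refine Dc.bex (f := fun _ => t + 1) (P := fun p : ((M × M) × M) × M =>
      ∃ u, u < p.1.1.2 + 1 ∧ ∃ x, x < A u ∧ ∃ x', x' < A u ∧
    (p.1.1.1 = pair p.1.2 (pair p.2 (pair (md x (pow2 (NN (t + 1)))) (md x' (pow2 (NN (t + 1)))))) ∧
      t + 1 ≤ u ∧ k u = k t + 1 ∧ Bit (A u) x ∧ Bit (A u) x' ∧ Inc C p.1.2 p.2 (NN u) x x'))
      (Cp.const _) ?_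
    refine Dc.bex (f := fun p : ((M × M) × M) × M => p.1.1.2 + 1) (P := fun p : (((M × M) × M) × M) × M =>
      ∃ x, x < A p.2 ∧ ∃ x', x' < A p.2 ∧
    (p.1.1.1.1 = pair p.1.1.2 (pair p.1.2
      (pair (md x (pow2 (NN (t + 1)))) (md x' (pow2 (NN (t + 1)))))) ∧
      t + 1 ≤ p.2 ∧ k p.2 = k t + 1 ∧ Bit (A p.2) x ∧ Bit (A p.2) x' ∧
        Inc C p.1.1.2 p.1.2 (NN p.2) x x'))
      (Cp.add (Cp.snd (Cp.fst (Cp.fst Cp.id))) (Cp.const 1)) ?_
    refine Dc.bex (f := fun p : (((M × M) × M) × M) × M => A p.2) (P := fun p : ((((M × M) × M) × M) × M) × M =>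
      ∃ x', x' < A p.1.2 ∧
    (p.1.1.1.1.1 = pair p.1.1.1.2 (pair p.1.1.2
      (pair (md p.2 (pow2 (NN (t + 1)))) (md x' (pow2 (NN (t + 1)))))) ∧
      t + 1 ≤ p.1.2 ∧ k p.1.2 = k t + 1 ∧ Bit (A p.1.2) p.2 ∧ Bit (A p.1.2) x' ∧
        Inc C p.1.1.1.2 p.1.1.2 (NN p.1.2) p.2 x'))
      (Cp.comp hA (Cp.snd Cp.id)) ?_
    refine Dc.bex (f := fun p : ((((M × M) × M) × M) × M) × M => A p.1.2) (P := fun p : (((((M × M) × M) × M) × M) × M) × M =>
    (p.1.1.1.1.1.1 = pair p.1.1.1.1.2 (pair p.1.1.1.2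
      (pair (md p.1.2 (pow2 (NN (t + 1)))) (md p.2 (pow2 (NN (t + 1)))))) ∧
      t + 1 ≤ p.1.1.2 ∧ k p.1.1.2 = k t + 1 ∧ Bit (A p.1.1.2) p.1.2 ∧ Bit (A p.1.1.2) p.2 ∧
        Inc C p.1.1.1.1.2 p.1.1.1.2 (NN p.1.1.2) p.1.2 p.2))
      (Cp.comp hA (Cp.snd (Cp.fst Cp.id))) ?_
    have hu : Cp (∅ : Set (Set M)) (fun p : (((((M × M) × M) × M) × M) × M) × M => p.1.1.2) :=
      Cp.snd (Cp.fst (Cp.fst Cp.id))
    have hx : Cp (∅ : Set (Set M)) (fun p : (((((M × M) × M) × M) × M) × M) × M => p.1.2) :=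
      Cp.snd (Cp.fst Cp.id)
    have hx' : Cp (∅ : Set (Set M)) (fun p : (((((M × M) × M) × M) × M) × M) × M => p.2) :=
      Cp.snd Cp.id
    have hi : Cp (∅ : Set (Set M)) (fun p : (((((M × M) × M) × M) × M) × M) × M => p.1.1.1.2) :=
      Cp.snd (Cp.fst (Cp.fst (Cp.fst Cp.id)))
    have he : Cp (∅ : Set (Set M)) (fun p : (((((M × M) × M) × M) × M) × M) × M => p.1.1.1.1.2) :=
      Cp.snd (Cp.fst (Cp.fst (Cp.fst (Cp.fst Cp.id))))
    have hq : Cp (∅ : Set (Set M)) (fun p : (((((M × M) × M) × M) × M) × M) × M => p.1.1.1.1.1.1) :=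
      Cp.fst (Cp.fst (Cp.fst (Cp.fst (Cp.fst (Cp.fst Cp.id)))))
    refine Dc.and (Dc.eq hq (Cp.pairM he (Cp.pairM hi (Cp.pairM (Cp.md hx (Cp.const _))
      (Cp.md hx' (Cp.const _)))))) ?_
    refine Dc.and (Dc.le (Cp.const _) hu) ?_
    refine Dc.and (Dc.eq (Cp.comp hk hu) (Cp.const _)) ?_
    refine Dc.and (Dc.bit (Cp.comp hA hu) hx) (Dc.and (Dc.bit (Cp.comp hA hu) hx') ?_)
    exact Dc.inc hC he hi (Cp.NN hu) hx hx'
  exact h0

theorem fry_QA (hC : IsFun S C) (hr : IsRun C (QA C) k A) : Fry k := by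
  intro t hfin
  obtain ⟨s₀, hs₀⟩ := stabilise (FryA_dc hC hr.cpk hr.cpA t)
    (pair (t + 1) (pair (t + 1) (pair (pow2 (NN (t + 1))) (pow2 (NN (t + 1)))))) (by
      rintro p s s' hss ⟨e, he, i, hi, u, hu, h⟩
      exact ⟨e, he, i, hi, u, lt_of_lt_of_le hu (by gcongr), h⟩)
  refine ⟨max s₀ (t + 1), fun s hks => ?_⟩
  by_contra hs
  rw [not_le, max_lt_iff] at hs
  obtain ⟨hs1, hs2⟩ := hs
  rcases eq_zero_or_succ s with rfl | ⟨s', rfl⟩
  · exact not_lt_zero' _ hs1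
  rw [lt_succ_iff] at hs1 hs2
  have hts' : t < s' := lt_iff_succ_le.2 hs2
  have hts : t ≤ s' := hts'.le
  have hrct : Rc k t s' := hfin.rc hts
  rcases hr.step s' with ⟨t₁, hkt, hmove, hQ⟩ | ⟨hk, _⟩
  swap
  · have h1 := hfin s' hts'
    rw [hks] at hk
    exact absurd (add_right_cancel hk) h1.ne
  · rw [hks] at hkt
    have hrc1 : Rc k t₁ s' := hmove.rc
    have htt : t < t₁ := (rc_lt_iff hrct hrc1).2 (by
      rw [← hkt]
      exact lt_succ_iff.2 le_rfl)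
    obtain ⟨e, he, i, hi, x, hx, x', hx', hBx, hBx', h0x, h0x', hinc, hninc⟩ :=
      hQ t htt hrct hkt
    have hP : FryA_E C k A t (pair e (pair i (pair (md x (pow2 (NN (t + 1))))
        (md x' (pow2 (NN (t + 1)))))), s' + 1) :=
      ⟨e, he, i, hi, s' + 1, lt_succ_iff.2 le_rfl, x, lt_of_bit hBx, x', lt_of_bit hBx', rfl,
        hs2.trans (lt_succ_iff.1 (by
          exact lt_of_lt_of_le (lt_succ_iff.2 le_rfl) (le_add_of_nonneg_right zero_le_one))),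
        hks, hBx, hBx', hinc⟩
    have hb : pair e (pair i (pair (md x (pow2 (NN (t + 1)))) (md x' (pow2 (NN (t + 1)))))) <
        pair (t + 1) (pair (t + 1) (pair (pow2 (NN (t + 1))) (pow2 (NN (t + 1))))) :=
      pair_lt_pair he (pair_lt_pair hi (pair_lt_pair (md_pow2_lt _ _) (md_pow2_lt _ _)))
    obtain ⟨e₁, he₁, i₁, hi₁, u, hu, y, hy, y', hy', hq, htu, hku, hBy, hBy', hinc'⟩ :=
      hs₀ _ hb _ hP
    obtain ⟨hee, hq⟩ := pair_inj hq
    obtain ⟨hii, hq⟩ := pair_inj hq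
    obtain ⟨hxy, hxy'⟩ := pair_inj hq
    subst hee
    subst hii
    have hus : u ≤ s' := (lt_succ_iff.1 hu).trans hs1
    have hut : t < u := lt_iff_succ_le.2 htu
    have hrcu : Rc k t u := rc_restrict hrct hut.le hus
    have hus1 : u ≤ s' + 1 := hus.trans le_self_add
    have hNN : NN (t + 1) ≤ NN u := NN_le htu
    have hyx : y = md x (pow2 (NN u)) := by
      refine A_inj hC hr hrcu hku hBy (A_res hC hr hus1 hBx) ?_
      rw [md_md_pow2 x hNN]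
      exact hxy.symm
    have hyx' : y' = md x' (pow2 (NN u)) := by
      refine A_inj hC hr hrcu hku hBy' (A_res hC hr hus1 hBx') ?_
      rw [md_md_pow2 x' hNN]
      exact hxy'.symm
    have hut1 : u ≤ t₁ := by
      by_contra h
      rw [not_le] at h
      have h2 := hrc1.2 u h hus
      rw [hku, hkt] at h2
      exact lt_irrefl _ h2
    have hNN1 : NN u ≤ NN t₁ := NN_le hut1
    apply hninc
    obtain ⟨m, hm, z, hz, z', hz', hne, hc1, hc2⟩ := hinc'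
    rw [hyx] at hc1
    rw [hyx'] at hc2
    refine ⟨m, hm.trans hNN1, z, hz, z', hz', hne, ?_, ?_⟩
    · exact hC.mono hc1 hNN1 (md_pow2_lt _ _) (md_md_pow2 x hNN1)
    · exact hC.mono hc2 hNN1 (md_pow2_lt _ _) (md_md_pow2 x' hNN1)

end WI
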