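import Pool.Agent.Helper32.WI.DRun
import Pool.Agent.Helper32.WI.Arith
import Pool.Agent.Helper32.WI.Reduc
import Pool.Agent.Helper32.WI.Pow
import Pool.Agent.Helper32.WI.Bits
import Pool.Agent.Helper32.WI.Cod
import Pool.Agent.Helper32.WI.NN
import Pool.Agent.Helper32.WI.DcRun

/-! WI-R15: Lemma 5, the good and the bad pairs. -/

set_option linter.unusedSectionVars false
set_option linter.unusedVariables false

universe u

namespace WI

open Enc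

variable {M : Type u} [CommSemiring M] [LinearOrder M] [PAM M]
variable {α β γ : Type u} [Enc M α] [Enc M β] [Enc M γ] {𝒪 : Set (Set M)}

variable [IS1 (∅ : Set (Set M))] {S : Set (Set M)} {C : M → M → M → M → M → Prop}
  {Q : M → M → M → M → Prop} {k A : M → M}

/-- The relation `(e, (c, (u, (x, (m, z)))))` of Lemma 5. -/
def GoodB_R (C : M → M → M → M → M → Prop) (k A : M → M) (t : M)
    (w : M × (M × (M × (M × (M × M))))) : Prop :=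
  t + 1 ≤ w.2.2.1 ∧ k w.2.2.1 = k t + 1 ∧ Bit (A w.2.2.1) w.2.2.2.1 ∧
    md w.2.2.2.1 (pow2 (NN (t + 1))) = w.2.1 ∧
    C w.1 (NN w.2.2.1) w.2.2.2.1 w.2.2.2.2.1 w.2.2.2.2.2

theorem GoodB_dcR [IS1 𝒪] (hC : IsFun S C) (hr : IsRun C Q k A) (t : M) :
    Dc 𝒪 (GoodB_R C k A t) := by
  have hk : Cp 𝒪 k := Cp.mono (Set.empty_subset _) hr.cpk
  have hA : Cp 𝒪 A := Cp.mono (Set.empty_subset _) hr.cpA
  have e1 : Cp 𝒪 (fun w : M × (M × (M × (M × (M × M)))) => w.1) := Cp.fst Cp.id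
  have e2 : Cp 𝒪 (fun w : M × (M × (M × (M × (M × M)))) => w.2.1) := Cp.fst (Cp.snd Cp.id)
  have e3 : Cp 𝒪 (fun w : M × (M × (M × (M × (M × M)))) => w.2.2.1) :=
    Cp.fst (Cp.snd (Cp.snd Cp.id))
  have e4 : Cp 𝒪 (fun w : M × (M × (M × (M × (M × M)))) => w.2.2.2.1) :=
    Cp.fst (Cp.snd (Cp.snd (Cp.snd Cp.id)))
  have e5 : Cp 𝒪 (fun w : M × (M × (M × (M × (M × M)))) => w.2.2.2.2.1) :=
    Cp.fst (Cp.snd (Cp.snd (Cp.snd (Cp.snd Cp.id))))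
  have e6 : Cp 𝒪 (fun w : M × (M × (M × (M × (M × M)))) => w.2.2.2.2.2) :=
    Cp.snd (Cp.snd (Cp.snd (Cp.snd (Cp.snd Cp.id))))
  refine Dc.and (Dc.le (Cp.const _) e3) (Dc.and (Dc.eq (Cp.comp hk e3) (Cp.const _))
    (Dc.and (Dc.bit (Cp.comp hA e3) e4) (Dc.and (Dc.eq (Cp.md e4 (Cp.const _)) e2) ?_)))
  exact IsFun.dcC hC e1 (Cp.NN e3) e4 e5 e6

theorem exists_good (hS : RCA0 S) (hC : IsFun S C) (hr : IsRun C Q k A) {X : Set M} (hX : X ∈ S)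
    (hnc : ¬ TuringLE X ∅) (t : M) :
    ∃ (G : M → M → Prop) (n₀ u₀ : M),
      -- a bad pair has a small witness
      (∀ e c, e < t + 1 → c < pow2 (NN (t + 1)) → ¬ G e c →
        ∃ u, t + 1 ≤ u ∧ u ≤ u₀ ∧ k u = k t + 1 ∧ ∃ x, Bit (A u) x ∧ md x (pow2 (NN (t + 1))) = c ∧
          ∃ m ≤ n₀, ∃ z, C e (NN u) x m z ∧ z ≠ res X m) ∧
      -- a good pair computes only initial segments of `X`, of bounded length
      (∀ e c u x m z, G e c → e < t + 1 → c < pow2 (NN (t + 1)) → t + 1 ≤ u → k u = k t + 1 →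
        Bit (A u) x → md x (pow2 (NN (t + 1))) = c → C e (NN u) x m z → m ≤ n₀ ∧ z = res X m) := by
  have hIX : IS1 ({X} : Set (Set M)) := hS.is1 (by simpa using hX)
  have e1 : ∀ {𝒪 : Set (Set M)} {δ : Type u} [Enc M δ] {f : δ → M × (M × (M × (M × (M × M))))},
      Cp 𝒪 f → Cp 𝒪 (fun a => (f a).2.2.1) ∧ Cp 𝒪 (fun a => (f a).2.2.2.1) ∧
        Cp 𝒪 (fun a => (f a).2.2.2.2.1) ∧ Cp 𝒪 (fun a => (f a).2.2.2.2.2) ∧
        Cp 𝒪 (fun a => pair (f a).1 (f a).2.1) := by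
    intro 𝒪 δ _ f hf
    exact ⟨Cp.fst (Cp.snd (Cp.snd hf)), Cp.fst (Cp.snd (Cp.snd (Cp.snd hf))),
      Cp.fst (Cp.snd (Cp.snd (Cp.snd (Cp.snd hf)))), Cp.snd (Cp.snd (Cp.snd (Cp.snd (Cp.snd hf)))),
      Cp.pairM (Cp.fst hf) (Cp.fst (Cp.snd hf))⟩
  -- the bad pairs, with bounds
  have hP1 : Sg ({X} : Set (Set M)) (fun p : M × M => ∃ w : M × (M × (M × (M × (M × M)))),
      p.1 = pair w.1 w.2.1 ∧ GoodB_R C k A t w ∧ w.2.2.2.2.2 ≠ res X w.2.2.2.2.1 ∧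
        w.2.2.1 ≤ p.2 ∧ w.2.2.2.2.1 ≤ p.2) := by
    refine Sg.ex (P := fun q : (M × M) × (M × (M × (M × (M × (M × M))))) =>
      q.1.1 = pair q.2.1 q.2.2.1 ∧ GoodB_R C k A t q.2 ∧
        q.2.2.2.2.2.2 ≠ res X q.2.2.2.2.2.1 ∧ q.2.2.2.1 ≤ q.1.2 ∧ q.2.2.2.2.2.1 ≤ q.1.2) ?_
    obtain ⟨h3, h4, h5, h6, h7⟩ := e1 (𝒪 := ({X} : Set (Set M)))
      (f := fun q : (M × M) × (M × (M × (M × (M × (M × M))))) => q.2) (Cp.snd Cp.id)
    have g1 : Cp ({X} : Set (Set M))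
      (fun q : (M × M) × (M × (M × (M × (M × (M × M))))) => q.1.1) := Cp.fst (Cp.fst Cp.id)
    have g2 : Cp ({X} : Set (Set M))
      (fun q : (M × M) × (M × (M × (M × (M × (M × M))))) => q.1.2) := Cp.snd (Cp.fst Cp.id)
    refine Sg.and (Sg.eq g1 h7) (Sg.and ?_ (Sg.and (Sg.ne h6 (Cp.res (by simp) h5))
      (Sg.and (Sg.le h3 g2) (Sg.le h5 g2))))
    exact ((GoodB_dcR hC hr t).comp (Cp.snd Cp.id)).1
  obtain ⟨s₀, hs₀⟩ := strong_bound_sg hP1 (pair (t + 1) (pow2 (NN (t + 1))))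
  -- the code of the good pairs
  have hBad : Sg ({X} : Set (Set M)) (fun i : M => ¬ ¬ ∃ w : M × (M × (M × (M × (M × M)))),
      i = pair w.1 w.2.1 ∧ GoodB_R C k A t w ∧ w.2.2.2.2.2 ≠ res X w.2.2.2.2.1) := by
    have : Sg ({X} : Set (Set M)) (fun i : M => ∃ w : M × (M × (M × (M × (M × M)))),
      i = pair w.1 w.2.1 ∧ GoodB_R C k A t w ∧ w.2.2.2.2.2 ≠ res X w.2.2.2.2.1) := by
      refine Sg.ex (P := fun q : M × (M × (M × (M × (M × (M × M))))) =>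
        q.1 = pair q.2.1 q.2.2.1 ∧ GoodB_R C k A t q.2 ∧
          q.2.2.2.2.2.2 ≠ res X q.2.2.2.2.2.1) ?_
      obtain ⟨h3, h4, h5, h6, h7⟩ := e1 (𝒪 := ({X} : Set (Set M)))
        (f := fun q : M × (M × (M × (M × (M × (M × M))))) => q.2) (Cp.snd Cp.id)
      have g1 : Cp ({X} : Set (Set M))
        (fun q : M × (M × (M × (M × (M × (M × M))))) => q.1) := Cp.fst Cp.id
      refine Sg.and (Sg.eq g1 h7) (Sg.and ?_ (Sg.ne h6 (Cp.res (by simp) h5)))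
      exact ((GoodB_dcR hC hr t).comp (Cp.snd Cp.id)).1
    exact this.congr fun a => not_not
  obtain ⟨g, hg⟩ : ∃ g : M, ∀ i, Bit g i ↔ i < pair (t + 1) (pow2 (NN (t + 1))) ∧
      ¬ ∃ w : M × (M × (M × (M × (M × M)))),
      i = pair w.1 w.2.1 ∧ GoodB_R C k A t w ∧ w.2.2.2.2.2 ≠ res X w.2.2.2.2.1 :=
    ⟨_, fun i => bit_cod_pi hBad (pair (t + 1) (pow2 (NN (t + 1)))) i⟩
  have hgood : ∀ w : M × (M × (M × (M × (M × M)))), Bit g (pair w.1 w.2.1) →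
      GoodB_R C k A t w → w.2.2.2.2.2 = res X w.2.2.2.2.1 := by
    intro w h1 h2
    by_contra h3
    exact ((hg _).1 h1).2 ⟨w, rfl, h2, h3⟩
  -- the good pairs have bounded lengths
  obtain ⟨n₁, hn₁⟩ : ∃ n₁ : M, ∀ w : M × (M × (M × (M × (M × M)))), Bit g (pair w.1 w.2.1) →
      GoodB_R C k A t w → w.2.2.2.2.1 ≤ n₁ := by
    by_contra hcon
    push Not at hcon
    apply hnc
    apply TuringLE.of_dc
    have key : ∀ (D : M × M → Prop), Dc (∅ : Set (Set M)) D →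
        Sg (∅ : Set (Set M)) (fun x : M => ∃ w : M × (M × (M × (M × (M × M)))),
          Bit g (pair w.1 w.2.1) ∧ GoodB_R C k A t w ∧ x < w.2.2.2.2.1 ∧ D (w.2.2.2.2.2, x)) := by
      intro D hD
      refine Sg.ex (P := fun q : M × (M × (M × (M × (M × (M × M))))) =>
        Bit g (pair q.2.1 q.2.2.1) ∧ GoodB_R C k A t q.2 ∧ q.1 < q.2.2.2.2.2.1 ∧
          D (q.2.2.2.2.2.2, q.1)) ?_
      obtain ⟨h3, h4, h5, h6, h7⟩ := e1 (𝒪 := (∅ : Set (Set M)))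
        (f := fun q : M × (M × (M × (M × (M × (M × M))))) => q.2) (Cp.snd Cp.id)
      have g1 : Cp (∅ : Set (Set M))
        (fun q : M × (M × (M × (M × (M × (M × M))))) => q.1) := Cp.fst Cp.id
      refine Sg.and (Dc.bit (Cp.const _) h7).1 (Sg.and ?_ (Sg.and (Sg.lt g1 h5) ?_))
      · exact ((GoodB_dcR hC hr t).comp (Cp.snd Cp.id)).1
      · exact hD.1.comp (Cp.pair h6 g1)
    have hbit : Dc (∅ : Set (Set M)) (fun p : M × M => Bit p.1 p.2) :=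
      Dc.bit (Cp.fst Cp.id) (Cp.snd Cp.id)
    refine ⟨(key _ hbit).congr fun x => ?_, (key _ hbit.not).congr fun x => ?_⟩
    · constructor
      · intro hx
        obtain ⟨w, h1, h2, h3⟩ := hcon x
        refine ⟨w, h1, h2, h3, ?_⟩
        show Bit w.2.2.2.2.2 x
        rw [hgood w h1 h2, bit_res]
        exact ⟨h3, hx⟩
      · rintro ⟨w, h1, h2, h3, h4⟩
        have h4' : Bit w.2.2.2.2.2 x := h4
        rw [hgood w h1 h2, bit_res] at h4'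
        exact h4'.2
    · constructor
      · intro hx
        obtain ⟨w, h1, h2, h3⟩ := hcon x
        refine ⟨w, h1, h2, h3, ?_⟩
        show ¬ Bit w.2.2.2.2.2 x
        rw [hgood w h1 h2, bit_res]
        exact fun h => hx h.2
      · rintro ⟨w, h1, h2, h3, h4⟩ hx
        have h4' : ¬ Bit w.2.2.2.2.2 x := h4
        rw [hgood w h1 h2, bit_res] at h4'
        exact h4' ⟨h3, hx⟩
  refine ⟨fun e c => Bit g (pair e c), max n₁ s₀, s₀, ?_, ?_⟩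
  · intro e c he hc hG
    have h1 : pair e c < pair (t + 1) (pow2 (NN (t + 1))) := pair_lt_pair he hc
    have h2 : ∃ w : M × (M × (M × (M × (M × M)))),
      pair e c = pair w.1 w.2.1 ∧ GoodB_R C k A t w ∧ w.2.2.2.2.2 ≠ res X w.2.2.2.2.1 := by
      by_contra h3
      exact hG ((hg _).2 ⟨h1, h3⟩)
    obtain ⟨w, hw1, hw2, hw3⟩ := h2
    obtain ⟨s, hs, w', h3, h4, h5, h6, h7⟩ := hs₀ _ h1
      ⟨max w.2.2.1 w.2.2.2.2.1, w, hw1, hw2, hw3, le_max_left _ _, le_max_right _ _⟩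
    obtain ⟨h8, h9⟩ := pair_inj h3
    obtain ⟨r1, r2, r3, r4, r5⟩ := h4
    have h6' : w'.2.2.1 ≤ s := h6
    have h7' : w'.2.2.2.2.1 ≤ s := h7
    refine ⟨w'.2.2.1, r1, h6'.trans hs, r2, w'.2.2.2.1, r3, r4.trans h9.symm, w'.2.2.2.2.1,
      (h7'.trans hs).trans (le_max_right _ _), w'.2.2.2.2.2, ?_, h5⟩
    have h8' : e = w'.1 := h8
    rw [h8']
    exact r5
  · intro e c u x m z hG he hc hu hk hx hxc hCx
    have h1 : GoodB_R C k A t (e, (c, (u, (x, (m, z))))) := ⟨hu, hk, hx, hxc, hCx⟩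
    exact ⟨(hn₁ (e, (c, (u, (x, (m, z))))) hG h1).trans (le_max_left _ _),
      hgood (e, (c, (u, (x, (m, z))))) hG h1⟩

end WI
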