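import Pool.Agent.Helper32.WI.DRun
import Pool.Agent.Helper32.WI.Reduc
import Pool.Agent.Helper32.WI.Arith
import Pool.Agent.Helper32.WI.Pow
import Pool.Agent.Helper32.WI.Bits
import Pool.Agent.Helper32.WI.Cod
import Pool.Agent.Helper32.WI.NN
import Pool.Agent.Helper32.WI.RcFacts
import Pool.Agent.Helper32.WI.Restr
import Pool.Agent.Helper32.WI.Inj
import Pool.Agent.Helper32.WI.GoodB

/-! WI-R16: the run for `QB` is finitary (Lemma 5). -/

set_option linter.unusedSectionVars false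
set_option linter.unusedVariables false

universe u

namespace WI

open Enc

variable {M : Type u} [CommSemiring M] [LinearOrder M] [PAM M]
variable {α β γ : Type u} [Enc M α] [Enc M β] [Enc M γ] {𝒪 : Set (Set M)}

variable [IS1 (∅ : Set (Set M))] {S : Set (Set M)} {C : M → M → M → M → M → Prop}
  {Q : M → M → M → M → Prop} {k A : M → M}

/-- `u` is a stage of the level after `t` with a computation of `X` up to `m` from `c`. -/
private def WtX (C : M → M → M → M → M → Prop) (k A : M → M) (X : Set M) (t : M) (e c m u : M) :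
    Prop :=
  t + 1 ≤ u ∧ k u = k t + 1 ∧ ∃ x, x < pow2 (NN u) ∧
    (Bit (A u) x ∧ md x (pow2 (NN (t + 1))) = c ∧ C e (NN u) x m (res X m))

private theorem FryB_dc (hC : IsFun S C) {X : Set M} [IS1 ({X} : Set (Set M))]
    (hk : Cp (∅ : Set (Set M)) k) (hA : Cp (∅ : Set (Set M)) A) (t : M) :
    Dc ({X} : Set (Set M)) (fun p : M × M => ∃ e, e < p.1 + 1 ∧ ∃ c, c < p.1 + 1 ∧ ∃ m, m < p.1 + 1 ∧
      (p.1 = pair e (pair c m) ∧ WtX C k A X t e c m p.2)) := by
  have hk' : Cp ({X} : Set (Set M)) k := hk.mono (Set.empty_subset _)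
  have hA' : Cp ({X} : Set (Set M)) A := hA.mono (Set.empty_subset _)
  have hX : X ∈ ({X} : Set (Set M)) := rfl
  have hC' := hC.dc.mono (Set.empty_subset ({X} : Set (Set M)))
  refine Dc.bex (f := fun p : M × M => p.1 + 1) (P := fun p : (M × M) × M =>
    ∃ c, c < p.1.1 + 1 ∧ ∃ m, m < p.1.1 + 1 ∧
      (p.1.1 = pair p.2 (pair c m) ∧ WtX C k A X t p.2 c m p.1.2))
    (Cp.add (Cp.fst Cp.id) (Cp.const 1)) ?_
  refine Dc.bex (f := fun p : (M × M) × M => p.1.1 + 1) (P := fun p : ((M × M) × M) × M =>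
    ∃ m, m < p.1.1.1 + 1 ∧
      (p.1.1.1 = pair p.1.2 (pair p.2 m) ∧ WtX C k A X t p.1.2 p.2 m p.1.1.2))
    (Cp.add (Cp.fst (Cp.fst Cp.id)) (Cp.const 1)) ?_
  refine Dc.bex (f := fun p : ((M × M) × M) × M => p.1.1.1 + 1)
    (P := fun p : (((M × M) × M) × M) × M =>
      (p.1.1.1.1 = pair p.1.1.2 (pair p.1.2 p.2) ∧ WtX C k A X t p.1.1.2 p.1.2 p.2 p.1.1.1.2))
    (Cp.add (Cp.fst (Cp.fst (Cp.fst Cp.id))) (Cp.const 1)) ?_
  have a0 : Cp ({X} : Set (Set M)) (fun p : (((M × M) × M) × M) × M => p.1.1.1.1) :=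
    Cp.fst (Cp.fst (Cp.fst (Cp.fst Cp.id)))
  have au : Cp ({X} : Set (Set M)) (fun p : (((M × M) × M) × M) × M => p.1.1.1.2) :=
    Cp.snd (Cp.fst (Cp.fst (Cp.fst Cp.id)))
  have ae : Cp ({X} : Set (Set M)) (fun p : (((M × M) × M) × M) × M => p.1.1.2) :=
    Cp.snd (Cp.fst (Cp.fst Cp.id))
  have ac : Cp ({X} : Set (Set M)) (fun p : (((M × M) × M) × M) × M => p.1.2) :=
    Cp.snd (Cp.fst Cp.id)
  have am : Cp ({X} : Set (Set M)) (fun p : (((M × M) × M) × M) × M => p.2) :=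
    Cp.snd Cp.id
  refine Dc.and (Dc.eq a0 (Cp.pairM ae (Cp.pairM ac am))) ?_
  refine Dc.and (Dc.le (Cp.const (t + 1)) au) (Dc.and
    (Dc.eq (hk'.comp au) (Cp.const (k t + 1))) ?_)
  refine Dc.bex (f := fun p : (((M × M) × M) × M) × M => pow2 (NN p.1.1.1.2))
    (P := fun p : ((((M × M) × M) × M) × M) × M => (Bit (A p.1.1.1.1.2) p.2 ∧
      md p.2 (pow2 (NN (t + 1))) = p.1.1.2 ∧
      C p.1.1.1.2 (NN p.1.1.1.1.2) p.2 p.1.2 (res X p.1.2)))
    (Cp.pow2 (Cp.NN au)) ?_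
  have bu : Cp ({X} : Set (Set M)) (fun p : ((((M × M) × M) × M) × M) × M => p.1.1.1.1.2) :=
    au.comp (Cp.fst Cp.id)
  have be : Cp ({X} : Set (Set M)) (fun p : ((((M × M) × M) × M) × M) × M => p.1.1.1.2) :=
    ae.comp (Cp.fst Cp.id)
  have bc : Cp ({X} : Set (Set M)) (fun p : ((((M × M) × M) × M) × M) × M => p.1.1.2) :=
    ac.comp (Cp.fst Cp.id)
  have bm : Cp ({X} : Set (Set M)) (fun p : ((((M × M) × M) × M) × M) × M => p.1.2) :=
    am.comp (Cp.fst Cp.id)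
  have bx : Cp ({X} : Set (Set M)) (fun p : ((((M × M) × M) × M) × M) × M => p.2) :=
    Cp.snd Cp.id
  refine Dc.and (Dc.bit (hA'.comp bu) bx) (Dc.and (Dc.eq (Cp.md bx (Cp.const _)) bc) ?_)
  exact Dc.comp (P := fun p : M × (M × (M × (M × M))) => C p.1 p.2.1 p.2.2.1 p.2.2.2.1 p.2.2.2.2)
    hC' (f := fun p : ((((M × M) × M) × M) × M) × M =>
      (p.1.1.1.2, NN p.1.1.1.1.2, p.2, p.1.2, res X p.1.2))
    (Cp.pair be (Cp.pair (Cp.NN bu) (Cp.pair bx (Cp.pair bm (Cp.res hX bm)))))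

/-- A record `u` of the level of `t₁`, `u ≤ s`: a computation from the element of `A u` below `x`
goes up to `t₁` and to `s + 1`. -/
private theorem FryB_lift (hC : IsFun S C) (hr : IsRun C Q k A) {s t t₁ u e x x' m z : M}
    (ht : Rc k t s) (ht₁ : Rc k t₁ s) (hk₁ : k t₁ = k t + 1) (hus : u ≤ s) (htu : t + 1 ≤ u)
    (hku : k u = k t + 1) (hx : Bit (A (s + 1)) x) (hx' : Bit (A u) x')
    (hc : md x' (pow2 (NN (t + 1))) = md x (pow2 (NN (t + 1)))) (h : C e (NN u) x' m z) :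
    C e (NN t₁) (md x (pow2 (NN t₁))) m z := by
  have htu' : t < u := lt_iff_succ_le.2 htu
  have hrc : Rc k t u := rc_restrict ht htu'.le hus
  have hxu : Bit (A u) (md x (pow2 (NN u))) := A_res hC hr (hus.trans le_self_add) hx
  have e1 : x' = md x (pow2 (NN u)) := by
    refine A_inj hC hr hrc hku hx' hxu ?_
    rw [hc, md_md_pow2 _ (NN_le htu)]
  have hle : u ≤ t₁ := by
    by_contra hlt
    push Not at hlt
    have := ht₁.2 u hlt hus
    rw [hku, hk₁] at this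
    exact lt_irrefl _ this
  refine hC.mono h (NN_le hle) (md_pow2_lt _ _) ?_
  rw [md_md_pow2 _ (NN_le hle), e1]

theorem fry_QB (hS : RCA0 S) (hC : IsFun S C) {X : Set M} (hX : X ∈ S) (hnc : ¬ TuringLE X ∅)
    {l y : M → M} (hT : Tame X l y) (hr : IsRun C (QB C l y) k A) : Fry k := by
  intro t ht
  have hIX : IS1 ({X} : Set (Set M)) := hS.is1 (by
    intro Z hZ
    rw [Set.mem_singleton_iff] at hZ
    rw [hZ]; exact hX)
  obtain ⟨G, n₀, u₀, hbad, hgood⟩ := exists_good hS hC hr hX hnc t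
  obtain ⟨s₁, hs₁⟩ := hT.lim n₀
  obtain ⟨s₂, hs₂⟩ := strong_bound (𝒪 := ({X} : Set (Set M)))
    (FryB_dc hC hr.cpk hr.cpA t) (pair (t + 1) (pair (pow2 (NN (t + 1))) (n₀ + 1)))
  refine ⟨max (max s₁ s₂) (max u₀ (t + 1)) + 1, ?_⟩
  intro s' hs'
  by_contra hlt
  push Not at hlt
  obtain ⟨s, rfl⟩ : ∃ s, s' = s + 1 := by
    rcases eq_zero_or_succ s' with h | h
    · rw [h] at hlt
      exact absurd hlt (not_lt_zero' _)
    · exact h
  have hbig : max (max s₁ s₂) (max u₀ (t + 1)) < s := lt_of_add_lt_add_right hlt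
  have hs1 : s₁ ≤ s := ((le_max_left s₁ s₂).trans (le_max_left _ _)).trans hbig.le
  have hs2 : s₂ ≤ s := ((le_max_right s₁ s₂).trans (le_max_left _ _)).trans hbig.le
  have hu0 : u₀ ≤ s := ((le_max_left u₀ (t + 1)).trans (le_max_right _ _)).trans hbig.le
  have ht1 : t + 1 ≤ s := ((le_max_right u₀ (t + 1)).trans (le_max_right _ _)).trans hbig.le
  have hts : t < s := lt_iff_succ_le.2 ht1
  have hrc : Rc k t s := ht.rc hts.le
  rcases hr.step s with ⟨t₁, hkt, hmove, hq⟩ | ⟨hk, _⟩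
  swap
  · -- creation
    rw [hk] at hs'
    have h1 : k s = k t := add_right_cancel hs'
    have h2 := ht s hts
    rw [h1] at h2
    exact lt_irrefl _ h2
  have hk₁ : k t₁ = k t + 1 := by rw [← hkt, hs']
  have hrc₁ : Rc k t₁ s := hmove.rc
  have htt₁ : t < t₁ := by
    rw [rc_lt_iff hrc hrc₁, hk₁]
    exact lt_succ_iff.2 le_rfl
  obtain ⟨e, he, x, hx, m, hm, hBx, hc, hnc'⟩ := hq t htt₁ hrc hk₁.symm
  set c := md x (pow2 (NN (t + 1))) with hcdef
  have hclt : c < pow2 (NN (t + 1)) := md_pow2_lt _ _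
  obtain ⟨hl, hy⟩ := hs₁ s hs1
  -- agreement of `y s` and `X` below `n₀`
  have hyX : ∀ m' ≤ n₀, md (y s) (pow2 m') = res X m' := by
    intro m' hm'
    rw [← md_md_pow2 (y s) hm', hy, md_res hm']
  have hgoodec : G e c := by
    by_contra hG
    obtain ⟨u, htu, huu, hku, x', hx', hcx', m', hm', z, hz, hzX⟩ := hbad e c he hclt hG
    have hus : u ≤ s := huu.trans hu0
    have h1 : C e (NN t₁) (md x (pow2 (NN t₁))) m' z :=
      FryB_lift hC hr hrc hrc₁ hk₁ hus htu hku hBx hx' hcx' hz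
    have h2 : C e (NN (s + 1)) x m' z :=
      hC.mono h1 (NN_le (hrc₁.1.trans le_self_add)) hx rfl
    rcases le_total m' m with hmm | hmm
    · have h3 := hC.res hc hmm
      have h4 := hC.uniq h2 h3
      rw [md_md_pow2 _ hmm, hyX m' hm'] at h4
      exact hzX h4
    · have h3 := hC.res h2 hmm
      have h4 := hC.uniq h3 hc
      have h5 := hC.res h1 hmm
      rw [h4] at h5
      exact hnc' h5
  obtain ⟨hmn, hmX⟩ := hgood e c (s + 1) x m _ hgoodec he hclt (ht1.trans le_self_add) hs' hBx rfl hc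
  rw [hmX] at hc hnc'
  -- the quadruple is old
  have hq1 : pair e (pair c m) < pair (t + 1) (pair (pow2 (NN (t + 1))) (n₀ + 1)) :=
    pair_lt_pair he (pair_lt_pair hclt (lt_succ_iff.2 hmn))
  have hle1 : e < pair e (pair c m) + 1 := lt_succ_iff.2 (left_le_pair _ _)
  have hle2 : c < pair e (pair c m) + 1 :=
    lt_succ_iff.2 ((left_le_pair c m).trans (right_le_pair _ _))
  have hle3 : m < pair e (pair c m) + 1 :=
    lt_succ_iff.2 ((right_le_pair c m).trans (right_le_pair _ _))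
  obtain ⟨u, hu2, e', -, c', -, m', -, heq, htu, hku, x', -, hx', hcx', hC'⟩ :=
    hs₂ (pair e (pair c m)) hq1 ⟨s + 1, e, hle1, c, hle2, m, hle3, rfl,
      ht1.trans le_self_add, hs', x, hx, hBx, rfl, hc⟩
  obtain ⟨he', heq'⟩ := pair_inj heq
  obtain ⟨hc', hm'⟩ := pair_inj heq'
  have hus : u ≤ s := hu2.trans hs2
  simp only at htu hku hx' hC' hcx'
  rw [← he', ← hm'] at hC'
  exact hnc' (FryB_lift hC hr hrc hrc₁ hk₁ hus htu hku hBx hx' (hcx'.trans hc'.symm) hC')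

end WI
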