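import Pool.Agent.Helper32.WI.FixPt

/-! WI-F2b: every `Σ⁰₁` predicate has an index. -/

set_option linter.unusedSectionVars false
set_option linter.unusedVariables false

universe u

namespace WI

open Enc

variable {M : Type u} [CommSemiring M] [LinearOrder M] [PAM M]
variable {α β γ : Type u} [Enc M α] [Enc M β] [Enc M γ] {𝒪 : Set (Set M)}

/-- codes of finite environments -/
private def Index_env : (n : ℕ) → (Fin n → M) → M
  | 0, _ => 0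
  | n + 1, w => pair (w 0) (Index_env n (Fin.tail w))

private theorem Index_env_cons {n : ℕ} (y : M) (w : Fin n → M) :
    Index_env (n + 1) (Fin.cons y w : Fin (n + 1) → M) = pair y (Index_env n w) := by
  rw [Index_env]
  simp

section

variable [IS1 (∅ : Set (Set M))] {Y : Set M} [IS1 ({Y} : Set (Set M))] {𝒲 : M → M → M → Prop}
  (h𝒲 : IsStage 𝒲)
include h𝒲

private theorem Index_compfork (e₁ e₂ e₃ v a b y : M) (h1 : ∀ y, Wv 𝒲 Y e₁ v y ↔ y = a)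
    (h2 : ∀ y, Wv 𝒲 Y e₂ v y ↔ y = b) :
    Wv 𝒲 Y (pair 10 (pair (pair 11 (pair e₁ e₂)) e₃)) v y ↔ Wv 𝒲 Y e₃ (pair a b) y := by
  rw [wv_comp h𝒲]
  constructor
  · rintro ⟨u, hu, h⟩
    rw [wv_fork h𝒲] at hu
    obtain ⟨y₁, y₂, rfl, h3, h4⟩ := hu
    rw [h1] at h3
    rw [h2] at h4
    rw [h3, h4] at h
    exact h
  · intro h
    refine ⟨pair a b, ?_, h⟩
    rw [wv_fork h𝒲]
    exact ⟨a, b, rfl, (h1 _).2 rfl, (h2 _).2 rfl⟩

private theorem Index_var {n : ℕ} (i : Fin n) :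
    ∃ e : M, ∀ (w : Fin n → M) (y : M), Wv 𝒲 Y e (Index_env n w) y ↔ y = w i := by
  induction n with
  | zero => exact i.elim0
  | succ n ih =>
    refine Fin.cases ?_ (fun j => ?_) i
    · refine ⟨pair 2 0, fun w y => ?_⟩
      rw [Index_env, wv_fst h𝒲]
    · obtain ⟨e, he⟩ := ih j
      refine ⟨pair 10 (pair (pair 3 0) e), fun w y => ?_⟩
      rw [Index_env, wv_comp h𝒲]
      constructor
      · rintro ⟨u, hu, h⟩
        rw [wv_snd h𝒲] at hu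
        rw [hu, he] at h
        exact h
      · intro h
        refine ⟨_, (wv_snd h𝒲 _ _ _).2 rfl, ?_⟩
        rw [he]
        exact h

private theorem Index_tm {n : ℕ} {t : (Fin n → M) → M} (ht : Tm t) :
    ∃ e : M, ∀ (w : Fin n → M) (y : M), Wv 𝒲 Y e (Index_env n w) y ↔ y = t w := by
  induction ht with
  | var i => exact Index_var h𝒲 i
  | const c =>
    refine ⟨pair 0 c, fun w y => ?_⟩
    rw [wv_const h𝒲]
  | add _ _ ih1 ih2 =>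
    obtain ⟨e₁, h1⟩ := ih1
    obtain ⟨e₂, h2⟩ := ih2
    refine ⟨pair 10 (pair (pair 11 (pair e₁ e₂)) (pair 4 0)), fun w y => ?_⟩
    rw [Index_compfork h𝒲 e₁ e₂ (pair 4 0) _ _ _ y (h1 w) (h2 w), wv_add h𝒲]
  | mul _ _ ih1 ih2 =>
    obtain ⟨e₁, h1⟩ := ih1
    obtain ⟨e₂, h2⟩ := ih2
    refine ⟨pair 10 (pair (pair 11 (pair e₁ e₂)) (pair 5 0)), fun w y => ?_⟩
    rw [Index_compfork h𝒲 e₁ e₂ (pair 5 0) _ _ _ y (h1 w) (h2 w), wv_mul h𝒲]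

private theorem Index_and {n : ℕ} {P Q : (Fin n → M) → Prop} {e₁ e₂ : M}
    (h1 : ∀ (w : Fin n → M) (y : M), Wv 𝒲 Y e₁ (Index_env n w) y ↔ y = 0 ∧ P w)
    (h2 : ∀ (w : Fin n → M) (y : M), Wv 𝒲 Y e₂ (Index_env n w) y ↔ y = 0 ∧ Q w) :
    ∀ (w : Fin n → M) (y : M),
      Wv 𝒲 Y (pair 10 (pair (pair 11 (pair e₁ e₂)) (pair 0 0))) (Index_env n w) y ↔
        y = 0 ∧ (P w ∧ Q w) := by
  intro w y
  rw [wv_comp h𝒲]
  constructor
  · rintro ⟨u, hu, h⟩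
    rw [wv_fork h𝒲] at hu
    obtain ⟨y₁, y₂, rfl, h3, h4⟩ := hu
    rw [h1] at h3
    rw [h2] at h4
    rw [wv_const h𝒲] at h
    exact ⟨h, h3.2, h4.2⟩
  · rintro ⟨h, hP, hQ⟩
    refine ⟨pair 0 0, ?_, (wv_const h𝒲 _ _ _).2 h⟩
    rw [wv_fork h𝒲]
    exact ⟨0, 0, rfl, (h1 _ _).2 ⟨rfl, hP⟩, (h2 _ _).2 ⟨rfl, hQ⟩⟩

private theorem Index_bdd {n : ℕ} {P : (Fin n → M) → Prop} (hP : Bdd {Y} P) :
    (∃ e : M, ∀ (w : Fin n → M) (y : M), Wv 𝒲 Y e (Index_env n w) y ↔ y = 0 ∧ P w) ∧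
    (∃ e : M, ∀ (w : Fin n → M) (y : M), Wv 𝒲 Y e (Index_env n w) y ↔ y = 0 ∧ ¬ P w) := by
  induction hP with
  | eq hs ht =>
    obtain ⟨e₁, h1⟩ := Index_tm h𝒲 (Y := Y) hs
    obtain ⟨e₂, h2⟩ := Index_tm h𝒲 (Y := Y) ht
    constructor
    · refine ⟨pair 10 (pair (pair 11 (pair e₁ e₂)) (pair 6 0)), fun w y => ?_⟩
      rw [Index_compfork h𝒲 e₁ e₂ (pair 6 0) _ _ _ y (h1 w) (h2 w), wv_eq h𝒲]
    · refine ⟨pair 12 (pair (pair 10 (pair (pair 11 (pair e₁ e₂)) (pair 7 0)))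
        (pair 10 (pair (pair 11 (pair e₂ e₁)) (pair 7 0)))), fun w y => ?_⟩
      rw [wv_or h𝒲, Index_compfork h𝒲 e₁ e₂ (pair 7 0) _ _ _ y (h1 w) (h2 w), wv_lt h𝒲,
        Index_compfork h𝒲 e₂ e₁ (pair 7 0) _ _ _ y (h2 w) (h1 w), wv_lt h𝒲, ← and_or_left]
      exact and_congr Iff.rfl lt_or_lt_iff_ne
  | lt hs ht =>
    obtain ⟨e₁, h1⟩ := Index_tm h𝒲 (Y := Y) hs
    obtain ⟨e₂, h2⟩ := Index_tm h𝒲 (Y := Y) ht
    constructor
    · refine ⟨pair 10 (pair (pair 11 (pair e₁ e₂)) (pair 7 0)), fun w y => ?_⟩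
      rw [Index_compfork h𝒲 e₁ e₂ (pair 7 0) _ _ _ y (h1 w) (h2 w), wv_lt h𝒲]
    · refine ⟨pair 12 (pair (pair 10 (pair (pair 11 (pair e₂ e₁)) (pair 7 0)))
        (pair 10 (pair (pair 11 (pair e₂ e₁)) (pair 6 0)))), fun w y => ?_⟩
      rw [wv_or h𝒲, Index_compfork h𝒲 e₂ e₁ (pair 7 0) _ _ _ y (h2 w) (h1 w), wv_lt h𝒲,
        Index_compfork h𝒲 e₂ e₁ (pair 6 0) _ _ _ y (h2 w) (h1 w), wv_eq h𝒲, ← and_or_left,
        not_lt, le_iff_lt_or_eq]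
  | mem ht hX =>
    obtain ⟨e₁, h1⟩ := Index_tm h𝒲 (Y := Y) ht
    rw [Set.mem_singleton_iff] at hX
    subst hX
    constructor
    · refine ⟨pair 10 (pair e₁ (pair 8 0)), fun w y => ?_⟩
      rw [wv_comp h𝒲]
      constructor
      · rintro ⟨u, hu, h⟩
        rw [h1] at hu
        rw [wv_mem h𝒲, hu] at h
        exact h
      · intro h
        exact ⟨_, (h1 _ _).2 rfl, (wv_mem h𝒲 _ _).2 h⟩
    · refine ⟨pair 10 (pair e₁ (pair 9 0)), fun w y => ?_⟩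
      rw [wv_comp h𝒲]
      constructor
      · rintro ⟨u, hu, h⟩
        rw [h1] at hu
        rw [wv_nmem h𝒲, hu] at h
        exact h
      · intro h
        exact ⟨_, (h1 _ _).2 rfl, (wv_nmem h𝒲 _ _).2 h⟩
  | not _ ih =>
    obtain ⟨⟨e₁, h1⟩, ⟨e₂, h2⟩⟩ := ih
    exact ⟨⟨e₂, h2⟩, ⟨e₁, fun w y => by rw [h1, not_not]⟩⟩
  | and _ _ ih1 ih2 =>
    obtain ⟨⟨e₁, h1⟩, ⟨e₁', h1'⟩⟩ := ih1
    obtain ⟨⟨e₂, h2⟩, ⟨e₂', h2'⟩⟩ := ih2
    refine ⟨⟨_, Index_and h𝒲 h1 h2⟩, ⟨pair 12 (pair e₁' e₂'), fun w y => ?_⟩⟩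
    rw [wv_or h𝒲, h1', h2', ← and_or_left, not_and_or]
  | @ball n t ht P _ ih =>
    obtain ⟨⟨e₁, h1⟩, ⟨e₂, h2⟩⟩ := ih
    obtain ⟨e₃, h3⟩ := Index_tm h𝒲 (Y := Y) ht
    constructor
    · refine ⟨pair 10 (pair (pair 11 (pair e₃ (pair 1 0))) (pair 13 e₁)), fun w y => ?_⟩
      rw [Index_compfork h𝒲 e₃ (pair 1 0) (pair 13 e₁) _ _ _ y (h3 w)
        (fun y => wv_id h𝒲 (Index_env n w) y), wv_ball h𝒲]
      refine and_congr Iff.rfl (forall_congr' fun i => imp_congr Iff.rfl ?_)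
      rw [← Index_env_cons, h1]
      simp
    · -- index of `y < t v` in the larger environment
      have h4 : ∀ (w : Fin (n + 1) → M) (y : M),
          Wv 𝒲 Y (pair 10 (pair (pair 11 (pair (pair 2 0) (pair 10 (pair (pair 3 0) e₃))))
            (pair 7 0))) (Index_env (n + 1) w) y ↔ y = 0 ∧ w 0 < t (Fin.tail w) := by
        intro w y
        have h5 : ∀ y, Wv 𝒲 Y (pair 2 0) (Index_env (n + 1) w) y ↔ y = w 0 := by
          intro y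
          rw [Index_env, wv_fst h𝒲]
        have h6 : ∀ y, Wv 𝒲 Y (pair 10 (pair (pair 3 0) e₃)) (Index_env (n + 1) w) y ↔
            y = t (Fin.tail w) := by
          intro y
          rw [Index_env, wv_comp h𝒲]
          constructor
          · rintro ⟨u, hu, h⟩
            rw [wv_snd h𝒲] at hu
            rw [hu, h3] at h
            exact h
          · intro h
            refine ⟨_, (wv_snd h𝒲 _ _ _).2 rfl, ?_⟩
            rw [h3]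
            exact h
        rw [Index_compfork h𝒲 _ _ (pair 7 0) _ _ _ y h5 h6, wv_lt h𝒲]
      obtain ⟨e₄, h7⟩ : ∃ e₄ : M, ∀ (w : Fin (n + 1) → M) (y : M),
          Wv 𝒲 Y e₄ (Index_env (n + 1) w) y ↔ y = 0 ∧ (w 0 < t (Fin.tail w) ∧ ¬ P w) :=
        ⟨_, Index_and h𝒲 (P := fun w : Fin (n + 1) → M => w 0 < t (Fin.tail w)) h4 h2⟩
      refine ⟨pair 14 e₄, fun w y => (wv_ex h𝒲 _ (Index_env n w) y).trans ?_⟩
      refine and_congr Iff.rfl ?_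
      rw [not_forall]
      refine exists_congr fun i => ?_
      rw [← Index_env_cons, h7]
      simp

end

theorem exists_index [IS1 (∅ : Set (Set M))] {Y : Set M} [IS1 ({Y} : Set (Set M))]
    {𝒲 : M → M → M → Prop} (h𝒲 : IsStage 𝒲) {P : (Fin 2 → M) → Prop} (hP : Bdd {Y} P) :
    ∃ e, ∀ v, Wv 𝒲 Y e v 0 ↔ ∃ y, P ![y, v] := by
  obtain ⟨⟨e, he⟩, _⟩ := Index_bdd h𝒲 hP
  refine ⟨pair 10 (pair (pair 11 (pair (pair 1 0) (pair 0 0))) (pair 14 e)), fun v => ?_⟩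
  rw [Index_compfork h𝒲 (pair 1 0) (pair 0 0) (pair 14 e) v v 0 0 (fun y => wv_id h𝒲 v y)
    (fun y => wv_const h𝒲 0 v y), wv_ex h𝒲]
  have h1 : ∀ i : M, pair i (pair v 0) = Index_env 2 ![i, v] := by
    intro i
    simp [Index_env, Fin.tail]
  simp only [h1, he, true_and]

end WI
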