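import Pool.Agent.Helper32.WI.DFun
import Pool.Agent.Helper32.WI.Arith
import Pool.Agent.Helper32.WI.Reduc
import Pool.Agent.Helper32.WI.Rec
import Pool.Agent.Helper32.WI.Pow
import Pool.Agent.Helper32.WI.Bits
import Pool.Agent.Helper32.WI.Cod

/-! WI-F1: the stages of the universal inductive definition. -/

set_option linter.unusedSectionVars false
set_option linter.unusedVariables false

universe u

namespace WI

open Enc

variable {M : Type u} [CommSemiring M] [LinearOrder M] [PAM M]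
variable {α β γ : Type u} [Enc M α] [Enc M β] [Enc M γ] {𝒪 : Set (Set M)}

theorem Stage_bex [IS1 𝒪] {f : α → M} (hf : Cp 𝒪 f) {P : α → M → Prop}
    (hP : Dc 𝒪 (fun p : α × M => P p.1 p.2)) : Dc 𝒪 (fun a => ∃ y, y < f a ∧ P a y) :=
  Dc.bex (P := fun p : α × M => P p.1 p.2) hf hP

theorem Stage_ball [IS1 𝒪] {f : α → M} (hf : Cp 𝒪 f) {P : α → M → Prop}
    (hP : Dc 𝒪 (fun p : α × M => P p.1 p.2)) : Dc 𝒪 (fun a => ∀ y, y < f a → P a y) :=
  Dc.ball (P := fun p : α × M => P p.1 p.2) hf hP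

theorem Stage_pair {f g : α → M} (hf : Cp 𝒪 f) (hg : Cp 𝒪 g) :
    Cp 𝒪 (fun a => WI.pair (f a) (g a)) :=
  Cp.add (Cp.mul (Cp.add hf hg) (Cp.add hf hg)) hf

theorem Stage_bit [IS1 (∅ : Set (Set M))] {f g : α → M} (hf : Cp 𝒪 f) (hg : Cp 𝒪 g) :
    Dc 𝒪 (fun a => Bit (f a) (g a)) := Dc.bit hf hg

theorem Stage_dc_base [IS1 (∅ : Set (Set M))] [IS1 𝒪] :
    Dc 𝒪 (fun p : M × (M × (M × (M × M))) =>
      Base p.1 p.2.1 p.2.2.1 p.2.2.2.1 p.2.2.2.2) := by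
  unfold Base
  repeat' first
    | exact Cp.id
    | exact Cp.const _
    | apply Cp.fst
    | apply Cp.snd
    | apply Cp.add
    | apply Cp.mul
    | apply Stage_pair
    | apply Dc.or
    | apply Dc.and
    | apply Stage_bex
    | apply Stage_ball
    | apply Stage_bit
    | apply Dc.eq
    | apply Dc.lt
    | apply Dc.not

theorem Stage_base [IS1 (∅ : Set (Set M))] [IS1 𝒪] {n x c v y : α → M} (hn : Cp 𝒪 n)
    (hx : Cp 𝒪 x) (hc : Cp 𝒪 c) (hv : Cp 𝒪 v) (hy : Cp 𝒪 y) :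
    Dc 𝒪 (fun a => Base (n a) (x a) (c a) (v a) (y a)) :=
  Dc.comp (Stage_dc_base (𝒪 := 𝒪)) (hn.pair (hx.pair (hc.pair (hv.pair hy))))

theorem Stage_dc_just [IS1 (∅ : Set (Set M))] [IS1 𝒪] :
    Dc 𝒪 (fun p : M × (M × (M × M)) =>
      Just p.1 p.2.1 (fun z' => Bit p.2.2.1 z') p.2.2.2) := by
  unfold Just
  repeat' first
    | exact Cp.id
    | exact Cp.const _
    | apply Cp.fst
    | apply Cp.snd
    | apply Cp.add
    | apply Cp.mul
    | apply Stage_pair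
    | apply Dc.or
    | apply Dc.and
    | apply Stage_bex
    | apply Stage_ball
    | apply Stage_bit
    | apply Dc.eq
    | apply Dc.lt
    | apply Dc.not

theorem Stage_just [IS1 (∅ : Set (Set M))] [IS1 𝒪] {n x w z : α → M} (hn : Cp 𝒪 n)
    (hx : Cp 𝒪 x) (hw : Cp 𝒪 w) (hz : Cp 𝒪 z) :
    Dc 𝒪 (fun a => Just (n a) (x a) (fun z' => Bit (w a) z') (z a)) :=
  Dc.comp (Stage_dc_just (𝒪 := 𝒪)) (hn.pair (hx.pair (hw.pair hz)))

theorem Base.mono {n x n' x' c v y : M} (h : Base n x c v y) (hn : n ≤ n')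
    (hx : ∀ i < n, Bit x i ↔ Bit x' i) : Base n' x' c v y := by
  rcases h with h | h | h | h | h | h | h | h | ⟨a, h1, h2, h3, h4, h5⟩ | ⟨a, h1, h2, h3, h4, h5⟩
  · exact Or.inl h
  · exact Or.inr (Or.inl h)
  · exact Or.inr (Or.inr (Or.inl h))
  · exact Or.inr (Or.inr (Or.inr (Or.inl h)))
  · exact Or.inr (Or.inr (Or.inr (Or.inr (Or.inl h))))
  · exact Or.inr (Or.inr (Or.inr (Or.inr (Or.inr (Or.inl h)))))
  · exact Or.inr (Or.inr (Or.inr (Or.inr (Or.inr (Or.inr (Or.inl h))))))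
  · exact Or.inr (Or.inr (Or.inr (Or.inr (Or.inr (Or.inr (Or.inr (Or.inl h)))))))
  · exact Or.inr (Or.inr (Or.inr (Or.inr (Or.inr (Or.inr (Or.inr (Or.inr (Or.inl
      ⟨a, h1, h2, h3, h4.trans_le hn, (hx v h4).1 h5⟩))))))))
  · exact Or.inr (Or.inr (Or.inr (Or.inr (Or.inr (Or.inr (Or.inr (Or.inr (Or.inr
      ⟨a, h1, h2, h3, h4.trans_le hn, fun h => h5 ((hx v h4).2 h)⟩))))))))

theorem Just.mono {n x n' x' z : M} {W W' : M → Prop} (h : Just n x W z) (hn : n ≤ n')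
    (hx : ∀ i < n, Bit x i ↔ Bit x' i) (hW : ∀ z, W z → W' z) : Just n' x' W' z := by
  obtain ⟨e, he, v, hv, y, hy, rfl, h⟩ := h
  refine ⟨e, he, v, hv, y, hy, rfl, ?_⟩
  rcases h with h | ⟨e₁, h1, e₂, h2, h3, u, h4, h5, h6⟩ |
    ⟨e₁, h1, e₂, h2, h3, y₁, h4, y₂, h5, h6, h7, h8⟩ | ⟨e₁, h1, e₂, h2, h3, h4⟩ |
    ⟨e₁, h1, h2, h3, b, h4, v', h5, h6, h7⟩ | ⟨e₁, h1, h2, h3, i, h4, h5⟩
  · exact Or.inl (h.mono hn hx)
  · exact Or.inr (Or.inl ⟨e₁, h1, e₂, h2, h3, u, h4.trans_le hn, hW _ h5, hW _ h6⟩)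
  · exact Or.inr (Or.inr (Or.inl ⟨e₁, h1, e₂, h2, h3, y₁, h4, y₂, h5, h6, hW _ h7, hW _ h8⟩))
  · exact Or.inr (Or.inr (Or.inr (Or.inl ⟨e₁, h1, e₂, h2, h3, h4.imp (hW _) (hW _)⟩)))
  · exact Or.inr (Or.inr (Or.inr (Or.inr (Or.inl ⟨e₁, h1, h2, h3, b, h4, v', h5, h6,
      fun i hi => hW _ (h7 i hi)⟩))))
  · exact Or.inr (Or.inr (Or.inr (Or.inr (Or.inr ⟨e₁, h1, h2, h3, i, h4.trans_le hn,
      hW _ h5⟩))))

/-- `Just` needs only finitely many premises. -/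
theorem Just.cont [IS1 𝒪] {n x z : M} {W : M → M → Prop}
    (hW : Sg 𝒪 (fun p : M × M => W p.2 p.1)) (hm : ∀ s s' z, W s z → s ≤ s' → W s' z)
    (h : Just n x (fun z' => ∃ s, W s z') z) : ∃ s, Just n x (W s) z := by
  obtain ⟨e, he, v, hv, y, hy, rfl, h⟩ := h
  rcases h with h | ⟨e₁, h1, e₂, h2, h3, u, h4, ⟨s, h5⟩, ⟨s', h6⟩⟩ |
    ⟨e₁, h1, e₂, h2, h3, y₁, h4, y₂, h5, h6, ⟨s, h7⟩, ⟨s', h8⟩⟩ | ⟨e₁, h1, e₂, h2, h3, h4⟩ |
    ⟨e₁, h1, h2, h3, b, h4, v', h5, h6, h7⟩ | ⟨e₁, h1, h2, h3, i, h4, ⟨s, h5⟩⟩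
  · exact ⟨0, e, he, v, hv, y, hy, rfl, Or.inl h⟩
  · exact ⟨max s s', e, he, v, hv, y, hy, rfl, Or.inr (Or.inl ⟨e₁, h1, e₂, h2, h3, u, h4,
      hm _ _ _ h5 (le_max_left _ _), hm _ _ _ h6 (le_max_right _ _)⟩)⟩
  · exact ⟨max s s', e, he, v, hv, y, hy, rfl, Or.inr (Or.inr (Or.inl ⟨e₁, h1, e₂, h2, h3, y₁, h4,
      y₂, h5, h6, hm _ _ _ h7 (le_max_left _ _), hm _ _ _ h8 (le_max_right _ _)⟩))⟩
  · rcases h4 with ⟨s, h4⟩ | ⟨s, h4⟩
    · exact ⟨s, e, he, v, hv, y, hy, rfl, Or.inr (Or.inr (Or.inr (Or.inl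
        ⟨e₁, h1, e₂, h2, h3, Or.inl h4⟩)))⟩
    · exact ⟨s, e, he, v, hv, y, hy, rfl, Or.inr (Or.inr (Or.inr (Or.inl
        ⟨e₁, h1, e₂, h2, h3, Or.inr h4⟩)))⟩
  · have h8 : Sg 𝒪 (fun p : M × M => W p.2 (WI.pair e₁ (WI.pair (WI.pair p.1 v') 0))) :=
      Sg.comp hW (f := fun p : M × M => (WI.pair e₁ (WI.pair (WI.pair p.1 v') 0), p.2))
        ((Stage_pair (Cp.const _) (Stage_pair (Stage_pair (Cp.fst Cp.id) (Cp.const _))
          (Cp.const _))).pair (Cp.snd Cp.id))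
    obtain ⟨w, hw⟩ := coll_sg h8 b h7
    refine ⟨w, e, he, v, hv, y, hy, rfl, Or.inr (Or.inr (Or.inr (Or.inr (Or.inl
      ⟨e₁, h1, h2, h3, b, h4, v', h5, h6, fun i hi => ?_⟩))))⟩
    obtain ⟨s, hs, hs'⟩ := hw i hi
    exact hm _ _ _ hs' hs.le
  · exact ⟨s, e, he, v, hv, y, hy, rfl, Or.inr (Or.inr (Or.inr (Or.inr (Or.inr
      ⟨e₁, h1, h2, h3, i, h4, h5⟩))))⟩

theorem exists_stage [IS1 (∅ : Set (Set M))] : ∃ 𝒲 : M → M → M → Prop, IsStage 𝒲 := by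
  have hg : Cp (∅ : Set (Set M)) (fun q : (M × M) × (M × M) =>
      cod (fun z => Bit q.2.2 z ∨ Just q.1.1 q.1.2 (fun z' => Bit q.2.2 z') z) q.1.1) := by
    refine Cp.cod (P := fun p : ((M × M) × (M × M)) × M =>
      Bit p.1.2.2 p.2 ∨ Just p.1.1.1 p.1.1.2 (fun z' => Bit p.1.2.2 z') p.2) ?_
      (Cp.fst (Cp.fst Cp.id))
    exact Dc.or (Stage_bit (Cp.snd (Cp.snd (Cp.fst Cp.id))) (Cp.snd Cp.id))
      (Stage_just (Cp.fst (Cp.fst (Cp.fst Cp.id))) (Cp.snd (Cp.fst (Cp.fst Cp.id)))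
        (Cp.snd (Cp.snd (Cp.fst Cp.id))) (Cp.snd Cp.id))
  obtain ⟨f, hf, h0, hs⟩ := exists_rec (𝒪 := (∅ : Set (Set M))) (a := fun _ : M × M => (0 : M))
    (Cp.const 0) hg
  have hbit : ∀ n x j z, Bit (f ((n, x), j + 1)) z ↔
      z < n ∧ (Bit (f ((n, x), j)) z ∨ Just n x (fun z' => Bit (f ((n, x), j)) z') z) := by
    intro n x j z
    rw [hs]
    exact bit_cod (𝒪 := (∅ : Set (Set M))) (Dc.or (Stage_bit (Cp.const _) Cp.id)
      (Stage_just (Cp.const _) (Cp.const _) (Cp.const _) Cp.id)).1 _ _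
  have hz0 : ∀ n x z, ¬ Bit (f ((n, x), 0)) z := by
    intro n x z
    rw [h0]
    exact not_bit_zero z
  have hlt : ∀ n x j z, Bit (f ((n, x), j)) z → z < n := by
    intro n x j z h
    rcases eq_zero_or_succ j with rfl | ⟨j', rfl⟩
    · exact absurd h (hz0 n x z)
    · exact ((hbit n x j' z).1 h).1
  -- monotonicity in `j`
  have hj1 : ∀ n x j z, Bit (f ((n, x), j)) z → Bit (f ((n, x), j + 1)) z := fun n x j z h =>
    (hbit n x j z).2 ⟨hlt n x j z h, Or.inl h⟩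
  have hj : ∀ n x j z, Bit (f ((n, x), j)) z → ∀ i, Bit (f ((n, x), j + i)) z := by
    intro n x j z h
    refine ind_dc (𝒪 := (∅ : Set (Set M))) (P := fun i => Bit (f ((n, x), j + i)) z) ?_ ?_ ?_
    · exact Stage_bit (hf.comp ((Cp.const _).pair (Cp.add (Cp.const _) Cp.id))) (Cp.const _)
    · rwa [add_zero]
    · intro i hi
      rw [← add_assoc]
      exact hj1 _ _ _ _ hi
  have hjl : ∀ n x j j' z, Bit (f ((n, x), j)) z → j ≤ j' → Bit (f ((n, x), j')) z := by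
    intro n x j j' z h hjj
    obtain ⟨i, rfl⟩ := exists_add_of_le hjj
    exact hj n x j z h i
  -- monotonicity in `n`, `x`
  have hnx : ∀ n x n' x', n ≤ n' → (∀ i < n, Bit x i ↔ Bit x' i) → ∀ j, ∀ z < n,
      Bit (f ((n, x), j)) z → Bit (f ((n', x'), j)) z := by
    intro n x n' x' hn hx
    refine ind_dc (𝒪 := (∅ : Set (Set M))) (P := fun j => ∀ z < n,
      Bit (f ((n, x), j)) z → Bit (f ((n', x'), j)) z) ?_ ?_ ?_
    · refine Stage_ball (Cp.const _) (P := fun j z => Bit (f ((n, x), j)) z →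
        Bit (f ((n', x'), j)) z) ?_
      exact Dc.imp (Stage_bit (hf.comp ((Cp.const _).pair (Cp.fst Cp.id))) (Cp.snd Cp.id))
        (Stage_bit (hf.comp ((Cp.const _).pair (Cp.fst Cp.id))) (Cp.snd Cp.id))
    · intro z _ h
      exact absurd h (hz0 n x z)
    · intro j ih z hz h
      obtain ⟨h1, h2⟩ := (hbit _ _ _ _).1 h
      refine (hbit _ _ _ _).2 ⟨hz.trans_le hn, ?_⟩
      rcases h2 with h2 | h2
      · exact Or.inl (ih z hz h2)
      · exact Or.inr (h2.mono hn hx fun z' h' => ih z' (hlt _ _ _ _ h') h')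
  have hmd : ∀ (x n i : M), i < n → (Bit x i ↔ Bit (md x (pow2 n)) i) := by
    intro x n i hi
    rw [bit_md]
    exact ⟨fun h => ⟨h, hi⟩, fun h => h.1⟩
  have hdc : Dc (∅ : Set (Set M)) (fun p : M × (M × M) =>
      Bit (f ((p.1, md p.2.1 (pow2 p.1)), p.1)) p.2.2) :=
    Stage_bit (hf.comp (((Cp.fst Cp.id).pair (Cp.md (Cp.fst (Cp.snd Cp.id))
      (Cp.pow2 (Cp.fst Cp.id)))).pair (Cp.fst Cp.id))) (Cp.snd (Cp.snd Cp.id))
  have hmono : ∀ {n x n' x' z : M}, Bit (f ((n, md x (pow2 n)), n)) z → n ≤ n' →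
      md x' (pow2 n) = md x (pow2 n) → Bit (f ((n', md x' (pow2 n')), n')) z := by
    intro n x n' x' z h hn hx
    refine hjl _ _ _ _ _ (hnx n (md x (pow2 n)) n' (md x' (pow2 n')) hn ?_ n z (hlt _ _ _ _ h) h) hn
    intro i hi
    rw [← hx, ← hmd x' n i hi, ← hmd x' n' i (hi.trans_le hn)]
  refine ⟨fun n x z => Bit (f ((n, md x (pow2 n)), n)) z, hdc, hmono, ?_, ?_⟩
  · -- soundness
    intro n x z h
    have key : ∀ j, ∀ z < n, Bit (f ((n, md x (pow2 n)), j)) z →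
        Just n (md x (pow2 n)) (fun z' => Bit (f ((n, md x (pow2 n)), j)) z') z := by
      refine ind_dc (𝒪 := (∅ : Set (Set M))) (P := fun j => ∀ z < n,
        Bit (f ((n, md x (pow2 n)), j)) z →
        Just n (md x (pow2 n)) (fun z' => Bit (f ((n, md x (pow2 n)), j)) z') z) ?_ ?_ ?_
      · refine Stage_ball (Cp.const _) (P := fun j z => Bit (f ((n, md x (pow2 n)), j)) z →
          Just n (md x (pow2 n)) (fun z' => Bit (f ((n, md x (pow2 n)), j)) z') z) ?_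
        exact Dc.imp (Stage_bit (hf.comp ((Cp.const _).pair (Cp.fst Cp.id))) (Cp.snd Cp.id))
          (Stage_just (Cp.const _) (Cp.const _) (hf.comp ((Cp.const _).pair (Cp.fst Cp.id)))
            (Cp.snd Cp.id))
      · intro z _ h
        exact absurd h (hz0 _ _ z)
      · intro j ih z hz h
        obtain ⟨h1, h2⟩ := (hbit _ _ _ _).1 h
        rcases h2 with h2 | h2
        · exact (ih z hz h2).mono le_rfl (fun _ _ => Iff.rfl) fun z' h' => hj1 _ _ _ _ h'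
        · exact h2.mono le_rfl (fun _ _ => Iff.rfl) fun z' h' => hj1 _ _ _ _ h'
    exact (key n z (hlt _ _ _ _ h) h).mono le_rfl (fun i hi => (hmd x n i hi).symm)
      fun z' h' => h'
  · -- completeness
    intro Y hY n z h
    have := hY
    have hcpres : Cp ({Y} : Set (Set M)) (fun p : M × M => res Y p.2) :=
      Cp.res (Set.mem_singleton Y) (Cp.snd Cp.id)
    have hS : Sg ({Y} : Set (Set M)) (fun p : M × M =>
        Bit (f ((p.2, md (res Y p.2) (pow2 p.2)), p.2)) p.1) :=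
      (Dc.comp (Dc.mono (Set.empty_subset _) hdc) (f := fun p : M × M => (p.2, (res Y p.2, p.1)))
        ((Cp.snd Cp.id).pair (hcpres.pair (Cp.fst Cp.id)))).1
    have hm' : ∀ s s' z, Bit (f ((s, md (res Y s) (pow2 s)), s)) z → s ≤ s' →
        Bit (f ((s', md (res Y s') (pow2 s')), s')) z := by
      intro s s' z h1 h2
      refine hmono h1 h2 ?_
      rw [md_res h2, md_res le_rfl]
    obtain ⟨s, hs'⟩ := Just.cont hS hm' h
    -- go to a later stage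
    let N : M := max (max n s) z + 1
    have hnN : n ≤ N := ((le_max_left n s).trans (le_max_left _ z)).trans le_self_add
    have hsN : s ≤ max (max n s) z := (le_max_right n s).trans (le_max_left _ z)
    refine ⟨N, ?_⟩
    have hx : ∀ m, m ≤ N → ∀ i < m, Bit (res Y m) i ↔ Bit (md (res Y N) (pow2 N)) i := by
      intro m hm i hi
      rw [← hmd _ _ _ (hi.trans_le hm), bit_res, bit_res]
      exact ⟨fun h => ⟨hi.trans_le hm, h.2⟩, fun h => ⟨hi, h.2⟩⟩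
    have hN : Bit (f ((N, md (res Y N) (pow2 N)), max (max n s) z + 1)) z := by
      refine (hbit _ _ _ _).2 ⟨lt_succ_iff.2 (le_max_right _ _), Or.inr ?_⟩
      refine hs'.mono hnN (hx n hnN) fun z' h' => ?_
      refine hjl _ _ _ _ _ (hnx s (md (res Y s) (pow2 s)) N _ (hsN.trans le_self_add) ?_ s z'
        (hlt _ _ _ _ h') h') hsN
      intro i hi
      rw [← hmd _ _ _ hi]
      exact hx s (hsN.trans le_self_add) i hi
    exact hN

end WI
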