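import Pool.Agent.Helper32.WI.Arith
import Pool.Agent.Helper32.WI.Reduc
import Pool.Agent.Helper32.WI.Pow
import Pool.Agent.Helper32.WI.Bits
import Pool.Agent.Helper32.WI.Cod
import Pool.Agent.Helper32.WI.Stage
import Pool.Agent.Helper32.WI.Index

/-! WI-F3: the universal functional. -/

set_option linter.unusedSectionVars false
set_option linter.unusedVariables false

universe u

namespace WI

open Enc

variable {M : Type u} [CommSemiring M] [LinearOrder M] [PAM M]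
variable {α β γ : Type u} [Enc M α] [Enc M β] [Enc M γ] {𝒪 : Set (Set M)}

theorem Func_bex [IS1 𝒪] {f : α → M} (hf : Cp 𝒪 f) {P : α → M → Prop}
    (hP : Dc 𝒪 (fun p : α × M => P p.1 p.2)) : Dc 𝒪 (fun a => ∃ y, y < f a ∧ P a y) :=
  Dc.bex (P := fun p : α × M => P p.1 p.2) hf hP

theorem Func_ball [IS1 𝒪] {f : α → M} (hf : Cp 𝒪 f) {P : α → M → Prop}
    (hP : Dc 𝒪 (fun p : α × M => P p.1 p.2)) : Dc 𝒪 (fun a => ∀ y, y < f a → P a y) :=
  Dc.ball (P := fun p : α × M => P p.1 p.2) hf hP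

theorem Func_pair {f g : α → M} (hf : Cp 𝒪 f) (hg : Cp 𝒪 g) :
    Cp 𝒪 (fun a => WI.pair (f a) (g a)) :=
  Cp.add (Cp.mul (Cp.add hf hg) (Cp.add hf hg)) hf

/-- One of the two computations halts by stage `n`. -/
def Func_H (𝒲 : M → M → M → Prop) (x p q n i : M) : Prop :=
  𝒲 n (md x (pow2 n)) (WI.pair p (WI.pair i 0)) ∨ 𝒲 n (md x (pow2 n)) (WI.pair q (WI.pair i 0))

/-- The functional. -/
def Func_C (𝒲 : M → M → M → Prop) (e n x m y : M) : Prop :=
  x < pow2 n ∧ m ≤ n ∧ y < pow2 m ∧ ∀ i < m, ∃ p < e + 1, ∃ q < e + 1, e = WI.pair p q ∧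
    ∃ k < n + 1, Func_H 𝒲 x p q k i ∧ (∀ j < k, ¬ Func_H 𝒲 x p q j i) ∧
      (Bit y i ↔ 𝒲 k (md x (pow2 k)) (WI.pair p (WI.pair i 0)))

section

variable [IS1 (∅ : Set (Set M))] {𝒲 : M → M → M → Prop} (h𝒲 : IsStage 𝒲)
include h𝒲

theorem Func_W [IS1 𝒪] {n x z : α → M} (hn : Cp 𝒪 n) (hx : Cp 𝒪 x) (hz : Cp 𝒪 z) :
    Dc 𝒪 (fun a => 𝒲 (n a) (x a) (z a)) :=
  Dc.comp (Dc.mono (Set.empty_subset 𝒪) h𝒲.dc) (hn.pair (hx.pair hz))

theorem Func_dcH [IS1 𝒪] {x p q n i : α → M} (hx : Cp 𝒪 x) (hp : Cp 𝒪 p) (hq : Cp 𝒪 q)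
    (hn : Cp 𝒪 n) (hi : Cp 𝒪 i) : Dc 𝒪 (fun a => Func_H 𝒲 (x a) (p a) (q a) (n a) (i a)) :=
  Dc.or (Func_W h𝒲 hn (Cp.md hx (Cp.pow2 hn)) (Func_pair hp (Func_pair hi (Cp.const 0))))
    (Func_W h𝒲 hn (Cp.md hx (Cp.pow2 hn)) (Func_pair hq (Func_pair hi (Cp.const 0))))

theorem Func_dc [IS1 𝒪] : Dc 𝒪 (fun p : M × (M × (M × (M × M))) =>
    Func_C 𝒲 p.1 p.2.1 p.2.2.1 p.2.2.2.1 p.2.2.2.2) := by
  unfold Func_C
  repeat' first
    | exact Cp.id
    | exact Cp.const _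
    | apply Cp.fst
    | apply Cp.snd
    | apply Cp.add
    | apply Cp.mul
    | apply Cp.pow2
    | apply Cp.md
    | apply Func_pair
    | apply Dc.and
    | apply Func_bex
    | apply Func_ball
    | apply Dc.bit
    | apply Func_W h𝒲
    | apply Func_dcH h𝒲
    | apply Dc.iff
    | apply Dc.eq
    | apply Dc.lt
    | apply Dc.le
    | apply Dc.not

theorem Func_uniq {e n x m y y' : M} (h : Func_C 𝒲 e n x m y) (h' : Func_C 𝒲 e n x m y') :
    y = y' := by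
  obtain ⟨-, -, hy, h⟩ := h
  obtain ⟨-, -, hy', h'⟩ := h'
  refine bit_ext fun i => ?_
  by_cases hi : i < m
  · obtain ⟨p, -, q, -, he, k, -, h1, h2, h3⟩ := h i hi
    obtain ⟨p', -, q', -, he', k', -, h1', h2', h3'⟩ := h' i hi
    obtain ⟨rfl, rfl⟩ := pair_inj (he.symm.trans he')
    have hk : k = k' := by
      rcases lt_trichotomy k k' with hk | hk | hk
      · exact absurd h1 (h2' k hk)
      · exact hk
      · exact absurd h1' (h2 k' hk)
    subst hk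
    exact h3.trans h3'.symm
  · constructor
    · intro hb
      exact absurd (lt_of_bit_of_lt hy hb) hi
    · intro hb
      exact absurd (lt_of_bit_of_lt hy' hb) hi

theorem Func_mono {e n x m y n' x' : M} (h : Func_C 𝒲 e n x m y) (hn : n ≤ n')
    (hx' : x' < pow2 n') (hx : md x' (pow2 n) = x) : Func_C 𝒲 e n' x' m y := by
  obtain ⟨-, hm, hy, h⟩ := h
  refine ⟨hx', hm.trans hn, hy, fun i hi => ?_⟩
  obtain ⟨p, hp, q, hq, he, k, hk, h1, h2, h3⟩ := h i hi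
  have hk' : k ≤ n := lt_succ_iff.1 hk
  have hmd : ∀ j, j ≤ n → md x' (pow2 j) = md x (pow2 j) := fun j hj => by
    rw [← hx, md_md_pow2 _ hj]
  have hH : ∀ j, j ≤ n → (Func_H 𝒲 x' p q j i ↔ Func_H 𝒲 x p q j i) := fun j hj => by
    unfold Func_H
    rw [hmd j hj]
  refine ⟨p, hp, q, hq, he, k, lt_succ_iff.2 (hk'.trans hn), (hH k hk').2 h1,
    fun j hj h => h2 j hj ((hH j (hj.le.trans hk')).1 h), ?_⟩
  rw [hmd k hk']
  exact h3

end

theorem exists_functional {S : Set (Set M)} (hS : RCA0 S) :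
    ∃ C : M → M → M → M → M → Prop, IsFun S C := by
  have : IS1 (∅ : Set (Set M)) := hS.is1 (Set.empty_subset S)
  obtain ⟨𝒲, h𝒲⟩ := exists_stage (M := M)
  refine ⟨Func_C 𝒲, Func_dc h𝒲, fun h => ⟨h.1, h.2.1, h.2.2.1⟩, Func_mono h𝒲, Func_uniq h𝒲, ?_, ?_,
    ?_, ?_⟩
  · -- res
    intro e n x m y m' h hm
    obtain ⟨h1, h2, h3, h4⟩ := h
    refine ⟨h1, hm.trans h2, md_pow2_lt _ _, fun i hi => ?_⟩
    obtain ⟨p, hp, q, hq, he, k, hk, h5, h6, h7⟩ := h4 i (hi.trans_le hm)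
    refine ⟨p, hp, q, hq, he, k, hk, h5, h6, ?_⟩
    rw [bit_md, ← h7]
    exact ⟨fun h => h.1, fun h => ⟨h, hi⟩⟩
  · -- zero
    intro e n x hx
    refine ⟨hx, zero_le, pow2_pos 0, fun i hi => absurd hi (not_lt_zero' i)⟩
  · -- of_le
    intro Y Z hY hZ hle
    have : IS1 ({Y} : Set (Set M)) := hS.is1 (by simpa using hY)
    have : IS1 ({Z} : Set (Set M)) := hS.is1 (by simpa using hZ)
    obtain ⟨P, Q, hP, hQ, hPQ⟩ := hle
    obtain ⟨p, hp⟩ := exists_index h𝒲 hP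
    obtain ⟨q, hq⟩ := exists_index h𝒲 hQ
    refine ⟨WI.pair p q, fun m => ?_⟩
    have hres : Cp ({Y} : Set (Set M)) (fun a : M × M => res Y a.2) :=
      Cp.res (Set.mem_singleton Y) (Cp.snd Cp.id)
    have hdc : Dc ({Y} : Set (Set M)) (fun a : M × M => 𝒲 a.2 (res Y a.2) (WI.pair p (WI.pair a.1 0)) ∨
        𝒲 a.2 (res Y a.2) (WI.pair q (WI.pair a.1 0))) :=
      Dc.or (Func_W h𝒲 (Cp.snd Cp.id) hres (Func_pair (Cp.const p) (Func_pair (Cp.fst Cp.id)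
        (Cp.const 0)))) (Func_W h𝒲 (Cp.snd Cp.id) hres (Func_pair (Cp.const q)
        (Func_pair (Cp.fst Cp.id) (Cp.const 0))))
    have hex : ∀ i, ∃ k, 𝒲 k (res Y k) (WI.pair p (WI.pair i 0)) ∨
        𝒲 k (res Y k) (WI.pair q (WI.pair i 0)) := by
      intro i
      by_cases hi : i ∈ Z
      · obtain ⟨k, hk⟩ := (hp i).2 ((hPQ i).1.1 hi)
        exact ⟨k, Or.inl hk⟩
      · obtain ⟨k, hk⟩ := (hq i).2 ((hPQ i).2.1 hi)
        exact ⟨k, Or.inr hk⟩
    obtain ⟨w, hw⟩ := coll_sg hdc.1 m fun i _ => hex i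
    have hmd : ∀ k, k ≤ max w m → md (res Y (max w m)) (pow2 k) = res Y k := fun k hk => md_res hk
    refine ⟨max w m, res_lt _ _, le_max_right _ _, res_lt _ _, fun i hi => ?_⟩
    obtain ⟨k₀, hk₀, hk₀'⟩ := hw i hi
    obtain ⟨k, hk, hk'⟩ := least_sg (𝒪 := ({Y} : Set (Set M)))
      (P := fun k => 𝒲 k (res Y k) (WI.pair p (WI.pair i 0)) ∨
        𝒲 k (res Y k) (WI.pair q (WI.pair i 0)))
      ((Dc.comp hdc (f := fun k : M => (i, k)) ((Cp.const i).pair Cp.id)).1) ⟨k₀, hk₀'⟩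
    have hkw : k ≤ max w m := by
      by_contra hcon
      rw [not_le] at hcon
      exact hk' k₀ ((hk₀.trans_le (le_max_left w m)).trans hcon) hk₀'
    refine ⟨p, lt_succ_iff.2 (left_le_pair _ _), q, lt_succ_iff.2 (right_le_pair _ _), rfl, k,
      lt_succ_iff.2 hkw, ?_, fun j hj hj' => ?_, ?_⟩
    · unfold Func_H
      rw [hmd k hkw]
      exact hk
    · unfold Func_H at hj'
      rw [hmd j (hj.le.trans hkw)] at hj'
      exact hk' j hj hj'
    · rw [hmd k hkw, bit_res]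
      constructor
      · rintro ⟨-, hiZ⟩
        rcases hk with hk | hk
        · exact hk
        · exact absurd hiZ ((hPQ i).2.2 ((hq i).1 ⟨k, hk⟩))
      · intro h
        exact ⟨hi, (hPQ i).1.2 ((hp i).1 ⟨k, h⟩)⟩
  · -- to_le
    intro Y Z hY hZ e h
    have : IS1 ({Y} : Set (Set M)) := hS.is1 (by simpa using hY)
    have : IS1 ({Z} : Set (Set M)) := hS.is1 (by simpa using hZ)
    have key : ∀ x n y, Func_C 𝒲 e n (res Y n) (x + 1) y → y = res Z (x + 1) := by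
      intro x n y hC
      obtain ⟨n', hC'⟩ := h (x + 1)
      refine Func_uniq h𝒲 (Func_mono h𝒲 hC (le_max_left n n') (res_lt Y (max n n')) ?_)
        (Func_mono h𝒲 hC' (le_max_right n n') (res_lt Y (max n n')) ?_)
      · exact md_res (le_max_left _ _)
      · exact md_res (le_max_right _ _)
    have hdc : Dc ({Y} : Set (Set M)) (fun a : M × (M × M) =>
        Func_C 𝒲 e a.2.1 (res Y a.2.1) (a.1 + 1) a.2.2) :=
      Dc.comp (Func_dc h𝒲 (𝒪 := ({Y} : Set (Set M))))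
        (f := fun a : M × (M × M) => (e, (a.2.1, (res Y a.2.1, (a.1 + 1, a.2.2)))))
        ((Cp.const e).pair ((Cp.fst (Cp.snd Cp.id)).pair ((Cp.res (Set.mem_singleton Y)
          (Cp.fst (Cp.snd Cp.id))).pair ((Cp.add (Cp.fst Cp.id) (Cp.const 1)).pair
            (Cp.snd (Cp.snd Cp.id))))))
    rw [turing_iff]
    constructor
    · have h1 : Sg ({Y} : Set (Set M)) (fun x : M => ∃ b : M × M,
          (fun a : M × (M × M) => Func_C 𝒲 e a.2.1 (res Y a.2.1) (a.1 + 1) a.2.2 ∧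
            Bit a.2.2 a.1) (x, b)) :=
        Sg.ex (Sg.and hdc.1 (Dc.bit (Cp.snd (Cp.snd Cp.id)) (Cp.fst Cp.id)).1)
      refine h1.congr fun x => ?_
      constructor
      · intro hx
        obtain ⟨n, hn⟩ := h (x + 1)
        exact ⟨(n, res Z (x + 1)), hn, (bit_res _ _).2 ⟨lt_succ_iff.2 le_rfl, hx⟩⟩
      · rintro ⟨⟨n, y⟩, h2, h3⟩
        change Bit y x at h3
        rw [key x n y h2, bit_res] at h3
        exact h3.2
    · have h1 : Sg ({Y} : Set (Set M)) (fun x : M => ∃ b : M × M,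
          (fun a : M × (M × M) => Func_C 𝒲 e a.2.1 (res Y a.2.1) (a.1 + 1) a.2.2 ∧
            ¬ Bit a.2.2 a.1) (x, b)) :=
        Sg.ex (Sg.and hdc.1 (Dc.bit (Cp.snd (Cp.snd Cp.id)) (Cp.fst Cp.id)).2)
      refine h1.congr fun x => ?_
      constructor
      · intro hx
        obtain ⟨n, hn⟩ := h (x + 1)
        refine ⟨(n, res Z (x + 1)), hn, ?_⟩
        change ¬ Bit (res Z (x + 1)) x
        rw [bit_res]
        exact fun h => hx h.2
      · rintro ⟨⟨n, y⟩, h2, h3⟩ hx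
        apply h3
        change Bit y x
        rw [key x n y h2, bit_res]
        exact ⟨lt_succ_iff.2 le_rfl, hx⟩

end WI
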