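import Pool.Agent.Helper32.WI.DArith
import Pool.Agent.Helper32.WI.Arith

/-! WI-B2a: number theory for the beta function. -/

set_option linter.unusedSectionVars false
set_option linter.unusedVariables false

universe u

namespace WI

open Enc

variable {M : Type u} [CommSemiring M] [LinearOrder M] [PAM M]
variable {α β γ : Type u} [Enc M α] [Enc M β] [Enc M γ] {𝒪 : Set (Set M)}

theorem Gauss_pos {x : M} (h : x ≠ 0) : 0 < x :=
  lt_of_le_of_ne (zero_le (a := x)) (Ne.symm h)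

theorem Gauss_dvd_sub {p u v : M} (h1 : p ∣ u + v) (h2 : p ∣ u) : p ∣ v := by
  obtain ⟨t, ht⟩ := h1
  obtain ⟨s, hs⟩ := h2
  rcases eq_or_ne p 0 with hp | hp
  · subst hp
    rw [zero_mul] at ht hs
    subst hs
    rw [zero_add] at ht
    rw [ht]
  · have hp' : 0 < p := Gauss_pos hp
    have h3 : s ≤ t := by
      by_contra h4
      rw [not_le] at h4
      have h5 : p * t < p * s := mul_lt_mul_of_pos_left h4 hp'
      rw [← ht, ← hs] at h5
      exact absurd h5 (not_lt.2 le_self_add)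
    obtain ⟨w, rfl⟩ := exists_add_of_le h3
    refine ⟨w, ?_⟩
    rw [mul_add, ← hs] at ht
    exact add_left_cancel ht

theorem Gauss_dvd_one {e : M} (h : e ∣ 1) : e = 1 := by
  obtain ⟨c, hc⟩ := h
  have he : 0 < e := by
    apply Gauss_pos
    rintro rfl
    rw [zero_mul] at hc
    exact one_ne_zero hc
  have hc' : 0 < c := by
    apply Gauss_pos
    rintro rfl
    rw [mul_zero] at hc
    exact one_ne_zero hc
  have h1 := PAM.one_le_of_pos e he
  have h2 := PAM.one_le_of_pos c hc'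
  have h3 : e ≤ 1 := by
    rw [hc]
    exact le_mul_of_one_le_right he.le h2
  exact le_antisymm h3 h1

variable [IS1 (∅ : Set (Set M))]

theorem dvd_iff_le {a b : M} : a ∣ b ↔ ∃ c < b + 1, b = a * c := by
  constructor
  · rintro ⟨c, hc⟩
    rcases eq_or_ne a 0 with ha | ha
    · subst ha
      refine ⟨0, ?_, ?_⟩
      · rw [lt_succ_iff]
        exact zero_le (a := b)
      · rw [hc, zero_mul, zero_mul]
    · refine ⟨c, ?_, hc⟩
      rw [lt_succ_iff, hc]
      exact le_mul_of_one_le_left (zero_le (a := c)) (PAM.one_le_of_pos a (Gauss_pos ha))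
  · rintro ⟨c, _, hc⟩
    exact ⟨c, hc⟩

theorem Gauss_dc : Dc (∅ : Set (Set M)) (fun p : M × M => p.1 ∣ p.2) := by
  refine Dc.congr (P := fun p : M × M => ∃ c, c < p.2 + 1 ∧ p.2 = p.1 * c) ?_
    (fun p => dvd_iff_le)
  refine Dc.bex (f := fun p : M × M => p.2 + 1) (P := fun q : (M × M) × M => q.1.2 = q.1.1 * q.2)
    (Cp.add (Cp.snd Cp.id) (Cp.const 1)) ?_
  exact Dc.eq (Cp.snd (Cp.fst Cp.id)) (Cp.mul (Cp.fst (Cp.fst Cp.id)) (Cp.snd Cp.id))

theorem Dc.dvd {f g : α → M} (hf : Cp 𝒪 f) (hg : Cp 𝒪 g) : Dc 𝒪 (fun a => f a ∣ g a) :=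
  ⟨Sg.comp (P := fun p : M × M => p.1 ∣ p.2) (Gauss_dc.1.mono (Set.empty_subset 𝒪))
      (f := fun a => (f a, g a)) (hf.pair hg),
    Sg.comp (P := fun p : M × M => ¬ p.1 ∣ p.2) (Gauss_dc.2.mono (Set.empty_subset 𝒪))
      (f := fun a => (f a, g a)) (hf.pair hg)⟩

/-- Gauss' lemma. -/
theorem gauss {p q a : M} (hp : 0 < p) (hco : ∀ d, d ∣ p → d ∣ q → d = 1) (h : p ∣ a * q) :
    p ∣ a := by
  have hdc : Dc (∅ : Set (Set M)) (fun x : M => 0 < x ∧ p ∣ a * x) :=
    Dc.and (Dc.lt (Cp.const 0) Cp.id) (Dc.dvd (Cp.const p) (Cp.mul (Cp.const a) Cp.id))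
  obtain ⟨x, ⟨hx, hx1⟩, hmin⟩ := least_sg hdc.1 ⟨p, hp, Dvd.intro_left a rfl⟩
  have key : ∀ y, p ∣ a * y → x ∣ y := by
    intro y hy
    have h1 := dv_md y hx
    have h2 := md_lt y hx
    have h3 : p ∣ a * md y x := by
      have h4 : a * y = a * x * dv y x + a * md y x := by
        conv_lhs => rw [← h1]
        ring
      rw [h4] at hy
      exact Gauss_dvd_sub hy (Dvd.dvd.mul_right hx1 _)
    have h5 : md y x = 0 := by
      by_contra h6
      exact hmin _ h2 ⟨Gauss_pos h6, h3⟩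
    rw [h5, add_zero] at h1
    exact ⟨dv y x, h1.symm⟩
  have h1 : x = 1 := hco x (key p (Dvd.intro_left a rfl)) (key q h)
  rw [h1, mul_one] at hx1
  exact hx1

theorem exists_common_multiple (n : M) : ∃ m, 0 < m ∧ ∀ i, 0 < i → i ≤ n → i ∣ m := by
  have hsg : Sg (∅ : Set (Set M)) (fun n : M => ∃ m : M, 0 < m ∧ ∀ i < n + 1, 0 < i → i ∣ m) := by
    refine Sg.ex (P := fun p : M × M => 0 < p.2 ∧ ∀ i < p.1 + 1, 0 < i → i ∣ p.2) ?_
    refine Sg.and (Sg.lt (Cp.const 0) (Cp.snd Cp.id)) ?_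
    refine Sg.ball (f := fun p : M × M => p.1 + 1)
      (P := fun q : (M × M) × M => 0 < q.2 → q.2 ∣ q.1.2)
      (Cp.add (Cp.fst Cp.id) (Cp.const 1)) ?_
    exact (Dc.imp (Dc.lt (Cp.const 0) (Cp.snd Cp.id))
      (Dc.dvd (Cp.snd Cp.id) (Cp.snd (Cp.fst Cp.id)))).1
  have h := ind_sg hsg ⟨1, zero_lt_one, fun i hi hi0 => by
      rw [zero_add] at hi
      exact absurd hi (not_lt.2 (PAM.one_le_of_pos i hi0))⟩ (by
      rintro x ⟨m, hm, hm1⟩
      refine ⟨m * (x + 1), mul_pos hm (lt_of_lt_of_le zero_lt_one le_add_self), ?_⟩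
      intro i hi hi0
      rcases eq_or_lt_of_le (lt_succ_iff.1 hi) with h1 | h1
      · subst h1
        exact Dvd.intro_left m rfl
      · exact Dvd.dvd.mul_right (hm1 i h1 hi0) _) n
  obtain ⟨m, hm, hm1⟩ := h
  exact ⟨m, hm, fun i hi0 hi => hm1 i (lt_succ_iff.2 hi) hi0⟩

theorem Gauss_beta {m n i j : M} (hm : ∀ i, 0 < i → i ≤ n → i ∣ m) (hj : j < n)
    (hij : i < j) (d : M) (h1 : d ∣ 1 + (i + 1) * m) (h2 : d ∣ 1 + (j + 1) * m) : d = 1 := by
  obtain ⟨k, rfl⟩ := exists_add_of_le hij.le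
  have hk : 0 < k := by
    apply Gauss_pos
    rintro rfl
    rw [add_zero] at hij
    exact lt_irrefl _ hij
  have hkn : k ≤ n := le_trans le_add_self hj.le
  have hd : 0 < d := by
    apply Gauss_pos
    rintro rfl
    rw [zero_dvd_iff] at h1
    have h3 : (0 : M) < 1 + (i + 1) * m := lt_of_lt_of_le zero_lt_one le_self_add
    rw [h1] at h3
    exact lt_irrefl _ h3
  have h3 : d ∣ k * m := by
    have h4 : 1 + (i + k + 1) * m = (1 + (i + 1) * m) + k * m := by ring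
    rw [h4] at h2
    exact Gauss_dvd_sub h2 h1
  have hcop : ∀ e, e ∣ d → e ∣ m → e = 1 := by
    intro e he1 he2
    have h5 : e ∣ (i + 1) * m + 1 := by
      rw [add_comm]
      exact he1.trans h1
    exact Gauss_dvd_one (Gauss_dvd_sub h5 (Dvd.dvd.mul_left he2 _))
  have h6 : d ∣ k := gauss hd hcop h3
  have h7 : d ∣ m := h6.trans (hm k hk hkn)
  exact hcop d dvd_rfl h7

theorem beta_coprime {m n i j : M} (hm : ∀ i, 0 < i → i ≤ n → i ∣ m) (hi : i < n) (hj : j < n)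
    (hij : i ≠ j) : ∀ d, d ∣ 1 + (i + 1) * m → d ∣ 1 + (j + 1) * m → d = 1 := by
  intro d h1 h2
  rcases lt_or_gt_of_ne hij with h | h
  · exact Gauss_beta hm hj h d h1 h2
  · exact Gauss_beta hm hi h d h2 h1

end WI
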