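import Pool.Agent.Helper32.WI.DRun
import Pool.Agent.Helper32.WI.Arith
import Pool.Agent.Helper32.WI.Pow
import Pool.Agent.Helper32.WI.Bits
import Pool.Agent.Helper32.WI.NN
import Pool.Agent.Helper32.WI.UUf
import Pool.Agent.Helper32.WI.RcFacts
import Pool.Agent.Helper32.WI.Chain

/-! WI-R5: the invariant is preserved. -/

set_option linter.unusedSectionVars false
set_option linter.unusedVariables false

universe u

namespace WI

open Enc

variable {M : Type u} [CommSemiring M] [LinearOrder M] [PAM M]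
variable {α β γ : Type u} [Enc M α] [Enc M β] [Enc M γ] {𝒪 : Set (Set M)}

variable [IS1 (∅ : Set (Set M))] {S : Set (Set M)} {C : M → M → M → M → M → Prop}
  {Q : M → M → M → M → Prop} {k A : M → M}

theorem inv_zero (hC : IsFun S C) (hr : IsRun C Q k A) : Inv C k A 0 := by
  intro t t' ht ht' hk
  have h1 : t = 0 := le_antisymm ht.1 zero_le
  have h2 : t' = 0 := le_antisymm ht'.1 zero_le
  rw [h1, h2] at hk
  exact absurd hk (ne_of_lt (lt_succ_iff.2 le_rfl))

theorem InvS_alive (hC : IsFun S C) {t s σ : M} (h : Rc k t s) (h1 : Rc k t (s + 1)) (hts : t ≤ s)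
    (ha : AliveT C k σ t (s + 1)) : AliveT C k σ t s := by
  intro u hu hus
  have h2 : k u < k t := (rc_lt_iff hus h).1 hu
  have h3 : k t < k (s + 1) := h1.2 (s + 1) (lt_succ_iff.2 hts) le_rfl
  have h4 : Rc k u (s + 1) := rc_succ_iff.2 (Or.inr ⟨hus, h2.trans h3⟩)
  exact light_mono hC (lt_succ_iff.2 le_rfl).le (ha u hu h4)

theorem inv_succ (hC : IsFun S C) (hr : IsRun C Q k A) {s : M} (hI : Inv C k A s) :
    Inv C k A (s + 1) := by
  intro t t' ht ht' hk σ hσ hal c hc hcσ hcl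
  have hkt : k t < k t' := by
    rw [hk]
    exact lt_succ_iff.2 le_rfl
  have htt' : t < t' := (rc_lt_iff ht ht').2 hkt
  have hts : t ≤ s := lt_succ_iff.1 (lt_of_lt_of_le htt' ht'.1)
  have hrt : Rc k t s := rc_restrict ht hts (lt_succ_iff.2 le_rfl).le
  have hal' : AliveT C k σ t s := InvS_alive hC hrt ht hts hal
  have hcl' : Light C (t + 1) c s := light_mono hC (lt_succ_iff.2 le_rfl).le hcl
  rcases rc_succ_iff.1 ht' with h | ⟨h, _⟩
  · subst h
    rcases hr.step s with ⟨t₀, hk0, hQ⟩ | ⟨hk0, hA⟩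
    · -- a move
      have hm := hQ.1
      have hkt0 : k t₀ = k t + 1 := hk0.symm.trans hk
      have htt0 : t < t₀ := (rc_lt_iff hrt hm.rc).2 (by
        rw [hkt0]
        exact lt_succ_iff.2 le_rfl)
      have hle : NN (t + 1) ≤ NN t₀ := NN_le (lt_iff_succ_le.1 htt0)
      obtain ⟨σ₀, h1, h2⟩ := hI t t₀ hrt hm.rc hkt0 σ hσ hal' c hc hcσ hcl'
      have hal0 : AliveT C k σ₀ t₀ s := by
        intro u hu hus
        have h3 : u ≤ t := rc_between hrt hm.rc hkt0 hus hu
        rcases eq_or_lt_of_le h3 with h4 | h4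
        · subst h4
          rw [h2]
          exact hcl'
        · have h5 : NN (u + 1) ≤ NN t := NN_le (lt_iff_succ_le.1 h4)
          have h6 : NN t ≤ NN (t + 1) := NN_le (lt_succ_iff.2 le_rfl).le
          have h7 := hal' u h4 hus
          rw [← hcσ, md_md_pow2 c h5, ← h2, md_md_pow2 σ₀ (h5.trans h6)] at h7
          exact h7
      obtain ⟨x, hx1, hx2⟩ := chain_of_inv hC hr hI hm.rc h1 hal0
      obtain ⟨x', ⟨hx3, hx4⟩, _⟩ := hm.v2 σ₀ h1 ⟨x, hx1, hx2⟩
      refine ⟨x', hx3, ?_⟩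
      rw [← h2, ← hx4, md_md_pow2 x' hle]
    · -- a creation
      have h1 : k t = k s := add_right_cancel (hk.symm.trans hk0)
      have h2 : t = s := rc_inj hrt (rc_self k s) h1
      subst h2
      refine ⟨c, (hA c).2 ⟨hc, ?_⟩, md_of_lt hc⟩
      rw [hcσ]
      exact ⟨hσ, hal'⟩
  · exact hI t t' hrt h hk σ hσ hal' c hc hcσ hcl'

end WI
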