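import Pool.Agent.Helper32.WI.DRun
import Pool.Agent.Helper32.WI.Reduc
import Pool.Agent.Helper32.WI.Cod
import Pool.Agent.Helper32.WI.Blocks
import Pool.Agent.Helper32.WI.Avoid

/-! WI-R12: Lemma 3. -/

set_option linter.unusedSectionVars false
set_option linter.unusedVariables false

universe u

namespace WI

open Enc

variable {M : Type u} [CommSemiring M] [LinearOrder M] [PAM M]
variable {α β γ : Type u} [Enc M α] [Enc M β] [Enc M γ] {𝒪 : Set (Set M)}

variable [IS1 (∅ : Set (Set M))] {S : Set (Set M)} {C : M → M → M → M → M → Prop}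
  {Q : M → M → M → M → Prop} {k A : M → M}

theorem lemma3 (hS : WKL0 S) (hC : IsFun S C) (hr : IsRun C Q k A) (hf : Fry k) {X Y : Set M}
    (hX : X ∈ S) (hY : Y ∈ S) (hP : InP A Y) (hYX : TuringLE Y X) :
    ∃ R ∈ S, ¬ TuringLE R X ∧ ¬ TuringLE X R := by
  obtain ⟨R, hRS, hR⟩ := exists_avoid hS hC hX hY
  have iX : IS1 ({X} : Set (Set M)) := hS.toRCA0.is1 (by simpa using hX)
  have iY : IS1 ({Y} : Set (Set M)) := hS.toRCA0.is1 (by simpa using hY)
  have iR : IS1 ({R} : Set (Set M)) := hS.toRCA0.is1 (by simpa using hRS)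
  refine ⟨R, hRS, ?_, ?_⟩
  · intro h
    obtain ⟨e, he⟩ := hC.of_le hX hRS h
    obtain ⟨n, hn⟩ := he (e + 2)
    have h1 : n ≤ max n (e + 2) := le_max_left _ _
    have h2 : e + 2 ≤ max n (e + 2) := le_max_right _ _
    refine (hR (max n (e + 2))).2 e h2 ?_
    unfold Rm2
    rw [md_res h2]
    exact hC.mono hn h1 (res_lt X _) (md_res h1)
  · intro h
    have hYR : TuringLE Y R := hYX.trans h
    obtain ⟨e, he⟩ := hC.of_le hRS hY hYR
    obtain ⟨t, t', het, -, hft, -, -⟩ := blocks hr hf e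
    obtain ⟨n, hn⟩ := he (NN (t + 1))
    have hb : 0 < t + 1 := lt_of_lt_of_le zero_lt_one le_add_self
    refine (hR n).1 (t + 1) hb ?_
    refine ⟨n, lt_succ_iff.2 le_rfl, InP.light hC hr hP hft n, e, lt_succ_iff.2 het, ?_⟩
    rw [md_res le_rfl]
    exact hn

end WI
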