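import Pool.Agent.Helper32.WI.DRun
import Pool.Agent.Helper32.WI.Arith
import Pool.Agent.Helper32.WI.Pow
import Pool.Agent.Helper32.WI.Bits
import Pool.Agent.Helper32.WI.Cod
import Pool.Agent.Helper32.WI.NN
import Pool.Agent.Helper32.WI.DcRun
import Pool.Agent.Helper32.WI.Restr

/-! WI-R9: construction of a valid move containing given strings. -/

set_option linter.unusedSectionVars false
set_option linter.unusedVariables false

universe u

namespace WI

open Enc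

variable {M : Type u} [CommSemiring M] [LinearOrder M] [PAM M]
variable {α β γ : Type u} [Enc M α] [Enc M β] [Enc M γ] {𝒪 : Set (Set M)}

variable [IS1 (∅ : Set (Set M))] {S : Set (Set M)} {C : M → M → M → M → M → Prop}
  {Q : M → M → M → M → Prop} {k A : M → M}

theorem exists_move (hC : IsFun S C) (hr : IsRun C Q k A) {s t x x' : M} (ht : Rc k t s)
    (hpos : 0 < k t) (hx : x < pow2 (NN (s + 1))) (hx' : x' < pow2 (NN (s + 1)))
    (hax : Astar C k A (md x (pow2 (NN s))) s) (hax' : Astar C k A (md x' (pow2 (NN s))) s)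
    (h : md x (pow2 (NN t)) = md x' (pow2 (NN t)) → x = x') :
    ∃ B, Move C k A s t B ∧ Bit B x ∧ Bit B x' := by
  have hst : ∀ {δ : Type u} [Enc M δ] {f : δ → M}, Cp (∅ : Set (Set M)) f →
      Dc (∅ : Set (Set M)) (fun a => Astar C k A (f a) s) := by
    intro δ _ f hf
    exact Dc.astar hC hr.cpk hr.cpA hf (Cp.const s)
  have hmd : ∀ {δ : Type u} [Enc M δ] {f : δ → M}, Cp (∅ : Set (Set M)) f →
      Cp (∅ : Set (Set M)) (fun a => md (f a) (pow2 (NN t))) := by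
    intro δ _ f hf
    exact Cp.md hf (Cp.const _)
  have hP : Dc (∅ : Set (Set M)) (fun z : M => z = x ∨ z = x' ∨ (Astar C k A z s ∧
      md z (pow2 (NN t)) ≠ md x (pow2 (NN t)) ∧ md z (pow2 (NN t)) ≠ md x' (pow2 (NN t)) ∧
      ∀ z' < z, ¬ (Astar C k A z' s ∧ md z' (pow2 (NN t)) = md z (pow2 (NN t))))) := by
    refine Dc.or (Dc.eq Cp.id (Cp.const _)) (Dc.or (Dc.eq Cp.id (Cp.const _)) (Dc.and ?_
      (Dc.and ?_ (Dc.and ?_ ?_))))
    · exact hst Cp.id
    · exact Dc.not (Dc.eq (hmd Cp.id) (Cp.const _))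
    · exact Dc.not (Dc.eq (hmd Cp.id) (Cp.const _))
    · refine Dc.ball (f := fun z : M => z) (P := fun q : M × M => ¬ (Astar C k A q.2 s ∧
        md q.2 (pow2 (NN t)) = md q.1 (pow2 (NN t)))) Cp.id ?_
      exact Dc.not (Dc.and (hst (Cp.snd Cp.id)) (Dc.eq (hmd (Cp.snd Cp.id)) (hmd (Cp.fst Cp.id))))
  have hB : ∀ z, Bit (cod (fun z : M => z = x ∨ z = x' ∨ (Astar C k A z s ∧
      md z (pow2 (NN t)) ≠ md x (pow2 (NN t)) ∧ md z (pow2 (NN t)) ≠ md x' (pow2 (NN t)) ∧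
      ∀ z' < z, ¬ (Astar C k A z' s ∧ md z' (pow2 (NN t)) = md z (pow2 (NN t)))))
      (pow2 (NN (s + 1)))) z ↔ z < pow2 (NN (s + 1)) ∧ (z = x ∨ z = x' ∨ (Astar C k A z s ∧
      md z (pow2 (NN t)) ≠ md x (pow2 (NN t)) ∧ md z (pow2 (NN t)) ≠ md x' (pow2 (NN t)) ∧
      ∀ z' < z, ¬ (Astar C k A z' s ∧ md z' (pow2 (NN t)) = md z (pow2 (NN t))))) :=
    fun z => bit_cod hP.1 _ z
  refine ⟨_, ?_, (hB x).2 ⟨hx, Or.inl rfl⟩, (hB x').2 ⟨hx', Or.inr (Or.inl rfl)⟩⟩
  have hlt : ∀ z, Astar C k A z s → z < pow2 (NN s) := fun z hz => A_len hC hr hz.1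
  refine ⟨ht, hpos, fun z hz => ((hB z).1 hz).1, ?_, ?_⟩
  · intro z hz
    rcases ((hB z).1 hz).2 with rfl | rfl | ⟨h1, _⟩
    · exact hax
    · exact hax'
    · rw [md_of_lt (hlt z h1)]
      exact h1
  · intro σ hσ hex
    by_cases h1 : σ = md x (pow2 (NN t))
    · refine ⟨x, ⟨(hB x).2 ⟨hx, Or.inl rfl⟩, h1.symm⟩, ?_⟩
      rintro z ⟨hz, hz'⟩
      rcases ((hB z).1 hz).2 with h2 | h2 | ⟨_, h2, _⟩
      · exact h2
      · rw [h2] at hz' ⊢
        exact (h (h1.symm.trans hz'.symm)).symm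
      · exact absurd (hz'.trans h1) h2
    · by_cases h1' : σ = md x' (pow2 (NN t))
      · refine ⟨x', ⟨(hB x').2 ⟨hx', Or.inr (Or.inl rfl)⟩, h1'.symm⟩, ?_⟩
        rintro z ⟨hz, hz'⟩
        rcases ((hB z).1 hz).2 with h2 | h2 | ⟨_, _, h2, _⟩
        · rw [h2] at hz' ⊢
          exact h (hz'.trans h1')
        · exact h2
        · exact absurd (hz'.trans h1') h2
      · obtain ⟨y, ⟨hy, hy'⟩, hmin⟩ := least_sg (𝒪 := (∅ : Set (Set M)))
          (P := fun y => Astar C k A y s ∧ md y (pow2 (NN t)) = σ)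
          (Dc.and (hst Cp.id) (Dc.eq (hmd Cp.id) (Cp.const _))).1 hex
        refine ⟨y, ⟨(hB y).2 ⟨?_, Or.inr (Or.inr ⟨hy, ?_, ?_, ?_⟩)⟩, hy'⟩, ?_⟩
        · exact lt_of_lt_of_le (hlt y hy) (pow2_le (NN_le le_self_add))
        · rw [hy']
          exact h1
        · rw [hy']
          exact h1'
        · rintro z' hz' ⟨h2, h3⟩
          exact hmin z' hz' ⟨h2, h3.trans hy'⟩
        · rintro z ⟨hz, hz'⟩
          rcases ((hB z).1 hz).2 with h2 | h2 | ⟨h2, _, _, h3⟩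
          · rw [h2] at hz'
            exact absurd hz'.symm h1
          · rw [h2] at hz'
            exact absurd hz'.symm h1'
          · rcases lt_trichotomy z y with h4 | h4 | h4
            · exact absurd ⟨h2, hz'⟩ (hmin z h4)
            · exact h4
            · exact absurd ⟨hy, hy'.trans hz'.symm⟩ (h3 y h4)

end WI
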