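import Pool.Agent.Helper32.WI.DRun
import Pool.Agent.Helper32.WI.Reduc
import Pool.Agent.Helper32.WI.Cod
import Pool.Agent.Helper32.WI.NN
import Pool.Agent.Helper32.WI.RcFacts
import Pool.Agent.Helper32.WI.Blocks
import Pool.Agent.Helper32.WI.MoveEx

/-! WI-R17: no member of the class of the `QB`-run computes `X` (Lemma 5). -/

set_option linter.unusedSectionVars false
set_option linter.unusedVariables false

universe u

namespace WI

open Enc

variable {M : Type u} [CommSemiring M] [LinearOrder M] [PAM M]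
variable {α β γ : Type u} [Enc M α] [Enc M β] [Enc M γ] {𝒪 : Set (Set M)}

variable [IS1 (∅ : Set (Set M))] {S : Set (Set M)} {C : M → M → M → M → M → Prop}
  {Q : M → M → M → M → Prop} {k A : M → M}

theorem no_comp (hS : RCA0 S) (hC : IsFun S C) {X : Set M} (hX : X ∈ S) {l y : M → M}
    (hT : Tame X l y) (hr : IsRun C (QB C l y) k A) (hf : Fry k) {Y : Set M} (hY : Y ∈ S)
    (hP : InP A Y) : ¬ TuringLE X Y := by
  intro hXY
  have : IS1 ({Y} : Set (Set M)) := hS.is1 (by simpa using hY)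
  have : IS1 ({X} : Set (Set M)) := hS.is1 (by simpa using hX)
  obtain ⟨e, he⟩ := hC.of_le hY hX hXY
  obtain ⟨t, t', het, htt', hFt, hk, hFt'⟩ := blocks hr hf e
  obtain ⟨s₀, hs₀⟩ := hT.lim (NN t' + 1)
  obtain ⟨n₁, hn₁⟩ := he (NN t' + 1)
  obtain ⟨s, hs1, hs2, hs3⟩ : ∃ s, s₀ ≤ s ∧ n₁ ≤ s ∧ t' ≤ s :=
    ⟨max s₀ (max n₁ t'), le_max_left _ _, le_trans (le_max_left _ _) (le_max_right _ _),
      le_trans (le_max_right _ _) (le_max_right _ _)⟩
  have hnN : n₁ ≤ NN (s + 1) :=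
    le_trans hs2 (le_trans (le_self_add) (le_NN (s + 1)))
  have hxlt : res Y (NN (s + 1)) < pow2 (NN (s + 1)) := res_lt Y _
  have hcomp : C e (NN (s + 1)) (res Y (NN (s + 1))) (NN t' + 1) (res X (NN t' + 1)) :=
    hC.mono hn₁ hnN hxlt (md_res hnN)
  have hst : Astar C k A (md (res Y (NN (s + 1))) (pow2 (NN s))) s := by
    rw [md_res (NN_le le_self_add)]
    exact InP.astar hC hr hP s
  have hkpos : 0 < k t' := by
    rw [hk]
    exact lt_of_le_of_lt zero_le (lt_add_of_pos_right _ zero_lt_one)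
  obtain ⟨B, hB, hBx, _⟩ := exists_move hC hr (hFt'.rc hs3) hkpos hxlt hxlt hst hst (fun _ => rfl)
  refine no_move hr hFt' hs3 (B := B) ⟨hB, ?_⟩
  intro t'' _ hrc hk''
  have htt : t'' = t := by
    refine rc_inj hrc (hFt.rc (le_trans htt'.le hs3)) ?_
    rw [hk] at hk''
    exact add_right_cancel hk''
  subst htt
  refine ⟨e, lt_of_le_of_lt het (lt_add_of_pos_right _ zero_lt_one), _, hxlt, NN t' + 1, ?_, hBx, ?_, ?_⟩
  · exact lt_of_le_of_lt (hs₀ s hs1).1 (lt_add_of_pos_right _ zero_lt_one)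
  · rw [(hs₀ s hs1).2]
    exact hcomp
  · intro h
    exact absurd (hC.len h).2.1 (not_le_of_gt (lt_add_of_pos_right _ zero_lt_one))

end WI
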