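import Pool.Agent.Helper32.WI.Arith
import Pool.Agent.Helper32.WI.Pow
import Pool.Agent.Helper32.WI.Bits
import Pool.Agent.Helper32.WI.NN
import Pool.Agent.Helper32.WI.UUf
import Pool.Agent.Helper32.WI.LC
import Pool.Agent.Helper32.WI.DcRun
import Pool.Agent.Helper32.WI.RcFacts
import Pool.Agent.Helper32.WI.Chain
import Pool.Agent.Helper32.WI.InvS

/-! WI-R6: `A*(s)` has members with prescribed first digit. -/

set_option linter.unusedSectionVars false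
set_option linter.unusedVariables false

universe u

namespace WI

open Enc

variable {M : Type u} [CommSemiring M] [LinearOrder M] [PAM M]
variable {α β γ : Type u} [Enc M α] [Enc M β] [Enc M γ] {𝒪 : Set (Set M)}

variable [IS1 (∅ : Set (Set M))] {S : Set (Set M)} {C : M → M → M → M → M → Prop}
  {Q : M → M → M → M → Prop} {k A : M → M}

theorem NonE_dc_inv (hC : IsFun S C) (hr : IsRun C Q k A) :
    Dc (∅ : Set (Set M)) (fun s => Inv C k A s) := by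
  have hk := hr.cpk
  have hA := hr.cpA
  have h1 : Dc (∅ : Set (Set M)) (fun s : M => ∀ t < s + 1, ∀ t' < s + 1, Rc k t s → Rc k t' s →
      k t' = k t + 1 → ∀ σ < A t, Bit (A t) σ → AliveT C k σ t s →
      ∀ c < pow2 (NN (t + 1)), md c (pow2 (NN t)) = σ → Light C (t + 1) c s →
      ∃ σ', σ' < A t' ∧ (Bit (A t') σ' ∧ md σ' (pow2 (NN (t + 1))) = c)) := by
    refine Dc.ball (f := fun s : M => s + 1) (P := fun p : M × M => ∀ t' < p.1 + 1,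
      Rc k p.2 p.1 → Rc k t' p.1 → k t' = k p.2 + 1 → ∀ σ < A p.2, Bit (A p.2) σ →
      AliveT C k σ p.2 p.1 → ∀ c < pow2 (NN (p.2 + 1)), md c (pow2 (NN p.2)) = σ →
      Light C (p.2 + 1) c p.1 →
      ∃ σ', σ' < A t' ∧ (Bit (A t') σ' ∧ md σ' (pow2 (NN (p.2 + 1))) = c))
      (Cp.add Cp.id (Cp.const 1)) ?_
    refine Dc.ball (f := fun p : M × M => p.1 + 1) (P := fun p : (M × M) × M =>
      Rc k p.1.2 p.1.1 → Rc k p.2 p.1.1 → k p.2 = k p.1.2 + 1 → ∀ σ < A p.1.2,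
      Bit (A p.1.2) σ → AliveT C k σ p.1.2 p.1.1 → ∀ c < pow2 (NN (p.1.2 + 1)),
      md c (pow2 (NN p.1.2)) = σ → Light C (p.1.2 + 1) c p.1.1 →
      ∃ σ', σ' < A p.2 ∧ (Bit (A p.2) σ' ∧ md σ' (pow2 (NN (p.1.2 + 1))) = c))
      (Cp.add (Cp.fst Cp.id) (Cp.const 1)) ?_
    have cs : Cp (∅ : Set (Set M)) (fun p : (M × M) × M => p.1.1) := Cp.fst (Cp.fst Cp.id)
    have ct : Cp (∅ : Set (Set M)) (fun p : (M × M) × M => p.1.2) := Cp.snd (Cp.fst Cp.id)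
    have ct' : Cp (∅ : Set (Set M)) (fun p : (M × M) × M => p.2) := Cp.snd Cp.id
    refine Dc.imp (Dc.rc hk ct cs) (Dc.imp (Dc.rc hk ct' cs) (Dc.imp
      (Dc.eq (hk.comp ct') (Cp.add (hk.comp ct) (Cp.const 1))) ?_))
    refine Dc.ball (f := fun p : (M × M) × M => A p.1.2) (P := fun q : ((M × M) × M) × M =>
      Bit (A q.1.1.2) q.2 → AliveT C k q.2 q.1.1.2 q.1.1.1 → ∀ c < pow2 (NN (q.1.1.2 + 1)),
      md c (pow2 (NN q.1.1.2)) = q.2 → Light C (q.1.1.2 + 1) c q.1.1.1 →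
      ∃ σ', σ' < A q.1.2 ∧ (Bit (A q.1.2) σ' ∧ md σ' (pow2 (NN (q.1.1.2 + 1))) = c))
      (hA.comp ct) ?_
    have ds : Cp (∅ : Set (Set M)) (fun q : ((M × M) × M) × M => q.1.1.1) :=
      Cp.fst (Cp.fst (Cp.fst Cp.id))
    have dt : Cp (∅ : Set (Set M)) (fun q : ((M × M) × M) × M => q.1.1.2) :=
      Cp.snd (Cp.fst (Cp.fst Cp.id))
    have dσ : Cp (∅ : Set (Set M)) (fun q : ((M × M) × M) × M => q.2) := Cp.snd Cp.id
    refine Dc.imp (Dc.bit (hA.comp dt) dσ) (Dc.imp (Dc.aliveT hC hk dσ dt ds) ?_)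
    refine Dc.ball (f := fun q : ((M × M) × M) × M => pow2 (NN (q.1.1.2 + 1)))
      (P := fun r : (((M × M) × M) × M) × M =>
      md r.2 (pow2 (NN r.1.1.1.2)) = r.1.2 → Light C (r.1.1.1.2 + 1) r.2 r.1.1.1.1 →
      ∃ σ', σ' < A r.1.1.2 ∧ (Bit (A r.1.1.2) σ' ∧ md σ' (pow2 (NN (r.1.1.1.2 + 1))) = r.2))
      (Cp.pow2 (Cp.NN (Cp.add dt (Cp.const 1)))) ?_
    have es : Cp (∅ : Set (Set M)) (fun r : (((M × M) × M) × M) × M => r.1.1.1.1) :=
      Cp.fst (Cp.fst (Cp.fst (Cp.fst Cp.id)))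
    have et : Cp (∅ : Set (Set M)) (fun r : (((M × M) × M) × M) × M => r.1.1.1.2) :=
      Cp.snd (Cp.fst (Cp.fst (Cp.fst Cp.id)))
    have et' : Cp (∅ : Set (Set M)) (fun r : (((M × M) × M) × M) × M => r.1.1.2) :=
      Cp.snd (Cp.fst (Cp.fst Cp.id))
    have eσ : Cp (∅ : Set (Set M)) (fun r : (((M × M) × M) × M) × M => r.1.2) :=
      Cp.snd (Cp.fst Cp.id)
    have ec : Cp (∅ : Set (Set M)) (fun r : (((M × M) × M) × M) × M => r.2) := Cp.snd Cp.id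
    refine Dc.imp (Dc.eq (Cp.md ec (Cp.pow2 (Cp.NN et))) eσ) (Dc.imp
      (Dc.light hC (Cp.add et (Cp.const 1)) ec es) ?_)
    refine Dc.bex (f := fun r : (((M × M) × M) × M) × M => A r.1.1.2)
      (P := fun w : ((((M × M) × M) × M) × M) × M => Bit (A w.1.1.1.2) w.2 ∧
        md w.2 (pow2 (NN (w.1.1.1.1.2 + 1))) = w.1.2) (hA.comp et') ?_
    exact Dc.and (Dc.bit (hA.comp (Cp.snd (Cp.fst (Cp.fst (Cp.fst Cp.id))))) (Cp.snd Cp.id))
      (Dc.eq (Cp.md (Cp.snd Cp.id) (Cp.pow2 (Cp.NN (Cp.add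
        (Cp.snd (Cp.fst (Cp.fst (Cp.fst (Cp.fst Cp.id))))) (Cp.const 1)))))
        (Cp.snd (Cp.fst Cp.id)))
  refine h1.congr fun s => ?_
  constructor
  · intro hI t _ t' _ h2 h3 h4 σ _ h5 h6 c hc h7 h8
    obtain ⟨σ', h9, h10⟩ := hI t t' h2 h3 h4 σ h5 h6 c hc h7 h8
    exact ⟨σ', lt_of_bit h9, h9, h10⟩
  · intro hI t t' h2 h3 h4 σ h5 h6 c hc h7 h8
    obtain ⟨σ', _, h9, h10⟩ := hI t (lt_succ_iff.2 h2.1) t' (lt_succ_iff.2 h3.1) h2 h3 h4 σ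
      (lt_of_bit h5) h5 h6 c hc h7 h8
    exact ⟨σ', h9, h10⟩

theorem inv_all (hC : IsFun S C) (hr : IsRun C Q k A) (s : M) : Inv C k A s :=
  ind_dc (NonE_dc_inv hC hr) (inv_zero hC hr) (fun _ h => inv_succ hC hr h) s

theorem exists_astar (hC : IsFun S C) (hr : IsRun C Q k A) {s : M} (hs : 0 < s) (v : Prop) :
    ∃ x, Astar C k A x s ∧ (Bit x 0 ↔ v) := by
  have hr0 : Rc k 0 s := ⟨zero_le (a := s), fun u hu _ => by
    rw [hr.k0]
    exact k_pos hr hu⟩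
  obtain ⟨c, hc, hcv, hcl⟩ := exists_light_one hC s v
  obtain ⟨t', ht', hk'⟩ := exists_rc hr (i := 1) (PAM.one_le_of_pos _ (k_pos hr hs))
  have e1 : (0 : M) + 1 = 1 := zero_add 1
  obtain ⟨σ', hσ', hσc⟩ := inv_all hC hr s 0 t' hr0 ht' (by rw [hk', hr.k0, e1]) 0
    ((hr.A0 0).2 rfl) (fun u hu => absurd hu (not_lt_zero' u)) c (by rw [e1]; exact hc)
    (by rw [NN_zero, md_pow2_zero]) (by rw [e1]; exact hcl)
  rw [e1] at hσc
  have ht1 : 1 ≤ t' := by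
    apply PAM.one_le_of_pos
    rcases eq_or_lt_of_le (zero_le (a := t')) with h | h
    · exfalso
      rw [← h, hr.k0] at hk'
      exact zero_ne_one hk'
    · exact h
  have hal : AliveT C k σ' t' s := by
    intro u hu hru
    have h1 : k u < k t' := (rc_lt_iff hru ht').1 hu
    rw [hk'] at h1
    have h2 : k u = 0 := by
      by_contra h3
      have h4 : 0 < k u := lt_of_le_of_ne (zero_le (a := k u)) (Ne.symm h3)
      exact absurd (PAM.one_le_of_pos _ h4) (not_le.2 h1)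
    have h3 : u = 0 := rc_inj hru hr0 (by rw [h2, hr.k0])
    rw [h3, e1, hσc]
    exact hcl
  obtain ⟨x, hx, hxσ⟩ := chain_of_inv hC hr (inv_all hC hr s) ht' hσ' hal
  refine ⟨x, hx, ?_⟩
  have h1 : md x (pow2 (NN 1)) = c := by
    rw [← hσc, ← hxσ, md_md_pow2 x (NN_le ht1)]
  rw [← hcv, ← h1, bit_md]
  exact ⟨fun h => ⟨h, NN_pos zero_lt_one⟩, fun h => h.1⟩

end WI
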