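import Pool.Agent.Helper32.WI.DRun
import Pool.Agent.Helper32.WI.Arith
import Pool.Agent.Helper32.WI.Reduc
import Pool.Agent.Helper32.WI.Pow
import Pool.Agent.Helper32.WI.Bits
import Pool.Agent.Helper32.WI.Cod
import Pool.Agent.Helper32.WI.Wkl
import Pool.Agent.Helper32.WI.NN
import Pool.Agent.Helper32.WI.DcRun
import Pool.Agent.Helper32.WI.Restr
import Pool.Agent.Helper32.WI.NonE

/-! WI-R7: paths. -/

set_option linter.unusedSectionVars false
set_option linter.unusedVariables false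

universe u

namespace WI

open Enc

variable {M : Type u} [CommSemiring M] [LinearOrder M] [PAM M]
variable {α β γ : Type u} [Enc M α] [Enc M β] [Enc M γ] {𝒪 : Set (Set M)}

variable [IS1 (∅ : Set (Set M))] {S : Set (Set M)} {C : M → M → M → M → M → Prop}
  {Q : M → M → M → M → Prop} {k A : M → M}

theorem exists_path (hS : WKL0 S) (hC : IsFun S C) (hr : IsRun C Q k A) (v : Prop) :
    ∃ Y ∈ S, InP A Y ∧ (0 ∈ Y ↔ v) := by
  have hI : IS1 S := hS.toRCA0.is1 subset_rfl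
  have hA : Cp S A := hr.cpA.mono (Set.empty_subset _)
  have hT : Dc S (fun p : M × M => p.2 < pow2 p.1 ∧
      (∀ s < p.1 + 1, NN s ≤ p.1 → Bit (A s) (md p.2 (pow2 (NN s)))) ∧
      (0 < p.1 → (Bit p.2 0 ↔ v))) := by
    refine Dc.and ?_ (Dc.and ?_ ?_)
    · exact Dc.lt (Cp.snd Cp.id) (Cp.pow2 (Cp.fst Cp.id))
    · refine Dc.ball (f := fun p : M × M => p.1 + 1) (P := fun q : (M × M) × M =>
        NN q.2 ≤ q.1.1 → Bit (A q.2) (md q.1.2 (pow2 (NN q.2))))
        (Cp.add (Cp.fst Cp.id) (Cp.const 1)) ?_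
      refine Dc.imp (Dc.le (Cp.NN (Cp.snd Cp.id)) (Cp.fst (Cp.fst Cp.id))) ?_
      exact Dc.bit (hA.comp (Cp.snd Cp.id))
        (Cp.md (Cp.snd (Cp.fst Cp.id)) (Cp.pow2 (Cp.NN (Cp.snd Cp.id))))
    · refine Dc.imp (Dc.lt (Cp.const 0) (Cp.fst Cp.id)) ?_
      exact Dc.iff (Dc.bit (Cp.snd Cp.id) (Cp.const 0)) (Dc.const v)
  obtain ⟨Y, hY, hYT⟩ := wkl_str hS hT (fun n x h => h.1)
    (by
      rintro n x m ⟨h1, h2, h3⟩ hmn
      refine ⟨md_pow2_lt x m, fun s hs hsm => ?_, fun hm => ?_⟩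
      · show Bit (A s) (md (md x (pow2 m)) (pow2 (NN s)))
        rw [md_md_pow2 x hsm]
        refine h2 s (lt_succ_iff.2 ((lt_succ_iff.1 hs).trans hmn)) (le_trans hsm hmn)
      · show Bit (md x (pow2 m)) 0 ↔ v
        rw [bit_md]
        have := h3 (lt_of_lt_of_le hm hmn)
        exact ⟨fun h => this.1 h.1, fun h => ⟨this.2 h, hm⟩⟩)
    (by
      intro n
      rcases eq_or_lt_of_le (zero_le (a := n)) with h0 | h0
      · subst h0
        refine ⟨0, pow2_pos 0, fun s hs _ => ?_, fun h => absurd h (lt_irrefl 0)⟩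
        have hs0 : s = 0 := le_antisymm (lt_succ_iff.1 hs) (zero_le (a := s))
        subst hs0
        show Bit (A 0) (md 0 (pow2 (NN 0)))
        rw [NN_zero, md_pow2_zero]
        exact (hr.A0 0).2 rfl
      · obtain ⟨x₀, hx₀, hv⟩ := exists_astar hC hr h0 v
        refine ⟨md x₀ (pow2 n), md_pow2_lt _ _, fun s hs hsn => ?_, fun _ => ?_⟩
        · show Bit (A s) (md (md x₀ (pow2 n)) (pow2 (NN s)))
          rw [md_md_pow2 x₀ hsn]
          exact A_res hC hr (lt_succ_iff.1 hs) hx₀.1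
        · show Bit (md x₀ (pow2 n)) 0 ↔ v
          rw [bit_md]
          exact ⟨fun h => hv.1 h.1, fun h => ⟨hv.2 h, h0⟩⟩)
  have hIY : IS1 ({Y} : Set (Set M)) := hS.toRCA0.is1 (by simpa using hY)
  refine ⟨Y, hY, fun s => ?_, ?_⟩
  · have h1 := (hYT (NN s)).2.1 s (lt_succ_iff.2 (le_NN s)) le_rfl
    have h2 : md (res Y (NN s)) (pow2 (NN s)) = res Y (NN s) := md_of_lt (res_lt Y (NN s))
    have h3 : Bit (A s) (md (res Y (NN s)) (pow2 (NN s))) := h1
    rwa [h2] at h3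
  · have h1 : Bit (res Y 1) 0 ↔ v := (hYT 1).2.2 zero_lt_one
    rw [← h1, bit_res]
    exact ⟨fun h => ⟨zero_lt_one, h⟩, fun h => h.2⟩

end WI
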