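import Pool.Agent.Helper32.WI.Arith
import Pool.Agent.Helper32.WI.Reduc
import Pool.Agent.Helper32.WI.Choice
import Pool.Agent.Helper32.WI.Rec
import Pool.Agent.Helper32.WI.Bits
import Pool.Agent.Helper32.WI.Cod

/-! WI-C6: coded sequences, course-of-values recursion. -/

set_option linter.unusedSectionVars false
set_option linter.unusedVariables false

universe u

namespace WI

open Enc

variable {M : Type u} [CommSemiring M] [LinearOrder M] [PAM M]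
variable {α β γ : Type u} [Enc M α] [Enc M β] [Enc M γ] {𝒪 : Set (Set M)}

variable [IS1 (∅ : Set (Set M))]

theorem Seq_spec {w u v : M} (h : Bit w (pair u v)) (h' : ∀ v' < v, ¬ Bit w (pair u v')) :
    seqv w u = v := by
  have hex : ∃ v : M, Bit w (pair u v) ∧ ∀ v' < v, ¬ Bit w (pair u v') := ⟨v, h, h'⟩
  have h1 : seqv w u = Classical.choose hex := by
    unfold seqv
    rw [dif_pos hex]
  obtain ⟨h2, h3⟩ := Classical.choose_spec hex
  rw [h1]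
  rcases lt_trichotomy (Classical.choose hex) v with h4 | h4 | h4
  · exact absurd h2 (h' _ h4)
  · exact h4
  · exact absurd h (h3 _ h4)

theorem Seq_none {w u : M} (h : ∀ v, ¬ Bit w (pair u v)) : seqv w u = 0 := by
  unfold seqv
  rw [dif_neg]
  rintro ⟨v, hv, _⟩
  exact h v hv

theorem Seq_lt {w u v : M} (h : Bit w (pair u v)) : v < w :=
  lt_of_le_of_lt (right_le_pair u v) (lt_of_bit h)

theorem Seq_le (w u : M) : seqv w u ≤ w := by
  by_cases h : ∃ v, Bit w (pair u v)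
  · obtain ⟨v, hv, hv'⟩ := least_sg (𝒪 := (∅ : Set (Set M))) (P := fun v => Bit w (pair u v))
      (Dc.bit (f := fun _ : M => w) (g := fun v : M => pair u v) (Cp.const w)
        (Cp.add (Cp.mul (Cp.add (Cp.const u) Cp.id) (Cp.add (Cp.const u) Cp.id))
          (Cp.const u))).1 h
    rw [Seq_spec hv hv']
    exact (Seq_lt hv).le
  · push Not at h
    rw [Seq_none h]
    exact zero_le (a := w)

theorem Seq_pair {f g : α → M} (hf : Cp 𝒪 f) (hg : Cp 𝒪 g) : Cp 𝒪 (fun a => pair (f a) (g a)) :=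
  Cp.add (Cp.mul (Cp.add hf hg) (Cp.add hf hg)) hf

theorem Seq_iff (w u v : M) : v = seqv w u ↔
    (Bit w (pair u v) ∧ ∀ v' < v, ¬ Bit w (pair u v')) ∨
      (v = 0 ∧ ∀ v' < w, ¬ Bit w (pair u v')) := by
  constructor
  · intro h
    by_cases hex : ∃ v, Bit w (pair u v)
    · obtain ⟨v₀, hv, hv'⟩ := least_sg (𝒪 := (∅ : Set (Set M))) (P := fun v => Bit w (pair u v))
        (Dc.bit (f := fun _ : M => w) (g := fun v : M => pair u v) (Cp.const w)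
          (Seq_pair (Cp.const u) Cp.id)).1 hex
      rw [Seq_spec hv hv'] at h
      subst h
      exact Or.inl ⟨hv, hv'⟩
    · push Not at hex
      rw [Seq_none hex] at h
      exact Or.inr ⟨h, fun v' _ => hex v'⟩
  · rintro (⟨h1, h2⟩ | ⟨h1, h2⟩)
    · exact (Seq_spec h1 h2).symm
    · rw [Seq_none, h1]
      intro v hv
      exact h2 v (Seq_lt hv) hv

theorem Seq_cp : Cp (∅ : Set (Set M)) (fun p : M × M => seqv p.1 p.2) := by
  have h1 : Dc (∅ : Set (Set M)) (fun q : ((M × M) × M) × M => ¬ Bit q.1.1.1 (pair q.1.1.2 q.2)) :=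
    Dc.not (Dc.bit (Cp.fst (Cp.fst (Cp.fst Cp.id)))
      (Seq_pair (Cp.snd (Cp.fst (Cp.fst Cp.id))) (Cp.snd Cp.id)))
  have h2 : Dc (∅ : Set (Set M)) (fun q : (M × M) × M =>
      (Bit q.1.1 (pair q.1.2 q.2) ∧ ∀ v' < q.2, ¬ Bit q.1.1 (pair q.1.2 v')) ∨
      (q.2 = 0 ∧ ∀ v' < q.1.1, ¬ Bit q.1.1 (pair q.1.2 v'))) := by
    refine Dc.or (Dc.and ?_ ?_) (Dc.and ?_ ?_)
    · exact Dc.bit (Cp.fst (Cp.fst Cp.id)) (Seq_pair (Cp.snd (Cp.fst Cp.id)) (Cp.snd Cp.id))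
    · exact Dc.ball (f := fun q : (M × M) × M => q.2) (Cp.snd Cp.id) h1
    · exact Dc.eq (Cp.snd Cp.id) (Cp.const 0)
    · exact Dc.ball (f := fun q : (M × M) × M => q.1.1) (Cp.fst (Cp.fst Cp.id)) h1
  exact h2.1.congr fun q => Seq_iff _ _ _

theorem Cp.seqv {f g : α → M} (hf : Cp 𝒪 f) (hg : Cp 𝒪 g) : Cp 𝒪 (fun a => seqv (f a) (g a)) :=
  Cp.comp (g := fun p : M × M => WI.seqv p.1 p.2) (Seq_cp.mono (Set.empty_subset 𝒪)) (hf.pair hg)

theorem Seq_pair_le {x y x' y' : M} (hx : x ≤ x') (hy : y ≤ y') : pair x y ≤ pair x' y' :=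
  add_le_add (mul_le_mul' (add_le_add hx hy) (add_le_add hx hy)) hx

/-- Appending (or changing) an entry. -/
theorem exists_append (w n v : M) : ∃ w', (∀ i < n, seqv w' i = seqv w i) ∧ seqv w' n = v := by
  have h1 : Dc (∅ : Set (Set M)) (fun z : M => (∃ i < n, z = pair i (seqv w i)) ∨ z = pair n v) := by
    refine Dc.or ?_ (Dc.eq Cp.id (Cp.const _))
    refine Dc.bex (f := fun _ : M => n) (P := fun q : M × M => q.1 = pair q.2 (seqv w q.2))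
      (Cp.const n) ?_
    exact Dc.eq (Cp.fst Cp.id) (Seq_pair (Cp.snd Cp.id) (Cp.seqv (Cp.const w) (Cp.snd Cp.id)))
  have h2 : ∀ u y, Bit (cod (fun z : M => (∃ i < n, z = pair i (seqv w i)) ∨ z = pair n v)
      (pair n w + pair n v + 1)) (pair u y) ↔ (u < n ∧ y = seqv w u) ∨ (u = n ∧ y = v) := by
    intro u y
    rw [bit_cod h1.1]
    constructor
    · rintro ⟨_, ⟨i, hi, h3⟩ | h3⟩
      · obtain ⟨rfl, rfl⟩ := pair_inj h3
        exact Or.inl ⟨hi, rfl⟩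
      · obtain ⟨rfl, rfl⟩ := pair_inj h3
        exact Or.inr ⟨rfl, rfl⟩
    · rintro (⟨h3, rfl⟩ | ⟨rfl, rfl⟩)
      · refine ⟨?_, Or.inl ⟨u, h3, rfl⟩⟩
        rw [lt_succ_iff]
        exact (Seq_pair_le h3.le (Seq_le w u)).trans le_self_add
      · refine ⟨?_, Or.inr rfl⟩
        rw [lt_succ_iff]
        exact le_add_self
  refine ⟨cod (fun z : M => (∃ i < n, z = pair i (seqv w i)) ∨ z = pair n v)
      (pair n w + pair n v + 1), ?_, ?_⟩
  · intro i hi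
    refine Seq_spec ((h2 i _).2 (Or.inl ⟨hi, rfl⟩)) ?_
    intro v' hv' h3
    rcases (h2 i v').1 h3 with ⟨_, h4⟩ | ⟨h4, _⟩
    · rw [h4] at hv'
      exact lt_irrefl _ hv'
    · rw [h4] at hi
      exact lt_irrefl _ hi
  · refine Seq_spec ((h2 n v).2 (Or.inr ⟨rfl, rfl⟩)) ?_
    intro v' hv' h3
    rcases (h2 n v').1 h3 with ⟨h4, _⟩ | ⟨_, h4⟩
    · exact lt_irrefl _ h4
    · rw [h4] at hv'
      exact lt_irrefl _ hv'

/-- Every computable function is coded up to any bound. -/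
theorem exists_seq [IS1 𝒪] {f : M → M} (hf : Cp 𝒪 f) (n : M) : ∃ w, ∀ i < n, seqv w i = f i := by
  have h1 : Sg 𝒪 (fun n : M => ∃ w, ∀ i < n, seqv w i = f i) := by
    refine Sg.ex (β := M) (P := fun q : M × M => ∀ i < q.1, seqv q.2 i = f i) ?_
    refine Sg.ball (f := fun q : M × M => q.1) (P := fun q : (M × M) × M => seqv q.1.2 q.2 = f q.2)
      (Cp.fst Cp.id) ?_
    exact Sg.eq (Cp.seqv (Cp.snd (Cp.fst Cp.id)) (Cp.snd Cp.id)) (Cp.comp hf (Cp.snd Cp.id))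
  refine ind_sg h1 ⟨0, fun i hi => absurd hi (not_lt_zero' i)⟩ ?_ n
  rintro n ⟨w, hw⟩
  obtain ⟨w', h2, h3⟩ := exists_append w n (f n)
  refine ⟨w', fun i hi => ?_⟩
  rcases eq_or_lt_of_le (lt_succ_iff.1 hi) with h4 | h4
  · rw [h4, h3]
  · rw [h2 i h4, hw i h4]

/-- Course-of-values recursion with a decidable, total, local relation. -/
theorem exists_cov [IS1 𝒪] {Φ : (M → M × M) → M → M × M → Prop}
    (hloc : ∀ f f' s v, (∀ u < s, f u = f' u) → Φ f s v → Φ f' s v)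
    (hdc : Dc 𝒪 (fun p : (M × M) × (M × (M × M)) =>
      Φ (fun u => (seqv p.1.1 u, seqv p.1.2 u)) p.2.1 p.2.2))
    (htot : ∀ w : M × M, ∀ s, ∃ v, Φ (fun u => (seqv w.1 u, seqv w.2 u)) s v) :
    ∃ f : M → M × M, Cp 𝒪 f ∧ ∀ s, Φ f s (f s) := by
  -- one step: append the next value
  have hR : Sg 𝒪 (fun q : (M × (M × M)) × (M × M) => ∃ v : M × M,
      Φ (fun u => (seqv q.1.2.1 u, seqv q.1.2.2 u)) q.1.1 v ∧
      ((∀ i < q.1.1, seqv q.2.1 i = seqv q.1.2.1 i) ∧ seqv q.2.1 q.1.1 = v.1) ∧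
      ((∀ i < q.1.1, seqv q.2.2 i = seqv q.1.2.2 i) ∧ seqv q.2.2 q.1.1 = v.2)) := by
    refine Sg.ex (β := M × M) (P := fun r : ((M × (M × M)) × (M × M)) × (M × M) =>
      Φ (fun u => (seqv r.1.1.2.1 u, seqv r.1.1.2.2 u)) r.1.1.1 r.2 ∧
      ((∀ i < r.1.1.1, seqv r.1.2.1 i = seqv r.1.1.2.1 i) ∧ seqv r.1.2.1 r.1.1.1 = r.2.1) ∧
      ((∀ i < r.1.1.1, seqv r.1.2.2 i = seqv r.1.1.2.2 i) ∧ seqv r.1.2.2 r.1.1.1 = r.2.2)) ?_
    refine Sg.and ?_ (Sg.and (Sg.and ?_ ?_) (Sg.and ?_ ?_))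
    · exact hdc.1.comp (f := fun r : ((M × (M × M)) × (M × M)) × (M × M) =>
        (r.1.1.2, (r.1.1.1, r.2)))
        (Cp.pair (Cp.snd (Cp.fst (Cp.fst Cp.id))) (Cp.pair (Cp.fst (Cp.fst (Cp.fst Cp.id)))
          (Cp.snd Cp.id)))
    · refine Sg.ball (f := fun r : ((M × (M × M)) × (M × M)) × (M × M) => r.1.1.1)
        (P := fun r : (((M × (M × M)) × (M × M)) × (M × M)) × M =>
          seqv r.1.1.2.1 r.2 = seqv r.1.1.1.2.1 r.2) (Cp.fst (Cp.fst (Cp.fst Cp.id))) ?_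
      exact Sg.eq (Cp.seqv (Cp.fst (Cp.snd (Cp.fst (Cp.fst Cp.id)))) (Cp.snd Cp.id))
        (Cp.seqv (Cp.fst (Cp.snd (Cp.fst (Cp.fst (Cp.fst Cp.id))))) (Cp.snd Cp.id))
    · exact Sg.eq (Cp.seqv (Cp.fst (Cp.snd (Cp.fst Cp.id))) (Cp.fst (Cp.fst (Cp.fst Cp.id))))
        (Cp.fst (Cp.snd Cp.id))
    · refine Sg.ball (f := fun r : ((M × (M × M)) × (M × M)) × (M × M) => r.1.1.1)
        (P := fun r : (((M × (M × M)) × (M × M)) × (M × M)) × M =>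
          seqv r.1.1.2.2 r.2 = seqv r.1.1.1.2.2 r.2) (Cp.fst (Cp.fst (Cp.fst Cp.id))) ?_
      exact Sg.eq (Cp.seqv (Cp.snd (Cp.snd (Cp.fst (Cp.fst Cp.id)))) (Cp.snd Cp.id))
        (Cp.seqv (Cp.snd (Cp.snd (Cp.fst (Cp.fst (Cp.fst Cp.id))))) (Cp.snd Cp.id))
    · exact Sg.eq (Cp.seqv (Cp.snd (Cp.snd (Cp.fst Cp.id))) (Cp.fst (Cp.fst (Cp.fst Cp.id))))
        (Cp.snd (Cp.snd Cp.id))
  obtain ⟨G, hG, hG'⟩ := Cp.choice hR (fun a => by
    obtain ⟨v, hv⟩ := htot a.2 a.1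
    obtain ⟨w₁, h1, h2⟩ := exists_append a.2.1 a.1 v.1
    obtain ⟨w₂, h3, h4⟩ := exists_append a.2.2 a.1 v.2
    exact ⟨(w₁, w₂), v, hv, ⟨h1, h2⟩, ⟨h3, h4⟩⟩)
  obtain ⟨h, hh, _, hh'⟩ := exists_rec (𝒪 := 𝒪) (α := M) (β := M × M)
    (a := fun _ => ((0 : M), (0 : M))) (Cp.const _)
    (g := fun q : M × (M × (M × M)) => G q.2) (Cp.comp hG (Cp.snd Cp.id))
  have hH : Cp 𝒪 (fun n : M => h (0, n)) := Cp.comp hh (Cp.pair (Cp.const 0) Cp.id)
  have hstep : ∀ n, ∃ v : M × M, Φ (fun u => (seqv (h (0, n)).1 u, seqv (h (0, n)).2 u)) n v ∧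
      ((∀ i < n, seqv (h (0, n + 1)).1 i = seqv (h (0, n)).1 i) ∧ seqv (h (0, n + 1)).1 n = v.1) ∧
      ((∀ i < n, seqv (h (0, n + 1)).2 i = seqv (h (0, n)).2 i) ∧
        seqv (h (0, n + 1)).2 n = v.2) := by
    intro n
    have h1 := hG' (n, h (0, n))
    rw [hh' 0 n]
    exact h1
  have key : ∀ n, ∀ u < n, seqv (h (0, n)).1 u = seqv (h (0, u + 1)).1 u ∧
      seqv (h (0, n)).2 u = seqv (h (0, u + 1)).2 u := by
    have h1 : Sg 𝒪 (fun n : M => ∀ u < n, seqv (h (0, n)).1 u = seqv (h (0, u + 1)).1 u ∧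
      seqv (h (0, n)).2 u = seqv (h (0, u + 1)).2 u) := by
      refine Sg.ball (f := fun n : M => n) (P := fun q : M × M =>
        seqv (h (0, q.1)).1 q.2 = seqv (h (0, q.2 + 1)).1 q.2 ∧
        seqv (h (0, q.1)).2 q.2 = seqv (h (0, q.2 + 1)).2 q.2) Cp.id ?_
      have h2 : Cp 𝒪 (fun q : M × M => h (0, q.1)) :=
        Cp.comp (g := fun n : M => h (0, n)) hH (Cp.fst Cp.id)
      have h3 : Cp 𝒪 (fun q : M × M => h (0, q.2 + 1)) :=
        Cp.comp (g := fun n : M => h (0, n)) hH (Cp.add (Cp.snd Cp.id) (Cp.const 1))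
      exact Sg.and (Sg.eq (Cp.seqv (Cp.fst h2) (Cp.snd Cp.id)) (Cp.seqv (Cp.fst h3) (Cp.snd Cp.id)))
        (Sg.eq (Cp.seqv (Cp.snd h2) (Cp.snd Cp.id)) (Cp.seqv (Cp.snd h3) (Cp.snd Cp.id)))
    refine ind_sg h1 (fun u hu => absurd hu (not_lt_zero' u)) ?_
    intro n ih u hu
    rcases eq_or_lt_of_le (lt_succ_iff.1 hu) with h4 | h4
    · rw [h4]
      exact ⟨rfl, rfl⟩
    · obtain ⟨v, _, h5, h6⟩ := hstep n
      rw [h5.1 u h4, h6.1 u h4]
      exact ih u h4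
  refine ⟨fun u => (seqv (h (0, u + 1)).1 u, seqv (h (0, u + 1)).2 u), ?_, ?_⟩
  · have h3 : Cp 𝒪 (fun u : M => h (0, u + 1)) :=
      Cp.comp (g := fun n : M => h (0, n)) hH (Cp.add Cp.id (Cp.const 1))
    exact Cp.pair (Cp.seqv (Cp.fst h3) Cp.id) (Cp.seqv (Cp.snd h3) Cp.id)
  · intro s
    obtain ⟨v, hv, h5, h6⟩ := hstep s
    have h7 : ((seqv (h (0, s + 1)).1 s, seqv (h (0, s + 1)).2 s) : M × M) = v := by
      rw [h5.2, h6.2]
    show Φ (fun u => (seqv (h (0, u + 1)).1 u, seqv (h (0, u + 1)).2 u)) s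
      (seqv (h (0, s + 1)).1 s, seqv (h (0, s + 1)).2 s)
    rw [h7]
    refine hloc _ _ s v ?_ hv
    intro u hu
    have h8 := key s u hu
    exact Prod.ext h8.1 h8.2

end WI
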