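import Pool.Agent.Helper32.WI.DRun
import Pool.Agent.Helper32.WI.Arith
import Pool.Agent.Helper32.WI.Pow
import Pool.Agent.Helper32.WI.Bits
import Pool.Agent.Helper32.WI.Cod
import Pool.Agent.Helper32.WI.Seq
import Pool.Agent.Helper32.WI.NN
import Pool.Agent.Helper32.WI.UUf

/-! WI-H5: existence of runs. -/

set_option linter.unusedSectionVars false
set_option linter.unusedVariables false

universe u

namespace WI

open Enc

variable {M : Type u} [CommSemiring M] [LinearOrder M] [PAM M]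
variable {α β γ : Type u} [Enc M α] [Enc M β] [Enc M γ] {𝒪 : Set (Set M)}

/-- The coded function `k`. -/
noncomputable def Run_k (w : M × M) (u : M) : M := seqv w.1 u

/-- The coded function `A`. -/
noncomputable def Run_A (w : M × M) (u : M) : M := seqv w.2 u

variable [IS1 (∅ : Set (Set M))] {S : Set (Set M)} {C : M → M → M → M → M → Prop}
  {Q : M → M → M → M → Prop} {k A : M → M}

theorem Run_cpk {w : α → M × M} {u : α → M} (hw : Cp 𝒪 w) (hu : Cp 𝒪 u) :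
    Cp 𝒪 (fun a => Run_k (w a) (u a)) := Cp.seqv (Cp.fst hw) hu

theorem Run_cpA {w : α → M × M} {u : α → M} (hw : Cp 𝒪 w) (hu : Cp 𝒪 u) :
    Cp 𝒪 (fun a => Run_A (w a) (u a)) := Cp.seqv (Cp.snd hw) hu

theorem Run_comp {P : β → Prop} (hP : Dc (∅ : Set (Set M)) P) {f : α → β} (hf : Cp 𝒪 f) :
    Dc 𝒪 (fun a => P (f a)) :=
  ⟨(hP.1.mono (Set.empty_subset _)).comp hf, (hP.2.mono (Set.empty_subset _)).comp hf⟩

theorem Run_rc {w : α → M × M} {t s : α → M} (hw : Cp (∅ : Set (Set M)) w)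
    (ht : Cp (∅ : Set (Set M)) t) (hs : Cp (∅ : Set (Set M)) s) :
    Dc (∅ : Set (Set M)) (fun a => Rc (Run_k (w a)) (t a) (s a)) := by
  have h1 : Dc (∅ : Set (Set M)) (fun a : α => t a ≤ s a ∧ ∀ u < s a + 1,
      (t a < u → Run_k (w a) (t a) < Run_k (w a) u)) := by
    refine Dc.and (Dc.le ht hs) ?_
    refine Dc.ball (f := fun a => s a + 1)
      (P := fun q : α × M => t q.1 < q.2 → Run_k (w q.1) (t q.1) < Run_k (w q.1) q.2)
      (Cp.add hs (Cp.const 1)) ?_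
    have e1 : Cp (∅ : Set (Set M)) (fun q : α × M => t q.1) := Cp.comp ht (Cp.fst Cp.id)
    have e2 : Cp (∅ : Set (Set M)) (fun q : α × M => w q.1) := Cp.comp hw (Cp.fst Cp.id)
    have e3 : Cp (∅ : Set (Set M)) (fun q : α × M => q.2) := Cp.snd Cp.id
    exact Dc.imp (Dc.lt e1 e3) (Dc.lt (Run_cpk e2 e1) (Run_cpk e2 e3))
  refine h1.congr fun p => ?_
  unfold Rc
  refine and_congr Iff.rfl ?_
  constructor
  · intro h u hu hu'
    exact h u hu' (lt_succ_iff.1 hu)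
  · intro h u hu hu'
    exact h u (lt_succ_iff.2 hu') hu

theorem Run_aliveT (hC : IsFun S C) {w : α → M × M} {x t s : α → M}
    (hw : Cp (∅ : Set (Set M)) w) (hx : Cp (∅ : Set (Set M)) x)
    (ht : Cp (∅ : Set (Set M)) t) (hs : Cp (∅ : Set (Set M)) s) :
    Dc (∅ : Set (Set M)) (fun a => AliveT C (Run_k (w a)) (x a) (t a) (s a)) := by
  refine Dc.ball (f := t)
    (P := fun q : α × M => Rc (Run_k (w q.1)) q.2 (s q.1) →
      Light C (q.2 + 1) (md (x q.1) (pow2 (NN (q.2 + 1)))) (s q.1)) ht ?_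
  have e1 : Cp (∅ : Set (Set M)) (fun q : α × M => w q.1) := Cp.comp hw (Cp.fst Cp.id)
  have e2 : Cp (∅ : Set (Set M)) (fun q : α × M => s q.1) := Cp.comp hs (Cp.fst Cp.id)
  have e3 : Cp (∅ : Set (Set M)) (fun q : α × M => x q.1) := Cp.comp hx (Cp.fst Cp.id)
  have e4 : Cp (∅ : Set (Set M)) (fun q : α × M => q.2) := Cp.snd Cp.id
  have e5 : Cp (∅ : Set (Set M)) (fun q : α × M => q.2 + 1) := Cp.add e4 (Cp.const 1)
  exact Dc.imp (Run_rc e1 e4 e2) (Dc.light hC e5 (Cp.md e3 (Cp.pow2 (Cp.NN e5))) e2)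

theorem Run_astar (hC : IsFun S C) {w : α → M × M} {x s : α → M}
    (hw : Cp (∅ : Set (Set M)) w) (hx : Cp (∅ : Set (Set M)) x)
    (hs : Cp (∅ : Set (Set M)) s) :
    Dc (∅ : Set (Set M)) (fun a => Astar C (Run_k (w a)) (Run_A (w a)) (x a) (s a)) :=
  Dc.and (Dc.bit (Run_cpA hw hs) hx) (Run_aliveT hC hw hx hs hs)

theorem Run_move (hC : IsFun S C) {w : α → M × M} {s t B : α → M}
    (hw : Cp (∅ : Set (Set M)) w) (hs : Cp (∅ : Set (Set M)) s)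
    (ht : Cp (∅ : Set (Set M)) t) (hB : Cp (∅ : Set (Set M)) B) :
    Dc (∅ : Set (Set M)) (fun a => Move C (Run_k (w a)) (Run_A (w a)) (s a) (t a) (B a)) := by
  -- the four conditions with bounded quantifiers
  have d1 : Dc (∅ : Set (Set M)) (fun a : α => ∀ x < B a, Bit (B a) x → x < pow2 (NN (s a + 1))) := by
    refine Dc.ball (f := B) (P := fun q : α × M => Bit (B q.1) q.2 → q.2 < pow2 (NN (s q.1 + 1)))
      hB ?_
    have e1 : Cp (∅ : Set (Set M)) (fun q : α × M => B q.1) := Cp.comp hB (Cp.fst Cp.id)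
    have e2 : Cp (∅ : Set (Set M)) (fun q : α × M => s q.1) := Cp.comp hs (Cp.fst Cp.id)
    have e3 : Cp (∅ : Set (Set M)) (fun q : α × M => q.2) := Cp.snd Cp.id
    exact Dc.imp (Dc.bit e1 e3) (Dc.lt e3 (Cp.pow2 (Cp.NN (Cp.add e2 (Cp.const 1)))))
  have d2 : Dc (∅ : Set (Set M)) (fun a : α => ∀ x < B a, Bit (B a) x →
      Astar C (Run_k (w a)) (Run_A (w a)) (md x (pow2 (NN (s a)))) (s a)) := by
    refine Dc.ball (f := B) (P := fun q : α × M => Bit (B q.1) q.2 →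
      Astar C (Run_k (w q.1)) (Run_A (w q.1)) (md q.2 (pow2 (NN (s q.1)))) (s q.1)) hB ?_
    have e1 : Cp (∅ : Set (Set M)) (fun q : α × M => B q.1) := Cp.comp hB (Cp.fst Cp.id)
    have e2 : Cp (∅ : Set (Set M)) (fun q : α × M => s q.1) := Cp.comp hs (Cp.fst Cp.id)
    have e3 : Cp (∅ : Set (Set M)) (fun q : α × M => q.2) := Cp.snd Cp.id
    have e4 : Cp (∅ : Set (Set M)) (fun q : α × M => w q.1) := Cp.comp hw (Cp.fst Cp.id)
    exact Dc.imp (Dc.bit e1 e3) (Run_astar hC e4 (Cp.md e3 (Cp.pow2 (Cp.NN e2))) e2)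
  have d3 : Dc (∅ : Set (Set M)) (fun a : α => ∀ σ < Run_A (w a) (t a),
      Bit (Run_A (w a) (t a)) σ →
      (∃ x, x < Run_A (w a) (s a) ∧ (Astar C (Run_k (w a)) (Run_A (w a)) x (s a) ∧
        md x (pow2 (NN (t a))) = σ)) →
      ∃ x, x < B a ∧ ((Bit (B a) x ∧ md x (pow2 (NN (t a))) = σ) ∧
        ∀ y < B a, (Bit (B a) y ∧ md y (pow2 (NN (t a))) = σ) → y = x)) := by
    refine Dc.ball (f := fun a => Run_A (w a) (t a)) (P := fun q : α × M =>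
      Bit (Run_A (w q.1) (t q.1)) q.2 →
      (∃ x, x < Run_A (w q.1) (s q.1) ∧ (Astar C (Run_k (w q.1)) (Run_A (w q.1)) x (s q.1) ∧
        md x (pow2 (NN (t q.1))) = q.2)) →
      ∃ x, x < B q.1 ∧ ((Bit (B q.1) x ∧ md x (pow2 (NN (t q.1))) = q.2) ∧
        ∀ y < B q.1, (Bit (B q.1) y ∧ md y (pow2 (NN (t q.1))) = q.2) → y = x))
      (Run_cpA hw ht) ?_
    have e1 : Cp (∅ : Set (Set M)) (fun q : α × M => B q.1) := Cp.comp hB (Cp.fst Cp.id)
    have e2 : Cp (∅ : Set (Set M)) (fun q : α × M => s q.1) := Cp.comp hs (Cp.fst Cp.id)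
    have e3 : Cp (∅ : Set (Set M)) (fun q : α × M => q.2) := Cp.snd Cp.id
    have e4 : Cp (∅ : Set (Set M)) (fun q : α × M => w q.1) := Cp.comp hw (Cp.fst Cp.id)
    have e5 : Cp (∅ : Set (Set M)) (fun q : α × M => t q.1) := Cp.comp ht (Cp.fst Cp.id)
    refine Dc.imp (Dc.bit (Run_cpA e4 e5) e3) (Dc.imp ?_ ?_)
    · refine Dc.bex (f := fun q : α × M => Run_A (w q.1) (s q.1)) (P := fun r : (α × M) × M =>
        Astar C (Run_k (w r.1.1)) (Run_A (w r.1.1)) r.2 (s r.1.1) ∧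
          md r.2 (pow2 (NN (t r.1.1))) = r.1.2) (Run_cpA e4 e2) ?_
      have p1 : Cp (∅ : Set (Set M)) (fun r : (α × M) × M => r.1.1) := Cp.fst (Cp.fst Cp.id)
      have p2 : Cp (∅ : Set (Set M)) (fun r : (α × M) × M => r.2) := Cp.snd Cp.id
      have p3 : Cp (∅ : Set (Set M)) (fun r : (α × M) × M => r.1.2) := Cp.snd (Cp.fst Cp.id)
      exact Dc.and (Run_astar hC (Cp.comp hw p1) p2 (Cp.comp hs p1))
        (Dc.eq (Cp.md p2 (Cp.pow2 (Cp.NN (Cp.comp ht p1)))) p3)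
    · refine Dc.bex (f := fun q : α × M => B q.1) (P := fun r : (α × M) × M =>
        (Bit (B r.1.1) r.2 ∧ md r.2 (pow2 (NN (t r.1.1))) = r.1.2) ∧
        ∀ y < B r.1.1, (Bit (B r.1.1) y ∧ md y (pow2 (NN (t r.1.1))) = r.1.2) → y = r.2) e1 ?_
      have p1 : Cp (∅ : Set (Set M)) (fun r : (α × M) × M => r.1.1) := Cp.fst (Cp.fst Cp.id)
      have p2 : Cp (∅ : Set (Set M)) (fun r : (α × M) × M => r.2) := Cp.snd Cp.id
      have p3 : Cp (∅ : Set (Set M)) (fun r : (α × M) × M => r.1.2) := Cp.snd (Cp.fst Cp.id)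
      refine Dc.and (Dc.and (Dc.bit (Cp.comp hB p1) p2)
        (Dc.eq (Cp.md p2 (Cp.pow2 (Cp.NN (Cp.comp ht p1)))) p3)) ?_
      refine Dc.ball (f := fun r : (α × M) × M => B r.1.1) (P := fun z : ((α × M) × M) × M =>
        (Bit (B z.1.1.1) z.2 ∧ md z.2 (pow2 (NN (t z.1.1.1))) = z.1.1.2) → z.2 = z.1.2)
        (Cp.comp hB p1) ?_
      have q1 : Cp (∅ : Set (Set M)) (fun z : ((α × M) × M) × M => z.1.1.1) :=
        Cp.fst (Cp.fst (Cp.fst Cp.id))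
      have q2 : Cp (∅ : Set (Set M)) (fun z : ((α × M) × M) × M => z.2) := Cp.snd Cp.id
      have q3 : Cp (∅ : Set (Set M)) (fun z : ((α × M) × M) × M => z.1.1.2) :=
        Cp.snd (Cp.fst (Cp.fst Cp.id))
      have q4 : Cp (∅ : Set (Set M)) (fun z : ((α × M) × M) × M => z.1.2) :=
        Cp.snd (Cp.fst Cp.id)
      exact Dc.imp (Dc.and (Dc.bit (Cp.comp hB q1) q2)
        (Dc.eq (Cp.md q2 (Cp.pow2 (Cp.NN (Cp.comp ht q1)))) q3)) (Dc.eq q2 q4)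
  have d0 : Dc (∅ : Set (Set M)) (fun a : α => Rc (Run_k (w a)) (t a) (s a) ∧
      0 < Run_k (w a) (t a)) := Dc.and (Run_rc hw ht hs) (Dc.lt (Cp.const 0) (Run_cpk hw ht))
  refine (Dc.and d0 (Dc.and d1 (Dc.and d2 d3))).congr fun a => ?_
  constructor
  · intro h
    refine ⟨⟨h.rc, h.pos⟩, fun x _ hx => h.len x hx, fun x _ hx => h.v1 x hx, ?_⟩
    rintro σ _ hσ ⟨x, _, hx, hx'⟩
    obtain ⟨y, ⟨hy, hy'⟩, hy''⟩ := h.v2 σ hσ ⟨x, hx, hx'⟩
    exact ⟨y, lt_of_bit hy, ⟨hy, hy'⟩, fun z _ hz => hy'' z hz⟩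
  · rintro ⟨⟨h1, h2⟩, h3, h4, h5⟩
    refine ⟨h1, h2, fun x hx => h3 x (lt_of_bit hx) hx, fun x hx => h4 x (lt_of_bit hx) hx, ?_⟩
    rintro σ hσ ⟨x, hx, hx'⟩
    obtain ⟨y, _, hy, hy'⟩ := h5 σ (lt_of_bit hσ) hσ ⟨x, lt_of_bit hx.1, hx, hx'⟩
    exact ⟨y, hy, fun z hz => hy' z (lt_of_bit hz.1) hz⟩

theorem Run_qmove (hC : IsFun S C)
    (hQ : Dc (∅ : Set (Set M)) (fun p : M × (M × (M × M)) => Q p.1 p.2.1 p.2.2.1 p.2.2.2))
    {w : α → M × M} {s t B : α → M}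
    (hw : Cp (∅ : Set (Set M)) w) (hs : Cp (∅ : Set (Set M)) s)
    (ht : Cp (∅ : Set (Set M)) t) (hB : Cp (∅ : Set (Set M)) B) :
    Dc (∅ : Set (Set M)) (fun a => QMove C Q (Run_k (w a)) (Run_A (w a)) (s a) (t a) (B a)) := by
  refine Dc.and (Run_move hC hw hs ht hB) ?_
  refine Dc.ball (f := t) (P := fun q : α × M => Rc (Run_k (w q.1)) q.2 (s q.1) →
    Run_k (w q.1) q.2 + 1 = Run_k (w q.1) (t q.1) → Q (s q.1) (q.2 + 1) (t q.1) (B q.1)) ht ?_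
  have e1 : Cp (∅ : Set (Set M)) (fun q : α × M => B q.1) := Cp.comp hB (Cp.fst Cp.id)
  have e2 : Cp (∅ : Set (Set M)) (fun q : α × M => s q.1) := Cp.comp hs (Cp.fst Cp.id)
  have e3 : Cp (∅ : Set (Set M)) (fun q : α × M => q.2) := Cp.snd Cp.id
  have e4 : Cp (∅ : Set (Set M)) (fun q : α × M => w q.1) := Cp.comp hw (Cp.fst Cp.id)
  have e5 : Cp (∅ : Set (Set M)) (fun q : α × M => t q.1) := Cp.comp ht (Cp.fst Cp.id)
  refine Dc.imp (Run_rc e4 e3 e2) (Dc.imp (Dc.eq (Cp.add (Run_cpk e4 e3) (Cp.const 1))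
    (Run_cpk e4 e5)) ?_)
  exact Dc.comp (P := fun p : M × (M × (M × M)) => Q p.1 p.2.1 p.2.2.1 p.2.2.2) hQ
    (f := fun q : α × M => (s q.1, (q.2 + 1, (t q.1, B q.1))))
    (Cp.pair e2 (Cp.pair (Cp.add e3 (Cp.const 1)) (Cp.pair e5 e1)))

/-! ### Locality -/

theorem Run_rc_loc {k k' : M → M} {s t : M} (h : ∀ u ≤ s, k u = k' u) (hr : Rc k t s) :
    Rc k' t s := by
  refine ⟨hr.1, fun u hu hu' => ?_⟩
  rw [← h t hr.1, ← h u hu']
  exact hr.2 u hu hu'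

theorem Run_aliveT_loc {k k' : M → M} {x s t : M} (h : ∀ u ≤ s, k u = k' u)
    (ha : AliveT C k x t s) : AliveT C k' x t s := by
  intro t' ht' hr
  exact ha t' ht' (Run_rc_loc (fun u hu => (h u hu).symm) hr)

theorem Run_astar_loc {k k' A A' : M → M} {x s : M} (h : ∀ u ≤ s, k u = k' u)
    (h' : ∀ u ≤ s, A u = A' u) (ha : Astar C k A x s) : Astar C k' A' x s := by
  refine ⟨?_, Run_aliveT_loc h ha.2⟩
  rw [← h' s le_rfl]
  exact ha.1

theorem Run_move_loc {k k' A A' : M → M} {s t B : M} (h : ∀ u ≤ s, k u = k' u)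
    (h' : ∀ u ≤ s, A u = A' u) (hm : Move C k A s t B) : Move C k' A' s t B := by
  refine ⟨Run_rc_loc h hm.rc, ?_, hm.len, fun x hx => Run_astar_loc h h' (hm.v1 x hx), ?_⟩
  · rw [← h t hm.rc.1]
    exact hm.pos
  · rintro σ hσ ⟨x, hx, hx'⟩
    rw [← h' t hm.rc.1] at hσ
    exact hm.v2 σ hσ ⟨x, Run_astar_loc (fun u hu => (h u hu).symm) (fun u hu => (h' u hu).symm) hx,
      hx'⟩

theorem Run_qmove_loc {k k' A A' : M → M} {s t B : M} (h : ∀ u ≤ s, k u = k' u)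
    (h' : ∀ u ≤ s, A u = A' u) (hm : QMove C Q k A s t B) : QMove C Q k' A' s t B := by
  refine ⟨Run_move_loc h h' hm.1, fun t' ht' hr hk => ?_⟩
  have h1 : t ≤ s := hm.1.rc.1
  refine hm.2 t' ht' (Run_rc_loc (fun u hu => (h u hu).symm) hr) ?_
  rw [h t' (ht'.le.trans h1), h t h1]
  exact hk

/-! ### The step relation -/

/-- The move alternative. -/
def Run_mv (C : M → M → M → M → M → Prop) (Q : M → M → M → M → Prop) (k A : M → M) (s : M)
    (v : M × M) : Prop :=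
  ∃ t, t < s + 1 ∧ (v.1 = k t ∧ QMove C Q k A s t v.2 ∧ ∀ t' < s + 1,
    ∀ B' < pow2 (pow2 (NN (s + 1))), QMove C Q k A s t' B' → k t ≤ k t')

/-- The creation alternative. -/
def Run_cr (C : M → M → M → M → M → Prop) (Q : M → M → M → M → Prop) (k A : M → M) (s : M)
    (v : M × M) : Prop :=
  (∀ t' < s + 1, ∀ B' < pow2 (pow2 (NN (s + 1))), ¬ QMove C Q k A s t' B') ∧
    (v.1 = k s + 1 ∧ v.2 < pow2 (pow2 (NN (s + 1))) ∧ ∀ x < pow2 (NN (s + 1)),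
      (Bit v.2 x ↔ Astar C k A (md x (pow2 (NN s))) s))

/-- The relation for course-of-values recursion. -/
def Run_Phi (C : M → M → M → M → M → Prop) (Q : M → M → M → M → Prop) (f : M → M × M) (s : M)
    (v : M × M) : Prop :=
  (s = 0 ∧ v = (0, 1)) ∨ ∃ s', s' < s ∧ (s = s' + 1 ∧
    (Run_mv C Q (fun u => (f u).1) (fun u => (f u).2) s' v ∨
      Run_cr C Q (fun u => (f u).1) (fun u => (f u).2) s' v))

theorem Run_mv_loc {k k' A A' : M → M} {s : M} {v : M × M} (h : ∀ u ≤ s, k u = k' u)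
    (h' : ∀ u ≤ s, A u = A' u) (hm : Run_mv C Q k A s v) : Run_mv C Q k' A' s v := by
  obtain ⟨t, ht, hv, hq, hl⟩ := hm
  have ht' : t ≤ s := lt_succ_iff.1 ht
  refine ⟨t, ht, ?_, Run_qmove_loc h h' hq, fun t' ht1 B' hB' hq' => ?_⟩
  · rw [hv, h t ht']
  · have h1 := hl t' ht1 B' hB' (Run_qmove_loc (fun u hu => (h u hu).symm)
      (fun u hu => (h' u hu).symm) hq')
    rw [h t ht', h t' (lt_succ_iff.1 ht1)] at h1
    exact h1

theorem Run_cr_loc {k k' A A' : M → M} {s : M} {v : M × M} (h : ∀ u ≤ s, k u = k' u)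
    (h' : ∀ u ≤ s, A u = A' u) (hm : Run_cr C Q k A s v) : Run_cr C Q k' A' s v := by
  obtain ⟨h1, h2, h3, h4⟩ := hm
  refine ⟨fun t' ht' B' hB' hq => h1 t' ht' B' hB' (Run_qmove_loc (fun u hu => (h u hu).symm)
    (fun u hu => (h' u hu).symm) hq), ?_, h3, fun x hx => (h4 x hx).trans ?_⟩
  · rw [h2, h s le_rfl]
  · exact ⟨fun ha => Run_astar_loc h h' ha, fun ha => Run_astar_loc (fun u hu => (h u hu).symm)
      (fun u hu => (h' u hu).symm) ha⟩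

theorem Run_Phi_loc (f f' : M → M × M) (s : M) (v : M × M) (h : ∀ u < s, f u = f' u)
    (hp : Run_Phi C Q f s v) : Run_Phi C Q f' s v := by
  rcases hp with hp | ⟨s', hs', rfl, hp⟩
  · exact Or.inl hp
  · have h1 : ∀ u ≤ s', (fun u => (f u).1) u = (fun u => (f' u).1) u := fun u hu => by
      show (f u).1 = (f' u).1
      rw [h u (lt_succ_iff.2 hu)]
    have h2 : ∀ u ≤ s', (fun u => (f u).2) u = (fun u => (f' u).2) u := fun u hu => by
      show (f u).2 = (f' u).2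
      rw [h u (lt_succ_iff.2 hu)]
    refine Or.inr ⟨s', hs', rfl, ?_⟩
    rcases hp with hp | hp
    · exact Or.inl (Run_mv_loc h1 h2 hp)
    · exact Or.inr (Run_cr_loc h1 h2 hp)

theorem Run_dc_mv (hC : IsFun S C)
    (hQ : Dc (∅ : Set (Set M)) (fun p : M × (M × (M × M)) => Q p.1 p.2.1 p.2.2.1 p.2.2.2))
    {w v : α → M × M} {s : α → M}
    (hw : Cp (∅ : Set (Set M)) w) (hs : Cp (∅ : Set (Set M)) s) (hv : Cp (∅ : Set (Set M)) v) :
    Dc (∅ : Set (Set M)) (fun a => Run_mv C Q (Run_k (w a)) (Run_A (w a)) (s a) (v a)) := by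
  have hs1 : Cp (∅ : Set (Set M)) (fun a => s a + 1) := Cp.add hs (Cp.const 1)
  refine Dc.bex (f := fun a => s a + 1) (P := fun q : α × M => (v q.1).1 = Run_k (w q.1) q.2 ∧
    QMove C Q (Run_k (w q.1)) (Run_A (w q.1)) (s q.1) q.2 (v q.1).2 ∧ ∀ t' < s q.1 + 1,
    ∀ B' < pow2 (pow2 (NN (s q.1 + 1))), QMove C Q (Run_k (w q.1)) (Run_A (w q.1)) (s q.1) t' B' →
      Run_k (w q.1) q.2 ≤ Run_k (w q.1) t') hs1 ?_
  have p1 : Cp (∅ : Set (Set M)) (fun q : α × M => q.1) := Cp.fst Cp.id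
  have p2 : Cp (∅ : Set (Set M)) (fun q : α × M => q.2) := Cp.snd Cp.id
  have pw := Cp.comp hw p1
  have pv := Cp.comp hv p1
  have ps := Cp.comp hs p1
  refine Dc.and (Dc.eq (Cp.fst pv) (Run_cpk pw p2)) (Dc.and (Run_qmove hC hQ pw ps p2
    (Cp.snd pv)) ?_)
  refine Dc.ball (f := fun q : α × M => s q.1 + 1) (P := fun r : (α × M) × M =>
    ∀ B' < pow2 (pow2 (NN (s r.1.1 + 1))), QMove C Q (Run_k (w r.1.1)) (Run_A (w r.1.1))
      (s r.1.1) r.2 B' → Run_k (w r.1.1) r.1.2 ≤ Run_k (w r.1.1) r.2) (Cp.comp hs1 p1) ?_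
  have r1 : Cp (∅ : Set (Set M)) (fun r : (α × M) × M => r.1.1) := Cp.fst (Cp.fst Cp.id)
  refine Dc.ball (f := fun r : (α × M) × M => pow2 (pow2 (NN (s r.1.1 + 1))))
    (P := fun z : ((α × M) × M) × M => QMove C Q (Run_k (w z.1.1.1)) (Run_A (w z.1.1.1))
      (s z.1.1.1) z.1.2 z.2 → Run_k (w z.1.1.1) z.1.1.2 ≤ Run_k (w z.1.1.1) z.1.2)
    (Cp.pow2 (Cp.pow2 (Cp.NN (Cp.comp hs1 r1)))) ?_
  have z1 : Cp (∅ : Set (Set M)) (fun z : ((α × M) × M) × M => z.1.1.1) :=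
    Cp.fst (Cp.fst (Cp.fst Cp.id))
  have z2 : Cp (∅ : Set (Set M)) (fun z : ((α × M) × M) × M => z.2) := Cp.snd Cp.id
  have z3 : Cp (∅ : Set (Set M)) (fun z : ((α × M) × M) × M => z.1.1.2) :=
    Cp.snd (Cp.fst (Cp.fst Cp.id))
  have z4 : Cp (∅ : Set (Set M)) (fun z : ((α × M) × M) × M => z.1.2) := Cp.snd (Cp.fst Cp.id)
  exact Dc.imp (Run_qmove hC hQ (Cp.comp hw z1) (Cp.comp hs z1) z4 z2)
    (Dc.le (Run_cpk (Cp.comp hw z1) z3) (Run_cpk (Cp.comp hw z1) z4))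

theorem Run_dc_cr (hC : IsFun S C)
    (hQ : Dc (∅ : Set (Set M)) (fun p : M × (M × (M × M)) => Q p.1 p.2.1 p.2.2.1 p.2.2.2))
    {w v : α → M × M} {s : α → M}
    (hw : Cp (∅ : Set (Set M)) w) (hs : Cp (∅ : Set (Set M)) s) (hv : Cp (∅ : Set (Set M)) v) :
    Dc (∅ : Set (Set M)) (fun a => Run_cr C Q (Run_k (w a)) (Run_A (w a)) (s a) (v a)) := by
  have hs1 : Cp (∅ : Set (Set M)) (fun a => s a + 1) := Cp.add hs (Cp.const 1)
  have p1 : Cp (∅ : Set (Set M)) (fun q : α × M => q.1) := Cp.fst Cp.id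
  have p2 : Cp (∅ : Set (Set M)) (fun q : α × M => q.2) := Cp.snd Cp.id
  refine Dc.and ?_ (Dc.and ?_ (Dc.and ?_ ?_))
  · refine Dc.ball (f := fun a : α => s a + 1) (P := fun q : α × M =>
      ∀ B' < pow2 (pow2 (NN (s q.1 + 1))), ¬ QMove C Q (Run_k (w q.1)) (Run_A (w q.1))
        (s q.1) q.2 B') hs1 ?_
    refine Dc.ball (f := fun q : α × M => pow2 (pow2 (NN (s q.1 + 1))))
      (P := fun z : (α × M) × M => ¬ QMove C Q (Run_k (w z.1.1)) (Run_A (w z.1.1))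
        (s z.1.1) z.1.2 z.2)
      (Cp.pow2 (Cp.pow2 (Cp.NN (Cp.comp hs1 p1)))) ?_
    have z1 : Cp (∅ : Set (Set M)) (fun z : (α × M) × M => z.1.1) := Cp.fst (Cp.fst Cp.id)
    have z2 : Cp (∅ : Set (Set M)) (fun z : (α × M) × M => z.2) := Cp.snd Cp.id
    have z3 : Cp (∅ : Set (Set M)) (fun z : (α × M) × M => z.1.2) := Cp.snd (Cp.fst Cp.id)
    exact Dc.not (Run_qmove hC hQ (Cp.comp hw z1) (Cp.comp hs z1) z3 z2)
  · exact Dc.eq (Cp.fst hv) (Cp.add (Run_cpk hw hs) (Cp.const 1))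
  · exact Dc.lt (Cp.snd hv) (Cp.pow2 (Cp.pow2 (Cp.NN hs1)))
  · refine Dc.ball (f := fun a : α => pow2 (NN (s a + 1))) (P := fun q : α × M =>
      (Bit (v q.1).2 q.2 ↔ Astar C (Run_k (w q.1)) (Run_A (w q.1))
        (md q.2 (pow2 (NN (s q.1)))) (s q.1))) (Cp.pow2 (Cp.NN hs1)) ?_
    exact Dc.iff (Dc.bit (Cp.snd (Cp.comp hv p1)) p2) (Run_astar hC (Cp.comp hw p1)
      (Cp.md p2 (Cp.pow2 (Cp.NN (Cp.comp hs p1)))) (Cp.comp hs p1))

theorem Run_dc_Phi (hC : IsFun S C)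
    (hQ : Dc (∅ : Set (Set M)) (fun p : M × (M × (M × M)) => Q p.1 p.2.1 p.2.2.1 p.2.2.2)) :
    Dc (∅ : Set (Set M)) (fun p : (M × M) × (M × (M × M)) =>
      Run_Phi C Q (fun u => (seqv p.1.1 u, seqv p.1.2 u)) p.2.1 p.2.2) := by
  have w0 : Cp (∅ : Set (Set M)) (fun p : (M × M) × (M × (M × M)) => p.1) := Cp.fst Cp.id
  have s0 : Cp (∅ : Set (Set M)) (fun p : (M × M) × (M × (M × M)) => p.2.1) :=
    Cp.fst (Cp.snd Cp.id)
  have v0 : Cp (∅ : Set (Set M)) (fun p : (M × M) × (M × (M × M)) => p.2.2) :=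
    Cp.snd (Cp.snd Cp.id)
  refine Dc.or (Dc.and (Dc.eq s0 (Cp.const 0)) (Dc.eq v0 (Cp.const (0, 1)))) ?_
  refine Dc.bex (f := fun p : (M × M) × (M × (M × M)) => p.2.1)
    (P := fun q : ((M × M) × (M × (M × M))) × M => q.1.2.1 = q.2 + 1 ∧
      (Run_mv C Q (Run_k q.1.1) (Run_A q.1.1) q.2 q.1.2.2 ∨
        Run_cr C Q (Run_k q.1.1) (Run_A q.1.1) q.2 q.1.2.2)) s0 ?_
  have w1 : Cp (∅ : Set (Set M)) (fun q : ((M × M) × (M × (M × M))) × M => q.1.1) :=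
    Cp.fst (Cp.fst Cp.id)
  have s1 : Cp (∅ : Set (Set M)) (fun q : ((M × M) × (M × (M × M))) × M => q.1.2.1) :=
    Cp.fst (Cp.snd (Cp.fst Cp.id))
  have v1 : Cp (∅ : Set (Set M)) (fun q : ((M × M) × (M × (M × M))) × M => q.1.2.2) :=
    Cp.snd (Cp.snd (Cp.fst Cp.id))
  have p2 : Cp (∅ : Set (Set M)) (fun q : ((M × M) × (M × (M × M))) × M => q.2) := Cp.snd Cp.id
  exact Dc.and (Dc.eq s1 (Cp.add p2 (Cp.const 1)))
    (Dc.or (Run_dc_mv hC hQ w1 p2 v1) (Run_dc_cr hC hQ w1 p2 v1))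

theorem Run_lt_of_move {s t B : M} (h : Move C k A s t B) : B < pow2 (pow2 (NN (s + 1))) :=
  lt_pow2_iff.2 fun i hi => h.len i hi

theorem Run_total (hC : IsFun S C)
    (hQ : Dc (∅ : Set (Set M)) (fun p : M × (M × (M × M)) => Q p.1 p.2.1 p.2.2.1 p.2.2.2))
    (w : M × M) (s : M) : ∃ v, Run_Phi C Q (fun u => (seqv w.1 u, seqv w.2 u)) s v := by
  rcases eq_zero_or_succ s with rfl | ⟨s', rfl⟩
  · exact ⟨(0, 1), Or.inl ⟨rfl, rfl⟩⟩
  · by_cases hm : ∃ t B, QMove C Q (Run_k w) (Run_A w) s' t B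
    · -- the least level with a move
      have h1 : Dc (∅ : Set (Set M)) (fun n : M => ∃ t, t < s' + 1 ∧
          ∃ B, B < pow2 (pow2 (NN (s' + 1))) ∧ (Run_k w t = n ∧
            QMove C Q (Run_k w) (Run_A w) s' t B)) := by
        refine Dc.bex (f := fun _ : M => s' + 1) (P := fun q : M × M =>
          ∃ B, B < pow2 (pow2 (NN (s' + 1))) ∧ (Run_k w q.2 = q.1 ∧
            QMove C Q (Run_k w) (Run_A w) s' q.2 B)) (Cp.const _) ?_
        refine Dc.bex (f := fun _ : M × M => pow2 (pow2 (NN (s' + 1))))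
          (P := fun r : (M × M) × M => Run_k w r.1.2 = r.1.1 ∧
            QMove C Q (Run_k w) (Run_A w) s' r.1.2 r.2) (Cp.const _) ?_
        have r1 : Cp (∅ : Set (Set M)) (fun r : (M × M) × M => r.1.1) := Cp.fst (Cp.fst Cp.id)
        have r2 : Cp (∅ : Set (Set M)) (fun r : (M × M) × M => r.1.2) := Cp.snd (Cp.fst Cp.id)
        have r3 : Cp (∅ : Set (Set M)) (fun r : (M × M) × M => r.2) := Cp.snd Cp.id
        exact Dc.and (Dc.eq (Run_cpk (Cp.const w) r2) r1)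
          (Run_qmove hC hQ (Cp.const w) (Cp.const s') r2 r3)
      have h2 : ∃ n : M, ∃ t, t < s' + 1 ∧ ∃ B, B < pow2 (pow2 (NN (s' + 1))) ∧
          (Run_k w t = n ∧ QMove C Q (Run_k w) (Run_A w) s' t B) := by
        obtain ⟨t, B, h⟩ := hm
        exact ⟨Run_k w t, t, lt_succ_iff.2 h.1.rc.1, B, Run_lt_of_move h.1, rfl, h⟩
      obtain ⟨n, ⟨t, ht, B, hB, hn, hq⟩, hl⟩ := least_sg h1.1 h2
      refine ⟨(n, B), Or.inr ⟨s', lt_succ_iff.2 le_rfl, rfl, Or.inl ⟨t, ht, hn.symm, hq, ?_⟩⟩⟩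
      intro t' ht' B' hB' hq'
      by_contra hlt
      rw [not_le] at hlt
      have hlt' : Run_k w t' < n := by
        rw [← hn]
        exact hlt
      exact hl _ hlt' ⟨t', ht', B', hB', rfl, hq'⟩
    · push Not at hm
      have h1 : Dc (∅ : Set (Set M)) (fun x : M =>
          Astar C (Run_k w) (Run_A w) (md x (pow2 (NN s'))) s') :=
        Run_astar hC (Cp.const w) (Cp.md Cp.id (Cp.const _)) (Cp.const s')
      refine ⟨(Run_k w s' + 1, cod (fun x => Astar C (Run_k w) (Run_A w) (md x (pow2 (NN s'))) s')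
        (pow2 (NN (s' + 1)))), Or.inr ⟨s', lt_succ_iff.2 le_rfl, rfl, Or.inr
        ⟨fun t' _ B' _ => hm t' B', rfl, cod_lt _ _, fun x hx => ?_⟩⟩⟩
      show Bit (cod _ _) x ↔ _
      rw [bit_cod h1.1]
      exact ⟨fun h => h.2, fun h => ⟨hx, h⟩⟩

theorem exists_run (hC : IsFun S C)
    (hQ : Dc (∅ : Set (Set M)) (fun p : M × (M × (M × M)) => Q p.1 p.2.1 p.2.2.1 p.2.2.2)) :
    ∃ k A : M → M, IsRun C Q k A := by
  obtain ⟨f, hf, hf'⟩ := exists_cov (𝒪 := (∅ : Set (Set M))) (Φ := Run_Phi C Q)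
    Run_Phi_loc (Run_dc_Phi hC hQ) (Run_total hC hQ)
  have h0 : f 0 = (0, 1) := by
    rcases hf' 0 with ⟨_, h⟩ | ⟨s', hs', _⟩
    · exact h
    · exact absurd hs' (not_lt_zero' _)
  have hs : ∀ s, Run_mv C Q (fun u => (f u).1) (fun u => (f u).2) s (f (s + 1)) ∨
      Run_cr C Q (fun u => (f u).1) (fun u => (f u).2) s (f (s + 1)) := by
    intro s
    rcases hf' (s + 1) with ⟨h, _⟩ | ⟨s', _, h1, h2⟩
    · exact absurd h (lt_of_lt_of_le zero_lt_one le_add_self).ne'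
    · have h3 : s = s' := add_right_cancel h1
      subst h3
      exact h2
  refine ⟨fun u => (f u).1, fun u => (f u).2, ?_, ?_, ?_, ?_, Cp.fst hf, Cp.snd hf⟩
  · show (f 0).1 = 0
    rw [h0]
  · intro x
    show Bit (f 0).2 x ↔ x = 0
    rw [h0]
    exact bit_one x
  · intro s
    rcases hs s with ⟨t, _, h1, h2, _⟩ | ⟨_, h1, h2, h3⟩
    · exact Or.inl ⟨t, h1, h2⟩
    · refine Or.inr ⟨h1, fun x => ⟨fun hx => ?_, fun hx => (h3 x hx.1).2 hx.2⟩⟩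
      have hx' : x < pow2 (NN (s + 1)) := lt_of_bit_of_lt h2 hx
      exact ⟨hx', (h3 x hx').1 hx⟩
  · intro s t B hq
    have ht : t < s + 1 := lt_succ_iff.2 hq.1.rc.1
    have hB := Run_lt_of_move hq.1
    rcases hs s with ⟨t₀, _, h1, _, h3⟩ | ⟨h1, _⟩
    · show (f (s + 1)).1 ≤ _
      rw [h1]
      exact h3 t ht B hB hq
    · exact absurd hq (h1 t ht B hB)

end WI
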