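import Pool.Agent.Helper32.WI.Arith
import Pool.Agent.Helper32.WI.Reduc
import Pool.Agent.Helper32.WI.Choice
import Pool.Agent.Helper32.WI.Pow
import Pool.Agent.Helper32.WI.Bits
import Pool.Agent.Helper32.WI.Cod
import Pool.Agent.Helper32.WI.NN
import Pool.Agent.Helper32.WI.DcRun
import Pool.Agent.Helper32.WI.RcFacts
import Pool.Agent.Helper32.WI.Blocks
import Pool.Agent.Helper32.WI.MoveEx
import Pool.Agent.Helper32.WI.FryA

/-! WI-R14: Lemma 4, the tame approximation. -/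

set_option linter.unusedSectionVars false
set_option linter.unusedVariables false

universe u

namespace WI

open Enc

variable {M : Type u} [CommSemiring M] [LinearOrder M] [PAM M]
variable {α β γ : Type u} [Enc M α] [Enc M β] [Enc M γ] {𝒪 : Set (Set M)}

variable [IS1 (∅ : Set (Set M))] {S : Set (Set M)} {C : M → M → M → M → M → Prop}
  {Q : M → M → M → M → Prop} {k A : M → M}

/-- Computations from initial segments of `Y` persist. -/
private theorem TameA_mono (hC : IsFun S C) {Y : Set M} [IS1 ({Y} : Set (Set M))] {e n n' m y : M}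
    (h : C e n (res Y n) m y) (hn : n ≤ n') : C e n' (res Y n') m y :=
  hC.mono h hn (res_lt Y n') (md_res hn)

/-- Extensions of the strings of the final records do not disagree. -/
private theorem TameA_noinc (hC : IsFun S C) (hr : IsRun C (QA C) k A) {X Y₀ Y₁ : Set M}
    [IS1 ({Y₀} : Set (Set M))] [IS1 ({Y₁} : Set (Set M))] (h0 : 0 ∉ Y₀) (h1 : 0 ∈ Y₁)
    {e i t t' : M} (he : ∀ m, ∃ n, C e n (res Y₀ n) m (res X m))
    (hi : ∀ m, ∃ n, C i n (res Y₁ n) m (res X m)) (het : e ≤ t) (hit : i ≤ t) (htt : t < t')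
    (hft : Final k t) (hk : k t' = k t + 1) (hft' : Final k t') {s x x' : M} (hs : t' ≤ s)
    (hx : x < pow2 (NN (s + 1))) (hx' : x' < pow2 (NN (s + 1)))
    (hax : Astar C k A (md x (pow2 (NN s))) s) (hax' : Astar C k A (md x' (pow2 (NN s))) s)
    (hxσ : md x (pow2 (NN t')) = res Y₀ (NN t')) (hxσ' : md x' (pow2 (NN t')) = res Y₁ (NN t')) :
    ¬ Inc C e i (NN (s + 1)) x x' := by
  intro hinc
  have ht'pos : 0 < t' := lt_of_le_of_lt (zero_le (a := t)) htt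
  have hNpos : 0 < NN t' := NN_pos ht'pos
  have hbx : ¬ Bit x 0 := by
    intro hb
    have h2 : Bit (md x (pow2 (NN t'))) 0 := (bit_md x (NN t') 0).2 ⟨hb, hNpos⟩
    rw [hxσ] at h2
    exact h0 ((bit_res (Y := Y₀) (NN t') 0).1 h2).2
  have hbx' : Bit x' 0 := by
    have h2 : Bit (res Y₁ (NN t')) 0 := (bit_res (Y := Y₁) (NN t') 0).2 ⟨hNpos, h1⟩
    rw [← hxσ'] at h2
    exact ((bit_md x' (NN t') 0).1 h2).1
  have hne : md x (pow2 (NN t')) = md x' (pow2 (NN t')) → x = x' := by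
    intro heq
    exfalso
    have h2 : Bit (md x' (pow2 (NN t'))) 0 := (bit_md x' (NN t') 0).2 ⟨hbx', hNpos⟩
    rw [← heq] at h2
    exact hbx ((bit_md x (NN t') 0).1 h2).1
  have hpos : 0 < k t' := by
    rw [hk]
    exact lt_of_le_of_lt (zero_le (a := k t)) (lt_succ_iff.2 le_rfl)
  obtain ⟨B, hB, hBx, hBx'⟩ := exists_move hC hr (hft'.rc hs) hpos hx hx' hax hax' hne
  have hnoinc : ¬ Inc C e i (NN t') (md x (pow2 (NN t'))) (md x' (pow2 (NN t'))) := by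
    rw [hxσ, hxσ']
    rintro ⟨m, hm, y, hy, y', hy', hyy, hc, hc'⟩
    obtain ⟨n₁, hn₁⟩ := he m
    obtain ⟨n₂, hn₂⟩ := hi m
    have e1 : y = res X m :=
      hC.uniq (TameA_mono hC hc (le_max_right n₁ (NN t'))) (TameA_mono hC hn₁ (le_max_left n₁ (NN t')))
    have e2 : y' = res X m :=
      hC.uniq (TameA_mono hC hc' (le_max_right n₂ (NN t'))) (TameA_mono hC hn₂ (le_max_left n₂ (NN t')))
    exact hyy (e1.trans e2.symm)
  refine no_move hr hft' hs (B := B) ⟨hB, ?_⟩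
  intro t'' ht'' hrc hk''
  have hk3 : k t'' = k t := by
    rw [hk] at hk''
    exact add_right_cancel hk''
  have ht3 : t'' = t := rc_inj hrc (hft.rc (htt.le.trans hs)) hk3
  subst ht3
  exact ⟨e, lt_succ_iff.2 het, i, lt_succ_iff.2 hit, x, hx, x', hx', hBx, hBx', hbx, hbx', hinc,
    hnoinc⟩

/-- The approximating strings. -/
private def TameA_G (C : M → M → M → M → M → Prop) (k A : M → M) (e t' σ s n y : M) : Prop :=
  n ≤ s ∧ y < pow2 n ∧ ∃ x, x < pow2 (NN (s + 1)) ∧ (Astar C k A (md x (pow2 (NN s))) s ∧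
    md x (pow2 (NN t')) = σ ∧ C e (NN (s + 1)) x n y)

private theorem TameA_dcG (hC : IsFun S C) (hk : Cp (∅ : Set (Set M)) k)
    (hA : Cp (∅ : Set (Set M)) A) (e t' σ : M) {s n y : α → M} (hs : Cp (∅ : Set (Set M)) s)
    (hn : Cp (∅ : Set (Set M)) n) (hy : Cp (∅ : Set (Set M)) y) :
    Dc (∅ : Set (Set M)) (fun a => TameA_G C k A e t' σ (s a) (n a) (y a)) := by
  refine Dc.and (Dc.le hn hs) (Dc.and (Dc.lt hy (Cp.pow2 hn)) ?_)
  refine Dc.bex (f := fun a => pow2 (NN (s a + 1)))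
    (P := fun p : α × M => Astar C k A (md p.2 (pow2 (NN (s p.1)))) (s p.1) ∧
      md p.2 (pow2 (NN t')) = σ ∧ C e (NN (s p.1 + 1)) p.2 (n p.1) (y p.1))
    (Cp.pow2 (Cp.NN (Cp.add hs (Cp.const 1)))) ?_
  have hs1 : Cp (∅ : Set (Set M)) (fun p : α × M => s p.1) := Cp.comp hs (Cp.fst Cp.id)
  have hn1 : Cp (∅ : Set (Set M)) (fun p : α × M => n p.1) := Cp.comp hn (Cp.fst Cp.id)
  have hy1 : Cp (∅ : Set (Set M)) (fun p : α × M => y p.1) := Cp.comp hy (Cp.fst Cp.id)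
  have hx1 : Cp (∅ : Set (Set M)) (fun p : α × M => p.2) := Cp.snd Cp.id
  refine Dc.and ?_ (Dc.and ?_ ?_)
  · exact Dc.astar hC hk hA (Cp.md hx1 (Cp.pow2 (Cp.NN hs1))) hs1
  · exact Dc.eq (Cp.md hx1 (Cp.const (pow2 (NN t')))) (Cp.const σ)
  · exact hC.dcC (Cp.const e) (Cp.NN (Cp.add hs1 (Cp.const 1))) hx1 hn1 hy1

theorem exists_tame (hS : RCA0 S) (hC : IsFun S C) (hr : IsRun C (QA C) k A) {X Y₀ Y₁ : Set M}
    (hX : X ∈ S) (hY₀ : Y₀ ∈ S) (hY₁ : Y₁ ∈ S) (hP₀ : InP A Y₀) (hP₁ : InP A Y₁) (h0 : 0 ∉ Y₀)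
    (h1 : 0 ∈ Y₁) (hX₀ : TuringLE X Y₀) (hX₁ : TuringLE X Y₁) : ∃ l y, Tame X l y := by
  have i0 : IS1 ({Y₀} : Set (Set M)) := hS.is1 (by simpa using hY₀)
  have i1 : IS1 ({Y₁} : Set (Set M)) := hS.is1 (by simpa using hY₁)
  obtain ⟨e, he⟩ := hC.of_le hY₀ hX hX₀
  obtain ⟨i, hi⟩ := hC.of_le hY₁ hX hX₁
  obtain ⟨t, t', hmt, htt, hft, hk, hft'⟩ := blocks hr (fry_QA hC hr) (max e i)
  have het : e ≤ t := (le_max_left e i).trans hmt
  have hit : i ≤ t := (le_max_right e i).trans hmt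
  -- abbreviation for the members extending the string of `Y₀`
  have hdG : Dc (∅ : Set (Set M)) (fun p : M × (M × M) =>
      TameA_G C k A e t' (res Y₀ (NN t')) p.1 p.2.1 p.2.2) :=
    TameA_dcG hC hr.cpk hr.cpA e t' (res Y₀ (NN t')) (Cp.fst Cp.id) (Cp.fst (Cp.snd Cp.id))
      (Cp.snd (Cp.snd Cp.id))
  have hdE : Dc (∅ : Set (Set M)) (fun p : M × M => ∃ y, y < pow2 p.2 ∧
      TameA_G C k A e t' (res Y₀ (NN t')) p.1 p.2 y) := by
    refine Dc.bex (f := fun p : M × M => pow2 p.2)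
      (P := fun q : (M × M) × M => TameA_G C k A e t' (res Y₀ (NN t')) q.1.1 q.1.2 q.2)
      (Cp.pow2 (Cp.snd Cp.id)) ?_
    exact TameA_dcG hC hr.cpk hr.cpA e t' (res Y₀ (NN t')) (Cp.fst (Cp.fst Cp.id))
      (Cp.snd (Cp.fst Cp.id)) (Cp.snd Cp.id)
  have hdP : Dc (∅ : Set (Set M)) (fun p : M × (M × M) =>
      (TameA_G C k A e t' (res Y₀ (NN t')) p.1 p.2.1 p.2.2 ∧
        ∀ n' < p.1 + 1, p.2.1 < n' → ¬ ∃ y, y < pow2 n' ∧
          TameA_G C k A e t' (res Y₀ (NN t')) p.1 n' y) ∨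
      ((∀ n' < p.1 + 1, ¬ ∃ y, y < pow2 n' ∧ TameA_G C k A e t' (res Y₀ (NN t')) p.1 n' y) ∧
        p.2.1 = 0 ∧ p.2.2 = 0)) := by
    refine Dc.or (Dc.and hdG ?_) (Dc.and ?_ (Dc.and ?_ ?_))
    · refine Dc.ball (f := fun p : M × (M × M) => p.1 + 1)
        (P := fun q : (M × (M × M)) × M => q.1.2.1 < q.2 → ¬ ∃ y, y < pow2 q.2 ∧
          TameA_G C k A e t' (res Y₀ (NN t')) q.1.1 q.2 y)
        (Cp.add (Cp.fst Cp.id) (Cp.const 1)) ?_
      refine Dc.imp (Dc.lt (Cp.fst (Cp.snd (Cp.fst Cp.id))) (Cp.snd Cp.id)) (Dc.not ?_)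
      exact Dc.comp (P := fun p : M × M => ∃ y, y < pow2 p.2 ∧
        TameA_G C k A e t' (res Y₀ (NN t')) p.1 p.2 y) hdE
        (f := fun q : (M × (M × M)) × M => (q.1.1, q.2))
        (Cp.pair (Cp.fst (Cp.fst Cp.id)) (Cp.snd Cp.id))
    · refine Dc.ball (f := fun p : M × (M × M) => p.1 + 1)
        (P := fun q : (M × (M × M)) × M => ¬ ∃ y, y < pow2 q.2 ∧
          TameA_G C k A e t' (res Y₀ (NN t')) q.1.1 q.2 y)
        (Cp.add (Cp.fst Cp.id) (Cp.const 1)) (Dc.not ?_)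
      exact Dc.comp (P := fun p : M × M => ∃ y, y < pow2 p.2 ∧
        TameA_G C k A e t' (res Y₀ (NN t')) p.1 p.2 y) hdE
        (f := fun q : (M × (M × M)) × M => (q.1.1, q.2))
        (Cp.pair (Cp.fst (Cp.fst Cp.id)) (Cp.snd Cp.id))
    · exact Dc.eq (Cp.fst (Cp.snd Cp.id)) (Cp.const 0)
    · exact Dc.eq (Cp.snd (Cp.snd Cp.id)) (Cp.const 0)
  have hex : ∀ s : M, ∃ b : M × M,
      (TameA_G C k A e t' (res Y₀ (NN t')) s b.1 b.2 ∧
        ∀ n' < s + 1, b.1 < n' → ¬ ∃ y, y < pow2 n' ∧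
          TameA_G C k A e t' (res Y₀ (NN t')) s n' y) ∨
      ((∀ n' < s + 1, ¬ ∃ y, y < pow2 n' ∧ TameA_G C k A e t' (res Y₀ (NN t')) s n' y) ∧
        b.1 = 0 ∧ b.2 = 0) := by
    intro s
    by_cases hE : ∃ n ≤ s, ∃ y, y < pow2 n ∧ TameA_G C k A e t' (res Y₀ (NN t')) s n y
    · have hd : Dc (∅ : Set (Set M)) (fun n : M => ∃ y, y < pow2 n ∧
          TameA_G C k A e t' (res Y₀ (NN t')) s n y) :=
        Dc.comp (P := fun p : M × M => ∃ y, y < pow2 p.2 ∧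
          TameA_G C k A e t' (res Y₀ (NN t')) p.1 p.2 y) hdE
          (f := fun n : M => (s, n)) (Cp.pair (Cp.const s) Cp.id)
      obtain ⟨n, hn, ⟨y, hy, hG⟩, hmax⟩ := bmax hd hE
      exact ⟨(n, y), Or.inl ⟨hG, fun n' hn' hnn' => hmax n' hnn' (lt_succ_iff.1 hn')⟩⟩
    · refine ⟨(0, 0), Or.inr ⟨fun n' hn' hy => hE ⟨n', lt_succ_iff.1 hn', hy⟩, rfl, rfl⟩⟩
  obtain ⟨f, hf, hfP⟩ := Cp.choice hdP.1 hex
  refine ⟨fun s => (f s).1, fun s => (f s).2, Cp.fst hf, Cp.snd hf, ?_⟩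
  intro n
  obtain ⟨n₁, hn₁⟩ := he n
  obtain ⟨n₂, hn₂⟩ := hi n
  refine ⟨max (max t' n) (max n₁ n₂), fun s hs => ?_⟩
  have hst : t' ≤ s := ((le_max_left t' n).trans (le_max_left _ _)).trans hs
  have hsn : n ≤ s := ((le_max_right t' n).trans (le_max_left _ _)).trans hs
  have hsN : s ≤ NN (s + 1) := (lt_succ_iff.2 (le_refl s)).le.trans (le_NN (s + 1))
  have hs1 : n₁ ≤ NN (s + 1) := (((le_max_left n₁ n₂).trans (le_max_right _ _)).trans hs).trans hsN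
  have hs2 : n₂ ≤ NN (s + 1) := (((le_max_right n₁ n₂).trans (le_max_right _ _)).trans hs).trans hsN
  have hc1 : C e (NN (s + 1)) (res Y₀ (NN (s + 1))) n (res X n) := TameA_mono hC hn₁ hs1
  have hc2 : C i (NN (s + 1)) (res Y₁ (NN (s + 1))) n (res X n) := TameA_mono hC hn₂ hs2
  have hss : s ≤ s + 1 := (lt_succ_iff.2 (le_refl s)).le
  have hG0 : ∃ y, y < pow2 n ∧ TameA_G C k A e t' (res Y₀ (NN t')) s n y := by
    refine ⟨res X n, res_lt X n, hsn, res_lt X n, res Y₀ (NN (s + 1)), res_lt _ _, ?_, ?_, hc1⟩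
    · rw [md_res (NN_le hss)]
      exact hP₀.astar hC hr s
    · exact md_res (NN_le (hst.trans hss))
  rcases hfP s with ⟨hG, hmax⟩ | ⟨hno, _⟩
  · have hnl : n ≤ (f s).1 := by
      by_contra hlt
      rw [not_le] at hlt
      exact hmax n (lt_succ_iff.2 hsn) hlt hG0
    refine ⟨hnl, ?_⟩
    obtain ⟨_, _, x, hx, hax, hxσ, hcx⟩ := hG
    by_contra hne
    refine TameA_noinc hC hr h0 h1 he hi het hit htt hft hk hft' hst hx (res_lt Y₁ (NN (s + 1)))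
      hax ?_ hxσ (md_res (NN_le (hst.trans hss))) ?_
    · rw [md_res (NN_le hss)]
      exact hP₁.astar hC hr s
    · refine ⟨n, hsn.trans hsN, md (f s).2 (pow2 n), md_pow2_lt _ _, res X n, res_lt X n, hne, ?_, hc2⟩
      exact hC.res hcx hnl
  · exact absurd hG0 (hno n (lt_succ_iff.2 hsn))

end WI
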