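import Pool.Agent.Helper32.WI.Reduc
import Pool.Agent.Helper32.WI.Func
import Pool.Agent.Helper32.WI.DcRun
import Pool.Agent.Helper32.WI.Run
import Pool.Agent.Helper32.WI.Path
import Pool.Agent.Helper32.WI.Lem3
import Pool.Agent.Helper32.WI.FryA
import Pool.Agent.Helper32.WI.TameA
import Pool.Agent.Helper32.WI.FryB
import Pool.Agent.Helper32.WI.NoComp

/-! WI: the main theorem. -/

universe u

namespace WI

variable {M : Type u} [CommSemiring M] [LinearOrder M] [PAM M]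

theorem main_theorem (S : Set (Set M)) (hS : WKL0 S) (X : Set M) (hX : X ∈ S)
    (hnc : ¬ TuringLE X ∅) : ∃ Y ∈ S, ¬ TuringLE X Y ∧ ¬ TuringLE Y X := by
  by_contra hcon
  push Not at hcon
  have : IS1 (∅ : Set (Set M)) := hS.toRCA0.is1 (Set.empty_subset S)
  obtain ⟨C, hC⟩ := exists_functional hS.toRCA0
  -- every member of a finitary run's class computes `X`
  have key : ∀ (Q : M → M → M → M → Prop) (k A : M → M), IsRun C Q k A → Fry k →
      ∀ Y ∈ S, InP A Y → TuringLE X Y := by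
    intro Q k A hr hf Y hY hP
    by_contra hXY
    have hYX := hcon Y hY hXY
    obtain ⟨R, hR, h1, h2⟩ := lemma3 hS hC hr hf hX hY hP hYX
    exact h1 (hcon R hR h2)
  -- first run
  obtain ⟨kA, A, hA⟩ := exists_run hC (Dc.QA hC)
  have hfA := fry_QA hC hA
  obtain ⟨Y₀, hY₀, hP₀, h0⟩ := exists_path hS hC hA False
  obtain ⟨Y₁, hY₁, hP₁, h1⟩ := exists_path hS hC hA True
  obtain ⟨l, y, hT⟩ := exists_tame hS.toRCA0 hC hA hX hY₀ hY₁ hP₀ hP₁ (fun h => h0.1 h)
    (h1.2 trivial) (key _ _ _ hA hfA Y₀ hY₀ hP₀) (key _ _ _ hA hfA Y₁ hY₁ hP₁)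
  -- second run
  obtain ⟨kB, B, hB⟩ := exists_run hC (Dc.QB hC hT.cpl hT.cpy)
  have hfB := fry_QB hS.toRCA0 hC hX hnc hT hB
  obtain ⟨Y, hY, hP, _⟩ := exists_path hS hC hB True
  exact no_comp hS.toRCA0 hC hX hT hB hfB hY hP (key _ _ _ hB hfB Y hY hP)

end WI
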