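import Pool.Agent.Helper32.WI.DRun
import Pool.Agent.Helper32.WI.Arith
import Pool.Agent.Helper32.WI.Pow
import Pool.Agent.Helper32.WI.Bits
import Pool.Agent.Helper32.WI.Cnt
import Pool.Agent.Helper32.WI.Cnt2
import Pool.Agent.Helper32.WI.UUf
import Pool.Agent.Helper32.WI.DcRun

/-! WI-R10: counting removed strings (Lemma 3). -/

set_option linter.unusedSectionVars false
set_option linter.unusedVariables false

universe u

namespace WI

open Enc

variable {M : Type u} [CommSemiring M] [LinearOrder M] [PAM M]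
variable {α β γ : Type u} [Enc M α] [Enc M β] [Enc M γ] {𝒪 : Set (Set M)}

variable [IS1 (∅ : Set (Set M))] {S : Set (Set M)} {C : M → M → M → M → M → Prop}
  {Q : M → M → M → M → Prop} {k A : M → M}

theorem cnt_Rm1 (hS : RCA0 S) (hC : IsFun S C) {Y : Set M} (hY : Y ∈ S) {b : M} (hb : 0 < b) (s : M) :
    cnt (fun r => Rm1 C Y b r s) (pow2 s) * pow2 (b + 3) ≤ pow2 s := by
  have hL : Dc (∅ : Set (Set M)) (fun t : M => Light C b (res Y (NN b)) t) :=
    Dc.light hC (Cp.const b) (Cp.const _) Cp.id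
  obtain ⟨t, hts, hlt, htmax⟩ := bmax hL (s := s) ⟨0, zero_le, light_zero hC hb _⟩
  have hP : Dc (∅ : Set (Set M)) (fun r : M => ∃ e < b, C e t r (NN b) (res Y (NN b))) := by
    refine Dc.bex (f := fun _ : M => b)
      (P := fun p : M × M => C p.2 t p.1 (NN b) (res Y (NN b))) (Cp.const b) ?_
    exact hC.dcC (Cp.snd Cp.id) (Cp.const _) (Cp.fst Cp.id) (Cp.const _) (Cp.const _)
  have hP' : Dc (∅ : Set (Set M)) (fun r : M => ∃ e < b, C e t (md r (pow2 t)) (NN b)
      (res Y (NN b))) :=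
    Dc.comp (P := fun r : M => ∃ e < b, C e t r (NN b) (res Y (NN b))) hP
      (f := fun r => md r (pow2 t)) (Cp.md Cp.id (Cp.const _))
  have hR : Dc (∅ : Set (Set M)) (fun r : M => Rm1 C Y b r s) := by
    refine Dc.bex (f := fun _ : M => s + 1)
      (P := fun p : M × M => Light C b (res Y (NN b)) p.2 ∧
        ∃ e < b, C e p.2 (md p.1 (pow2 p.2)) (NN b) (res Y (NN b))) (Cp.const _) ?_
    refine Dc.and (Dc.comp (P := fun t : M => Light C b (res Y (NN b)) t) hL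
      (f := fun p : M × M => p.2) (Cp.snd Cp.id)) ?_
    refine Dc.bex (f := fun _ : M × M => b)
      (P := fun q : (M × M) × M => C q.2 q.1.2 (md q.1.1 (pow2 q.1.2)) (NN b) (res Y (NN b)))
      (Cp.const b) ?_
    exact hC.dcC (Cp.snd Cp.id) (Cp.snd (Cp.fst Cp.id))
      (Cp.md (Cp.fst (Cp.fst Cp.id)) (Cp.pow2 (Cp.snd (Cp.fst Cp.id)))) (Cp.const _) (Cp.const _)
  have h1 : cnt (fun r => Rm1 C Y b r s) (pow2 s) ≤
      cnt (fun r => ∃ e < b, C e t (md r (pow2 t)) (NN b) (res Y (NN b))) (pow2 s) := by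
    refine cnt_mono hR hP' fun r _ h => ?_
    obtain ⟨t', ht', hl', e, he, hCe⟩ := h
    have htt : t' ≤ t := by
      by_contra hcon
      exact htmax t' (not_le.1 hcon) (lt_succ_iff.1 ht') hl'
    exact ⟨e, he, hC.mono hCe htt (md_pow2_lt _ _) (md_md_pow2 _ htt)⟩
  obtain ⟨d, rfl⟩ := exists_add_of_le hts
  have h2 : cnt (fun r => ∃ e < b, C e t (md r (pow2 t)) (NN b) (res Y (NN b))) (pow2 (t + d)) =
      cnt (fun r => ∃ e < b, C e t r (NN b) (res Y (NN b))) (pow2 t) * pow2 d := by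
    rw [pow2_add]
    exact cnt_per hP (pow2_pos t) (pow2 d)
  have h3 := UU_cnt hC b (NN b) (res Y (NN b)) t
  have h4 : UU C b (NN b) (res Y (NN b)) t * pow2 (b + 3) ≤ pow2 t := hlt
  calc cnt (fun r => Rm1 C Y b r (t + d)) (pow2 (t + d)) * pow2 (b + 3)
      ≤ (UU C b (NN b) (res Y (NN b)) t * pow2 d) * pow2 (b + 3) :=
        mul_le_mul' (h1.trans (h2.le.trans (mul_le_mul' h3 le_rfl))) le_rfl
    _ = (UU C b (NN b) (res Y (NN b)) t * pow2 (b + 3)) * pow2 d := by ring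
    _ ≤ pow2 t * pow2 d := mul_le_mul' h4 le_rfl
    _ = pow2 (t + d) := (pow2_add _ _).symm

theorem cnt_Rm2 (hS : RCA0 S) (hC : IsFun S C) {X : Set M} (hX : X ∈ S) (e : M) {s : M}
    (hs : e + 2 ≤ s) : cnt (fun r => Rm2 C X e r s) (pow2 s) * pow2 (e + 2) ≤ pow2 s := by
  have hP : Dc (∅ : Set (Set M)) (fun r : M => C e s (res X s) (e + 2) r) :=
    hC.dcC (Cp.const _) (Cp.const _) (Cp.const _) (Cp.const _) Cp.id
  obtain ⟨d, hd⟩ := exists_add_of_le hs
  have h1 : cnt (fun r => Rm2 C X e r s) (pow2 s) =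
      cnt (fun r => C e s (res X s) (e + 2) r) (pow2 (e + 2)) * pow2 d := by
    have h2 := cnt_per hP (pow2_pos (e + 2)) (pow2 d)
    rw [← pow2_add, ← hd] at h2
    exact h2
  have h3 : cnt (fun r => C e s (res X s) (e + 2) r) (pow2 (e + 2)) ≤ 1 :=
    cnt_le_one hP fun i _ j _ hi hj => hC.uniq hi hj
  rw [h1]
  calc cnt (fun r => C e s (res X s) (e + 2) r) (pow2 (e + 2)) * pow2 d * pow2 (e + 2)
      ≤ 1 * pow2 d * pow2 (e + 2) := mul_le_mul' (mul_le_mul' h3 le_rfl) le_rfl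
    _ = pow2 (e + 2) * pow2 d := by ring
    _ = pow2 s := by rw [← pow2_add, ← hd]

end WI
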