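import Pool.Agent.Helper32.WI.Defs

/-! WI: closure properties of `Σ⁰₁` predicates and computable functions. -/

set_option linter.unusedSectionVars false
set_option linter.unusedVariables false

universe u

namespace WI

variable {M : Type u} [CommSemiring M] [LinearOrder M]

theorem Tm.subst {n : ℕ} {t : (Fin n → M) → M} (ht : Tm t) :
    ∀ {m : ℕ} (τ : Fin n → (Fin m → M) → M), (∀ i, Tm (τ i)) → Tm (fun w => t (fun i => τ i w)) := by
  induction ht with
  | var i => intro m τ hτ; exact hτ i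
  | const c => intro m τ hτ; exact Tm.const c
  | add _ _ h1 h2 => intro m τ hτ; exact Tm.add (h1 τ hτ) (h2 τ hτ)
  | mul _ _ h1 h2 => intro m τ hτ; exact Tm.mul (h1 τ hτ) (h2 τ hτ)

theorem Bdd.mono {S S' : Set (Set M)} (h : S ⊆ S') {n : ℕ} {P : (Fin n → M) → Prop}
    (hP : Bdd S P) : Bdd S' P := by
  induction hP with
  | eq hs ht => exact Bdd.eq hs ht
  | lt hs ht => exact Bdd.lt hs ht
  | mem ht hX => exact Bdd.mem ht (h hX)
  | not _ ih => exact Bdd.not ih
  | and _ _ ih1 ih2 => exact Bdd.and ih1 ih2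
  | ball ht _ ih => exact Bdd.ball ht ih

theorem Bdd.subst {S : Set (Set M)} {n : ℕ} {P : (Fin n → M) → Prop} (hP : Bdd S P) :
    ∀ {m : ℕ} (τ : Fin n → (Fin m → M) → M), (∀ i, Tm (τ i)) →
      Bdd S (fun w => P (fun i => τ i w)) := by
  induction hP with
  | eq hs ht => intro m τ hτ; exact Bdd.eq (hs.subst τ hτ) (ht.subst τ hτ)
  | lt hs ht => intro m τ hτ; exact Bdd.lt (hs.subst τ hτ) (ht.subst τ hτ)
  | mem ht hX => intro m τ hτ; exact Bdd.mem (ht.subst τ hτ) hX
  | not _ ih => intro m τ hτ; exact Bdd.not (ih τ hτ)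
  | and _ _ ih1 ih2 => intro m τ hτ; exact Bdd.and (ih1 τ hτ) (ih2 τ hτ)
  | @ball n t ht P _ ih =>
    intro m τ hτ
    have h1 := ih (m := m + 1)
      (Fin.cons (fun w => w 0) (fun i w => τ i (Fin.tail w)) :
        Fin (n + 1) → (Fin (m + 1) → M) → M) (by
        intro i
        refine Fin.cases ?_ ?_ i
        · exact Tm.var 0
        · intro j
          exact (hτ j).subst (fun k w => w k.succ) (fun k => Tm.var k.succ))
    have h2 := Bdd.ball (ht.subst τ hτ) h1
    have h3 : (fun w : Fin m → M => ∀ y, y < t (fun i => τ i w) →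
        P (fun i => (Fin.cons (fun w => w 0) (fun i w => τ i (Fin.tail w)) :
          Fin (n + 1) → (Fin (m + 1) → M) → M) i (Fin.cons y w))) =
        (fun w => ∀ y, y < t (fun i => τ i w) → P (Fin.cons y (fun i => τ i w))) := by
      funext w
      apply propext
      refine forall_congr' fun y => ?_
      have h4 : (fun i => (Fin.cons (fun w => w 0) (fun i w => τ i (Fin.tail w)) :
          Fin (n + 1) → (Fin (m + 1) → M) → M) i (Fin.cons y w)) =
          (Fin.cons y (fun i => τ i w) : Fin (n + 1) → M) := by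
        funext i
        refine Fin.cases ?_ ?_ i
        · rfl
        · intro j
          rfl
      rw [h4]
    rw [h3] at h2
    exact h2

section Bdd

variable {S : Set (Set M)} {n : ℕ}

theorem Bdd.congr {P Q : (Fin n → M) → Prop} (h : Bdd S P) (h1 : ∀ v, Q v ↔ P v) : Bdd S Q := by
  have : Q = P := funext fun v => propext (h1 v)
  rw [this]
  exact h

theorem Bdd.or {P Q : (Fin n → M) → Prop} (hP : Bdd S P) (hQ : Bdd S Q) :
    Bdd S (fun v => P v ∨ Q v) :=
  (Bdd.not (Bdd.and (Bdd.not hP) (Bdd.not hQ))).congr fun v => by tauto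

theorem Bdd.imp {P Q : (Fin n → M) → Prop} (hP : Bdd S P) (hQ : Bdd S Q) :
    Bdd S (fun v => P v → Q v) :=
  (Bdd.or (Bdd.not hP) hQ).congr fun v => by tauto

theorem Bdd.iff {P Q : (Fin n → M) → Prop} (hP : Bdd S P) (hQ : Bdd S Q) :
    Bdd S (fun v => P v ↔ Q v) :=
  (Bdd.and (Bdd.imp hP hQ) (Bdd.imp hQ hP)).congr fun v => by tauto

theorem Bdd.bex {t : (Fin n → M) → M} (ht : Tm t) {P : (Fin (n + 1) → M) → Prop} (h : Bdd S P) :
    Bdd S (fun v => ∃ y, y < t v ∧ P (Fin.cons y v)) :=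
  (Bdd.not (Bdd.ball ht (Bdd.not h))).congr fun v => by
    constructor
    · rintro ⟨y, h1, h2⟩ h3
      exact h3 y h1 h2
    · intro h1
      by_contra h2
      exact h1 fun y hy h3 => h2 ⟨y, hy, h3⟩

theorem Bdd.le {s t : (Fin n → M) → M} (hs : Tm s) (ht : Tm t) : Bdd S (fun v => s v ≤ t v) :=
  (Bdd.not (Bdd.lt ht hs)).congr fun v => not_lt.symm

theorem Bdd.tru : Bdd S (fun _ : Fin n → M => True) :=
  (Bdd.eq (Tm.const 0) (Tm.const 0)).congr fun v => by simp

theorem Bdd.fls : Bdd S (fun _ : Fin n → M => False) :=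
  (Bdd.not (Bdd.tru)).congr fun v => by simp

theorem Bdd.sub1 {R : (Fin 1 → M) → Prop} (hR : Bdd S R) {s : (Fin n → M) → M} (hs : Tm s) :
    Bdd S (fun w => R ![s w]) := by
  have h := hR.subst (m := n) ![s] (by
    intro i
    have : i = 0 := Subsingleton.elim _ _
    subst this
    exact hs)
  refine h.congr fun w => ?_
  have : (fun i => (![s] : Fin 1 → (Fin n → M) → M) i w) = ![s w] := by
    funext i
    have : i = 0 := Subsingleton.elim _ _
    subst this
    rfl
  rw [this]

theorem Bdd.sub2 {R : (Fin 2 → M) → Prop} (hR : Bdd S R) {s t : (Fin n → M) → M} (hs : Tm s)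
    (ht : Tm t) : Bdd S (fun w => R ![s w, t w]) := by
  have h := hR.subst (m := n) ![s, t] (by
    intro i
    fin_cases i
    · exact hs
    · exact ht)
  refine h.congr fun w => ?_
  have : (fun i => (![s, t] : Fin 2 → (Fin n → M) → M) i w) = ![s w, t w] := by
    funext i
    fin_cases i <;> rfl
  rw [this]

end Bdd

/-! ### Basic order facts -/

variable [PAM M]

theorem lt_iff_succ_le {a b : M} : a < b ↔ a + 1 ≤ b := by
  constructor
  · intro h
    obtain ⟨c, rfl⟩ := exists_add_of_le h.le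
    have hc : 0 < c := by
      rcases eq_or_lt_of_le (zero_le (a := c)) with h1 | h1
      · subst h1
        simp at h
      · exact h1
    have := PAM.one_le_of_pos c hc
    gcongr
  · intro h
    exact lt_of_lt_of_le (lt_add_of_pos_right a zero_lt_one) h

theorem lt_succ_iff {a b : M} : a < b + 1 ↔ a ≤ b := by
  rw [lt_iff_succ_le]
  constructor
  · intro h
    exact le_of_add_le_add_right h
  · intro h
    gcongr

theorem le_mul_self (a : M) : a ≤ a * a := by
  rcases eq_or_lt_of_le (zero_le (a := a)) with h | h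
  · rw [← h]
    simp
  · have := PAM.one_le_of_pos a h
    exact le_mul_of_one_le_left h.le this

/-- The pairing function. -/
def pair (x y : M) : M := (x + y) * (x + y) + x

theorem left_le_pair (x y : M) : x ≤ pair x y := le_add_self

theorem right_le_pair (x y : M) : y ≤ pair x y :=
  calc y ≤ x + y := le_add_self
    _ ≤ (x + y) * (x + y) := le_mul_self _
    _ ≤ pair x y := le_self_add

theorem pair_lt_sq (x y : M) : pair x y < (x + y + 1) * (x + y + 1) := by
  unfold pair
  have h1 : (x + y + 1) * (x + y + 1) = (x + y) * (x + y) + x + (x + y + y + 1) := by ring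
  rw [h1]
  exact lt_add_of_pos_right _ (lt_of_lt_of_le zero_lt_one le_add_self)

theorem pair_inj {x y x' y' : M} (h : pair x y = pair x' y') : x = x' ∧ y = y' := by
  have key : ∀ {x y x' y' : M}, x + y < x' + y' → pair x y < pair x' y' := by
    intro x y x' y' h1
    have h2 : x + y + 1 ≤ x' + y' := lt_iff_succ_le.1 h1
    calc pair x y < (x + y + 1) * (x + y + 1) := pair_lt_sq x y
      _ ≤ (x' + y') * (x' + y') := mul_le_mul' h2 h2
      _ ≤ pair x' y' := le_self_add
  have h1 : x + y = x' + y' := by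
    rcases lt_trichotomy (x + y) (x' + y') with h1 | h1 | h1
    · exact absurd h (key h1).ne
    · exact h1
    · exact absurd h (key h1).ne'
  unfold pair at h
  rw [h1] at h
  have h2 : x = x' := add_left_cancel h
  subst h2
  exact ⟨rfl, add_left_cancel h1⟩

/-- Types of finite objects coded by numbers. -/
class Enc (M : outParam (Type u)) [CommSemiring M] [LinearOrder M] (α : Type u) where
  enc : α → M
  inj : Function.Injective enc
  rng : Bdd (∅ : Set (Set M)) (fun v : Fin 1 → M => ∃ a, enc a = v 0)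

open Enc

instance Enc.self : Enc M M where
  enc := id
  inj := Function.injective_id
  rng := Bdd.tru.congr fun v => by simp

theorem pair_tm {n : ℕ} {s t : (Fin n → M) → M} (hs : Tm s) (ht : Tm t) :
    Tm (fun v => pair (s v) (t v)) :=
  Tm.add (Tm.mul (Tm.add hs ht) (Tm.add hs ht)) hs

instance Enc.prod {α β : Type u} [Enc M α] [Enc M β] : Enc M (α × β) where
  enc p := pair (enc p.1) (enc p.2)
  inj := by
    rintro ⟨a, b⟩ ⟨a', b'⟩ h
    have h' : pair (enc a) (enc b) = pair (enc a') (enc b') := h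
    obtain ⟨h1, h2⟩ := pair_inj h'
    rw [inj h1, inj h2]
  rng := by
    have h1 : Bdd (∅ : Set (Set M)) (fun v : Fin 1 → M => ∃ x, x < v 0 + 1 ∧
        (∃ y, y < (Fin.cons x v : Fin 2 → M) 1 + 1 ∧
          ((∃ a : α, enc a = x) ∧ (∃ b : β, enc b = y) ∧ v 0 = pair x y))) := by
      refine Bdd.bex (t := fun v => v 0 + 1) (Tm.add (Tm.var 0) (Tm.const 1))
        (P := fun w : Fin 2 → M => ∃ y, y < w 1 + 1 ∧
          ((∃ a : α, enc a = w 0) ∧ (∃ b : β, enc b = y) ∧ w 1 = pair (w 0) y)) ?_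
      refine Bdd.bex (t := fun v => v 1 + 1) (Tm.add (Tm.var 1) (Tm.const 1))
        (P := fun w : Fin 3 → M =>
          ((∃ a : α, enc a = w 1) ∧ (∃ b : β, enc b = w 0) ∧ w 2 = pair (w 1) (w 0))) ?_
      refine Bdd.and ?_ (Bdd.and ?_ ?_)
      · exact (Enc.rng (α := α)).sub1 (Tm.var 1)
      · exact (Enc.rng (α := β)).sub1 (Tm.var 0)
      · exact Bdd.eq (Tm.var 2) (pair_tm (Tm.var 1) (Tm.var 0))
    refine h1.congr fun v => ?_
    constructor
    · rintro ⟨⟨a, b⟩, h⟩
      have h' : pair (enc a) (enc b) = v 0 := h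
      refine ⟨enc a, ?_, enc b, ?_, ⟨a, rfl⟩, ⟨b, rfl⟩, h'.symm⟩
      · rw [lt_succ_iff, ← h']
        exact left_le_pair _ _
      · rw [lt_succ_iff]
        show _ ≤ v 0
        rw [← h']
        exact right_le_pair _ _
    · rintro ⟨x, _, y, _, ⟨a, rfl⟩, ⟨b, rfl⟩, h⟩
      exact ⟨(a, b), h.symm⟩

/-- `Σ⁰₁` predicates (number parameters, set parameters from `𝒪`). -/
def Sg (𝒪 : Set (Set M)) {α : Type u} [Enc M α] (P : α → Prop) : Prop :=
  ∃ R : (Fin 2 → M) → Prop, Bdd 𝒪 R ∧ ∀ a, P a ↔ ∃ y, R ![y, enc a]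

/-- Decidable (`Δ⁰₁`) predicates. -/
def Dc (𝒪 : Set (Set M)) {α : Type u} [Enc M α] (P : α → Prop) : Prop :=
  Sg 𝒪 P ∧ Sg 𝒪 (fun a => ¬ P a)

/-- Computable functions. -/
def Cp (𝒪 : Set (Set M)) {α β : Type u} [Enc M α] [Enc M β] (f : α → β) : Prop :=
  Sg 𝒪 (fun p : α × β => p.2 = f p.1)

/-- `Σ⁰₁(𝒪)`-induction. -/
class IS1 (𝒪 : Set (Set M)) : Prop where
  ind : ∀ P : (Fin 2 → M) → Prop, Bdd 𝒪 P → (∃ y, P ![y, 0]) →
    (∀ x, (∃ y, P ![y, x]) → ∃ y, P ![y, x + 1]) → ∀ x, ∃ y, P ![y, x]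

end WI
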